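import Pool.Agent.K9h96.LS.Stm
import Pool.Agent.N303.LS.Fin
import Pool.Agent.TH280.LS.K1
set_option autoImplicit false

/-!
# Coordinates `(y, x)`, partial Fourier transforms and Plancherel in `y` (helper99)
-/

open MeasureTheory Set
open scoped ENNReal FourierTransform RealInnerProductSpace SchwartzMap

namespace Pool.Agent.K9h96.LS.LOC

open Pool.Agent.TH280.LS (e ft ra Zc Zc_apply Zc_mp norm_e e_add continuous_e measurable_e
  plancherel)
open Pool.Agent.N303.LS (E inv sym sym_le sym_meas sym_int)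

/-- `(y, x) ↦ jn y x` -/
noncomputable def J (m : ℕ) : E m × ℝ ≃ᵐ E (m + 1) :=
  (((MeasurableEquiv.toLp 2 (Fin m → ℝ)).symm.prodCongr (MeasurableEquiv.refl ℝ)).trans
    MeasurableEquiv.prodComm).trans (Zc m).symm

lemma jn_last {m : ℕ} (y : E m) (x : ℝ) : jn y x (Fin.last m) = x := by
  show Fin.snoc (α := fun _ => ℝ) (fun i => y i) x (Fin.last m) = x
  rw [Fin.snoc_last]

lemma jn_castSucc {m : ℕ} (y : E m) (x : ℝ) (i : Fin m) : jn y x i.castSucc = y i := by
  show Fin.snoc (α := fun _ => ℝ) (fun i => y i) x i.castSucc = y i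
  rw [Fin.snoc_castSucc]

lemma J_apply {m : ℕ} (q : E m × ℝ) : J m q = jn q.1 q.2 := by
  apply (Zc m).injective
  have h : Zc m (J m q) = (q.2, fun i => q.1 i) := by
    unfold J
    rw [MeasurableEquiv.trans_apply, MeasurableEquiv.apply_symm_apply]
    rfl
  rw [h, Zc_apply]
  refine Prod.ext (jn_last _ _).symm ?_
  funext i
  exact (jn_castSucc _ _ _).symm

lemma J_mp (m : ℕ) : MeasurePreserving (J m) := by
  have h1 : MeasurePreserving ((MeasurableEquiv.toLp 2 (Fin m → ℝ)).symm) :=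
    EuclideanSpace.volume_preserving_symm_measurableEquiv_toLp (Fin m)
  have h2 := h1.prod (MeasurePreserving.id (volume : Measure ℝ))
  have h3 := (Measure.measurePreserving_swap (μ := (volume : Measure (Fin m → ℝ)))
    (ν := (volume : Measure ℝ))).comp h2
  have h4 := ((Zc_mp m).symm _).comp h3
  exact h4

lemma inner_jn {m : ℕ} (y η : E m) (x ξ : ℝ) : (⟪jn y x, jn η ξ⟫ : ℝ) = ⟪y, η⟫ + x * ξ := by
  rw [PiLp.inner_apply, Fin.sum_univ_castSucc, PiLp.inner_apply]
  simp only [jn_last, jn_castSucc, RCLike.inner_apply, conj_trivial]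
  congr 1
  ring

lemma norm_jn_sq {m : ℕ} (y : E m) (x : ℝ) : ‖jn y x‖ ^ 2 = x ^ 2 + ‖y‖ ^ 2 := by
  rw [← real_inner_self_eq_norm_sq, inner_jn, real_inner_self_eq_norm_sq]
  ring

lemma norm_jn {m : ℕ} (y : E m) (x : ℝ) : ‖jn y x‖ = ra ‖y‖ x := by
  unfold ra
  rw [← norm_jn_sq, Real.sqrt_sq (norm_nonneg _)]

lemma norm_le_jn {m : ℕ} (y : E m) (x : ℝ) : ‖y‖ ≤ ‖jn y x‖ := by
  have h := norm_jn_sq y x
  nlinarith [norm_nonneg y, norm_nonneg (jn y x), sq_nonneg x]

lemma abs_le_jn {m : ℕ} (y : E m) (x : ℝ) : |x| ≤ ‖jn y x‖ := by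
  have h := norm_jn_sq y x
  rw [← sq_abs x] at h
  nlinarith [norm_nonneg y, norm_nonneg (jn y x), abs_nonneg x, sq_nonneg ‖y‖]

lemma ls_jn {m : ℕ} (y : E m) (x : ℝ) : ls (jn y x) = x := jn_last y x

lemma hd_jn {m : ℕ} (y : E m) (x : ℝ) : hd (jn y x) = y := by
  unfold hd
  ext i
  exact jn_castSucc y x i

lemma jn_sub {m : ℕ} (y y' : E m) (x x' : ℝ) : jn y x - jn y' x' = jn (y - y') (x - x') := by
  ext i
  refine Fin.lastCases ?_ (fun i => ?_) i
  · rw [PiLp.sub_apply, jn_last, jn_last, jn_last]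
  · rw [PiLp.sub_apply, jn_castSucc, jn_castSucc, jn_castSucc, PiLp.sub_apply]

lemma jn_hd_ls {m : ℕ} (z : E (m + 1)) : jn (hd z) (ls z) = z := by
  ext i
  refine Fin.lastCases ?_ (fun i => ?_) i
  · rw [jn_last]; rfl
  · rw [jn_castSucc]; rfl

lemma jn_cont {m : ℕ} : Continuous fun q : E m × ℝ => jn q.1 q.2 := by
  unfold jn
  refine (PiLp.continuous_toLp 2 _).comp ?_
  refine continuous_pi fun i => ?_
  refine Fin.lastCases ?_ (fun i => ?_) i
  · simp only [Fin.snoc_last]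
    exact continuous_snd
  · simp only [Fin.snoc_castSucc]
    fun_prop

lemma lint_jn {m : ℕ} (F : E (m + 1) → ℝ≥0∞) (hF : Measurable F) :
    ∫⁻ z, F z = ∫⁻ x : ℝ, ∫⁻ y : E m, F (jn y x) := by
  rw [← (J_mp m).lintegral_comp_emb (J m).measurableEmbedding, Measure.volume_eq_prod,
    lintegral_prod_symm' (fun q => F (J m q)) (hF.comp (J m).measurable)]
  simp only [J_apply]

lemma integ_jn {m : ℕ} {F : E (m + 1) → ℂ} (hF : Integrable F) :
    Integrable fun q : E m × ℝ => F (jn q.1 q.2) := by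
  have h := (J_mp m).integrable_comp_of_integrable hF
  refine h.congr (Filter.Eventually.of_forall fun q => ?_)
  simp only [Function.comp, J_apply]

lemma int_jn {m : ℕ} (F : E (m + 1) → ℂ) :
    ∫ z, F z = ∫ q : E m × ℝ, F (jn q.1 q.2) := by
  rw [← (J_mp m).integral_comp (J m).measurableEmbedding]
  simp only [J_apply]

lemma norm_e_mul (s : ℝ) (z : ℂ) : ‖e s * z‖ = ‖z‖ := by rw [norm_mul, norm_e, one_mul]

/-- the inverse transform in the coordinates -/
lemma inv_jn {m : ℕ} {F : E (m + 1) → ℂ} (hF : Integrable F) (y : E m) (x : ℝ) :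
    inv F (jn y x) = ∫ η : E m, e ⟪y, η⟫ * ∫ ξ : ℝ, e (x * ξ) * F (jn η ξ) := by
  have h0 : inv F (jn y x) = ∫ ζ : E (m + 1), e ⟪jn y x, ζ⟫ * F ζ := rfl
  have hi : Integrable (fun ζ : E (m + 1) => e ⟪jn y x, ζ⟫ * F ζ) := by
    refine hF.bdd_mul (c := 1) ?_ (Filter.Eventually.of_forall fun ζ => (norm_e _).le)
    exact (continuous_e.comp (by fun_prop)).aestronglyMeasurable
  rw [h0, int_jn, Measure.volume_eq_prod, integral_prod _ (integ_jn hi)]
  refine integral_congr_ae (Filter.Eventually.of_forall fun η => ?_)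
  simp only
  rw [← integral_const_mul]
  refine integral_congr_ae (Filter.Eventually.of_forall fun ξ => ?_)
  simp only [inner_jn, e_add]
  ring

/-- the partial transform in `y` -/
noncomputable def H {m : ℕ} (h : E (m + 1) → ℂ) (η : E m) (x : ℝ) : ℂ :=
  ∫ y : E m, e (-⟪y, η⟫) * h (jn y x)

lemma fourier_e {V : Type*} [NormedAddCommGroup V] [InnerProductSpace ℝ V]
    [MeasurableSpace V] [BorelSpace V] [FiniteDimensional ℝ V] (f : V → ℂ) (ζ : V) :
    𝓕 f ζ = ∫ v : V, e (-⟪v, ζ⟫) * f v := by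
  rw [Real.fourier_eq]
  refine integral_congr_ae (Filter.Eventually.of_forall fun v => ?_)
  simp only
  rw [Circle.smul_def, smul_eq_mul, Real.fourierChar_apply]
  unfold e
  congr 2

lemma e_mul_int {m : ℕ} {h : E (m + 1) → ℂ} (hh : Integrable h) (ζ : E (m + 1)) :
    Integrable (fun v : E (m + 1) => e (-⟪v, ζ⟫) * h v) := by
  refine hh.bdd_mul (c := 1) ?_ (Filter.Eventually.of_forall fun ζ => (norm_e _).le)
  exact (continuous_e.comp (by fun_prop)).aestronglyMeasurable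

/-- the full transform is the transform in `x` of the partial transform in `y` -/
lemma ft_H {m : ℕ} {h : E (m + 1) → ℂ} (hh : Integrable h) (η : E m) (ξ : ℝ) :
    ft (H h η) ξ = 𝓕 h (jn η ξ) := by
  rw [fourier_e, int_jn, Measure.volume_eq_prod, integral_prod_symm _ (integ_jn (e_mul_int hh _))]
  unfold ft H
  refine integral_congr_ae (Filter.Eventually.of_forall fun x => ?_)
  simp only
  rw [← integral_const_mul]
  refine integral_congr_ae (Filter.Eventually.of_forall fun y => ?_)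
  simp only [inner_jn, neg_add, e_add]
  ring

/-- the same in the other order -/
lemma fourier_jn {m : ℕ} {h : E (m + 1) → ℂ} (hh : Integrable h) (η : E m) (ξ : ℝ) :
    𝓕 h (jn η ξ) = ∫ y : E m, e (-⟪y, η⟫) * ∫ x : ℝ, e (-(x * ξ)) * h (jn y x) := by
  rw [fourier_e, int_jn, Measure.volume_eq_prod, integral_prod _ (integ_jn (e_mul_int hh _))]
  refine integral_congr_ae (Filter.Eventually.of_forall fun y => ?_)
  simp only
  rw [← integral_const_mul]
  refine integral_congr_ae (Filter.Eventually.of_forall fun x => ?_)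
  simp only [inner_jn, neg_add, e_add]
  ring

lemma planchE {m : ℕ} (f : E m → ℂ) (h1 : Integrable f) (h2 : MemLp f 2) :
    ∫⁻ η : E m, ‖∫ y : E m, e (-⟪y, η⟫) * f y‖ₑ ^ 2 = ∫⁻ y : E m, ‖f y‖ₑ ^ 2 := by
  rw [← plancherel f h1 h2]
  exact lintegral_congr fun ξ => by rw [← fourier_e]

lemma planchI {m : ℕ} (f : E m → ℂ) (h1 : Integrable f) (h2 : MemLp f 2) :
    ∫⁻ y : E m, ‖∫ η : E m, e ⟪y, η⟫ * f η‖ₑ ^ 2 = ∫⁻ η : E m, ‖f η‖ₑ ^ 2 := by
  rw [← planchE f h1 h2]
  rw [← (Measure.measurePreserving_neg (volume : Measure (E m))).lintegral_comp_emb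
    (MeasurableEquiv.neg (E m)).measurableEmbedding
    (fun η => ‖∫ y : E m, e (-⟪y, η⟫) * f y‖ₑ ^ 2)]
  refine lintegral_congr fun y => ?_
  congr 2
  refine integral_congr_ae (Filter.Eventually.of_forall fun η => ?_)
  simp only
  congr 2
  rw [inner_neg_right, neg_neg, real_inner_comm]

/-! ### decay -/

/-- the weights -/
noncomputable def wA (m : ℕ) (y : E m) : ℝ := (1 + ‖y‖) ^ (-((m : ℝ) + 1))

noncomputable def wB (x : ℝ) : ℝ := (1 + ‖x‖) ^ (-(2 : ℝ))

lemma wA_int (m : ℕ) : Integrable (wA m) := by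
  unfold wA
  apply integrable_one_add_norm
  rw [finrank_euclideanSpace, Fintype.card_fin]
  linarith

lemma wB_int : Integrable wB := by
  unfold wB
  apply integrable_one_add_norm
  rw [Module.finrank_self]
  norm_num

lemma wA_pos (m : ℕ) (y : E m) : 0 < wA m y := by
  unfold wA
  have := norm_nonneg y
  positivity

lemma wB_pos (x : ℝ) : 0 < wB x := by
  unfold wB
  have := norm_nonneg x
  positivity

lemma wA_le (m : ℕ) (y : E m) : wA m y ≤ 1 := by
  unfold wA
  exact Real.rpow_le_one_of_one_le_of_nonpos (by have := norm_nonneg y; linarith)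
    (by have : (0 : ℝ) ≤ m := by positivity
        linarith)

lemma wB_le (x : ℝ) : wB x ≤ 1 := by
  unfold wB
  exact Real.rpow_le_one_of_one_le_of_nonpos (by have := norm_nonneg x; linarith) (by norm_num)

lemma decay {m : ℕ} (g : 𝓢(E (m + 1), ℂ)) :
    ∃ C : ℝ, 0 ≤ C ∧ ∀ (y : E m) (x : ℝ), ‖g (jn y x)‖ ≤ C * (wA m y * wB x) := by
  set C : ℝ := 2 ^ (m + 3) * ((Finset.Iic (m + 3, 0)).sup fun k => SchwartzMap.seminorm ℝ k.1 k.2) g
    with hC
  have hb : ∀ z : E (m + 1), (1 + ‖z‖) ^ (m + 3) * ‖g z‖ ≤ C := by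
    intro z
    have h := SchwartzMap.one_add_le_sup_seminorm_apply (𝕜 := ℝ) (m := (m + 3, 0)) (k := m + 3)
      (n := 0) le_rfl le_rfl g z
    rwa [norm_iteratedFDeriv_zero] at h
  have hC0 : 0 ≤ C := le_trans (by positivity) (hb 0)
  refine ⟨C, hC0, fun y x => ?_⟩
  have hz := hb (jn y x)
  have h1 : (1 + ‖y‖) ^ (m + 1) * (1 + ‖x‖) ^ 2 ≤ (1 + ‖jn y x‖) ^ (m + 3) := by
    have e1 : (1 + ‖jn y x‖) ^ (m + 3) = (1 + ‖jn y x‖) ^ (m + 1) * (1 + ‖jn y x‖) ^ 2 := by
      rw [← pow_add]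
    rw [e1]
    have h2 := norm_le_jn y x
    have h3 := abs_le_jn y x
    rw [← Real.norm_eq_abs] at h3
    gcongr
  have e1 : wA m y = ((1 + ‖y‖) ^ (m + 1))⁻¹ := by
    unfold wA
    rw [Real.rpow_neg (by positivity)]
    congr 1
    have : ((m : ℝ) + 1) = ((m + 1 : ℕ) : ℝ) := by push_cast; ring
    rw [this, Real.rpow_natCast]
  have e2 : wB x = ((1 + ‖x‖) ^ 2)⁻¹ := by
    unfold wB
    rw [Real.rpow_neg (by positivity)]
    congr 1
    exact_mod_cast Real.rpow_natCast _ 2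
  rw [e1, e2, ← mul_inv, ← div_eq_mul_inv, le_div_iff₀ (by positivity), mul_comm]
  exact le_trans (mul_le_mul_of_nonneg_right h1 (norm_nonneg _)) hz

/-- functions bounded by the weight -/
lemma of_bound {m : ℕ} {f : E m → ℂ} (hf : AEStronglyMeasurable f) {K : ℝ}
    (hb : ∀ y, ‖f y‖ ≤ K * wA m y) : Integrable f ∧ MemLp f 2 := by
  have h1 : Integrable f := ((wA_int m).const_mul K).mono' hf (Filter.Eventually.of_forall hb)
  refine ⟨h1, ?_⟩
  rw [memLp_two_iff_integrable_sq_norm hf]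
  refine ((wA_int m).const_mul (K * K)).mono' (hf.norm.pow 2) (Filter.Eventually.of_forall fun y => ?_)
  rw [Real.norm_of_nonneg (by positivity)]
  have h2 := hb y
  have h3 := wA_le m y
  have h4 := wA_pos m y
  have h5 : 0 ≤ K * wA m y := (norm_nonneg _).trans h2
  have h6 : 0 ≤ K := nonneg_of_mul_nonneg_left h5 h4
  calc ‖f y‖ ^ 2 ≤ (K * wA m y) ^ 2 := by gcongr
    _ = K * K * wA m y * wA m y := by ring
    _ ≤ K * K * wA m y * 1 := by gcongr
    _ = K * K * wA m y := by ring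

end Pool.Agent.K9h96.LS.LOC
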