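import Pool.Agent.K9h96.LS.Stm2
import Pool.Agent.K9h96.LS.LOCA
import Pool.Agent.N303.LS.Fin4
set_option autoImplicit false

/-!
# (PWQ) spectrum near a finite `Λ(p)` set in the first variables (helper99)
-/

open MeasureTheory Set
open scoped ENNReal FourierTransform RealInnerProductSpace SchwartzMap

namespace Pool.Agent.K9h96.LS.PWQ

open Pool.Agent.TH280.LS (e norm_e continuous_e)
open Pool.Agent.N303.LS (E inv sym nrg psia Lam sym_int inv_cont psia_int vol_cu S_LLG)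
open Pool.Agent.K9h96.LS.LOC (integ_jn inv_jn lint_jn hd_jn)
open Pool.Agent.N492.LS (cu avg)

lemma hd_cont {m : ℕ} : Continuous (hd : E (m + 1) → E m) := by
  unfold hd
  refine (PiLp.continuous_toLp 2 _).comp ?_
  fun_prop

/-- the transform in the last variable -/
noncomputable def FF {m : ℕ} (Φ : E (m + 1) → ℂ) (x : ℝ) (η : E m) : ℂ :=
  ∫ ξ : ℝ, e (x * ξ) * Φ (jn η ξ)

lemma FF_int {m : ℕ} {Φ : E (m + 1) → ℂ} (hΦ : Integrable Φ) (x : ℝ) : Integrable (FF Φ x) := by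
  have h1 : Integrable fun q : E m × ℝ => e (x * q.2) * Φ (jn q.1 q.2) := by
    refine (integ_jn hΦ).bdd_mul (c := 1) ?_ (Filter.Eventually.of_forall fun ζ => (norm_e _).le)
    exact (continuous_e.comp (by fun_prop)).aestronglyMeasurable
  rw [Measure.volume_eq_prod] at h1
  exact h1.integral_prod_left

lemma inv_FF {m : ℕ} {Φ : E (m + 1) → ℂ} (hΦ : Integrable Φ) (y : E m) (x : ℝ) :
    inv Φ (jn y x) = inv (FF Φ x) y := inv_jn hΦ y x

/-- multiplication by a function of the first variables -/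
lemma inv_mul_FF {m : ℕ} {Φ : E (m + 1) → ℂ} (ψ : E m → ℂ)
    (h : Integrable fun ζ => ψ (hd ζ) * Φ ζ) (y : E m) (x : ℝ) :
    inv (fun ζ => ψ (hd ζ) * Φ ζ) (jn y x) = inv (fun η => ψ η * FF Φ x η) y := by
  rw [inv_FF h]
  congr 1
  funext η
  unfold FF
  rw [← integral_const_mul]
  refine integral_congr_ae (Filter.Eventually.of_forall fun ξ => ?_)
  simp only [hd_jn]
  ring

lemma psia_hd_int {m : ℕ} (K : 𝓢(E m, ℂ)) (S : Finset (Fin m → ℤ)) (a : (Fin m → ℤ) → ℂ)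
    {Φ : E (m + 1) → ℂ} (hΦ : Integrable Φ) : Integrable fun ζ => psia K S a (hd ζ) * Φ ζ := by
  have hc : Continuous (𝓕 (K : E m → ℂ)) := by
    have h := (𝓕 K : 𝓢(E m, ℂ)).continuous
    rwa [SchwartzMap.fourier_coe] at h
  have hb : ∀ ξ, ‖𝓕 (K : E m → ℂ) ξ‖ ≤ ∫ x, ‖K x‖ := fun ξ =>
    VectorFourier.norm_fourierIntegral_le_integral_norm _ _ _ _ _
  have hpc : Continuous (psia K S a) := by
    unfold psia
    exact continuous_finsetSum _ fun m _ =>
      continuous_const.mul (hc.comp (continuous_id.sub continuous_const))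
  refine hΦ.bdd_mul (c := ∑ n ∈ S, ‖a n‖ * ∫ x, ‖K x‖) (hpc.comp hd_cont).aestronglyMeasurable
    (Filter.Eventually.of_forall fun ζ => ?_)
  unfold psia
  refine (norm_sum_le _ _).trans (Finset.sum_le_sum fun n _ => ?_)
  rw [norm_mul]
  exact mul_le_mul_of_nonneg_left (hb _) (norm_nonneg _)

theorem t : S_LLG → S_ENLQ → S_PWQ := by
  intro hL hE m p hm hp K
  obtain ⟨C1, hC1, h1⟩ := hL m (m + 1) p hp K
  obtain ⟨C2, A, hC2, h2⟩ := hE m p hm hp
  refine ⟨C2 * C1, A, by positivity, ?_⟩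
  intro n g hg S a Λ hΛ hLam k
  have hΛp : 0 ≤ Λ ^ p := Real.rpow_nonneg hΛ p
  have h3 := h2 n g hg k
  have key : ∀ t ∈ Icc (0 : ℝ) 2, ∫⁻ z : E (m + 1),
      ‖inv (fun ζ => psia K S a (hd ζ) * (sym k t ζ * 𝓕 (g : E (m + 1) → ℂ) ζ)) z‖ₑ ^ p ≤
      ENNReal.ofReal (C1 * Λ ^ p) *
        ∫⁻ x : ℝ, ∫⁻ w : E m, nrg (m + 1) (fun y => ev k g t y x) w ^ (p / 2) := by
    intro t ht
    have hΦ : Integrable fun ζ : E (m + 1) => sym k t ζ * 𝓕 (g : E (m + 1) → ℂ) ζ :=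
      sym_int k t ht.1 ht.2 g
    have hΨ := psia_hd_int K S a hΦ
    rw [lint_jn _ ((inv_cont _ hΨ).measurable.enorm.pow_const p),
      ← lintegral_const_mul' _ _ ENNReal.ofReal_ne_top]
    refine lintegral_mono fun x => ?_
    rw [← lintegral_const_mul' _ _ ENNReal.ofReal_ne_top]
    have hF := FF_int hΦ x
    have hms : Measurable fun y : E m => ‖inv (fun η => psia K S a η *
        FF (fun ζ : E (m + 1) => sym k t ζ * 𝓕 (g : E (m + 1) → ℂ) ζ) x η) y‖ₑ ^ p :=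
      (inv_cont _ (psia_int K S a _ hF)).measurable.enorm.pow_const p
    have a1 := avg 1 hms
    have e0 : ∀ w : E m, cu 1 w = {x : E m | ∀ i, |x i - w i| ≤ 1} := by
      intro w
      unfold Pool.Agent.N492.LS.cu
      norm_num
    have e1 : ∀ w : E m, nrg (m + 1) (fun y => ev k g t y x) w =
        nrg (m + 1) (inv (FF (fun ζ : E (m + 1) => sym k t ζ * 𝓕 (g : E (m + 1) → ℂ) ζ) x)) w := by
      intro w
      congr 1
      funext y
      exact inv_FF hΦ y x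
    calc ∫⁻ y : E m, ‖inv (fun ζ => psia K S a (hd ζ) *
          (sym k t ζ * 𝓕 (g : E (m + 1) → ℂ) ζ)) (jn y x)‖ₑ ^ p
        = ∫⁻ y : E m, ‖inv (fun η => psia K S a η *
          FF (fun ζ : E (m + 1) => sym k t ζ * 𝓕 (g : E (m + 1) → ℂ) ζ) x η) y‖ₑ ^ p := by
          refine lintegral_congr fun y => ?_
          rw [inv_mul_FF (psia K S a) hΨ y x]
      _ ≤ volume (cu 1 (0 : E m)) * ∫⁻ y : E m, ‖inv (fun η => psia K S a η *
          FF (fun ζ : E (m + 1) => sym k t ζ * 𝓕 (g : E (m + 1) → ℂ) ζ) x η) y‖ₑ ^ p :=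
          le_mul_of_one_le_left (by positivity) (vol_cu m)
      _ = ∫⁻ w : E m, ∫⁻ y in cu 1 w, ‖inv (fun η => psia K S a η *
          FF (fun ζ : E (m + 1) => sym k t ζ * 𝓕 (g : E (m + 1) → ℂ) ζ) x η) y‖ₑ ^ p := a1.symm
      _ ≤ _ := by
          refine lintegral_mono fun w => ?_
          simp only [e0, e1]
          exact h1 S a Λ hΛ hLam _ hF w
  calc ∫⁻ t in Icc (0 : ℝ) 2, ∫⁻ z : E (m + 1),
      ‖inv (fun ζ => psia K S a (hd ζ) * (sym k t ζ * 𝓕 (g : E (m + 1) → ℂ) ζ)) z‖ₑ ^ p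
      ≤ ∫⁻ t in Icc (0 : ℝ) 2, ENNReal.ofReal (C1 * Λ ^ p) *
        ∫⁻ x : ℝ, ∫⁻ w : E m, nrg (m + 1) (fun y => ev k g t y x) w ^ (p / 2) :=
        setLIntegral_mono' measurableSet_Icc key
    _ = ENNReal.ofReal (C1 * Λ ^ p) * ∫⁻ t in Icc (0 : ℝ) 2, ∫⁻ x : ℝ, ∫⁻ w : E m,
        nrg (m + 1) (fun y => ev k g t y x) w ^ (p / 2) := by
        rw [lintegral_const_mul' _ _ ENNReal.ofReal_ne_top]
    _ ≤ ENNReal.ofReal (C1 * Λ ^ p) * (ENNReal.ofReal (kk p C2 A n) *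
        ∫⁻ z : E (m + 1), ‖g z‖ₑ ^ p) := by gcongr
    _ = _ := by
        rw [← mul_assoc, ← ENNReal.ofReal_mul (by positivity), kk_mul]
        congr 2
        ring

end Pool.Agent.K9h96.LS.PWQ
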