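import Pool.Agent.K9h96.LS.FIN1
set_option autoImplicit false

/-! # LS, the sum over the dyadic shells -/

open MeasureTheory Set
open scoped ENNReal FourierTransform RealInnerProductSpace SchwartzMap

namespace Pool.Agent.K9h96.LS.FIN

open Pool.Agent.N303.LS

/-- the spectrum of `f` is in `(S + [-1/4, 1/4]^m) × ℝ` -/
def SpecH {m : ℕ} (S : Set (Fin m → ℤ)) (f : 𝓢(E (m + 1), ℂ)) : Prop :=
  ∀ ζ : E (m + 1), 𝓕 (f : E (m + 1) → ℂ) ζ ≠ 0 → ∃ n ∈ S, ∀ i : Fin m, |ζ i.castSucc - n i| ≤ 1 / 4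

open Classical in
/-- the points of `S` in a cube -/
noncomputable def cb {m : ℕ} (S : Set (Fin m → ℤ)) (c : ℕ) : Finset (Fin m → ℤ) :=
  (Fintype.piFinset fun _ => Finset.Icc (-(2 ^ (c + 1) : ℤ)) (2 ^ (c + 1))).filter
    fun n => n ∈ S ∧ ∀ i, |n i| < 2 ^ (c + 1)

open Classical in
lemma mem_cb {m : ℕ} (S : Set (Fin m → ℤ)) (c : ℕ) (n : Fin m → ℤ) :
    n ∈ cb S c ↔ n ∈ S ∧ ∀ i, |n i| < 2 ^ (c + 1) := by
  unfold cb
  rw [Finset.mem_filter, Fintype.mem_piFinset]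
  constructor
  · exact fun h => h.2
  · intro h
    refine ⟨fun i => ?_, h⟩
    rw [Finset.mem_Icc]
    exact abs_le.1 (h.2 i).le

/-- on the spectrum the product of the cut-offs is the cut-off of the shell -/
lemma psia_ph {m : ℕ} (K : 𝓢(E m, ℂ))
    (h1 : ∀ ξ : E m, (∀ i, |ξ i| ≤ 1 / 4) → 𝓕 (K : E m → ℂ) ξ = 1)
    (h0 : ∀ ξ : E m, (∃ i, 3 / 4 ≤ |ξ i|) → 𝓕 (K : E m → ℂ) ξ = 0) (L : 𝓢(E (m + 1), ℂ))
    (l0 : ∀ ξ : E (m + 1), (∃ i, 9 / 8 ≤ |ξ i|) → 𝓕 (L : E (m + 1) → ℂ) ξ = 0)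
    (S : Set (Fin m → ℤ)) (f : 𝓢(E (m + 1), ℂ)) (hf : SpecH S f) (c : ℕ) (ζ : E (m + 1)) :
    psia K (cb S c) (fun _ => 1) (hd ζ) * (ph L c ζ * 𝓕 (f : E (m + 1) → ℂ) ζ) =
      ph L c ζ * 𝓕 (f : E (m + 1) → ℂ) ζ := by
  by_cases hz : 𝓕 (f : E (m + 1) → ℂ) ζ = 0
  · rw [hz, mul_zero, mul_zero]
  by_cases hb : ∃ i, (2 : ℝ) ^ c * (9 / 8) ≤ |ζ i|
  · rw [ph_zero L l0 c ζ hb, zero_mul, mul_zero]
  push Not at hb
  obtain ⟨n, hn, hnζ⟩ := hf ζ hz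
  have hmem : n ∈ cb S c := by
    refine (mem_cb S c n).2 ⟨hn, fun i => ?_⟩
    have h3 := hb i.castSucc
    have h4 := hnζ i
    have h5 : |(n i : ℝ)| ≤ |ζ i.castSucc| + |ζ i.castSucc - n i| := by
      have : (n i : ℝ) = ζ i.castSucc - (ζ i.castSucc - n i) := by ring
      calc |(n i : ℝ)| = |ζ i.castSucc - (ζ i.castSucc - n i)| := by rw [← this]
        _ ≤ _ := abs_sub _ _
    have h6 : (1 : ℝ) ≤ 2 ^ c := one_le_pow₀ (by norm_num)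
    have h7 : |(n i : ℝ)| < 2 ^ (c + 1) := by
      rw [pow_succ]
      linarith
    exact_mod_cast h7
  rw [psia_one K h1 h0 _ n hmem (hd ζ) (fun i => by simpa [hd] using hnζ i), one_mul]

lemma wave_eqh {d : ℕ} (Ψ : E d → ℂ) (f₀ f₁ g₀ : 𝓢(E d, ℂ)) (g : Fin d → 𝓢(E d, ℂ)) (t : ℝ)
    (hi : ∀ k, Integrable fun ξ => Ψ ξ * (sym k t ξ * 𝓕 (gen f₀ g₀ g k : E d → ℂ) ξ))
    (hf : ∀ ξ, 𝓕 (f₁ : E d → ℂ) ξ = 𝓕 (g₀ : E d → ℂ) ξ +
      ∑ j, ((2 * Real.pi * ξ j : ℝ) : ℂ) * Complex.I * 𝓕 (g j : E d → ℂ) ξ) (x : E d) :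
    wave (fun ξ => Ψ ξ * 𝓕 (f₀ : E d → ℂ) ξ) (fun ξ => Ψ ξ * 𝓕 (f₁ : E d → ℂ) ξ) t x =
      ∑ k : Fin d ⊕ Bool,
        inv (fun ξ => Ψ ξ * (sym k t ξ * 𝓕 (gen f₀ g₀ g k : E d → ℂ) ξ)) x := by
  rw [← inv_sum Finset.univ _ (fun k _ => hi k)]
  unfold wave
  congr 1
  funext ξ
  simp only []
  rw [← Finset.mul_sum, Fintype.sum_sum_type, Fintype.sum_bool, hf ξ]
  simp only [sym, gen]
  have e4 : ∑ j, ((2 * Real.pi * ξ j : ℝ) : ℂ) * Complex.I * sn t ξ * 𝓕 (g j : E d → ℂ) ξ =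
      sn t ξ * ∑ j, ((2 * Real.pi * ξ j : ℝ) : ℂ) * Complex.I * 𝓕 (g j : E d → ℂ) ξ := by
    rw [Finset.mul_sum]
    refine Finset.sum_congr rfl fun j _ => ?_
    ring
  rw [e4]
  ring

/-- summation of the norms of the shells -/
lemma geoM {X : Type} [MeasurableSpace X] (μ : Measure X) (p : ℝ) (hp : 1 ≤ p) (w : ℕ → X → ℂ)
    (hw : ∀ c, AEStronglyMeasurable (w c) μ) (Q q : ℝ)
    (hQ : 0 ≤ Q) (hq0 : 0 ≤ q) (hq1 : q < 1) (B : ℝ≥0∞)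
    (h : ∀ c, ∫⁻ x, ‖w c x‖ₑ ^ p ∂μ ≤ ENNReal.ofReal (Q ^ p * (q ^ p) ^ c) * B) (N : ℕ) :
    ∫⁻ x, ‖∑ c ∈ Finset.range N, w c x‖ₑ ^ p ∂μ ≤ ENNReal.ofReal ((Q / (1 - q)) ^ p) * B := by
  have hp0 : 0 < p := by linarith
  have hpt : ENNReal.ofReal p ≠ 0 := by
    rw [Ne, ENNReal.ofReal_eq_zero]
    linarith
  have hpt2 : ENNReal.ofReal p ≠ ⊤ := ENNReal.ofReal_ne_top
  have e1 : ∀ f : X → ℂ, eLpNorm f (ENNReal.ofReal p) μ = (∫⁻ x, ‖f x‖ₑ ^ p ∂μ) ^ (1 / p) := by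
    intro f
    rw [eLpNorm_eq_lintegral_rpow_enorm_toReal hpt hpt2, ENNReal.toReal_ofReal hp0.le]
  have h2 : ∀ c, eLpNorm (w c) (ENNReal.ofReal p) μ ≤
      ENNReal.ofReal (Q * q ^ c) * B ^ (1 / p) := by
    intro c
    rw [e1]
    refine (ENNReal.rpow_le_rpow (h c) (by positivity)).trans (le_of_eq ?_)
    rw [ENNReal.mul_rpow_of_nonneg _ _ (by positivity),
      ENNReal.ofReal_rpow_of_nonneg (by positivity) (by positivity)]
    congr 2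
    have e2 : Q ^ p * (q ^ p) ^ c = (Q * q ^ c) ^ p := by
      rw [Real.mul_rpow hQ (by positivity), ← Real.rpow_natCast (q ^ p) c, ← Real.rpow_mul hq0,
        ← Real.rpow_natCast q c, ← Real.rpow_mul hq0, mul_comm p]
    rw [e2, ← Real.rpow_mul (by positivity), mul_one_div, div_self hp0.ne', Real.rpow_one]
  have h3 : eLpNorm (∑ c ∈ Finset.range N, w c) (ENNReal.ofReal p) μ ≤
      ENNReal.ofReal (Q / (1 - q)) * B ^ (1 / p) := by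
    refine (eLpNorm_sum_le (fun c _ => hw c)
      (by rw [← ENNReal.ofReal_one]; exact ENNReal.ofReal_le_ofReal hp)).trans ?_
    refine (Finset.sum_le_sum fun c _ => h2 c).trans ?_
    rw [← Finset.sum_mul, ← ENNReal.ofReal_sum_of_nonneg fun c _ => by positivity,
      ← Finset.mul_sum]
    gcongr
    rw [div_eq_mul_inv]
    gcongr
    have hs := (summable_geometric_of_lt_one hq0 hq1)
    calc ∑ c ∈ Finset.range N, q ^ c ≤ ∑' c, q ^ c :=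
          hs.sum_le_tsum _ fun c _ => by positivity
      _ = (1 - q)⁻¹ := tsum_geometric_of_lt_one hq0 hq1
  rw [e1] at h3
  have h4 := ENNReal.rpow_le_rpow h3 hp0.le
  rw [← ENNReal.rpow_mul, one_div_mul_cancel hp0.ne', ENNReal.rpow_one,
    ENNReal.mul_rpow_of_nonneg _ _ hp0.le, ← ENNReal.rpow_mul, one_div_mul_cancel hp0.ne',
    ENNReal.rpow_one, ENNReal.ofReal_rpow_of_nonneg (div_nonneg hQ (by linarith)) hp0.le] at h4
  simpa only [Finset.sum_apply] using h4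

/-- powers of `c` are absorbed -/
lemma poly (A : ℕ) (q : ℝ) (hq0 : 0 < q) (hq1 : q < 1) : ∃ M : ℝ, 0 < M ∧
    ∀ c : ℕ, ((c : ℝ) + 2) ^ A * q ^ c ≤ M := by
  have h := tendsto_pow_const_mul_const_pow_of_abs_lt_one A (r := q)
    (by rw [abs_of_pos hq0]; exact hq1)
  obtain ⟨B, hB⟩ := h.bddAbove_range
  refine ⟨max B 1 * (q ^ 2)⁻¹, by positivity, fun c => ?_⟩
  have h1 : ((c + 2 : ℕ) : ℝ) ^ A * q ^ (c + 2) ≤ B := hB (Set.mem_range_self (c + 2))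
  push_cast at h1
  rw [pow_add] at h1
  rw [le_mul_inv_iff₀ (by positivity)]
  calc ((c : ℝ) + 2) ^ A * q ^ c * q ^ 2 = ((c : ℝ) + 2) ^ A * (q ^ c * q ^ 2) := by ring
    _ ≤ B := h1
    _ ≤ _ := le_max_left _ _

/-- joint measurability of the wave -/
lemma wave_meas {d : ℕ} (F₀ F₁ : E d → ℂ) (h0 : Measurable F₀) (h1 : Measurable F₁) :
    Measurable fun q : ℝ × E d => wave F₀ F₁ q.1 q.2 := by
  have hc : Measurable (fun q : (ℝ × E d) × E d =>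
      Complex.exp (((2 * Real.pi * ⟪q.1.2, q.2⟫ : ℝ) : ℂ) * Complex.I) *
        (cs q.1.1 q.2 * F₀ q.2 + sn q.1.1 q.2 * F₁ q.2)) := by
    refine Measurable.mul ?_ (Measurable.add (Measurable.mul ?_ (h0.comp measurable_snd))
      (Measurable.mul ?_ (h1.comp measurable_snd)))
    · fun_prop
    · unfold cs
      fun_prop
    · unfold sn
      refine Complex.measurable_ofReal.comp ?_
      fun_prop
  exact (StronglyMeasurable.integral_prod_right (ν := (volume : Measure (E d)))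
    (f := fun (q : ℝ × E d) (ξ : E d) =>
      Complex.exp (((2 * Real.pi * ⟪q.2, ξ⟫ : ℝ) : ℂ) * Complex.I) *
        (cs q.1 ξ * F₀ ξ + sn q.1 ξ * F₁ ξ)) hc.stronglyMeasurable).measurable

/-- the solution with the data cut off to a shell -/
lemma shellW (hPW : S_PW) {m : ℕ} (hm : 0 < m) (p : ℝ) (hp : 2 ≤ p) (hp4 : p ≤ 4)
    (K : 𝓢(E m, ℂ)) : ∃ (C : ℝ) (A : ℕ), 0 < C ∧
    ∀ (n : ℕ) (f₀ f₁ g₀ : 𝓢(E (m + 1), ℂ)) (g : Fin (m + 1) → 𝓢(E (m + 1), ℂ)),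
    (∀ k (ζ : E (m + 1)), (2 : ℝ) ^ n < |ls ζ| → 𝓕 (gen f₀ g₀ g k : E (m + 1) → ℂ) ζ = 0) →
    (∀ ξ, 𝓕 (f₁ : E (m + 1) → ℂ) ξ = 𝓕 (g₀ : E (m + 1) → ℂ) ξ +
      ∑ j, ((2 * Real.pi * ξ j : ℝ) : ℂ) * Complex.I * 𝓕 (g j : E (m + 1) → ℂ) ξ) →
    ∀ (S : Finset (Fin m → ℤ)) (a : (Fin m → ℤ) → ℂ) (Λ : ℝ), 0 ≤ Λ → Lam p Λ S a →
      ∫⁻ t in Icc (0 : ℝ) 2, ∫⁻ x : E (m + 1),
        ‖wave (fun ζ => psia K S a (hd ζ) * 𝓕 (f₀ : E (m + 1) → ℂ) ζ)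
        (fun ζ => psia K S a (hd ζ) * 𝓕 (f₁ : E (m + 1) → ℂ) ζ) t x‖ₑ ^ p ≤
      ENNReal.ofReal (C * ((n : ℝ) + 1) ^ A * Λ ^ p) *
        ∑ k, ∫⁻ x : E (m + 1), ‖gen f₀ g₀ g k x‖ₑ ^ p := by
  obtain ⟨C, A, hC, h⟩ := hPW m p hm hp hp4 K
  have hp0 : 0 < p := by linarith
  refine ⟨((m : ℝ) + 3) ^ (p - 1) * C, A, by positivity, ?_⟩
  intro n f₀ f₁ g₀ g hz hf S a Λ hΛ hL
  have hΨc : Continuous fun ζ : E (m + 1) => psia K S a (hd ζ) := by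
    refine (psia_cont K S a).comp ?_
    unfold hd
    fun_prop
  obtain ⟨b, hb⟩ : ∃ b : ℝ, ∀ ξ : E m, ‖psia K S a ξ‖ ≤ b := by
    refine ⟨∑ n ∈ S, ‖a n‖ * ∫ x, ‖K x‖, fun ξ => ?_⟩
    unfold psia
    refine (norm_sum_le _ _).trans (Finset.sum_le_sum fun n _ => ?_)
    rw [norm_mul]
    exact mul_le_mul_of_nonneg_left
      (VectorFourier.norm_fourierIntegral_le_integral_norm _ _ _ _ _) (norm_nonneg _)
  have hi : ∀ t : ℝ, 0 ≤ t → t ≤ 2 → ∀ k, Integrable fun ζ : E (m + 1) => psia K S a (hd ζ) *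
      (sym k t ζ * 𝓕 (gen f₀ g₀ g k : E (m + 1) → ℂ) ζ) := fun t h0 h2 k =>
    (sym_int k t h0 h2 (gen f₀ g₀ g k)).bdd_mul hΨc.aestronglyMeasurable
      (Filter.Eventually.of_forall fun ζ => hb (hd ζ))
  set Q : Fin (m + 1) ⊕ Bool → ℝ → E (m + 1) → ℂ := fun k t x =>
    inv (fun ζ => psia K S a (hd ζ) * (sym k t ζ * 𝓕 (gen f₀ g₀ g k : E (m + 1) → ℂ) ζ)) x with hQ
  have hcard : (Finset.univ : Finset (Fin (m + 1) ⊕ Bool)).card = m + 3 := by simp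
  have hstep : ∀ t ∈ Icc (0 : ℝ) 2, ∫⁻ x : E (m + 1),
        ‖wave (fun ζ => psia K S a (hd ζ) * 𝓕 (f₀ : E (m + 1) → ℂ) ζ)
        (fun ζ => psia K S a (hd ζ) * 𝓕 (f₁ : E (m + 1) → ℂ) ζ) t x‖ₑ ^ p ≤
      ENNReal.ofReal (((m : ℝ) + 3) ^ (p - 1)) * ∑ k, ∫⁻ x : E (m + 1), ‖Q k t x‖ₑ ^ p := by
    intro t ht
    have hw := wave_eqh (fun ζ => psia K S a (hd ζ)) f₀ f₁ g₀ g t (hi t ht.1 ht.2) hf
    simp only [hw]
    have hms : ∀ k, Measurable fun x => ‖Q k t x‖ₑ ^ p :=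
      fun k => ((inv_cont _ (hi t ht.1 ht.2 k)).measurable.enorm).pow_const p
    rw [← lintegral_finsetSum _ fun k _ => hms k, ← lintegral_const_mul' _ _ ENNReal.ofReal_ne_top]
    refine lintegral_mono fun x => ?_
    have h3 := pow_sum p (by linarith) (Finset.univ : Finset (Fin (m + 1) ⊕ Bool))
      (fun k => Q k t x)
    rw [hcard] at h3
    push_cast at h3
    exact h3
  have hQm : ∀ k, Measurable fun q : ℝ × E (m + 1) => Q k q.1 q.2 := by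
    intro k
    have hc : Measurable (fun q : (ℝ × E (m + 1)) × E (m + 1) =>
        Complex.exp (((2 * Real.pi * ⟪q.1.2, q.2⟫ : ℝ) : ℂ) * Complex.I) *
          (psia K S a (hd q.2) * (sym k q.1.1 q.2 * 𝓕 (gen f₀ g₀ g k : E (m + 1) → ℂ) q.2))) := by
      refine Measurable.mul ?_ (Measurable.mul (hΨc.measurable.comp measurable_snd)
        (Measurable.mul ?_ ?_))
      · fun_prop
      · have hsn : Measurable fun q : (ℝ × E (m + 1)) × E (m + 1) => sn q.1.1 q.2 := by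
          unfold sn
          refine Complex.measurable_ofReal.comp ?_
          fun_prop
        match k with
        | Sum.inl j =>
          show Measurable fun q : (ℝ × E (m + 1)) × E (m + 1) =>
            ((2 * Real.pi * q.2 j : ℝ) : ℂ) * Complex.I * sn q.1.1 q.2
          refine Measurable.mul ?_ hsn
          fun_prop
        | Sum.inr true =>
          show Measurable fun q : (ℝ × E (m + 1)) × E (m + 1) => cs q.1.1 q.2
          unfold cs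
          fun_prop
        | Sum.inr false => exact hsn
      · have h5 : Continuous (𝓕 (gen f₀ g₀ g k : E (m + 1) → ℂ)) := by
          have h := (𝓕 (gen f₀ g₀ g k) : 𝓢(E (m + 1), ℂ)).continuous
          rwa [SchwartzMap.fourier_coe] at h
        exact h5.measurable.comp measurable_snd
    exact (StronglyMeasurable.integral_prod_right (ν := (volume : Measure (E (m + 1))))
      (f := fun (q : ℝ × E (m + 1)) (ζ : E (m + 1)) =>
        Complex.exp (((2 * Real.pi * ⟪q.2, ζ⟫ : ℝ) : ℂ) * Complex.I) *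
          (psia K S a (hd ζ) * (sym k q.1 ζ * 𝓕 (gen f₀ g₀ g k : E (m + 1) → ℂ) ζ)))
      hc.stronglyMeasurable).measurable
  have hms2 : ∀ k, Measurable fun t => ∫⁻ x : E (m + 1), ‖Q k t x‖ₑ ^ p := fun k =>
    (((hQm k).enorm).pow_const p).lintegral_prod_right'
  calc _ ≤ ∫⁻ t in Icc (0 : ℝ) 2, ENNReal.ofReal (((m : ℝ) + 3) ^ (p - 1)) *
        ∑ k, ∫⁻ x : E (m + 1), ‖Q k t x‖ₑ ^ p := setLIntegral_mono' measurableSet_Icc hstep
    _ = ENNReal.ofReal (((m : ℝ) + 3) ^ (p - 1)) *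
        ∑ k, ∫⁻ t in Icc (0 : ℝ) 2, ∫⁻ x : E (m + 1), ‖Q k t x‖ₑ ^ p := by
        rw [lintegral_const_mul' _ _ ENNReal.ofReal_ne_top,
          lintegral_finsetSum _ fun k _ => hms2 k]
    _ ≤ ENNReal.ofReal (((m : ℝ) + 3) ^ (p - 1)) *
        ∑ k, ENNReal.ofReal (C * ((n : ℝ) + 1) ^ A * Λ ^ p) *
          ∫⁻ x : E (m + 1), ‖gen f₀ g₀ g k x‖ₑ ^ p := by
        gcongr with k _
        exact h n (gen f₀ g₀ g k) (hz k) S a Λ hΛ hL k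
    _ = _ := by
        rw [← Finset.mul_sum, ← mul_assoc, ← ENNReal.ofReal_mul (by positivity)]
        congr 2
        ring

end Pool.Agent.K9h96.LS.FIN
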