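import Pool.Agent.K9h96.LS.Stm
import Pool.Agent.N933.LS.YH
set_option autoImplicit false

/-!
# ENL: from local energies to weighted local energies (helper6 for helper96)
-/

open MeasureTheory Set
open scoped ENNReal FourierTransform RealInnerProductSpace SchwartzMap

namespace Pool.Agent.K9h96.LS.ENL

open Pool.Agent.K9h96.LS
open Pool.Agent.N303.LS (E inv sym nrg W psia Lam cs sn)
open Pool.Agent.N933.LS (cont_W fin_W)

/-- Jensen's inequality for functions with values in `[0, ∞]` -/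
theorem jens {Ω : Type} [MeasurableSpace Ω] (μ : Measure Ω) (k : Ω → ℝ≥0∞) (hk : Measurable k)
    (f : Ω → ℝ≥0∞) (hf : Measurable f) {p : ℝ} (hp : 1 ≤ p) :
    (∫⁻ q, f q * k q ∂μ) ^ p ≤ (∫⁻ q, k q ∂μ) ^ (p - 1) * ∫⁻ q, f q ^ p * k q ∂μ := by
  have hp0 : 0 < p := by linarith
  have h := eLpNorm'_le_eLpNorm'_mul_rpow_measure_univ (μ := μ.withDensity k) (f := f)
    (p := 1) (q := p) one_pos hp hf.aestronglyMeasurable
  unfold eLpNorm' at h
  rw [withDensity_apply _ MeasurableSet.univ, Measure.restrict_univ] at h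
  simp only [enorm_eq_self] at h
  have e1 : ∫⁻ a, f a ^ (1 : ℝ) ∂μ.withDensity k = ∫⁻ q, f q * k q ∂μ := by
    rw [lintegral_withDensity_eq_lintegral_mul μ hk (by fun_prop)]
    simp [mul_comm]
  have e2 : ∫⁻ a, f a ^ p ∂μ.withDensity k = ∫⁻ q, f q ^ p * k q ∂μ := by
    rw [lintegral_withDensity_eq_lintegral_mul μ hk (by fun_prop)]
    simp [mul_comm]
  rw [e1, e2, div_one, ENNReal.rpow_one] at h
  refine (ENNReal.rpow_le_rpow h hp0.le).trans (le_of_eq ?_)
  rw [ENNReal.mul_rpow_of_nonneg _ _ hp0.le, ← ENNReal.rpow_mul, ← ENNReal.rpow_mul,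
    one_div_mul_cancel hp0.ne', ENNReal.rpow_one, mul_comm]
  congr 2
  field_simp

/-- the symbols are jointly measurable -/
theorem meas_sym {d : ℕ} (k : Fin d ⊕ Bool) :
    Measurable (fun q : ℝ × E d => sym k q.1 q.2) := by
  have hn : Measurable (fun q : ℝ × E d => ‖q.2‖) := measurable_snd.norm
  have ht : Measurable (fun q : ℝ × E d => q.1) := measurable_fst
  have hsn : Measurable (fun q : ℝ × E d => sn q.1 q.2) := by
    unfold sn
    apply Complex.measurable_ofReal.comp
    refine Measurable.div ?_ (measurable_const.mul hn)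
    exact Real.measurable_sin.comp ((measurable_const.mul ht).mul hn)
  rcases k with j | b
  · simp only [sym]
    refine Measurable.mul (Measurable.mul ?_ measurable_const) hsn
    apply Complex.measurable_ofReal.comp
    refine measurable_const.mul ?_
    have : Measurable (fun ξ : E d => ξ j) := by fun_prop
    exact this.comp measurable_snd
  · cases b
    · simpa only [sym] using hsn
    · simp only [sym]
      unfold cs
      apply Complex.measurable_ofReal.comp
      exact Real.measurable_cos.comp ((measurable_const.mul ht).mul hn)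

/-- `jn` is continuous -/
theorem cont_jn {m : ℕ} : Continuous (fun q : E m × ℝ => jn q.1 q.2) := by
  unfold jn
  refine (PiLp.continuous_toLp 2 _).comp ?_
  refine continuous_pi fun i => ?_
  refine Fin.lastCases ?_ (fun j => ?_) i
  · simp only [Fin.snoc_last]
    exact continuous_snd
  · simp only [Fin.snoc_castSucc]
    fun_prop

/-- the evolved data are jointly measurable -/
theorem meas_ev {m : ℕ} (k : Fin (m + 1) ⊕ Bool) (g : 𝓢(E (m + 1), ℂ)) :
    Measurable (fun q : (ℝ × ℝ) × E m => ev k g q.1.1 q.2 q.1.2) := by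
  unfold ev inv
  have hF : Continuous (𝓕 (g : E (m + 1) → ℂ)) := by
    have := (𝓕 g : 𝓢(E (m + 1), ℂ)).continuous
    simpa [SchwartzMap.fourier_coe] using this
  have hm : Measurable (fun z : ((ℝ × ℝ) × E m) × E (m + 1) =>
      Complex.exp (((2 * Real.pi * ⟪jn z.1.2 z.1.1.2, z.2⟫ : ℝ) : ℂ) * Complex.I) *
        (sym k z.1.1.1 z.2 * 𝓕 (g : E (m + 1) → ℂ) z.2)) := by
    refine Measurable.mul ?_ (Measurable.mul ?_ (hF.measurable.comp measurable_snd))
    · have h1 : Continuous (fun z : ((ℝ × ℝ) × E m) × E (m + 1) => ⟪jn z.1.2 z.1.1.2, z.2⟫) := by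
        refine Continuous.inner ?_ continuous_snd
        exact cont_jn.comp ((continuous_snd.comp continuous_fst).prodMk
          (continuous_snd.comp (continuous_fst.comp continuous_fst)))
      have h2 : Continuous (fun z : ((ℝ × ℝ) × E m) × E (m + 1) =>
        Complex.exp (((2 * Real.pi * ⟪jn z.1.2 z.1.1.2, z.2⟫ : ℝ) : ℂ) * Complex.I)) := by
        refine Complex.continuous_exp.comp (Continuous.mul ?_ continuous_const)
        exact Complex.continuous_ofReal.comp (continuous_const.mul h1)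
      exact h2.measurable
    · exact (meas_sym k).comp ((measurable_fst.comp (measurable_fst.comp measurable_fst)).prodMk
        measurable_snd)
  exact (hm.stronglyMeasurable.integral_prod_right (ν := volume)).measurable

theorem W_nonneg {d : ℕ} (M : ℕ) (x : E d) : 0 ≤ W M x := by
  unfold W; positivity

/-- Peetre -/
theorem W_le {d : ℕ} (M : ℕ) (y z w : E d) (h : ‖y - z‖ ≤ 1) :
    W M (y - w) ≤ 3 ^ M * W M (z - w) := by
  unfold W
  have h1 : ‖z - w‖ ≤ ‖y - w‖ + 1 := by
    have : z - w = (y - w) - (y - z) := by abel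
    rw [this]
    exact (norm_sub_le _ _).trans (by linarith)
  have h2 : 1 + ‖z - w‖ ^ 2 ≤ 3 * (1 + ‖y - w‖ ^ 2) := by
    nlinarith [norm_nonneg (z - w), norm_nonneg (y - w), sq_nonneg (‖y - w‖ - 1)]
  have h3 : (1 + ‖z - w‖ ^ 2) ^ M ≤ 3 ^ M * (1 + ‖y - w‖ ^ 2) ^ M := by
    rw [← mul_pow]
    exact pow_le_pow_left₀ (by positivity) h2 M
  have p1 : 0 < (1 + ‖z - w‖ ^ 2) ^ M := by positivity
  have p2 : 0 < (1 + ‖y - w‖ ^ 2) ^ M := by positivity
  rw [inv_eq_one_div, inv_eq_one_div, mul_one_div, div_le_div_iff₀ p2 p1]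
  linarith

theorem meas_W {d : ℕ} (M : ℕ) : Measurable (fun q : E d × E d => ENNReal.ofReal (W M (q.1 - q.2))) := by
  apply Measurable.ennreal_ofReal
  exact ((cont_W M).comp (by fun_prop)).measurable

theorem meas_W1 {d : ℕ} (M : ℕ) (w : E d) :
    Measurable (fun z : E d => ENNReal.ofReal (W M (z - w))) := by
  apply Measurable.ennreal_ofReal
  have h : Continuous (fun z : E d => z - w) := continuous_id.sub continuous_const
  exact ((cont_W M).comp h).measurable

theorem meas_W2 {d : ℕ} (M : ℕ) (w : E d) :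
    Measurable (fun z : E d => ENNReal.ofReal (W M (w - z))) := by
  apply Measurable.ennreal_ofReal
  have h : Continuous (fun z : E d => w - z) := continuous_const.sub continuous_id
  exact ((cont_W M).comp h).measurable

/-- the local energy in unit balls -/
noncomputable def lc {m : ℕ} (h : E m → ℂ) (z : E m) : ℝ≥0∞ :=
  ∫⁻ y in Metric.ball z 1, ‖h y‖ₑ ^ 2

/-- indicator of `|y - z| < 1` -/
noncomputable def ind {m : ℕ} (y z : E m) : ℝ≥0∞ := (Metric.ball z 1).indicator (fun _ => 1) y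

theorem meas_ind {m : ℕ} : Measurable (fun q : E m × E m => ind q.1 q.2) := by
  have h : (fun q : E m × E m => ind q.1 q.2) =
      {q : E m × E m | dist q.1 q.2 < 1}.indicator (fun _ => (1 : ℝ≥0∞)) := by
    funext q
    rfl
  rw [h]
  refine measurable_const.indicator ?_
  exact measurableSet_lt (measurable_fst.dist measurable_snd) measurable_const

theorem ind_symm {m : ℕ} (y z : E m) : ind y z = ind z y := by
  unfold ind
  by_cases h : dist y z < 1
  · rw [indicator_of_mem (show y ∈ Metric.ball z 1 from h), indicator_of_mem]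
    rwa [Metric.mem_ball, dist_comm]
  · rw [indicator_of_notMem (show y ∉ Metric.ball z 1 from h), indicator_of_notMem]
    rwa [Metric.mem_ball, dist_comm]

theorem lc_eq {m : ℕ} (h : E m → ℂ) (z : E m) :
    lc h z = ∫⁻ y, ind y z * ‖h y‖ₑ ^ 2 := by
  unfold lc
  rw [← lintegral_indicator measurableSet_ball]
  refine lintegral_congr fun y => ?_
  unfold ind
  by_cases hy : y ∈ Metric.ball z 1
  · rw [indicator_of_mem hy, indicator_of_mem hy, one_mul]
  · rw [indicator_of_notMem hy, indicator_of_notMem hy, zero_mul]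


theorem meas_ind2 {m : ℕ} : Measurable (fun q : E m × E m => ind q.2 q.1) := by
  have h : (fun q : E m × E m => ind q.2 q.1) = fun q : E m × E m => ind q.1 q.2 := by
    funext q
    exact ind_symm _ _
  rw [h]
  exact meas_ind

theorem meas_ind3 {m : ℕ} (z : E m) : Measurable (fun y : E m => ind y z) := by
  have h : (fun y : E m => ind y z) = (Metric.ball z 1).indicator (fun _ => (1 : ℝ≥0∞)) := rfl
  rw [h]
  exact measurable_const.indicator measurableSet_ball

/-- the weighted energy is at most an average of the energies in balls -/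
theorem nrg_le {m : ℕ} (M : ℕ) (h : E m → ℂ) (hh : Measurable h) (w : E m) :
    volume (Metric.ball (0 : E m) 1) * nrg M h w ≤
      ENNReal.ofReal (3 ^ M) * ∫⁻ z : E m, lc h z * ENNReal.ofReal (W M (z - w)) := by
  have hW : Measurable (fun z : E m => ENNReal.ofReal (W M (z - w))) := meas_W1 M w
  have hH : Measurable (fun y : E m => ‖h y‖ₑ ^ 2) := hh.enorm.pow_const 2
  have hj : Measurable (fun q : E m × E m =>
      ind q.2 q.1 * ‖h q.2‖ₑ ^ 2 * ENNReal.ofReal (W M (q.1 - w))) :=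
    (meas_ind2.mul (hH.comp measurable_snd)).mul (hW.comp measurable_fst)
  have hj' : Measurable (fun q : E m × E m =>
      ind q.1 q.2 * ‖h q.1‖ₑ ^ 2 * ENNReal.ofReal (W M (q.2 - w))) :=
    (meas_ind.mul (hH.comp measurable_fst)).mul (hW.comp measurable_snd)
  have hj2 : Measurable (fun y : E m => ∫⁻ z : E m,
      ind y z * ‖h y‖ₑ ^ 2 * ENNReal.ofReal (W M (z - w))) := hj'.lintegral_prod_right'
  have e1 : ∫⁻ z : E m, lc h z * ENNReal.ofReal (W M (z - w)) =
      ∫⁻ z : E m, ∫⁻ y : E m, ind y z * ‖h y‖ₑ ^ 2 * ENNReal.ofReal (W M (z - w)) := by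
    refine lintegral_congr fun z => ?_
    have hz : Measurable (fun y : E m => ind y z * ‖h y‖ₑ ^ 2) := (meas_ind3 z).mul hH
    rw [lc_eq, lintegral_mul_const _ hz]
  rw [e1, lintegral_lintegral_swap hj.aemeasurable, ← lintegral_const_mul _ hj2]
  unfold nrg
  have hj3 : Measurable (fun y : E m => ‖h y‖ₑ ^ (2 : ℝ) * ENNReal.ofReal (W M (y - w))) :=
    (hh.enorm.pow_const _).mul hW
  rw [← lintegral_const_mul _ hj3]
  refine lintegral_mono fun y => ?_
  simp only
  have e2 : ∫⁻ z : E m, ind y z * ‖h y‖ₑ ^ 2 * ENNReal.ofReal (W M (z - w)) =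
      ∫⁻ z in Metric.ball y 1, ‖h y‖ₑ ^ 2 * ENNReal.ofReal (W M (z - w)) := by
    rw [← lintegral_indicator measurableSet_ball]
    refine lintegral_congr fun z => ?_
    rw [ind_symm]
    unfold ind
    by_cases hy : z ∈ Metric.ball y 1
    · rw [indicator_of_mem hy, indicator_of_mem hy, one_mul]
    · rw [indicator_of_notMem hy, indicator_of_notMem hy, zero_mul, zero_mul]
  rw [e2]
  have hW2 : Measurable (fun z : E m => ‖h y‖ₑ ^ 2 * ENNReal.ofReal (W M (z - w))) :=
    measurable_const.mul hW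
  have e3 : ∫⁻ z in Metric.ball y 1, ‖h y‖ₑ ^ 2 * ENNReal.ofReal (W M (y - w)) ≤
      ENNReal.ofReal (3 ^ M) * ∫⁻ z in Metric.ball y 1, ‖h y‖ₑ ^ 2 * ENNReal.ofReal (W M (z - w)) := by
    rw [← lintegral_const_mul _ hW2]
    refine setLIntegral_mono (measurable_const.mul hW2) fun z hz => ?_
    have h1 : ‖y - z‖ ≤ 1 := by
      rw [← dist_eq_norm, dist_comm]; exact (Metric.mem_ball.mp hz).le
    have h2 := ENNReal.ofReal_le_ofReal (W_le M y z w h1)
    rw [ENNReal.ofReal_mul (by positivity)] at h2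
    calc ‖h y‖ₑ ^ 2 * ENNReal.ofReal (W M (y - w))
        ≤ ‖h y‖ₑ ^ 2 * (ENNReal.ofReal (3 ^ M) * ENNReal.ofReal (W M (z - w))) := by gcongr
      _ = _ := by ring
  refine le_trans (le_of_eq ?_) e3
  rw [lintegral_const, Measure.restrict_apply MeasurableSet.univ, univ_inter,
    Measure.addHaar_ball_center volume y 1, ENNReal.rpow_two]
  ring


theorem lc_def {m : ℕ} (h : E m → ℂ) (z : E m) :
    lc h z = ∫⁻ y in Metric.ball z 1, ‖h y‖ₑ ^ 2 := rfl

attribute [local irreducible] ind lc ev W nrg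

theorem pow_nrg_le {m : ℕ} (q : ℝ) (hq : 1 ≤ q) (h : E m → ℂ) (hh : Measurable h) (w : E m) :
    nrg (m + 1) h w ^ q ≤ (ENNReal.ofReal (3 ^ (m + 1)) / volume (Metric.ball (0 : E m) 1)) ^ q *
      (∫⁻ x : E m, ENNReal.ofReal (W (m + 1) x)) ^ (q - 1) *
        ∫⁻ z : E m, lc h z ^ q * ENNReal.ofReal (W (m + 1) (z - w)) := by
  have hV0 : volume (Metric.ball (0 : E m) 1) ≠ 0 :=
    (Metric.measure_ball_pos volume (0 : E m) one_pos).ne'
  have hVt : volume (Metric.ball (0 : E m) 1) ≠ ⊤ := measure_ball_lt_top.ne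
  have hlc : Measurable (fun z : E m => lc h z) := by
    have h1 : (fun z : E m => lc h z) = fun z => ∫⁻ y, ind y z * ‖h y‖ₑ ^ 2 := by
      funext z
      exact lc_eq h z
    rw [h1]
    have h2 : Measurable (fun y : E m => ‖h y‖ₑ ^ 2) := hh.enorm.pow_const 2
    have h3 : Measurable (fun r : E m × E m => ind r.2 r.1 * ‖h r.2‖ₑ ^ 2) :=
      meas_ind2.mul (h2.comp measurable_snd)
    exact h3.lintegral_prod_right'
  have h1 : nrg (m + 1) h w ≤ (ENNReal.ofReal (3 ^ (m + 1)) / volume (Metric.ball (0 : E m) 1)) *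
      ∫⁻ z : E m, lc h z * ENNReal.ofReal (W (m + 1) (z - w)) := by
    have h2 := nrg_le (m + 1) h hh w
    rw [ENNReal.div_eq_inv_mul, mul_assoc]
    calc nrg (m + 1) h w = (volume (Metric.ball (0 : E m) 1))⁻¹ *
          (volume (Metric.ball (0 : E m) 1) * nrg (m + 1) h w) := by
          rw [← mul_assoc, ENNReal.inv_mul_cancel hV0 hVt, one_mul]
      _ ≤ _ := by gcongr
  have h2 := jens (volume : Measure (E m)) (fun z => ENNReal.ofReal (W (m + 1) (z - w)))
    (meas_W1 (m + 1) w) (fun z => lc h z) hlc hq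
  rw [lintegral_sub_right_eq_self (fun z : E m => ENNReal.ofReal (W (m + 1) z)) w] at h2
  calc nrg (m + 1) h w ^ q ≤ ((ENNReal.ofReal (3 ^ (m + 1)) / volume (Metric.ball (0 : E m) 1)) *
      ∫⁻ z : E m, lc h z * ENNReal.ofReal (W (m + 1) (z - w))) ^ q :=
        ENNReal.rpow_le_rpow h1 (by linarith)
    _ = (ENNReal.ofReal (3 ^ (m + 1)) / volume (Metric.ball (0 : E m) 1)) ^ q *
      (∫⁻ z : E m, lc h z * ENNReal.ofReal (W (m + 1) (z - w))) ^ q :=
        ENNReal.mul_rpow_of_nonneg _ _ (by linarith)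
    _ ≤ _ := by
        rw [mul_assoc]
        gcongr

theorem int_nrg_le {m : ℕ} (q : ℝ) (hq : 1 ≤ q) (h : E m → ℂ) (hh : Measurable h) :
    ∫⁻ w : E m, nrg (m + 1) h w ^ q ≤
      (ENNReal.ofReal (3 ^ (m + 1)) / volume (Metric.ball (0 : E m) 1)) ^ q *
      (∫⁻ x : E m, ENNReal.ofReal (W (m + 1) x)) ^ (q - 1) *
      (∫⁻ x : E m, ENNReal.ofReal (W (m + 1) x)) * ∫⁻ z : E m, lc h z ^ q := by
  have hlc : Measurable (fun z : E m => lc h z) := by
    have h1 : (fun z : E m => lc h z) = fun z => ∫⁻ y, ind y z * ‖h y‖ₑ ^ 2 := by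
      funext z
      exact lc_eq h z
    rw [h1]
    have h2 : Measurable (fun y : E m => ‖h y‖ₑ ^ 2) := hh.enorm.pow_const 2
    have h3 : Measurable (fun r : E m × E m => ind r.2 r.1 * ‖h r.2‖ₑ ^ 2) :=
      meas_ind2.mul (h2.comp measurable_snd)
    exact h3.lintegral_prod_right'
  have hj : Measurable (fun r : E m × E m => lc h r.2 ^ q *
      ENNReal.ofReal (W (m + 1) (r.2 - r.1))) := by
    refine Measurable.mul ((hlc.comp measurable_snd).pow_const q) ?_
    apply Measurable.ennreal_ofReal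
    have h1 : Continuous (fun r : E m × E m => r.2 - r.1) := continuous_snd.sub continuous_fst
    exact ((cont_W (m + 1)).comp h1).measurable
  calc ∫⁻ w : E m, nrg (m + 1) h w ^ q ≤
      ∫⁻ w : E m, (ENNReal.ofReal (3 ^ (m + 1)) / volume (Metric.ball (0 : E m) 1)) ^ q *
      (∫⁻ x : E m, ENNReal.ofReal (W (m + 1) x)) ^ (q - 1) *
        ∫⁻ z : E m, lc h z ^ q * ENNReal.ofReal (W (m + 1) (z - w)) :=
        lintegral_mono fun w => pow_nrg_le q hq h hh w
    _ = (ENNReal.ofReal (3 ^ (m + 1)) / volume (Metric.ball (0 : E m) 1)) ^ q *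
      (∫⁻ x : E m, ENNReal.ofReal (W (m + 1) x)) ^ (q - 1) *
        ∫⁻ w : E m, ∫⁻ z : E m, lc h z ^ q * ENNReal.ofReal (W (m + 1) (z - w)) := by
        rw [lintegral_const_mul _ hj.lintegral_prod_right']
    _ = (ENNReal.ofReal (3 ^ (m + 1)) / volume (Metric.ball (0 : E m) 1)) ^ q *
      (∫⁻ x : E m, ENNReal.ofReal (W (m + 1) x)) ^ (q - 1) *
        ∫⁻ z : E m, ∫⁻ w : E m, lc h z ^ q * ENNReal.ofReal (W (m + 1) (z - w)) := by
        rw [lintegral_lintegral_swap hj.aemeasurable]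
    _ = (ENNReal.ofReal (3 ^ (m + 1)) / volume (Metric.ball (0 : E m) 1)) ^ q *
      (∫⁻ x : E m, ENNReal.ofReal (W (m + 1) x)) ^ (q - 1) *
        ∫⁻ z : E m, lc h z ^ q * ∫⁻ x : E m, ENNReal.ofReal (W (m + 1) x) := by
        congr 1
        refine lintegral_congr fun z => ?_
        rw [lintegral_const_mul _ (meas_W2 (m + 1) z),
          lintegral_sub_left_eq_self (fun x : E m => ENNReal.ofReal (W (m + 1) x)) z]
    _ = _ := by
        rw [lintegral_mul_const _ (hlc.pow_const q)]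
        ring

theorem t : S_LOC → S_ENL := by
  intro hL m p hm hp2 hp4
  obtain ⟨C, A, hC, h⟩ := hL m p hm hp2 hp4
  have hq : 1 ≤ p / 2 := by linarith
  have hV0 : volume (Metric.ball (0 : E m) 1) ≠ 0 :=
    (Metric.measure_ball_pos volume (0 : E m) one_pos).ne'
  have hTt : ∫⁻ x : E m, ENNReal.ofReal (W (m + 1) x) ≠ ⊤ := (fin_W (by omega)).ne
  set D : ℝ≥0∞ := (ENNReal.ofReal (3 ^ (m + 1)) / volume (Metric.ball (0 : E m) 1)) ^ (p / 2) *
      (∫⁻ x : E m, ENNReal.ofReal (W (m + 1) x)) ^ (p / 2 - 1) *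
      (∫⁻ x : E m, ENNReal.ofReal (W (m + 1) x)) with hD
  have hDt : D ≠ ⊤ := by
    rw [hD]
    refine ENNReal.mul_ne_top (ENNReal.mul_ne_top ?_ ?_) hTt
    · exact ENNReal.rpow_ne_top_of_nonneg (by linarith) (ENNReal.div_ne_top ENNReal.ofReal_ne_top hV0)
    · exact ENNReal.rpow_ne_top_of_nonneg (by linarith) hTt
  refine ⟨(D.toReal + 1) * C, A, by positivity, ?_⟩
  intro n g hg k
  have hev := meas_ev k g
  -- measurability
  have hevt : ∀ t x : ℝ, Measurable (fun y : E m => ev k g t y x) := by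
    intro t x
    have h1 : Measurable (fun y : E m => (((t, x), y) : (ℝ × ℝ) × E m)) :=
      measurable_const.prodMk measurable_id
    exact hev.comp h1
  have hF : Measurable (fun r : (ℝ × ℝ) × E m =>
      lc (fun y => ev k g r.1.1 y r.1.2) r.2 ^ (p / 2)) := by
    refine Measurable.pow_const ?_ _
    have h1 : (fun r : (ℝ × ℝ) × E m => lc (fun y => ev k g r.1.1 y r.1.2) r.2) =
        fun r => ∫⁻ y, ind y r.2 * ‖ev k g r.1.1 y r.1.2‖ₑ ^ 2 := by
      funext r
      exact lc_eq _ _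
    rw [h1]
    have h2 : Measurable (fun s : ((ℝ × ℝ) × E m) × E m => ‖ev k g s.1.1.1 s.2 s.1.1.2‖ₑ ^ 2) := by
      have h3 : Measurable (fun s : ((ℝ × ℝ) × E m) × E m => ((s.1.1, s.2) : (ℝ × ℝ) × E m)) :=
        (measurable_fst.comp measurable_fst).prodMk measurable_snd
      exact (hev.comp h3).enorm.pow_const 2
    have h4 : Measurable (fun s : ((ℝ × ℝ) × E m) × E m => ind s.2 s.1.2) := by
      have h5 : Measurable (fun s : ((ℝ × ℝ) × E m) × E m => ((s.1.2, s.2) : E m × E m)) :=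
        (measurable_snd.comp measurable_fst).prodMk measurable_snd
      exact meas_ind2.comp h5
    exact (h4.mul h2).lintegral_prod_right'
  have step1 : ∫⁻ t in Icc (0 : ℝ) 2, ∫⁻ x : ℝ, ∫⁻ w : E m,
      nrg (m + 1) (fun y => ev k g t y x) w ^ (p / 2) ≤
      D * ∫⁻ t in Icc (0 : ℝ) 2, ∫⁻ x : ℝ, ∫⁻ z : E m, lc (fun y => ev k g t y x) z ^ (p / 2) := by
    have hG : Measurable (fun r : ℝ × ℝ => ∫⁻ z : E m, lc (fun y => ev k g r.1 y r.2) z ^ (p / 2)) :=
      hF.lintegral_prod_right'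
    have hG1 : ∀ t : ℝ, Measurable (fun x : ℝ => ∫⁻ z : E m,
        lc (fun y => ev k g t y x) z ^ (p / 2)) := by
      intro t
      have h1 : Measurable (fun x : ℝ => ((t, x) : ℝ × ℝ)) := measurable_const.prodMk measurable_id
      exact hG.comp h1
    rw [← lintegral_const_mul _ (hG.lintegral_prod_right')]
    refine lintegral_mono fun t => ?_
    simp only
    rw [← lintegral_const_mul _ (hG1 t)]
    refine lintegral_mono fun x => ?_
    exact int_nrg_le (p / 2) hq _ (hevt t x)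
  have step2 : ∫⁻ t in Icc (0 : ℝ) 2, ∫⁻ x : ℝ, ∫⁻ z : E m,
        lc (fun y => ev k g t y x) z ^ (p / 2) =
      ∫⁻ z : E m, ∫⁻ t in Icc (0 : ℝ) 2, ∫⁻ x : ℝ, lc (fun y => ev k g t y x) z ^ (p / 2) := by
    have h1 : ∀ t : ℝ, ∫⁻ x : ℝ, ∫⁻ z : E m, lc (fun y => ev k g t y x) z ^ (p / 2) =
        ∫⁻ z : E m, ∫⁻ x : ℝ, lc (fun y => ev k g t y x) z ^ (p / 2) := by
      intro t
      have h2 : Measurable (fun r : ℝ × E m => (((t, r.1), r.2) : (ℝ × ℝ) × E m)) :=
        (measurable_const.prodMk measurable_fst).prodMk measurable_snd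
      exact lintegral_lintegral_swap (hF.comp h2).aemeasurable
    simp only [h1]
    refine lintegral_lintegral_swap ?_
    have h3 : Measurable (fun s : (ℝ × E m) × ℝ => (((s.1.1, s.2), s.1.2) : (ℝ × ℝ) × E m)) :=
      ((measurable_fst.comp measurable_fst).prodMk measurable_snd).prodMk
        (measurable_snd.comp measurable_fst)
    exact ((hF.comp h3).lintegral_prod_right').aemeasurable
  refine step1.trans ?_
  rw [step2]
  have step3 := h n g hg k
  have hDle : D ≤ ENNReal.ofReal (D.toReal + 1) := by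
    calc D = ENNReal.ofReal D.toReal := (ENNReal.ofReal_toReal hDt).symm
      _ ≤ _ := ENNReal.ofReal_le_ofReal (by linarith)
  calc D * ∫⁻ z : E m, ∫⁻ t in Icc (0 : ℝ) 2, ∫⁻ x : ℝ, lc (fun y => ev k g t y x) z ^ (p / 2)
      ≤ ENNReal.ofReal (D.toReal + 1) * (ENNReal.ofReal (C * ((n : ℝ) + 1) ^ A) *
        ∫⁻ z : E (m + 1), ‖g z‖ₑ ^ p) := by
        refine mul_le_mul' hDle ?_
        simp only [lc_def]
        exact step3
    _ = _ := by
        rw [← mul_assoc, ← ENNReal.ofReal_mul (by positivity), mul_assoc (D.toReal + 1)]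

end Pool.Agent.K9h96.LS.ENL
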