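import Pool.Agent.K9h96.LS.Stm
import Pool.Agent.N655.LS.EN

/-!
# (FS) finite speed of propagation (helper99)
-/

set_option autoImplicit false

open MeasureTheory Set Filter Topology
open scoped ENNReal FourierTransform RealInnerProductSpace SchwartzMap

namespace Pool.Agent.K9h96.LS.FS

open Pool.Agent.N303.LS (E inv sym nrg W Aco S_ENA S_ENB)
open Pool.Agent.N655.LS (inv_fou inv_zero' nrg_zero cs_zero sn_zero inv_sn)

variable {d : ℕ}

/-- the energy of data which vanish in `B(z, 3)` -/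
theorem nrg_small (g : 𝓢(E d, ℂ)) (z : E d) (hg : ∀ x, ‖x - z‖ < 3 → g x = 0) (M : ℕ) :
    nrg M g z ≤ ENNReal.ofReal ((1 / 10) ^ M) * ∫⁻ x : E d, ‖g x‖ₑ ^ (2 : ℝ) := by
  unfold nrg
  rw [← lintegral_const_mul' _ _ ENNReal.ofReal_ne_top]
  refine lintegral_mono fun x => ?_
  by_cases hx : ‖x - z‖ < 3
  · rw [hg x hx]
    simp
  · rw [mul_comm]
    refine mul_le_mul_left (ENNReal.ofReal_le_ofReal ?_) _
    unfold W
    rw [one_div, inv_pow]
    rw [not_lt] at hx
    refine inv_anti₀ (by positivity) (pow_le_pow_left₀ (by norm_num) ?_ M)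
    nlinarith

/-- lower bound of the energy -/
theorem nrg_low (h : E d → ℂ) (z : E d) (M : ℕ) :
    ENNReal.ofReal ((4 / 5) ^ M) * ∫⁻ x in Metric.ball z (1 / 2), ‖h x‖ₑ ^ (2 : ℝ) ≤
      nrg M h z := by
  unfold nrg
  rw [← lintegral_const_mul' _ _ ENNReal.ofReal_ne_top]
  refine le_trans (setLIntegral_mono' Metric.isOpen_ball.measurableSet fun x hx => ?_)
    (setLIntegral_le_lintegral _ _)
  rw [mul_comm]
  refine mul_le_mul_right (ENNReal.ofReal_le_ofReal ?_) _
  unfold W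
  have h1 : ‖x - z‖ < 1 / 2 := by rwa [← dist_eq_norm]
  have h2 : 0 ≤ ‖x - z‖ := norm_nonneg _
  have h3 : ((4 : ℝ) / 5) ^ M = ((5 / 4) ^ M)⁻¹ := by rw [← inv_pow]; norm_num
  rw [h3]
  refine inv_anti₀ (by positivity) (pow_le_pow_left₀ (by positivity) ?_ M)
  nlinarith

theorem exp_two : Real.exp 2 < 7.4 := by
  have h1 := Real.exp_one_lt_d9
  have h2 : Real.exp 2 = Real.exp 1 * Real.exp 1 := by rw [← Real.exp_add]; norm_num
  rw [h2]
  have h3 := Real.exp_pos 1
  nlinarith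

theorem vanish (g : 𝓢(E d, ℂ)) (z : E d) (hg : ∀ x, ‖x - z‖ < 3 → g x = 0) (h : E d → ℂ)
    (hc : Continuous h)
    (hh : ∀ M : ℕ, d < 2 * M → nrg M h z ≤ ENNReal.ofReal (Real.exp (2 * M)) * nrg M g z) :
    h z = 0 := by
  have hfin : ∫⁻ x : E d, ‖g x‖ₑ ^ (2 : ℝ) ≠ ⊤ := by
    have h1 : eLpNorm (g : E d → ℂ) 2 volume < ⊤ := (g.memLp 2 volume).eLpNorm_lt_top
    have h2 := lintegral_rpow_enorm_lt_top_of_eLpNorm_lt_top (by norm_num) (by norm_num) h1
    simpa using h2.ne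
  have hb : ∀ M : ℕ, d < 2 * M → ∫⁻ x in Metric.ball z (1 / 2), ‖h x‖ₑ ^ (2 : ℝ) ≤
      ENNReal.ofReal (0.925 ^ M) * ∫⁻ x : E d, ‖g x‖ₑ ^ (2 : ℝ) := by
    intro M hM
    have h1 := (nrg_low h z M).trans ((hh M hM).trans
      (mul_le_mul_right (nrg_small g z hg M) _))
    have h2 : ENNReal.ofReal ((5 / 4) ^ M) * ENNReal.ofReal ((4 / 5) ^ M) = 1 := by
      rw [← ENNReal.ofReal_mul (by positivity), ← mul_pow]
      norm_num
    calc ∫⁻ x in Metric.ball z (1 / 2), ‖h x‖ₑ ^ (2 : ℝ)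
        = ENNReal.ofReal ((5 / 4) ^ M) * (ENNReal.ofReal ((4 / 5) ^ M) *
          ∫⁻ x in Metric.ball z (1 / 2), ‖h x‖ₑ ^ (2 : ℝ)) := by rw [← mul_assoc, h2, one_mul]
      _ ≤ ENNReal.ofReal ((5 / 4) ^ M) * (ENNReal.ofReal (Real.exp (2 * M)) *
          (ENNReal.ofReal ((1 / 10) ^ M) * ∫⁻ x : E d, ‖g x‖ₑ ^ (2 : ℝ))) :=
          mul_le_mul_right h1 _
      _ = ENNReal.ofReal ((5 / 4) ^ M * Real.exp (2 * M) * (1 / 10) ^ M) *
          ∫⁻ x : E d, ‖g x‖ₑ ^ (2 : ℝ) := by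
          rw [ENNReal.ofReal_mul (by positivity), ENNReal.ofReal_mul (by positivity)]
          ring
      _ ≤ _ := by
          refine mul_le_mul_left (ENNReal.ofReal_le_ofReal ?_) _
          have h3 : Real.exp (2 * M) = Real.exp 2 ^ M := by
            rw [← Real.exp_nat_mul]
            congr 1
            ring
          rw [h3, ← mul_pow, ← mul_pow]
          refine pow_le_pow_left₀ (by positivity) ?_ M
          have := exp_two
          linarith
  have hz : ∫⁻ x in Metric.ball z (1 / 2), ‖h x‖ₑ ^ (2 : ℝ) = 0 := by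
    refine le_antisymm ?_ bot_le
    have hl : Tendsto (fun M : ℕ => ENNReal.ofReal (0.925 ^ M) *
        ∫⁻ x : E d, ‖g x‖ₑ ^ (2 : ℝ)) atTop (𝓝 0) := by
      have h1 : Tendsto (fun M : ℕ => (0.925 : ℝ) ^ M) atTop (𝓝 0) :=
        tendsto_pow_atTop_nhds_zero_of_lt_one (by norm_num) (by norm_num)
      have h2 := ENNReal.tendsto_ofReal h1
      rw [ENNReal.ofReal_zero] at h2
      have h3 := ENNReal.Tendsto.mul_const h2 (Or.inr hfin)
      rwa [zero_mul] at h3
    refine ge_of_tendsto hl ?_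
    filter_upwards [eventually_gt_atTop d] with M hM
    exact hb M (by omega)
  have hm : Measurable fun x => ‖h x‖ₑ ^ (2 : ℝ) := (hc.enorm.measurable.pow_const _)
  rw [lintegral_eq_zero_iff hm] at hz
  have hae : h =ᵐ[volume.restrict (Metric.ball z (1 / 2))] fun _ => 0 := by
    filter_upwards [hz] with x hx
    simpa using hx
  have := Measure.eqOn_open_of_ae_eq hae Metric.isOpen_ball hc.continuousOn
    continuous_const.continuousOn
  exact this (Metric.mem_ball_self (by norm_num))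

theorem cont_sl {φ : ℝ → E d → ℂ} (h : Continuous fun p : ℝ × E d => φ p.1 p.2) (t : ℝ) :
    Continuous (φ t) := h.comp (continuous_const.prodMk continuous_id)

theorem t : S_ENA → S_ENB → S_FS := by
  intro hA hB d g z hg
  obtain ⟨B, Dφ, DA, hac⟩ := hA d g
  have hφ0 : (inv fun ξ => sym (Sum.inr true) 0 ξ * 𝓕 (g : E d → ℂ) ξ) = (g : E d → ℂ) := by
    rw [← inv_fou g]
    congr 1
    funext ξ
    simp only [sym]
    rw [cs_zero, one_mul, inv_fou]
  have hA0 : ∀ j : Fin d, (inv fun ξ => sym (Sum.inl j) 0 ξ * 𝓕 (g : E d → ℂ) ξ) =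
      fun _ => (0 : ℂ) := by
    intro j
    rw [← inv_zero']
    congr 1
    funext ξ
    simp only [sym]
    rw [sn_zero, mul_zero, zero_mul]
  have key : ∀ s : ℝ, 0 ≤ s → s ≤ 2 → ∀ M : ℕ, d < 2 * M →
      nrg M (inv fun ξ => sym (Sum.inr true) s ξ * 𝓕 (g : E d → ℂ) ξ) z +
        ∑ j : Fin d, nrg M (inv fun ξ => sym (Sum.inl j) s ξ * 𝓕 (g : E d → ℂ) ξ) z ≤
      ENNReal.ofReal (Real.exp (2 * M)) * nrg M g z := by
    intro s hs0 hs2 M hdM
    have h := hB d M hdM B _ _ Dφ DA hac z s hs0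
    simp only [hφ0, hA0, nrg_zero, Finset.sum_const_zero, add_zero] at h
    have hM : (0 : ℝ) ≤ M := Nat.cast_nonneg M
    have h' : Real.exp (M * s) ≤ Real.exp (2 * M) := Real.exp_le_exp.2 (by nlinarith)
    exact h.trans (mul_le_mul_left (ENNReal.ofReal_le_ofReal h') _)
  have kt : ∀ s : ℝ, 0 ≤ s → s ≤ 2 →
      inv (fun ξ => sym (Sum.inr true) s ξ * 𝓕 (g : E d → ℂ) ξ) z = 0 := by
    intro s hs0 hs2
    refine vanish g z hg _ ?_ fun M hM => le_trans le_self_add (key s hs0 hs2 M hM)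
    exact cont_sl (φ := fun s => inv fun ξ => sym (Sum.inr true) s ξ * 𝓕 (g : E d → ℂ) ξ) hac.cφ s
  intro t ht0 ht2 k
  rcases k with j | b
  · refine vanish g z hg _ ?_ fun M hM => ?_
    · exact cont_sl (φ := fun s => inv fun ξ => sym (Sum.inl j) s ξ * 𝓕 (g : E d → ℂ) ξ)
        (hac.cA j) t
    · refine le_trans ?_ (key t ht0 ht2 M hM)
      refine le_trans ?_ le_add_self
      exact Finset.single_le_sum
        (f := fun j => nrg M (inv fun ξ => sym (Sum.inl j) t ξ * 𝓕 (g : E d → ℂ) ξ) z)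
        (fun _ _ => bot_le) (Finset.mem_univ j)
  · cases b
    swap
    · exact kt t ht0 ht2
    · rcases Nat.eq_zero_or_pos d with hd | hd
      · subst hd
        have h0 : (inv fun ξ : E 0 => sym (Sum.inr false) t ξ * 𝓕 (g : E 0 → ℂ) ξ) =
            fun _ => (0 : ℂ) := by
          rw [← inv_zero']
          congr 1
          funext ξ
          have hξ : ξ = 0 := Subsingleton.elim _ _
          simp only [sym]
          unfold Pool.Agent.N303.LS.sn
          rw [hξ]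
          simp
        rw [h0]
      · have : Nonempty (Fin d) := ⟨⟨0, hd⟩⟩
        have hnt : Nontrivial (E d) := inferInstance
        have h1 := inv_sn g ht0 z
        have h2 : inv (fun ξ => sym (Sum.inr false) t ξ * 𝓕 (g : E d → ℂ) ξ) z =
            ∫ s in Set.Ioc 0 t, inv (fun ξ => sym (Sum.inr true) s ξ * 𝓕 (g : E d → ℂ) ξ) z := h1
        rw [h2]
        rw [setIntegral_congr_fun measurableSet_Ioc
          (g := fun _ => (0 : ℂ)) fun s hs => kt s hs.1.le (hs.2.trans ht2)]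
        simp

end Pool.Agent.K9h96.LS.FS
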