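import Pool.Agent.K9h96.LS.LOCB
set_option autoImplicit false

/-!
# (LOC): localisation by finite speed of propagation (helper99)
-/

open MeasureTheory Set
open scoped ENNReal FourierTransform RealInnerProductSpace SchwartzMap

namespace Pool.Agent.K9h96.LS.LOC

open Pool.Agent.TH280.LS (e norm_e continuous_e)
open Pool.Agent.N303.LS (E inv sym sym_le sym_meas sym_int)

variable {m : ℕ}

/-- the projection to the first coordinates -/
noncomputable def hdL (m : ℕ) : E (m + 1) →L[ℝ] E m :=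
  LinearMap.toContinuousLinearMap
    { toFun := hd
      map_add' := fun a b => by ext i; rfl
      map_smul' := fun c a => by ext i; rfl }

lemma hdL_apply (z : E (m + 1)) : hdL m z = hd z := rfl

/-- localisation in `y` -/
lemma exists_loc (g : 𝓢(E (m + 1), ℂ)) (w : E m) : ∃ (h : 𝓢(E (m + 1), ℂ)) (ψ : E m → ℂ),
    (∀ y x, h (jn y x) = ψ y * g (jn y x)) ∧ (∀ y ∈ Metric.closedBall w 5, ψ y = 1) ∧
    (∀ y, ‖ψ y‖ ≤ 1) ∧ ∀ y, y ∉ Metric.ball w 6 → ψ y = 0 := by
  let b : ContDiffBump w := ⟨5, 6, by norm_num, by norm_num⟩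
  have hb : (fun y : E m => b y).HasTemperateGrowth :=
    HasCompactSupport.hasTemperateGrowth b.hasCompactSupport b.contDiff
  have hψ : (fun z : E (m + 1) => ((b (hdL m z) : ℝ) : ℂ)).HasTemperateGrowth := by
    have h1 : (fun z : E (m + 1) => b (hdL m z)).HasTemperateGrowth :=
      hb.comp (hdL m).hasTemperateGrowth
    exact Function.HasTemperateGrowth.comp
      Function.Complex.hasTemperateGrowth_ofReal h1
  refine ⟨SchwartzMap.smulLeftCLM ℂ (fun z : E (m + 1) => ((b (hdL m z) : ℝ) : ℂ)) g,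
    fun y => ((b y : ℝ) : ℂ), ?_, ?_, ?_, ?_⟩
  · intro y x
    rw [SchwartzMap.smulLeftCLM_apply_apply hψ, hdL_apply, hd_jn, smul_eq_mul]
  · intro y hy
    show ((b y : ℝ) : ℂ) = 1
    rw [b.one_of_mem_closedBall hy, Complex.ofReal_one]
  · intro y
    show ‖((b y : ℝ) : ℂ)‖ ≤ 1
    rw [Complex.norm_real, Real.norm_of_nonneg b.nonneg]
    exact b.le_one
  · intro y hy
    show ((b y : ℝ) : ℂ) = 0
    rw [Metric.mem_ball, not_lt] at hy
    rw [b.zero_of_le_dist hy, Complex.ofReal_zero]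

lemma fourier_sub (g h : 𝓢(E (m + 1), ℂ)) (ζ : E (m + 1)) :
    𝓕 ((g - h : 𝓢(E (m + 1), ℂ)) : E (m + 1) → ℂ) ζ =
      𝓕 (g : E (m + 1) → ℂ) ζ - 𝓕 (h : E (m + 1) → ℂ) ζ := by
  rw [fourier_e, fourier_e, fourier_e,
    ← integral_sub (e_mul_int g.integrable ζ) (e_mul_int h.integrable ζ)]
  refine integral_congr_ae (Filter.Eventually.of_forall fun v => ?_)
  simp only [SchwartzMap.sub_apply, mul_sub]

/-- finite speed of propagation -/
lemma ev_eq (hFS : S_FS) (g h : 𝓢(E (m + 1), ℂ)) (w : E m)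
    (hgh : ∀ y x, y ∈ Metric.closedBall w 5 → h (jn y x) = g (jn y x))
    (k : Fin (m + 1) ⊕ Bool) {t : ℝ} (ht0 : 0 ≤ t) (ht2 : t ≤ 2) {y : E m}
    (hy : y ∈ Metric.ball w 1) (x : ℝ) : ev k g t y x = ev k h t y x := by
  have h1 := hFS (m + 1) (g - h) (jn y x) ?_ t ht0 ht2 k
  · have e1 : inv (fun ξ => sym k t ξ * 𝓕 ((g - h : 𝓢(E (m + 1), ℂ)) : E (m + 1) → ℂ) ξ) (jn y x) =
        ev k g t y x - ev k h t y x := by
      unfold ev inv
      have ig : ∀ g : 𝓢(E (m + 1), ℂ), Integrable (fun ξ : E (m + 1) =>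
          Complex.exp (((2 * Real.pi * ⟪jn y x, ξ⟫ : ℝ) : ℂ) * Complex.I) *
            (sym k t ξ * 𝓕 (g : E (m + 1) → ℂ) ξ)) := by
        intro g
        refine (sym_int k t ht0 ht2 g).bdd_mul (c := 1) ?_
          (Filter.Eventually.of_forall fun ζ => (norm_e _).le)
        exact (continuous_e.comp (by fun_prop : Continuous fun ξ : E (m + 1) =>
          (⟪jn y x, ξ⟫ : ℝ))).aestronglyMeasurable
      rw [← integral_sub (ig g) (ig h)]
      refine integral_congr_ae (Filter.Eventually.of_forall fun ξ => ?_)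
      simp only [fourier_sub]
      ring
    rw [e1] at h1
    exact sub_eq_zero.1 h1
  · intro z hz
    rw [SchwartzMap.sub_apply, sub_eq_zero]
    rw [← jn_hd_ls z]
    refine (hgh _ _ ?_).symm
    rw [← jn_hd_ls z, jn_sub] at hz
    have h2 := (norm_le_jn (hd z - y) (ls z - x)).trans_lt hz
    rw [Metric.mem_closedBall, dist_eq_norm]
    rw [Metric.mem_ball, dist_eq_norm] at hy
    have h3 : hd z - w = (hd z - y) + (y - w) := by abel
    rw [h3]
    refine (norm_add_le _ _).trans ?_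
    linarith

/-- Hölder on a ball -/
lemma holder {p : ℝ} (hp2 : 2 ≤ p) (w : E m) (f : E m → ℂ) (hf : Continuous f) :
    (∫⁻ y in Metric.ball w 6, ‖f y‖ₑ ^ 2) ^ (p / 2) ≤
      volume (Metric.ball w 6) ^ (p / 2 - 1) * ∫⁻ y in Metric.ball w 6, ‖f y‖ₑ ^ p := by
  have h := eLpNorm'_le_eLpNorm'_mul_rpow_measure_univ (p := 2) (q := p) (by norm_num) hp2
    (hf.aestronglyMeasurable (μ := volume.restrict (Metric.ball w 6)))
  unfold eLpNorm' at h
  have hp : 0 < p := by linarith
  have h2 := ENNReal.rpow_le_rpow h hp.le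
  rw [ENNReal.mul_rpow_of_nonneg _ _ hp.le, ← ENNReal.rpow_mul, ← ENNReal.rpow_mul,
    ← ENNReal.rpow_mul, Measure.restrict_apply_univ] at h2
  have e1 : 1 / 2 * p = p / 2 := by ring
  have e2 : 1 / p * p = 1 := by field_simp
  have e3 : (1 / 2 - 1 / p) * p = p / 2 - 1 := by field_simp
  rw [e1, e2, e3, ENNReal.rpow_one, mul_comm] at h2
  simpa using h2

/-- the main theorem of this file -/
theorem t : S_PR → S_FS → S_LOC := by
  intro hPR hFS m p hm hp2 hp4
  obtain ⟨C, A, hC, hone⟩ := one hPR hm p hp2 hp4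
  have hp : 0 < p := by linarith
  set V : ℝ≥0∞ := volume (Metric.ball (0 : E m) 6) with hV
  have hVt : V ≠ ⊤ := measure_ball_lt_top.ne
  have hV0 : V ≠ 0 := (Metric.measure_ball_pos volume _ (by norm_num)).ne'
  have hball : ∀ w : E m, volume (Metric.ball w 6) = V := fun w =>
    Measure.addHaar_ball_center volume w 6
  refine ⟨C * V.toReal ^ (p / 2), A, ?_, fun n g hg k => ?_⟩
  · have : 0 < V.toReal := ENNReal.toReal_pos hV0 hVt
    positivity
  set K : ℝ≥0∞ := ENNReal.ofReal (C * ((n : ℝ) + 1) ^ A) with hK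
  -- the estimate for fixed `w`
  have hw : ∀ w : E m, ∫⁻ t in Icc (0 : ℝ) 2, ∫⁻ x : ℝ,
      (∫⁻ y in Metric.ball w 1, ‖ev k g t y x‖ₑ ^ 2) ^ (p / 2) ≤
      K * (V ^ (p / 2 - 1) * ∫⁻ z : E (m + 1),
        (Metric.ball w 6).indicator (fun _ => (1 : ℝ≥0∞)) (hd z) * ‖g z‖ₑ ^ p) := by
    intro w
    obtain ⟨h, ψ, hh, hψ1, hψ, hψ0⟩ := exists_loc g w
    have hz : ∀ (η : E m) (ξ : ℝ), (2 : ℝ) ^ n < |ξ| → 𝓕 (h : E (m + 1) → ℂ) (jn η ξ) = 0 :=
      fun η ξ hξ => loc_zero hg hh hξ η
    have hgh : ∀ y x, y ∈ Metric.closedBall w 5 → h (jn y x) = g (jn y x) := by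
      intro y x hy
      rw [hh, hψ1 y hy, one_mul]
    calc ∫⁻ t in Icc (0 : ℝ) 2, ∫⁻ x : ℝ,
          (∫⁻ y in Metric.ball w 1, ‖ev k g t y x‖ₑ ^ 2) ^ (p / 2)
        ≤ ∫⁻ t in Icc (0 : ℝ) 2, ∫⁻ x : ℝ, (∫⁻ y : E m, ‖ev k h t y x‖ₑ ^ 2) ^ (p / 2) := by
          refine setLIntegral_mono' measurableSet_Icc fun t ht => ?_
          refine lintegral_mono fun x => ?_
          refine ENNReal.rpow_le_rpow ?_ (by positivity)
          calc ∫⁻ y in Metric.ball w 1, ‖ev k g t y x‖ₑ ^ 2
              = ∫⁻ y in Metric.ball w 1, ‖ev k h t y x‖ₑ ^ 2 := by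
                refine setLIntegral_congr_fun measurableSet_ball fun y hy => ?_
                rw [ev_eq hFS g h w hgh k ht.1 ht.2 hy x]
            _ ≤ ∫⁻ y : E m, ‖ev k h t y x‖ₑ ^ 2 := setLIntegral_le_lintegral _ _
      _ ≤ K * ∫⁻ x : ℝ, (∫⁻ y : E m, ‖h (jn y x)‖ₑ ^ 2) ^ (p / 2) := hone n h hz k
      _ ≤ K * ∫⁻ x : ℝ, V ^ (p / 2 - 1) *
          ∫⁻ y : E m, (Metric.ball w 6).indicator (fun _ => (1 : ℝ≥0∞)) y * ‖g (jn y x)‖ₑ ^ p := by
          refine mul_le_mul_right (lintegral_mono fun x => ?_) _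
          have h1 : ∫⁻ y : E m, ‖h (jn y x)‖ₑ ^ 2 ≤
              ∫⁻ y in Metric.ball w 6, ‖g (jn y x)‖ₑ ^ 2 := by
            rw [← lintegral_indicator measurableSet_ball]
            refine lintegral_mono fun y => ?_
            by_cases hy : y ∈ Metric.ball w 6
            · rw [indicator_of_mem hy, hh, enorm_mul]
              have : ‖ψ y‖ₑ ≤ 1 := by
                rw [← ofReal_norm]
                exact ENNReal.ofReal_le_one.2 (hψ y)
              calc (‖ψ y‖ₑ * ‖g (jn y x)‖ₑ) ^ 2 ≤ (1 * ‖g (jn y x)‖ₑ) ^ 2 := by gcongr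
                _ = ‖g (jn y x)‖ₑ ^ 2 := by rw [one_mul]
            · rw [indicator_of_notMem hy, hh, hψ0 y hy]
              simp
          have h2 := holder hp2 w (fun y => g (jn y x)) (g_y_cont g x)
          rw [hball w] at h2
          refine (ENNReal.rpow_le_rpow h1 (by positivity)).trans (h2.trans (le_of_eq ?_))
          congr 1
          rw [← lintegral_indicator measurableSet_ball]
          refine lintegral_congr fun y => ?_
          by_cases hy : y ∈ Metric.ball w 6
          · rw [indicator_of_mem hy, indicator_of_mem hy, one_mul]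
          · rw [indicator_of_notMem hy, indicator_of_notMem hy, zero_mul]
      _ = K * (V ^ (p / 2 - 1) * ∫⁻ z : E (m + 1),
          (Metric.ball w 6).indicator (fun _ => (1 : ℝ≥0∞)) (hd z) * ‖g z‖ₑ ^ p) := by
          congr 1
          have hmeas : Measurable fun z : E (m + 1) =>
              (Metric.ball w 6).indicator (fun _ => (1 : ℝ≥0∞)) (hd z) * ‖g z‖ₑ ^ p := by
            refine Measurable.mul ?_ (g.continuous.measurable.enorm.pow_const p)
            exact (measurable_const.indicator measurableSet_ball).comp (hdL m).continuous.measurable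
          rw [lint_jn _ hmeas, lintegral_const_mul']
          · simp only [hd_jn]
          · exact ENNReal.rpow_ne_top_of_nonneg (by linarith) hVt
  -- integrate over `w`
  calc ∫⁻ w : E m, ∫⁻ t in Icc (0 : ℝ) 2, ∫⁻ x : ℝ,
        (∫⁻ y in Metric.ball w 1, ‖ev k g t y x‖ₑ ^ 2) ^ (p / 2)
      ≤ ∫⁻ w : E m, K * (V ^ (p / 2 - 1) * ∫⁻ z : E (m + 1),
        (Metric.ball w 6).indicator (fun _ => (1 : ℝ≥0∞)) (hd z) * ‖g z‖ₑ ^ p) :=
        lintegral_mono hw
    _ = K * V ^ (p / 2 - 1) * ∫⁻ w : E m, ∫⁻ z : E (m + 1),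
        (Metric.ball w 6).indicator (fun _ => (1 : ℝ≥0∞)) (hd z) * ‖g z‖ₑ ^ p := by
        rw [← lintegral_const_mul']
        · refine lintegral_congr fun w => ?_
          rw [mul_assoc]
        · exact ENNReal.mul_ne_top ENNReal.ofReal_ne_top
            (ENNReal.rpow_ne_top_of_nonneg (by linarith) hVt)
    _ = K * V ^ (p / 2 - 1) * (V * ∫⁻ z : E (m + 1), ‖g z‖ₑ ^ p) := by
        congr 1
        rw [lintegral_lintegral_swap, ← lintegral_const_mul' _ _ hVt]
        · refine lintegral_congr fun z => ?_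
          have e1 : ∀ w : E m, (Metric.ball w 6).indicator (fun _ => (1 : ℝ≥0∞)) (hd z) =
              (Metric.ball (hd z) 6).indicator (fun _ => (1 : ℝ≥0∞)) w := by
            intro w
            by_cases hy : hd z ∈ Metric.ball w 6
            · rw [indicator_of_mem hy, indicator_of_mem (Metric.mem_ball_comm.1 hy)]
            · rw [indicator_of_notMem hy, indicator_of_notMem fun h => hy (Metric.mem_ball_comm.1 h)]
          simp only [e1]
          have hgt : ‖g z‖ₑ ^ p ≠ ⊤ := ENNReal.rpow_ne_top_of_nonneg hp.le enorm_ne_top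
          rw [lintegral_mul_const' _ _ hgt, lintegral_indicator measurableSet_ball,
            setLIntegral_const, one_mul, hball]
        · apply Measurable.aemeasurable
          have e2 : (Function.uncurry fun (w : E m) (z : E (m + 1)) =>
              (Metric.ball w 6).indicator (fun _ => (1 : ℝ≥0∞)) (hd z) * ‖g z‖ₑ ^ p) =
              fun q : E m × E (m + 1) => {q : E m × E (m + 1) | dist (hd q.2) q.1 < 6}.indicator
                (fun _ => (1 : ℝ≥0∞)) q * ‖g q.2‖ₑ ^ p := by
            funext q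
            rfl
          rw [e2]
          have hhd : Continuous fun q : E m × E (m + 1) => hd q.2 :=
            (hdL m).continuous.comp continuous_snd
          refine Measurable.mul (measurable_const.indicator ?_)
            ((g.continuous.measurable.comp measurable_snd).enorm.pow_const p)
          exact (isOpen_lt (hhd.dist continuous_fst) continuous_const).measurableSet
    _ = ENNReal.ofReal (C * V.toReal ^ (p / 2) * ((n : ℝ) + 1) ^ A) *
        ∫⁻ z : E (m + 1), ‖g z‖ₑ ^ p := by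
        rw [← mul_assoc]
        congr 1
        have e3 : V ^ (p / 2 - 1) * V = V ^ (p / 2) := by
          conv_lhs => rw [← ENNReal.rpow_one V, ← ENNReal.rpow_mul, one_mul]
          rw [← ENNReal.rpow_add _ _ hV0 hVt]
          congr 1
          ring
        rw [mul_assoc, e3, hK]
        have e4 : V ^ (p / 2) = ENNReal.ofReal (V.toReal ^ (p / 2)) := by
          rw [← ENNReal.ofReal_rpow_of_nonneg ENNReal.toReal_nonneg (by positivity),
            ENNReal.ofReal_toReal hVt]
        rw [e4, ← ENNReal.ofReal_mul (by positivity)]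
        congr 1
        ring

end Pool.Agent.K9h96.LS.LOC
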