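import Pool.Agent.K9h96.LS.Stm
set_option autoImplicit false

/-!
# The propagators (leaf L6, helper39): `S_VVP → S_PR`
-/

open MeasureTheory Set
open scoped ENNReal

namespace Pool.Agent.K9h96.LS.PR

open Pool.Agent.TH280.LS (e ft Cut ra Vx e_add norm_e continuous_e measurable_e e_cos e_sin
  continuous_ft norm_ft_le e_zero)

variable {Ω : Type} [MeasurableSpace Ω]

/-! ### The functional -/

/-- the functional -/
noncomputable def Q (μ : Measure Ω) (q : ℝ) (f : Ω → ℝ → ℝ → ℂ) : ℝ≥0∞ :=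
  ∫⁻ t in Icc (0 : ℝ) 2, ∫⁻ x : ℝ, (∫⁻ ω, ‖f ω t x‖ₑ ^ 2 ∂μ) ^ q

/-- joint measurability -/
def JM (f : Ω → ℝ → ℝ → ℂ) : Prop := Measurable (fun z : Ω × ℝ × ℝ => f z.1 z.2.1 z.2.2)

lemma JM.inner (μ : Measure Ω) [SFinite μ] {f : Ω → ℝ → ℝ → ℂ} (hf : JM f) :
    Measurable (fun z : ℝ × ℝ => ∫⁻ ω, ‖f ω z.1 z.2‖ₑ ^ 2 ∂μ) := by
  have h1 : Measurable (fun z : (ℝ × ℝ) × Ω => ‖f z.2 z.1.1 z.1.2‖ₑ ^ 2) := by
    have h2 : Measurable (fun z : (ℝ × ℝ) × Ω => f z.2 z.1.1 z.1.2) :=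
      hf.comp (measurable_snd.prodMk measurable_fst)
    exact h2.enorm.pow_const 2
  exact h1.lintegral_prod_right'

lemma JM.inner_x (μ : Measure Ω) [SFinite μ] {f : Ω → ℝ → ℝ → ℂ} (hf : JM f) (t : ℝ) :
    Measurable (fun x : ℝ => ∫⁻ ω, ‖f ω t x‖ₑ ^ 2 ∂μ) :=
  (hf.inner μ).comp measurable_prodMk_left

lemma JM.at_tx {f : Ω → ℝ → ℝ → ℂ} (hf : JM f) (t x : ℝ) : Measurable (fun ω => f ω t x) :=
  Measurable.comp (g := fun z : Ω × ℝ × ℝ => f z.1 z.2.1 z.2.2) (f := fun ω => (ω, t, x)) hf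
    (measurable_id.prodMk measurable_const)

/-- crude power mean inequality -/
lemma pow_sum_le {ι : Type} (s : Finset ι) (A : ι → ℝ≥0∞) {q : ℝ} (hq : 0 < q) :
    (∑ j ∈ s, A j) ^ q ≤ (s.card : ℝ≥0∞) ^ q * ∑ j ∈ s, A j ^ q := by
  rcases s.eq_empty_or_nonempty with rfl | hs
  · simp [hq]
  obtain ⟨j, hj, hmax⟩ := s.exists_max_image A hs
  calc (∑ j ∈ s, A j) ^ q ≤ ((s.card : ℝ≥0∞) * A j) ^ q := by
        apply ENNReal.rpow_le_rpow _ hq.le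
        rw [← nsmul_eq_mul]
        exact Finset.sum_le_card_nsmul _ _ _ hmax
    _ = (s.card : ℝ≥0∞) ^ q * A j ^ q := ENNReal.mul_rpow_of_nonneg _ _ hq.le
    _ ≤ _ := by
        gcongr
        exact Finset.single_le_sum (f := fun j => A j ^ q) (fun _ _ => zero_le) hj

lemma sq_sum_le {ι : Type} (s : Finset ι) (a : ι → ℂ) :
    ‖∑ j ∈ s, a j‖ₑ ^ 2 ≤ (s.card : ℝ≥0∞) ^ 2 * ∑ j ∈ s, ‖a j‖ₑ ^ 2 := by
  have h2 : ‖∑ j ∈ s, a j‖ₑ ≤ ∑ j ∈ s, ‖a j‖ₑ := enorm_sum_le _ _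
  have h3 := pow_sum_le s (fun j => ‖a j‖ₑ) (q := 2) (by norm_num)
  calc ‖∑ j ∈ s, a j‖ₑ ^ 2 ≤ (∑ j ∈ s, ‖a j‖ₑ) ^ 2 := by gcongr
    _ ≤ _ := by
      simp only [ENNReal.rpow_two] at h3
      exact h3

lemma inner_sum (μ : Measure Ω) {ι : Type} (s : Finset ι)
    (f : ι → Ω → ℂ) (hf : ∀ j ∈ s, Measurable (f j)) :
    ∫⁻ ω, ‖∑ j ∈ s, f j ω‖ₑ ^ 2 ∂μ ≤
        (s.card : ℝ≥0∞) ^ 2 * ∑ j ∈ s, ∫⁻ ω, ‖f j ω‖ₑ ^ 2 ∂μ := by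
  calc ∫⁻ ω, ‖∑ j ∈ s, f j ω‖ₑ ^ 2 ∂μ
      ≤ ∫⁻ ω, (s.card : ℝ≥0∞) ^ 2 * ∑ j ∈ s, ‖f j ω‖ₑ ^ 2 ∂μ :=
        lintegral_mono fun ω => sq_sum_le s fun j => f j ω
    _ = _ := by
        rw [lintegral_const_mul' _ _ (by finiteness), lintegral_finsetSum]
        intro j hj
        exact (hf j hj).enorm.pow_const 2

lemma inner_sum_q (μ : Measure Ω) {q : ℝ} (hq : 0 < q) {ι : Type} (s : Finset ι)
    (f : ι → Ω → ℂ) (hf : ∀ j ∈ s, Measurable (f j)) :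
    (∫⁻ ω, ‖∑ j ∈ s, f j ω‖ₑ ^ 2 ∂μ) ^ q ≤
      ((s.card : ℝ≥0∞) ^ 3) ^ q * ∑ j ∈ s, (∫⁻ ω, ‖f j ω‖ₑ ^ 2 ∂μ) ^ q := by
  have e3 : (s.card : ℝ≥0∞) ^ 3 = (s.card : ℝ≥0∞) ^ 2 * (s.card : ℝ≥0∞) := pow_succ _ _
  calc (∫⁻ ω, ‖∑ j ∈ s, f j ω‖ₑ ^ 2 ∂μ) ^ q
      ≤ ((s.card : ℝ≥0∞) ^ 2 * ∑ j ∈ s, ∫⁻ ω, ‖f j ω‖ₑ ^ 2 ∂μ) ^ q :=
        ENNReal.rpow_le_rpow (inner_sum μ s f hf) hq.le
    _ = ((s.card : ℝ≥0∞) ^ 2) ^ q * (∑ j ∈ s, ∫⁻ ω, ‖f j ω‖ₑ ^ 2 ∂μ) ^ q :=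
        ENNReal.mul_rpow_of_nonneg _ _ hq.le
    _ ≤ ((s.card : ℝ≥0∞) ^ 2) ^ q * ((s.card : ℝ≥0∞) ^ q *
          ∑ j ∈ s, (∫⁻ ω, ‖f j ω‖ₑ ^ 2 ∂μ) ^ q) :=
        mul_le_mul_right (pow_sum_le _ _ hq) _
    _ = _ := by
        rw [e3, ENNReal.mul_rpow_of_nonneg _ _ hq.le, mul_assoc]

lemma Q_sum (μ : Measure Ω) [SFinite μ] {q : ℝ} (hq : 0 < q) {ι : Type} (s : Finset ι)
    (f : ι → Ω → ℝ → ℝ → ℂ) (hf : ∀ j ∈ s, JM (f j)) :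
    Q μ q (fun ω t x => ∑ j ∈ s, f j ω t x) ≤
      ((s.card : ℝ≥0∞) ^ 3) ^ q * ∑ j ∈ s, Q μ q (f j) := by
  have hm : ∀ j ∈ s, Measurable (fun z : ℝ × ℝ => (∫⁻ ω, ‖f j ω z.1 z.2‖ₑ ^ 2 ∂μ) ^ q) :=
    fun j hj => ((hf j hj).inner μ).pow_const q
  have hfin : ((s.card : ℝ≥0∞) ^ 3) ^ q ≠ ∞ := ENNReal.rpow_ne_top_of_nonneg hq.le
    (by finiteness)
  have h1 : ∀ t : ℝ, ∫⁻ x : ℝ, (∫⁻ ω, ‖∑ j ∈ s, f j ω t x‖ₑ ^ 2 ∂μ) ^ q ≤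
      ((s.card : ℝ≥0∞) ^ 3) ^ q * ∑ j ∈ s, ∫⁻ x : ℝ, (∫⁻ ω, ‖f j ω t x‖ₑ ^ 2 ∂μ) ^ q := by
    intro t
    have hmt : ∀ j ∈ s, Measurable (fun x : ℝ => (∫⁻ ω, ‖f j ω t x‖ₑ ^ 2 ∂μ) ^ q) :=
      fun j hj => ((hf j hj).inner_x μ t).pow_const q
    rw [← lintegral_finsetSum s hmt, ← lintegral_const_mul' _ _ hfin]
    exact lintegral_mono fun x => inner_sum_q μ hq s (fun j ω => f j ω t x)
      (fun j hj => (hf j hj).at_tx t x)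
  have hmm : ∀ j ∈ s, Measurable (fun t : ℝ => ∫⁻ x : ℝ, (∫⁻ ω, ‖f j ω t x‖ₑ ^ 2 ∂μ) ^ q) :=
    fun j hj => (hm j hj).lintegral_prod_right'
  unfold Q
  rw [← lintegral_finsetSum s hmm, ← lintegral_const_mul' _ _ hfin]
  exact lintegral_mono fun t => h1 t

lemma inner_smul (μ : Measure Ω) {q : ℝ} (hq : 0 < q) (c : ℂ) (f : Ω → ℂ) :
    (∫⁻ ω, ‖c * f ω‖ₑ ^ 2 ∂μ) ^ q = (‖c‖ₑ ^ 2) ^ q * (∫⁻ ω, ‖f ω‖ₑ ^ 2 ∂μ) ^ q := by
  rw [← ENNReal.mul_rpow_of_nonneg _ _ hq.le, ← lintegral_const_mul' _ _ (by finiteness)]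
  simp only [enorm_mul, mul_pow]

lemma Q_smul (μ : Measure Ω) {q : ℝ} (hq : 0 < q) (c : ℂ) (f : Ω → ℝ → ℝ → ℂ) :
    Q μ q (fun ω t x => c * f ω t x) = (‖c‖ₑ ^ 2) ^ q * Q μ q f := by
  have hfin : (‖c‖ₑ ^ 2) ^ q ≠ ∞ := ENNReal.rpow_ne_top_of_nonneg hq.le (by finiteness)
  unfold Q
  simp only [inner_smul μ hq]
  rw [← lintegral_const_mul' _ _ hfin]
  simp only [lintegral_const_mul' _ _ hfin]

lemma Q_add (μ : Measure Ω) [SFinite μ] {q : ℝ} (hq : 0 < q) {f g : Ω → ℝ → ℝ → ℂ}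
    (hf : JM f) (hg : JM g) :
    Q μ q (fun ω t x => f ω t x + g ω t x) ≤ 8 ^ q * (Q μ q f + Q μ q g) := by
  have h := Q_sum μ hq (Finset.univ : Finset (Fin 2)) ![f, g] (by
    intro j _
    fin_cases j
    · exact hf
    · exact hg)
  simp only [Fin.sum_univ_two, Finset.card_univ, Fintype.card_fin] at h
  have e8 : ((2 : ℕ) : ℝ≥0∞) ^ 3 = 8 := by norm_num
  rw [e8] at h
  exact h

lemma Q_congr (μ : Measure Ω) {q : ℝ} {f g : Ω → ℝ → ℝ → ℂ}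
    (h : ∀ t ∈ Icc (0 : ℝ) 2, ∀ ω x, f ω t x = g ω t x) : Q μ q f = Q μ q g := by
  unfold Q
  apply setLIntegral_congr_fun measurableSet_Icc
  intro t ht
  have h1 : ∀ x : ℝ, (fun ω => ‖f ω t x‖ₑ ^ 2) = (fun ω => ‖g ω t x‖ₑ ^ 2) := by
    intro x
    funext ω
    rw [h t ht]
  simp only [h1]

/-! ### Multiplier families -/

/-- multiplier families -/
structure MF (Ψ : Ω → ℝ → ℝ → ℂ) : Prop where
  meas : Measurable (fun z : Ω × ℝ × ℝ => Ψ z.1 z.2.1 z.2.2)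
  bd : ∀ ω t, ∃ B : ℝ, ∀ ξ, ‖Ψ ω t ξ‖ ≤ B
  sup : ∃ R : ℝ, ∀ ω t ξ, R < |ξ| → Ψ ω t ξ = 0

lemma ft_meas {G : Ω → ℝ → ℂ} (mG : Measurable (Function.uncurry G)) :
    Measurable (fun z : Ω × ℝ => ft (G z.1) z.2) := by
  have h1 : Measurable (fun z : (Ω × ℝ) × ℝ => e (-(z.2 * z.1.2)) * G z.1.1 z.2) := by
    have h2 : Measurable (fun z : (Ω × ℝ) × ℝ => G z.1.1 z.2) :=
      mG.comp ((measurable_fst.comp measurable_fst).prodMk measurable_snd)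
    have h3 : Measurable (fun z : (Ω × ℝ) × ℝ => e (-(z.2 * z.1.2))) :=
      measurable_e.comp (measurable_snd.mul (measurable_snd.comp measurable_fst)).neg
    exact h3.mul h2
  have h4 : StronglyMeasurable (fun z : Ω × ℝ => ∫ x : ℝ, e (-(x * z.2)) * G z.1 x) :=
    h1.stronglyMeasurable.integral_prod_right'
  unfold ft
  exact h4.measurable

lemma MF.meas4 {Ψ : Ω → ℝ → ℝ → ℂ} (hΨ : MF Ψ) :
    Measurable (fun z : (Ω × ℝ × ℝ) × ℝ => Ψ z.1.1 z.1.2.1 z.2) := by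
  have h1 : Measurable (fun z : (Ω × ℝ × ℝ) × ℝ => ((z.1.1, z.1.2.1, z.2) : Ω × ℝ × ℝ)) := by
    fun_prop
  exact Measurable.comp (g := fun z : Ω × ℝ × ℝ => Ψ z.1 z.2.1 z.2.2) hΨ.meas h1

lemma MF.meas_ξ {Ψ : Ω → ℝ → ℝ → ℂ} (hΨ : MF Ψ) (ω : Ω) (t : ℝ) : Measurable (Ψ ω t) := by
  have h1 : Measurable (fun ξ : ℝ => ((ω, t, ξ) : Ω × ℝ × ℝ)) := by fun_prop
  exact Measurable.comp (g := fun z : Ω × ℝ × ℝ => Ψ z.1 z.2.1 z.2.2) hΨ.meas h1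

lemma ft_meas4 {G : Ω → ℝ → ℂ} (mG : Measurable (Function.uncurry G)) :
    Measurable (fun z : (Ω × ℝ × ℝ) × ℝ => ft (G z.1.1) z.2) := by
  have h1 : Measurable (fun z : (Ω × ℝ × ℝ) × ℝ => ((z.1.1, z.2) : Ω × ℝ)) := by fun_prop
  have h2 := (ft_meas mG).comp h1
  exact h2

lemma e_meas4 : Measurable (fun z : (Ω × ℝ × ℝ) × ℝ => e (z.1.2.2 * z.2)) := by
  have h1 : Measurable (fun z : (Ω × ℝ × ℝ) × ℝ => z.1.2.2 * z.2) := by fun_prop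
  exact measurable_e.comp h1

lemma JM_Mx {G : Ω → ℝ → ℂ} (mG : Measurable (Function.uncurry G)) {Ψ : Ω → ℝ → ℝ → ℂ}
    (hΨ : MF Ψ) : JM (fun ω t x => Mx (Ψ ω t) (G ω) x) := by
  have h1 : Measurable (fun z : (Ω × ℝ × ℝ) × ℝ =>
      e (z.1.2.2 * z.2) * (Ψ z.1.1 z.1.2.1 z.2 * ft (G z.1.1) z.2)) :=
    e_meas4.mul (hΨ.meas4.mul (ft_meas4 mG))
  have h5 : StronglyMeasurable (fun z : Ω × ℝ × ℝ =>
      ∫ ξ : ℝ, e (z.2.2 * ξ) * (Ψ z.1 z.2.1 ξ * ft (G z.1) ξ)) :=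
    h1.stronglyMeasurable.integral_prod_right'
  unfold JM Mx
  exact h5.measurable

/-- bounded multipliers of bounded support give integrable functions -/
lemma int_base {M F : ℝ → ℂ} (mM : Measurable M) (hF : Integrable F) {B R : ℝ}
    (hB : ∀ ξ, ‖M ξ‖ ≤ B) (hR : ∀ ξ, R < |ξ| → M ξ = 0) :
    Integrable (fun ξ => M ξ * ft F ξ) := by
  have hc := continuous_ft hF
  have h1 : IntegrableOn (fun ξ => M ξ * ft F ξ) (Icc (-R) R) := by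
    apply Measure.integrableOn_of_bounded (M := B * ∫ x, ‖F x‖)
    · exact measure_Icc_lt_top.ne
    · exact (mM.mul hc.measurable).aestronglyMeasurable
    · refine Filter.Eventually.of_forall fun ξ => ?_
      rw [norm_mul]
      exact mul_le_mul (hB ξ) (norm_ft_le F ξ) (norm_nonneg _) ((norm_nonneg _).trans (hB ξ))
  rw [integrableOn_iff_integrable_of_support_subset] at h1
  · exact h1
  · intro ξ hξ
    rw [Function.mem_support] at hξ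
    by_contra h2
    apply hξ
    rw [hR ξ, zero_mul]
    rw [mem_Icc, not_and_or, not_le, not_le] at h2
    rcases h2 with h2 | h2
    · exact lt_abs.2 (Or.inr (by linarith))
    · exact lt_abs.2 (Or.inl h2)

lemma int_Mx {G : Ω → ℝ → ℂ} {ω : Ω} (iG : Integrable (G ω)) {Ψ : Ω → ℝ → ℝ → ℂ}
    (hΨ : MF Ψ) (t x : ℝ) : Integrable (fun ξ => e (x * ξ) * (Ψ ω t ξ * ft (G ω) ξ)) := by
  obtain ⟨B, hB⟩ := hΨ.bd ω t
  obtain ⟨R, hR⟩ := hΨ.sup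
  have h1 := int_base (hΨ.meas_ξ ω t) iG hB (hR ω t)
  have h2 : Measurable (fun ξ : ℝ => e (x * ξ)) := measurable_e.comp (measurable_const_mul x)
  refine h1.bdd_mul (c := 1) h2.aestronglyMeasurable ?_
  exact Filter.Eventually.of_forall fun ξ => (norm_e _).le

lemma Mx_add {G : Ω → ℝ → ℂ} {ω : Ω} (iG : Integrable (G ω)) {Ψ Φ : Ω → ℝ → ℝ → ℂ}
    (hΨ : MF Ψ) (hΦ : MF Φ) (t x : ℝ) :
    Mx (fun ξ => Ψ ω t ξ + Φ ω t ξ) (G ω) x = Mx (Ψ ω t) (G ω) x + Mx (Φ ω t) (G ω) x := by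
  unfold Mx
  rw [← integral_add (int_Mx iG hΨ t x) (int_Mx iG hΦ t x)]
  congr 1
  funext ξ
  ring

lemma Mx_sum {G : Ω → ℝ → ℂ} {ω : Ω} (iG : Integrable (G ω)) {ι : Type} (s : Finset ι)
    {Ψ : ι → Ω → ℝ → ℝ → ℂ} (hΨ : ∀ j ∈ s, MF (Ψ j)) (t x : ℝ) :
    Mx (fun ξ => ∑ j ∈ s, Ψ j ω t ξ) (G ω) x = ∑ j ∈ s, Mx (Ψ j ω t) (G ω) x := by
  unfold Mx
  rw [← integral_finsetSum s (fun j hj => int_Mx iG (hΨ j hj) t x)]
  congr 1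
  funext ξ
  rw [Finset.sum_mul, Finset.mul_sum]

lemma Mx_smul (c : ℂ) (M G : ℝ → ℂ) (x : ℝ) :
    Mx (fun ξ => c * M ξ) G x = c * Mx M G x := by
  unfold Mx
  rw [← integral_const_mul]
  congr 1
  funext ξ
  ring

/-! ### Integration in time -/

lemma jensen {g : ℝ → ℝ≥0∞} (hg : Measurable g) {q : ℝ} (hq : 1 ≤ q) :
    (∫⁻ τ in Icc (0 : ℝ) 2, g τ) ^ q ≤ 2 ^ (q - 1) * ∫⁻ τ in Icc (0 : ℝ) 2, g τ ^ q := by
  rcases hq.eq_or_lt with rfl | hq1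
  · simp
  have hconj := Real.HolderConjugate.conjExponent hq1
  have h := ENNReal.lintegral_mul_le_Lp_mul_Lq (volume.restrict (Icc (0 : ℝ) 2)) hconj
    hg.aemeasurable (g := fun _ => 1) aemeasurable_const
  have hvol : (volume.restrict (Icc (0 : ℝ) 2)) univ = 2 := by
    rw [Measure.restrict_apply_univ, Real.volume_Icc]
    norm_num
  simp only [Pi.mul_apply, mul_one, ENNReal.one_rpow, lintegral_const, hvol, one_mul] at h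
  have hq0 : 0 < q := by linarith
  have h2 := ENNReal.rpow_le_rpow h hq0.le
  rw [ENNReal.mul_rpow_of_nonneg _ _ hq0.le, ← ENNReal.rpow_mul, ← ENNReal.rpow_mul] at h2
  have e1 : 1 / q * q = 1 := by field_simp
  have e2 : 1 / q.conjExponent * q = q - 1 := by
    unfold Real.conjExponent
    have : q - 1 ≠ 0 := by linarith
    field_simp
  rw [e1, e2, ENNReal.rpow_one, mul_comm] at h2
  exact h2

lemma Q_time (μ : Measure Ω) [SFinite μ] {q : ℝ} (hq : 1 ≤ q) (hq2 : q ≤ 2)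
    {c s : Ω → ℝ → ℝ → ℂ} (hc : JM c)
    (h : ∀ t ∈ Icc (0 : ℝ) 2, ∀ ω x, ‖s ω t x‖ₑ ≤ ∫⁻ τ in Icc (0 : ℝ) 2, ‖c ω τ x‖ₑ) :
    Q μ q s ≤ 16 * Q μ q c := by
  have hq0 : 0 < q := by linarith
  have hcτ : ∀ ω x, Measurable (fun τ : ℝ => c ω τ x) := by
    intro ω x
    have h1 : Measurable (fun τ : ℝ => ((ω, τ, x) : Ω × ℝ × ℝ)) := by fun_prop
    exact Measurable.comp (g := fun z : Ω × ℝ × ℝ => c z.1 z.2.1 z.2.2) hc h1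
  have hcωτ : ∀ x, Measurable (fun z : Ω × ℝ => c z.1 z.2 x) := by
    intro x
    have h1 : Measurable (fun z : Ω × ℝ => ((z.1, z.2, x) : Ω × ℝ × ℝ)) := by fun_prop
    exact Measurable.comp (g := fun z : Ω × ℝ × ℝ => c z.1 z.2.1 z.2.2) hc h1
  have hS := hc.inner μ
  have h1 : ∀ t ∈ Icc (0 : ℝ) 2, ∀ x : ℝ, (∫⁻ ω, ‖s ω t x‖ₑ ^ 2 ∂μ) ^ q ≤
      8 * ∫⁻ τ in Icc (0 : ℝ) 2, (∫⁻ ω, ‖c ω τ x‖ₑ ^ 2 ∂μ) ^ q := by
    intro t ht x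
    have a1 : ∫⁻ ω, ‖s ω t x‖ₑ ^ 2 ∂μ ≤
        2 * ∫⁻ τ in Icc (0 : ℝ) 2, ∫⁻ ω, ‖c ω τ x‖ₑ ^ 2 ∂μ := by
      calc ∫⁻ ω, ‖s ω t x‖ₑ ^ 2 ∂μ
          ≤ ∫⁻ ω, (2 * ∫⁻ τ in Icc (0 : ℝ) 2, ‖c ω τ x‖ₑ ^ 2) ∂μ := by
            apply lintegral_mono
            intro ω
            have b1 := jensen (hcτ ω x).enorm (q := 2) (by norm_num)
            have b2 : (2 : ℝ≥0∞) ^ ((2 : ℝ) - 1) = 2 := by norm_num
            simp only [ENNReal.rpow_two, b2] at b1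
            calc ‖s ω t x‖ₑ ^ 2 ≤ (∫⁻ τ in Icc (0 : ℝ) 2, ‖c ω τ x‖ₑ) ^ 2 :=
                  pow_le_pow_left' (h t ht ω x) 2
              _ ≤ _ := b1
        _ = 2 * ∫⁻ ω, (∫⁻ τ in Icc (0 : ℝ) 2, ‖c ω τ x‖ₑ ^ 2) ∂μ :=
            lintegral_const_mul' _ _ (by finiteness)
        _ = _ := by
            rw [lintegral_lintegral_swap]
            exact ((hcωτ x).enorm.pow_const 2).aemeasurable
    calc (∫⁻ ω, ‖s ω t x‖ₑ ^ 2 ∂μ) ^ q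
        ≤ (2 * ∫⁻ τ in Icc (0 : ℝ) 2, ∫⁻ ω, ‖c ω τ x‖ₑ ^ 2 ∂μ) ^ q :=
          ENNReal.rpow_le_rpow a1 hq0.le
      _ = 2 ^ q * (∫⁻ τ in Icc (0 : ℝ) 2, ∫⁻ ω, ‖c ω τ x‖ₑ ^ 2 ∂μ) ^ q :=
          ENNReal.mul_rpow_of_nonneg _ _ hq0.le
      _ ≤ 2 ^ q * (2 ^ (q - 1) * ∫⁻ τ in Icc (0 : ℝ) 2, (∫⁻ ω, ‖c ω τ x‖ₑ ^ 2 ∂μ) ^ q) :=
          mul_le_mul_right (jensen (hS.comp (measurable_id.prodMk measurable_const)) hq) _
      _ = 2 ^ (q + (q - 1)) * ∫⁻ τ in Icc (0 : ℝ) 2, (∫⁻ ω, ‖c ω τ x‖ₑ ^ 2 ∂μ) ^ q := by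
          rw [← mul_assoc, ← ENNReal.rpow_add _ _ (by norm_num) (by norm_num)]
      _ ≤ 8 * ∫⁻ τ in Icc (0 : ℝ) 2, (∫⁻ ω, ‖c ω τ x‖ₑ ^ 2 ∂μ) ^ q := by
          apply mul_le_mul_left
          calc (2 : ℝ≥0∞) ^ (q + (q - 1)) ≤ 2 ^ (3 : ℝ) :=
                ENNReal.rpow_le_rpow_of_exponent_le (by norm_num) (by linarith)
            _ = 8 := by norm_num
  have hSq : Measurable (fun z : ℝ × ℝ => (∫⁻ ω, ‖c ω z.1 z.2‖ₑ ^ 2 ∂μ) ^ q) :=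
    hS.pow_const q
  unfold Q
  calc ∫⁻ t in Icc (0 : ℝ) 2, ∫⁻ x : ℝ, (∫⁻ ω, ‖s ω t x‖ₑ ^ 2 ∂μ) ^ q
      ≤ ∫⁻ t in Icc (0 : ℝ) 2, ∫⁻ x : ℝ,
          8 * ∫⁻ τ in Icc (0 : ℝ) 2, (∫⁻ ω, ‖c ω τ x‖ₑ ^ 2 ∂μ) ^ q :=
        setLIntegral_mono' measurableSet_Icc fun t ht => lintegral_mono fun x => h1 t ht x
    _ = 16 * ∫⁻ x : ℝ, ∫⁻ τ in Icc (0 : ℝ) 2, (∫⁻ ω, ‖c ω τ x‖ₑ ^ 2 ∂μ) ^ q := by
        rw [lintegral_const_mul' _ _ (by finiteness), setLIntegral_const, Real.volume_Icc]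
        rw [mul_comm, ← mul_assoc]
        congr 1
        norm_num
    _ = _ := by
        congr 1
        rw [lintegral_lintegral_swap]
        exact (hSq.comp measurable_swap).aemeasurable

/-! ### The basic propagators -/

lemma ra_pos {a : ℝ} (ha : 0 < a) (ξ : ℝ) : 0 < ra a ξ := Real.sqrt_pos.2 (by positivity)

lemma abs_le_ra (a ξ : ℝ) : |ξ| ≤ ra a ξ := Real.abs_le_sqrt (by nlinarith [sq_nonneg a])

lemma ra_lip {a : ℝ} (ha : 0 < a) (ξ ξ' : ℝ) : |ra a ξ - ra a ξ'| ≤ |ξ - ξ'| := by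
  have h1 := ra_pos ha ξ
  have h2 := ra_pos ha ξ'
  have e1 : ra a ξ ^ 2 = ξ ^ 2 + a ^ 2 := Real.sq_sqrt (by positivity)
  have e2 : ra a ξ' ^ 2 = ξ' ^ 2 + a ^ 2 := Real.sq_sqrt (by positivity)
  have h3 : (ra a ξ - ra a ξ') * (ra a ξ + ra a ξ') = (ξ - ξ') * (ξ + ξ') := by
    linear_combination e1 - e2
  have h4 : |ra a ξ - ra a ξ'| * (ra a ξ + ra a ξ') = |ξ - ξ'| * |ξ + ξ'| := by
    rw [← abs_mul, ← h3, abs_mul, abs_of_pos (add_pos h1 h2)]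
  have h5 : |ξ + ξ'| ≤ ra a ξ + ra a ξ' :=
    (abs_add_le _ _).trans (add_le_add (abs_le_ra _ _) (abs_le_ra _ _))
  have h6 : |ξ - ξ'| * |ξ + ξ'| ≤ |ξ - ξ'| * (ra a ξ + ra a ξ') :=
    mul_le_mul_of_nonneg_left h5 (abs_nonneg _)
  rw [← h4] at h6
  exact le_of_mul_le_mul_right h6 (add_pos h1 h2)

lemma ra_meas {a : Ω → ℝ} (ma : Measurable a) : Measurable (fun z : Ω × ℝ => ra (a z.1) z.2) := by
  unfold ra
  exact ((measurable_snd.pow_const 2).add ((ma.comp measurable_fst).pow_const 2)).sqrt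

lemma MF_of {N : ℝ} {a : Ω → ℝ} {χ G : Ω → ℝ → ℂ} (hF : Fam N a χ G) {w : ℝ → ℝ → ℂ}
    (mw : Measurable (Function.uncurry w))
    (bw : ∀ ω t, ∃ B : ℝ, ∀ ξ, ‖w t (ra (a ω) ξ)‖ ≤ B) :
    MF (fun ω t ξ => w t (ra (a ω) ξ) * χ ω ξ) where
  meas := by
    have g1 : Measurable (fun z : Ω × ℝ × ℝ => ((z.1, z.2.2) : Ω × ℝ)) := by fun_prop
    have h1 := (ra_meas hF.ma).comp g1
    have h2 := mw.comp ((measurable_fst.comp measurable_snd).prodMk h1)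
    have h3 := hF.mχ.comp g1
    exact h2.mul h3
  bd := fun ω t => by
    obtain ⟨B, hB⟩ := bw ω t
    refine ⟨B, fun ξ => ?_⟩
    rw [norm_mul]
    have h1 := (hF.cut ω).1 ξ
    have h0 : 0 ≤ B := (norm_nonneg _).trans (hB ξ)
    calc _ ≤ B * 1 := mul_le_mul (hB ξ) h1 (norm_nonneg _) h0
      _ = B := mul_one _
  sup := ⟨2 * N, fun ω t ξ h => by rw [(hF.cut ω).2.2 ξ h, mul_zero]⟩

lemma MF.smul {Ψ : Ω → ℝ → ℝ → ℂ} (hΨ : MF Ψ) (c : ℂ) : MF (fun ω t ξ => c * Ψ ω t ξ) where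
  meas := hΨ.meas.const_mul c
  bd := fun ω t => by
    obtain ⟨B, hB⟩ := hΨ.bd ω t
    refine ⟨‖c‖ * B, fun ξ => ?_⟩
    rw [norm_mul]
    exact mul_le_mul_of_nonneg_left (hB ξ) (norm_nonneg _)
  sup := by
    obtain ⟨R, hR⟩ := hΨ.sup
    exact ⟨R, fun ω t ξ h => by rw [hR ω t ξ h, mul_zero]⟩

lemma Q_exp (μ : Measure Ω) {q : ℝ} {a : Ω → ℝ} {χ G : Ω → ℝ → ℂ} {K : ℝ≥0∞}
    (hK : ∫⁻ t in Icc (-2 : ℝ) 2, ∫⁻ x : ℝ,
      (∫⁻ ω, ‖Vx (a ω) (χ ω) (G ω) t x‖ₑ ^ 2 ∂μ) ^ q ≤ K) :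
    Q μ q (fun ω t x => Mx (fun ξ => e (t * ra (a ω) ξ) * χ ω ξ) (G ω) x) ≤ K ∧
    Q μ q (fun ω t x => Mx (fun ξ => e (-(t * ra (a ω) ξ)) * χ ω ξ) (G ω) x) ≤ K := by
  have hV : ∀ ω t x, Mx (fun ξ => e (t * ra (a ω) ξ) * χ ω ξ) (G ω) x =
      Vx (a ω) (χ ω) (G ω) t x := by
    intro ω t x
    unfold Mx Vx
    congr 1
    funext ξ
    ring
  have hV' : ∀ ω t x, Mx (fun ξ => e (-(t * ra (a ω) ξ)) * χ ω ξ) (G ω) x =
      Vx (a ω) (χ ω) (G ω) (-t) x := by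
    intro ω t x
    unfold Mx Vx
    congr 1
    funext ξ
    rw [neg_mul]
    ring
  constructor
  · unfold Q
    simp only [hV]
    exact (lintegral_mono_set (Icc_subset_Icc (by norm_num) le_rfl)).trans hK
  · unfold Q
    simp only [hV']
    have h1 := (Measure.measurePreserving_neg (volume : Measure ℝ)).setLIntegral_comp_preimage_emb
      (MeasurableEquiv.neg ℝ).measurableEmbedding
      (fun t => ∫⁻ x : ℝ, (∫⁻ ω, ‖Vx (a ω) (χ ω) (G ω) t x‖ₑ ^ 2 ∂μ) ^ q) (Icc (-2) 0)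
    have h2 : (Neg.neg ⁻¹' Icc (-2 : ℝ) 0) = Icc 0 2 := by
      ext y
      simp only [mem_preimage, mem_Icc]
      constructor <;> rintro ⟨h3, h4⟩ <;> constructor <;> linarith
    rw [h2] at h1
    refine le_trans (le_of_eq h1) ?_
    exact (lintegral_mono_set (Icc_subset_Icc le_rfl (by norm_num))).trans hK

lemma enorm_sq_rpow_le {c : ℂ} (hc : ‖c‖ ≤ 1) {q : ℝ} (hq : 0 < q) : (‖c‖ₑ ^ 2) ^ q ≤ 1 := by
  have h1 : ‖c‖ₑ ≤ 1 := by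
    rw [← ofReal_norm]
    exact ENNReal.ofReal_le_one.2 hc
  apply ENNReal.rpow_le_one _ hq.le
  exact pow_le_one₀ (zero_le) h1

lemma Q_lin (μ : Measure Ω) [SFinite μ] {q : ℝ} (hq : 0 < q) (hq2 : q ≤ 2)
    {f g : Ω → ℝ → ℝ → ℂ} (hf : JM f) (hg : JM g) {c c' : ℂ} (hc : ‖c‖ ≤ 1) (hc' : ‖c'‖ ≤ 1)
    {K : ℝ≥0∞} (h1 : Q μ q f ≤ K) (h2 : Q μ q g ≤ K) :
    Q μ q (fun ω t x => c * f ω t x + c' * g ω t x) ≤ 128 * K := by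
  have a1 : JM (fun ω t x => c * f ω t x) := Measurable.const_mul hf c
  have a2 : JM (fun ω t x => c' * g ω t x) := Measurable.const_mul hg c'
  have h8 : (8 : ℝ≥0∞) ^ q ≤ 64 := by
    calc (8 : ℝ≥0∞) ^ q ≤ 8 ^ (2 : ℝ) :=
          ENNReal.rpow_le_rpow_of_exponent_le (by norm_num) hq2
      _ = 64 := by norm_num
  calc Q μ q (fun ω t x => c * f ω t x + c' * g ω t x)
      ≤ 8 ^ q * (Q μ q (fun ω t x => c * f ω t x) + Q μ q (fun ω t x => c' * g ω t x)) :=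
        Q_add μ hq a1 a2
    _ ≤ 64 * (K + K) := by
        rw [Q_smul μ hq, Q_smul μ hq]
        gcongr
        · calc _ ≤ 1 * Q μ q f := by
                gcongr
                exact enorm_sq_rpow_le hc hq
            _ ≤ K := by rwa [one_mul]
        · calc _ ≤ 1 * Q μ q g := by
                gcongr
                exact enorm_sq_rpow_le hc' hq
            _ ≤ K := by rwa [one_mul]
    _ = 128 * K := by
        rw [← two_mul, ← mul_assoc]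
        norm_num

/-! ### Cosine and sine -/

/-- cosine multiplier -/
noncomputable def cs (t r : ℝ) : ℂ := ((Real.cos (2 * Real.pi * t * r) : ℝ) : ℂ)

/-- sine multiplier -/
noncomputable def sn (t r : ℝ) : ℂ := ((Real.sin (2 * Real.pi * t * r) : ℝ) : ℂ)

/-- sine multiplier divided by the frequency -/
noncomputable def sc (t r : ℝ) : ℂ :=
  ((Real.sin (2 * Real.pi * t * r) / (2 * Real.pi * r) : ℝ) : ℂ)

lemma cs_eq (t r : ℝ) : cs t r = (1 / 2) * e (t * r) + (1 / 2) * e (-(t * r)) := by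
  have h := e_cos (t * r)
  unfold cs
  rw [mul_assoc (2 * Real.pi) t r]
  linear_combination (-1 / 2) * h

lemma sn_eq (t r : ℝ) : sn t r = (-Complex.I / 2) * e (t * r) + (Complex.I / 2) * e (-(t * r)) := by
  have h := e_sin (t * r)
  unfold sn
  rw [mul_assoc (2 * Real.pi) t r]
  have hI := Complex.I_sq
  linear_combination (Complex.I / 2) * h +
    ((Real.sin (2 * Real.pi * (t * r)) : ℝ) : ℂ) * hI

lemma norm_cs (t r : ℝ) : ‖cs t r‖ ≤ 1 := by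
  unfold cs
  rw [Complex.norm_real]
  exact Real.abs_cos_le_one _

lemma norm_sn (t r : ℝ) : ‖sn t r‖ ≤ 1 := by
  unfold sn
  rw [Complex.norm_real]
  exact Real.abs_sin_le_one _

lemma cs_meas : Measurable (Function.uncurry cs) := by
  unfold Function.uncurry cs
  fun_prop

lemma sn_meas : Measurable (Function.uncurry sn) := by
  unfold Function.uncurry sn
  fun_prop

lemma sc_meas : Measurable (Function.uncurry sc) := by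
  unfold Function.uncurry sc
  fun_prop

lemma MF_e {N : ℝ} {a : Ω → ℝ} {χ G : Ω → ℝ → ℂ} (hF : Fam N a χ G) :
    MF (fun ω t ξ => e (t * ra (a ω) ξ) * χ ω ξ) := by
  refine MF_of hF (w := fun t r => e (t * r)) ?_ (fun ω t => ⟨1, fun ξ => (norm_e _).le⟩)
  exact measurable_e.comp (measurable_fst.mul measurable_snd)

lemma MF_e' {N : ℝ} {a : Ω → ℝ} {χ G : Ω → ℝ → ℂ} (hF : Fam N a χ G) :
    MF (fun ω t ξ => e (-(t * ra (a ω) ξ)) * χ ω ξ) := by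
  refine MF_of hF (w := fun t r => e (-(t * r))) ?_ (fun ω t => ⟨1, fun ξ => (norm_e _).le⟩)
  exact measurable_e.comp (measurable_fst.mul measurable_snd).neg

lemma MF_cs {N : ℝ} {a : Ω → ℝ} {χ G : Ω → ℝ → ℂ} (hF : Fam N a χ G) :
    MF (fun ω t ξ => cs t (ra (a ω) ξ) * χ ω ξ) :=
  MF_of hF cs_meas (fun _ _ => ⟨1, fun _ => norm_cs _ _⟩)

lemma MF_sn {N : ℝ} {a : Ω → ℝ} {χ G : Ω → ℝ → ℂ} (hF : Fam N a χ G) :
    MF (fun ω t ξ => sn t (ra (a ω) ξ) * χ ω ξ) :=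
  MF_of hF sn_meas (fun _ _ => ⟨1, fun _ => norm_sn _ _⟩)

lemma MF_sc {N : ℝ} {a : Ω → ℝ} {χ G : Ω → ℝ → ℂ} (hF : Fam N a χ G) :
    MF (fun ω t ξ => sc t (ra (a ω) ξ) * χ ω ξ) := by
  refine MF_of hF sc_meas (fun ω t => ⟨1 / (2 * Real.pi * a ω), fun ξ => ?_⟩)
  have ha := hF.pos ω
  have har : a ω ≤ ra (a ω) ξ := by
    unfold ra
    apply Real.le_sqrt_of_sq_le
    nlinarith [sq_nonneg ξ]
  unfold sc
  rw [Complex.norm_real, Real.norm_eq_abs, abs_div]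
  have hpi := Real.pi_pos
  have h2 : |2 * Real.pi * ra (a ω) ξ| = 2 * Real.pi * ra (a ω) ξ :=
    abs_of_pos (by have := ra_pos ha ξ; positivity)
  rw [h2]
  apply div_le_div₀ zero_le_one (Real.abs_sin_le_one _) (by positivity)
  gcongr

/-- linear combinations of the two exponentials -/
lemma Mx_lin {N : ℝ} {a : Ω → ℝ} {χ G : Ω → ℝ → ℂ} (hF : Fam N a χ G) {w : ℝ → ℝ → ℂ} {c c' : ℂ}
    (hw : ∀ t r, w t r = c * e (t * r) + c' * e (-(t * r))) (ω : Ω) (t x : ℝ) :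
    Mx (fun ξ => w t (ra (a ω) ξ) * χ ω ξ) (G ω) x =
      c * Mx (fun ξ => e (t * ra (a ω) ξ) * χ ω ξ) (G ω) x +
      c' * Mx (fun ξ => e (-(t * ra (a ω) ξ)) * χ ω ξ) (G ω) x := by
  rw [← Mx_smul, ← Mx_smul]
  rw [← Mx_add (hF.iG ω) ((MF_e hF).smul c) ((MF_e' hF).smul c') t x]
  congr 1
  funext ξ
  rw [hw]
  ring

lemma Q_cs (μ : Measure Ω) [SFinite μ] {q : ℝ} (hq : 0 < q) (hq2 : q ≤ 2) {N : ℝ}
    {a : Ω → ℝ} {χ G : Ω → ℝ → ℂ} (hF : Fam N a χ G) {K : ℝ≥0∞}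
    (hK : ∫⁻ t in Icc (-2 : ℝ) 2, ∫⁻ x : ℝ,
      (∫⁻ ω, ‖Vx (a ω) (χ ω) (G ω) t x‖ₑ ^ 2 ∂μ) ^ q ≤ K) :
    Q μ q (fun ω t x => Mx (fun ξ => cs t (ra (a ω) ξ) * χ ω ξ) (G ω) x) ≤ 128 * K ∧
    Q μ q (fun ω t x => Mx (fun ξ => sn t (ra (a ω) ξ) * χ ω ξ) (G ω) x) ≤ 128 * K := by
  obtain ⟨h1, h2⟩ := Q_exp μ hK
  have m1 := JM_Mx hF.mG (MF_e hF)
  have m2 := JM_Mx hF.mG (MF_e' hF)
  have b1 : ‖(1 / 2 : ℂ)‖ ≤ 1 := by norm_num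
  have b2 : ‖(-Complex.I / 2 : ℂ)‖ ≤ 1 := by
    rw [norm_div, norm_neg, Complex.norm_I]
    norm_num
  have b3 : ‖(Complex.I / 2 : ℂ)‖ ≤ 1 := by
    rw [norm_div, Complex.norm_I]
    norm_num
  have h3 := Q_lin μ hq hq2 m1 m2 b1 b1 h1 h2
  have h4 := Q_lin μ hq hq2 m1 m2 b2 b3 h1 h2
  constructor
  · simp only [Mx_lin hF cs_eq]
    exact h3
  · simp only [Mx_lin hF sn_eq]
    exact h4

/-- the sine multiplier is an average of cosines -/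
lemma sc_int {t r : ℝ} (ht : 0 ≤ t) (hr : 0 < r) :
    sc t r = ∫ τ in Ioc 0 t, cs τ r := by
  have hpi := Real.pi_pos
  have h1 : ∫ τ in (0 : ℝ)..t, Real.cos (2 * Real.pi * τ * r) =
      Real.sin (2 * Real.pi * t * r) / (2 * Real.pi * r) := by
    have h2 : ∀ τ ∈ uIcc (0 : ℝ) t, HasDerivAt
        (fun τ => Real.sin (2 * Real.pi * τ * r) / (2 * Real.pi * r))
        (Real.cos (2 * Real.pi * τ * r)) τ := by
      intro τ _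
      have h3 : HasDerivAt (fun τ : ℝ => 2 * Real.pi * τ * r) (2 * Real.pi * r) τ := by
        have h4 := ((hasDerivAt_id τ).const_mul (2 * Real.pi)).mul_const r
        simpa using h4
      have h5 := (h3.sin).div_const (2 * Real.pi * r)
      have h6 : Real.cos (2 * Real.pi * τ * r) * (2 * Real.pi * r) / (2 * Real.pi * r) =
          Real.cos (2 * Real.pi * τ * r) := mul_div_cancel_right₀ _ (by positivity)
      rw [h6] at h5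
      exact h5
    rw [intervalIntegral.integral_eq_sub_of_hasDerivAt h2 (by
      apply Continuous.intervalIntegrable
      fun_prop)]
    simp
  unfold sc cs
  rw [← h1, intervalIntegral.integral_of_le ht]
  exact (integral_ofReal (𝕜 := ℂ)).symm

lemma Mx_sc {N : ℝ} {a : Ω → ℝ} {χ G : Ω → ℝ → ℂ} (hF : Fam N a χ G) {t : ℝ}
    (ht : t ∈ Icc (0 : ℝ) 2) (ω : Ω) (x : ℝ) :
    ‖Mx (fun ξ => sc t (ra (a ω) ξ) * χ ω ξ) (G ω) x‖ₑ ≤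
      ∫⁻ τ in Icc (0 : ℝ) 2, ‖Mx (fun ξ => cs τ (ra (a ω) ξ) * χ ω ξ) (G ω) x‖ₑ := by
  have hpos := hF.pos ω
  have hχ1 := (hF.cut ω).1
  have hχ0 := (hF.cut ω).2.2
  have mχ : Measurable (χ ω) := hF.mχ.comp measurable_prodMk_left
  have ibase : Integrable (fun ξ => χ ω ξ * ft (G ω) ξ) := int_base mχ (hF.iG ω) hχ1 hχ0
  have cft := continuous_ft (hF.iG ω)
  have mra : Measurable (fun ξ => ra (a ω) ξ) := by
    unfold ra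
    fun_prop
  have i1 : Integrable (fun z : ℝ × ℝ => χ ω z.1 * ft (G ω) z.1)
      ((volume : Measure ℝ).prod ((volume : Measure ℝ).restrict (Ioc 0 t))) :=
    ibase.comp_fst _
  have mm : Measurable (fun z : ℝ × ℝ => e (x * z.1) *
      (cs z.2 (ra (a ω) z.1) * χ ω z.1 * ft (G ω) z.1)) := by
    have g1 : Measurable (fun z : ℝ × ℝ => e (x * z.1)) :=
      measurable_e.comp (measurable_fst.const_mul x)
    have g2 := cs_meas.comp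
      ((measurable_snd.prodMk (mra.comp measurable_fst)) :
        Measurable (fun z : ℝ × ℝ => ((z.2, ra (a ω) z.1) : ℝ × ℝ)))
    have g3 : Measurable (fun z : ℝ × ℝ => χ ω z.1) := mχ.comp measurable_fst
    have g4 : Measurable (fun z : ℝ × ℝ => ft (G ω) z.1) :=
      cft.measurable.comp measurable_fst
    exact g1.mul ((g2.mul g3).mul g4)
  have nn : ∀ z : ℝ × ℝ, ‖e (x * z.1) * (cs z.2 (ra (a ω) z.1) * χ ω z.1 * ft (G ω) z.1)‖ ≤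
      ‖χ ω z.1 * ft (G ω) z.1‖ := by
    intro z
    rw [norm_mul, norm_e, one_mul, mul_assoc, norm_mul]
    calc _ ≤ 1 * ‖χ ω z.1 * ft (G ω) z.1‖ :=
          mul_le_mul_of_nonneg_right (norm_cs _ _) (norm_nonneg _)
      _ = _ := one_mul _
  have i2 := i1.mono mm.aestronglyMeasurable (Filter.Eventually.of_forall nn)
  have i3 := integral_integral_swap
    (f := fun ξ τ => e (x * ξ) * (cs τ (ra (a ω) ξ) * χ ω ξ * ft (G ω) ξ)) i2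
  have hswap : Mx (fun ξ => sc t (ra (a ω) ξ) * χ ω ξ) (G ω) x =
      ∫ τ in Ioc 0 t, Mx (fun ξ => cs τ (ra (a ω) ξ) * χ ω ξ) (G ω) x := by
    unfold Mx
    rw [← i3]
    congr 1
    funext ξ
    beta_reduce
    rw [sc_int ht.1 (ra_pos hpos ξ), integral_const_mul, integral_mul_const, integral_mul_const]
  have h1 := enorm_integral_le_lintegral_enorm (μ := (volume : Measure ℝ).restrict (Ioc 0 t))
    (fun τ => Mx (fun ξ => cs τ (ra (a ω) ξ) * χ ω ξ) (G ω) x)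
  have h2 : ∫⁻ τ in Ioc 0 t, ‖Mx (fun ξ => cs τ (ra (a ω) ξ) * χ ω ξ) (G ω) x‖ₑ ≤
      ∫⁻ τ in Icc (0 : ℝ) 2, ‖Mx (fun ξ => cs τ (ra (a ω) ξ) * χ ω ξ) (G ω) x‖ₑ :=
    lintegral_mono_set (fun τ hτ => ⟨hτ.1.le, hτ.2.trans ht.2⟩)
  rw [hswap]
  exact h1.trans h2

lemma Q_sc (μ : Measure Ω) [SFinite μ] {q : ℝ} (hq : 1 ≤ q) (hq2 : q ≤ 2) {N : ℝ}
    {a : Ω → ℝ} {χ G : Ω → ℝ → ℂ} (hF : Fam N a χ G) {K : ℝ≥0∞}
    (hK : ∫⁻ t in Icc (-2 : ℝ) 2, ∫⁻ x : ℝ,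
      (∫⁻ ω, ‖Vx (a ω) (χ ω) (G ω) t x‖ₑ ^ 2 ∂μ) ^ q ≤ K) :
    Q μ q (fun ω t x => Mx (fun ξ => sc t (ra (a ω) ξ) * χ ω ξ) (G ω) x) ≤ 2048 * K := by
  have h1 := (Q_cs μ (by linarith) hq2 hF hK).1
  have h2 := Q_time μ hq hq2 (JM_Mx hF.mG (MF_cs hF)) (fun t ht ω x => Mx_sc hF ht ω x)
  refine h2.trans ?_
  calc 16 * Q μ q (fun ω t x => Mx (fun ξ => cs t (ra (a ω) ξ) * χ ω ξ) (G ω) x)
      ≤ 16 * (128 * K) := by gcongr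
    _ = 2048 * K := by
      rw [← mul_assoc]
      norm_num

/-! ### Cutoffs in the frequency `r` -/

/-- piecewise linear cutoff: `1` on `u ≤ 1`, `0` on `u ≥ 2` -/
noncomputable def eta (u : ℝ) : ℝ := max 0 (min 1 (2 - u))

lemma eta_nonneg (u : ℝ) : 0 ≤ eta u := le_max_left _ _

lemma eta_le (u : ℝ) : eta u ≤ 1 := max_le zero_le_one (min_le_left _ _)

lemma eta_lip (u v : ℝ) : |eta u - eta v| ≤ |u - v| := by
  unfold eta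
  rcases le_total 0 (min 1 (2 - u)) with h1 | h1 <;>
  rcases le_total 0 (min 1 (2 - v)) with h2 | h2 <;>
  simp only [max_eq_right h1, max_eq_right h2, max_eq_left h1, max_eq_left h2] <;>
  rcases le_total 1 (2 - u) with h3 | h3 <;> rcases le_total 1 (2 - v) with h4 | h4 <;>
  simp only [min_eq_left h3, min_eq_right h3, min_eq_left h4, min_eq_right h4] at h1 h2 ⊢ <;>
  rw [abs_le] <;> constructor <;> cases abs_cases (u - v) <;> linarith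

lemma eta_one {u : ℝ} (h : u ≤ 1) : eta u = 1 := by
  unfold eta
  rw [min_eq_left (by linarith), max_eq_right zero_le_one]

lemma eta_zero {u : ℝ} (h : 2 ≤ u) : eta u = 0 := by
  unfold eta
  exact max_eq_left ((min_le_right _ _).trans (by linarith))

lemma eta_meas : Measurable eta := by
  unfold eta
  fun_prop

/-- the symbol `m / r`, cut off below `ρ` -/
noncomputable def hh (ρ a : ℝ) (m : ℝ → ℝ) (ξ : ℝ) : ℝ := m ξ / max (ra a ξ) ρ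

lemma hh_abs {ρ a : ℝ} (ha : 0 < a) {m : ℝ → ℝ} (hm : ∀ ξ, |m ξ| ≤ ra a ξ) (ξ : ℝ) :
    |hh ρ a m ξ| ≤ 1 := by
  have h1 := ra_pos ha ξ
  have h2 : 0 < max (ra a ξ) ρ := lt_max_of_lt_left h1
  unfold hh
  rw [abs_div, abs_of_pos h2, div_le_one h2]
  exact (hm ξ).trans (le_max_left _ _)

lemma hh_lip {ρ a : ℝ} (ha : 0 < a) (hρ : 0 < ρ) {m : ℝ → ℝ} (hm : ∀ ξ, |m ξ| ≤ ra a ξ)
    (hl : ∀ ξ ξ', |m ξ - m ξ'| ≤ |ξ - ξ'|) (ξ ξ' : ℝ) :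
    |hh ρ a m ξ - hh ρ a m ξ'| ≤ 2 / ρ * |ξ - ξ'| := by
  have h2 : 0 < max (ra a ξ) ρ := lt_max_of_lt_right hρ
  have h3 : 0 < max (ra a ξ') ρ := lt_max_of_lt_right hρ
  have h4 : |max (ra a ξ') ρ - max (ra a ξ) ρ| ≤ |ξ - ξ'| :=
    (abs_max_sub_max_le_abs _ _ _).trans ((ra_lip ha _ _).trans (le_of_eq (abs_sub_comm _ _)))
  have h5 : |m ξ'| ≤ max (ra a ξ') ρ := (hm ξ').trans (le_max_left _ _)
  have h6 : ρ ≤ max (ra a ξ) ρ := le_max_right _ _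
  unfold hh
  set R := max (ra a ξ) ρ
  set R' := max (ra a ξ') ρ
  have e1 : m ξ / R - m ξ' / R' = (m ξ - m ξ') / R + m ξ' / R' * ((R' - R) / R) := by
    field_simp
    ring
  rw [e1]
  have a1 : |(m ξ - m ξ') / R| ≤ |ξ - ξ'| / ρ := by
    rw [abs_div, abs_of_pos h2]
    exact div_le_div₀ (abs_nonneg _) (hl _ _) hρ h6
  have a2 : |m ξ' / R' * ((R' - R) / R)| ≤ 1 * (|ξ - ξ'| / ρ) := by
    rw [abs_mul, abs_div, abs_div, abs_of_pos h2, abs_of_pos h3]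
    exact mul_le_mul ((div_le_one h3).2 h5) (div_le_div₀ (abs_nonneg _) h4 hρ h6)
      (by positivity) zero_le_one
  calc _ ≤ |(m ξ - m ξ') / R| + |m ξ' / R' * ((R' - R) / R)| := abs_add_le _ _
    _ ≤ |ξ - ξ'| / ρ + 1 * (|ξ - ξ'| / ρ) := add_le_add a1 a2
    _ = 2 / ρ * |ξ - ξ'| := by ring

/-- products of cutoffs -/
lemma cut_of {N N' L1 L2 : ℝ} {f1 f2 : ℝ → ℝ} {χ : ℝ → ℂ} (hN' : 0 < N') (hNN : N' ≤ N)
    (hχ : Cut 1 N χ) (b1 : ∀ ξ, |f1 ξ| ≤ 1) (l1 : ∀ ξ ξ', |f1 ξ - f1 ξ'| ≤ L1 / N' * |ξ - ξ'|)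
    (b2 : ∀ ξ, |f2 ξ| ≤ 1) (l2 : ∀ ξ ξ', |f2 ξ - f2 ξ'| ≤ L2 / N' * |ξ - ξ'|) (hL : L1 + L2 ≤ 7)
    (h0 : ∀ ξ, 2 * N' < |ξ| → f2 ξ = 0 ∨ χ ξ = 0) :
    Cut 1 N' (fun ξ => ((f1 ξ * f2 ξ / 8 : ℝ) : ℂ) * χ ξ) := by
  obtain ⟨c1, c2, -⟩ := hχ
  have b12 : ∀ ξ, |f1 ξ * f2 ξ| ≤ 1 := by
    intro ξ
    rw [abs_mul]
    exact mul_le_one₀ (b1 ξ) (abs_nonneg _) (b2 ξ)
  refine ⟨fun ξ => ?_, fun ξ ξ' => ?_, fun ξ hξ => ?_⟩
  · rw [norm_mul, Complex.norm_real, Real.norm_eq_abs, abs_div]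
    have h8 : |(8 : ℝ)| = 8 := by norm_num
    rw [h8]
    have h1 : |f1 ξ * f2 ξ| / 8 ≤ 1 := by
      have := b12 ξ
      linarith
    exact mul_le_one₀ h1 (norm_nonneg _) (c1 ξ)
  · have e1 : ((f1 ξ * f2 ξ / 8 : ℝ) : ℂ) * χ ξ - ((f1 ξ' * f2 ξ' / 8 : ℝ) : ℂ) * χ ξ' =
        ((f1 ξ * f2 ξ / 8 : ℝ) : ℂ) * (χ ξ - χ ξ') +
        (((f1 ξ * f2 ξ - f1 ξ' * f2 ξ') / 8 : ℝ) : ℂ) * χ ξ' := by
      push_cast
      ring
    have e2 : f1 ξ * f2 ξ - f1 ξ' * f2 ξ' = f1 ξ * (f2 ξ - f2 ξ') + (f1 ξ - f1 ξ') * f2 ξ' := by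
      ring
    have a1 : |f1 ξ * f2 ξ - f1 ξ' * f2 ξ'| ≤ 7 / N' * |ξ - ξ'| := by
      rw [e2]
      calc _ ≤ |f1 ξ * (f2 ξ - f2 ξ')| + |(f1 ξ - f1 ξ') * f2 ξ'| := abs_add_le _ _
        _ ≤ 1 * (L2 / N' * |ξ - ξ'|) + L1 / N' * |ξ - ξ'| * 1 := by
            rw [abs_mul, abs_mul]
            apply add_le_add
            · exact mul_le_mul (b1 ξ) (l2 ξ ξ') (abs_nonneg _) zero_le_one
            · exact mul_le_mul (l1 ξ ξ') (b2 ξ') (abs_nonneg _)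
                ((abs_nonneg _).trans (l1 ξ ξ'))
        _ = (L1 + L2) / N' * |ξ - ξ'| := by ring
        _ ≤ 7 / N' * |ξ - ξ'| := by gcongr
    rw [e1]
    have a2 : ‖χ ξ - χ ξ'‖ ≤ 1 / N' * |ξ - ξ'| := by
      refine (c2 ξ ξ').trans ?_
      gcongr
    calc _ ≤ ‖((f1 ξ * f2 ξ / 8 : ℝ) : ℂ) * (χ ξ - χ ξ')‖ +
          ‖(((f1 ξ * f2 ξ - f1 ξ' * f2 ξ') / 8 : ℝ) : ℂ) * χ ξ'‖ := norm_add_le _ _
      _ ≤ 1 / 8 * (1 / N' * |ξ - ξ'|) + 7 / N' * |ξ - ξ'| / 8 * 1 := by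
          rw [norm_mul, norm_mul, Complex.norm_real, Complex.norm_real, Real.norm_eq_abs,
            Real.norm_eq_abs, abs_div, abs_div]
          have h8 : |(8 : ℝ)| = 8 := by norm_num
          rw [h8]
          apply add_le_add
          · apply mul_le_mul _ a2 (norm_nonneg _) (by norm_num)
            have := b12 ξ
            linarith
          · apply mul_le_mul _ (c1 ξ') (norm_nonneg _) (by positivity)
            linarith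
      _ = 1 / N' * |ξ - ξ'| := by ring
  · beta_reduce
    rcases h0 ξ hξ with h | h
    · rw [h]
      simp
    · rw [h, mul_zero]

/-- families of products of cutoffs -/
lemma fam_of {N N' L1 L2 : ℝ} {a : Ω → ℝ} {χ G : Ω → ℝ → ℂ} (hF : Fam N a χ G)
    {f1 f2 : Ω → ℝ → ℝ} (m1 : Measurable (Function.uncurry f1))
    (m2 : Measurable (Function.uncurry f2)) (hN' : 0 < N') (hNN : N' ≤ N)
    (b1 : ∀ ω ξ, |f1 ω ξ| ≤ 1) (l1 : ∀ ω ξ ξ', |f1 ω ξ - f1 ω ξ'| ≤ L1 / N' * |ξ - ξ'|)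
    (b2 : ∀ ω ξ, |f2 ω ξ| ≤ 1) (l2 : ∀ ω ξ ξ', |f2 ω ξ - f2 ω ξ'| ≤ L2 / N' * |ξ - ξ'|)
    (hL : L1 + L2 ≤ 7) (h0 : ∀ ω ξ, 2 * N' < |ξ| → f2 ω ξ = 0 ∨ χ ω ξ = 0) :
    Fam N' a (fun ω ξ => ((f1 ω ξ * f2 ω ξ / 8 : ℝ) : ℂ) * χ ω ξ) G where
  ma := hF.ma
  pos := hF.pos
  mχ := by
    have h1 : Measurable (fun z : Ω × ℝ => ((f1 z.1 z.2 * f2 z.1 z.2 / 8 : ℝ) : ℂ)) :=
      Complex.measurable_ofReal.comp ((m1.mul m2).div_const 8)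
    exact h1.mul hF.mχ
  cut := fun ω => cut_of hN' hNN (hF.cut ω) (b1 ω) (l1 ω) (b2 ω) (l2 ω) hL (h0 ω)
  mG := hF.mG
  iG := hF.iG

/-! ### The pieces -/

lemma hh_meas {a : Ω → ℝ} (ma : Measurable a) {m : Ω → ℝ → ℝ}
    (mm : Measurable (Function.uncurry m)) (ρ : ℝ) :
    Measurable (Function.uncurry fun ω ξ => hh ρ (a ω) (m ω) ξ) := by
  have h1 : Measurable (fun z : Ω × ℝ => max (ra (a z.1) z.2) ρ) :=
    (ra_meas ma).max measurable_const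
  exact mm.div h1

lemma eta_ra_meas {a : Ω → ℝ} (ma : Measurable a) (ρ : ℝ) :
    Measurable (fun z : Ω × ℝ => eta (ra (a z.1) z.2 / ρ)) :=
  eta_meas.comp ((ra_meas ma).div_const ρ)

lemma eta_ra_lip {a ρ : ℝ} (ha : 0 < a) (hρ : 0 < ρ) (ξ ξ' : ℝ) :
    |eta (ra a ξ / ρ) - eta (ra a ξ' / ρ)| ≤ 1 / ρ * |ξ - ξ'| := by
  refine (eta_lip _ _).trans ?_
  rw [← sub_div, abs_div, abs_of_pos hρ, one_div, inv_mul_eq_div]
  exact div_le_div_of_nonneg_right (ra_lip ha _ _) hρ.le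

/-- low frequencies -/
lemma fam_low {n : ℕ} {a : Ω → ℝ} {χ G : Ω → ℝ → ℂ} (hF : Fam ((2 : ℝ) ^ n) a χ G)
    {m : Ω → ℝ → ℝ} (mm : Measurable (Function.uncurry m)) (hm : ∀ ω ξ, |m ω ξ| ≤ ra (a ω) ξ)
    (hl : ∀ ω ξ ξ', |m ω ξ - m ω ξ'| ≤ |ξ - ξ'|) :
    Fam ((2 : ℝ) ^ 0) a (fun ω ξ => ((hh 2 (a ω) (m ω) ξ * eta (ra (a ω) ξ / 2 ^ 0) / 8 : ℝ) : ℂ) *
      χ ω ξ) G := by
  refine fam_of hF (L1 := 1) (L2 := 1) (f1 := fun ω ξ => hh 2 (a ω) (m ω) ξ)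
    (f2 := fun ω ξ => eta (ra (a ω) ξ / 2 ^ 0)) (hh_meas hF.ma mm 2) (eta_ra_meas hF.ma _)
    (by norm_num) ?_ ?_ ?_ ?_ ?_ (by norm_num) ?_
  · rw [pow_zero]
    exact one_le_pow₀ (by norm_num)
  · exact fun ω ξ => hh_abs (hF.pos ω) (hm ω) ξ
  · intro ω ξ ξ'
    refine (hh_lip (hF.pos ω) two_pos (hm ω) (hl ω) ξ ξ').trans (le_of_eq ?_)
    norm_num
  · intro ω ξ
    rw [abs_of_nonneg (eta_nonneg _)]
    exact eta_le _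
  · exact fun ω ξ ξ' => eta_ra_lip (hF.pos ω) (by norm_num) ξ ξ'
  · intro ω ξ hξ
    left
    apply eta_zero
    rw [pow_zero, div_one]
    have := abs_le_ra (a ω) ξ
    rw [pow_zero, mul_one] at hξ
    linarith

/-- intermediate frequencies -/
lemma fam_mid {n : ℕ} {a : Ω → ℝ} {χ G : Ω → ℝ → ℂ} (hF : Fam ((2 : ℝ) ^ n) a χ G)
    {m : Ω → ℝ → ℝ} (mm : Measurable (Function.uncurry m)) (hm : ∀ ω ξ, |m ω ξ| ≤ ra (a ω) ξ)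
    (hl : ∀ ω ξ ξ', |m ω ξ - m ω ξ'| ≤ |ξ - ξ'|) {j : ℕ} (hj : j < n) :
    Fam ((2 : ℝ) ^ (j + 1)) a (fun ω ξ => ((hh (2 ^ j) (a ω) (m ω) ξ *
      (eta (ra (a ω) ξ / 2 ^ (j + 1)) - eta (ra (a ω) ξ / 2 ^ j)) / 8 : ℝ) : ℂ) *
      χ ω ξ) G := by
  have hp : (0 : ℝ) < 2 ^ j := by positivity
  have hp1 : (0 : ℝ) < 2 ^ (j + 1) := by positivity
  refine fam_of hF (L1 := 4) (L2 := 3) (f1 := fun ω ξ => hh (2 ^ j) (a ω) (m ω) ξ)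
    (f2 := fun ω ξ => eta (ra (a ω) ξ / 2 ^ (j + 1)) - eta (ra (a ω) ξ / 2 ^ j))
    (hh_meas hF.ma mm _) ((eta_ra_meas hF.ma _).sub (eta_ra_meas hF.ma _))
    hp1 ?_ ?_ ?_ ?_ ?_ (by norm_num) ?_
  · exact pow_le_pow_right₀ (by norm_num) hj
  · exact fun ω ξ => hh_abs (hF.pos ω) (hm ω) ξ
  · intro ω ξ ξ'
    refine (hh_lip (hF.pos ω) hp (hm ω) (hl ω) ξ ξ').trans (le_of_eq ?_)
    rw [pow_succ]
    field_simp
    ring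
  · intro ω ξ
    have h1 := eta_nonneg (ra (a ω) ξ / 2 ^ (j + 1))
    have h2 := eta_le (ra (a ω) ξ / 2 ^ (j + 1))
    have h3 := eta_nonneg (ra (a ω) ξ / 2 ^ j)
    have h4 := eta_le (ra (a ω) ξ / 2 ^ j)
    rw [abs_le]
    constructor <;> linarith
  · intro ω ξ ξ'
    have h1 := eta_ra_lip (hF.pos ω) hp1 ξ ξ'
    have h2 := eta_ra_lip (hF.pos ω) hp ξ ξ'
    have e1 : (eta (ra (a ω) ξ / 2 ^ (j + 1)) - eta (ra (a ω) ξ / 2 ^ j)) -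
        (eta (ra (a ω) ξ' / 2 ^ (j + 1)) - eta (ra (a ω) ξ' / 2 ^ j)) =
        (eta (ra (a ω) ξ / 2 ^ (j + 1)) - eta (ra (a ω) ξ' / 2 ^ (j + 1))) -
        (eta (ra (a ω) ξ / 2 ^ j) - eta (ra (a ω) ξ' / 2 ^ j)) := by ring
    rw [e1]
    refine (abs_sub _ _).trans ((add_le_add h1 h2).trans (le_of_eq ?_))
    rw [pow_succ]
    field_simp
    norm_num
  · intro ω ξ hξ
    left
    have h1 := abs_le_ra (a ω) ξ
    have h2 : (2 : ℝ) ^ (j + 1) = 2 ^ j * 2 := pow_succ _ _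
    rw [eta_zero, eta_zero, sub_zero]
    · rw [le_div_iff₀ hp]
      nlinarith
    · rw [le_div_iff₀ hp1]
      linarith

/-- high frequencies -/
lemma fam_high {n : ℕ} {a : Ω → ℝ} {χ G : Ω → ℝ → ℂ} (hF : Fam ((2 : ℝ) ^ n) a χ G)
    {m : Ω → ℝ → ℝ} (mm : Measurable (Function.uncurry m)) (hm : ∀ ω ξ, |m ω ξ| ≤ ra (a ω) ξ)
    (hl : ∀ ω ξ ξ', |m ω ξ - m ω ξ'| ≤ |ξ - ξ'|) :
    Fam ((2 : ℝ) ^ n) a (fun ω ξ => ((hh (2 ^ n) (a ω) (m ω) ξ *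
      (1 - eta (ra (a ω) ξ / 2 ^ n)) / 8 : ℝ) : ℂ) * χ ω ξ) G := by
  have hp : (0 : ℝ) < 2 ^ n := by positivity
  refine fam_of hF (L1 := 2) (L2 := 1) (f1 := fun ω ξ => hh (2 ^ n) (a ω) (m ω) ξ)
    (f2 := fun ω ξ => 1 - eta (ra (a ω) ξ / 2 ^ n))
    (hh_meas hF.ma mm _) (measurable_const.sub (eta_ra_meas hF.ma _))
    hp le_rfl ?_ ?_ ?_ ?_ (by norm_num) ?_
  · exact fun ω ξ => hh_abs (hF.pos ω) (hm ω) ξ
  · exact fun ω ξ ξ' => hh_lip (hF.pos ω) hp (hm ω) (hl ω) ξ ξ'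
  · intro ω ξ
    have h3 := eta_nonneg (ra (a ω) ξ / 2 ^ n)
    have h4 := eta_le (ra (a ω) ξ / 2 ^ n)
    rw [abs_le]
    constructor <;> linarith
  · intro ω ξ ξ'
    have h1 := eta_ra_lip (hF.pos ω) hp ξ' ξ
    rw [abs_sub_comm ξ' ξ] at h1
    have e1 : (1 - eta (ra (a ω) ξ / 2 ^ n)) - (1 - eta (ra (a ω) ξ' / 2 ^ n)) =
      eta (ra (a ω) ξ' / 2 ^ n) - eta (ra (a ω) ξ / 2 ^ n) := by ring
    rw [e1]
    exact h1
  · intro ω ξ hξ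
    right
    exact (hF.cut ω).2.2 ξ hξ

/-- the decomposition of the multiplier -/
lemma decomp {a : ℝ} (ha : 0 < a) (n : ℕ) (m : ℝ → ℝ) (s ξ : ℝ) :
    m ξ * (s / ra a ξ) = 32 * Real.pi * (s / (2 * Real.pi * ra a ξ)) *
        (hh 2 a m ξ * eta (ra a ξ / 2 ^ 0) / 8) +
      (∑ j ∈ Finset.range n, 8 * (s * (hh (2 ^ j) a m ξ *
        (eta (ra a ξ / 2 ^ (j + 1)) - eta (ra a ξ / 2 ^ j)) / 8)) +
      8 * (s * (hh (2 ^ n) a m ξ * (1 - eta (ra a ξ / 2 ^ n)) / 8))) := by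
  have hr := ra_pos ha ξ
  have hpi := Real.pi_pos
  set r := ra a ξ with hrdef
  have e0 : hh 2 a m ξ * eta (r / 2 ^ 0) = m ξ / 2 * eta (r / 2 ^ 0) := by
    by_cases h : r ≤ 2
    · unfold hh
      rw [← hrdef, max_eq_right h]
    · push Not at h
      rw [eta_zero (by rw [pow_zero, div_one]; exact h.le)]
      ring
  have e1 : ∀ j : ℕ, hh (2 ^ j) a m ξ * (eta (r / 2 ^ (j + 1)) - eta (r / 2 ^ j)) =
      m ξ / r * (eta (r / 2 ^ (j + 1)) - eta (r / 2 ^ j)) := by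
    intro j
    have hp : (0 : ℝ) < 2 ^ j := by positivity
    by_cases h : (2 : ℝ) ^ j ≤ r
    · unfold hh
      rw [← hrdef, max_eq_left h]
    · push Not at h
      have h2 : (2 : ℝ) ^ (j + 1) = 2 ^ j * 2 := pow_succ _ _
      rw [eta_one ((div_le_one hp).2 h.le), eta_one ((div_le_one (by positivity)).2 (by linarith))]
      ring
  have e2 : hh (2 ^ n) a m ξ * (1 - eta (r / 2 ^ n)) = m ξ / r * (1 - eta (r / 2 ^ n)) := by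
    have hp : (0 : ℝ) < 2 ^ n := by positivity
    by_cases h : (2 : ℝ) ^ n ≤ r
    · unfold hh
      rw [← hrdef, max_eq_left h]
    · push Not at h
      rw [eta_one ((div_le_one hp).2 h.le)]
      ring
  rw [e0, e2]
  simp only [e1]
  have e3 : ∑ j ∈ Finset.range n, 8 * (s * (m ξ / r * (eta (r / 2 ^ (j + 1)) -
      eta (r / 2 ^ j)) / 8)) = s * (m ξ / r) * (eta (r / 2 ^ n) - eta (r / 2 ^ 0)) := by
    rw [← Finset.sum_range_sub (fun j => eta (r / 2 ^ j)) n, Finset.mul_sum]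
    refine Finset.sum_congr rfl fun j _ => ?_
    ring
  rw [e3]
  field_simp
  ring

/-! ### Assembly -/

lemma MF.add {Ψ Φ : Ω → ℝ → ℝ → ℂ} (h1 : MF Ψ) (h2 : MF Φ) :
    MF (fun ω t ξ => Ψ ω t ξ + Φ ω t ξ) where
  meas := h1.meas.add h2.meas
  bd := fun ω t => by
    obtain ⟨B, hB⟩ := h1.bd ω t
    obtain ⟨B', hB'⟩ := h2.bd ω t
    exact ⟨B + B', fun ξ => (norm_add_le _ _).trans (add_le_add (hB ξ) (hB' ξ))⟩
  sup := by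
    obtain ⟨R, hR⟩ := h1.sup
    obtain ⟨R', hR'⟩ := h2.sup
    refine ⟨max R R', fun ω t ξ h => ?_⟩
    rw [hR ω t ξ (lt_of_le_of_lt (le_max_left _ _) h),
      hR' ω t ξ (lt_of_le_of_lt (le_max_right _ _) h), add_zero]

lemma MF.zero : MF (fun (_ : Ω) (_ _ : ℝ) => (0 : ℂ)) where
  meas := measurable_const
  bd := fun _ _ => ⟨0, fun _ => by simp⟩
  sup := ⟨0, fun _ _ _ _ => rfl⟩

lemma MF.sum {Ψ : ℕ → Ω → ℝ → ℝ → ℂ} (n : ℕ) (h : ∀ j < n, MF (Ψ j)) :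
    MF (fun ω t ξ => ∑ j ∈ Finset.range n, Ψ j ω t ξ) := by
  induction n with
  | zero => simpa using MF.zero
  | succ n ih =>
    simp only [Finset.sum_range_succ]
    exact (ih fun j hj => h j (by omega)).add (h n (by omega))

lemma Q_smul_le (μ : Measure Ω) {q : ℝ} (hq : 0 < q) (hq2 : q ≤ 2) {c : ℂ} {b : ℕ}
    (hb : ‖c‖ ≤ b) (hb1 : 1 ≤ b) {f : Ω → ℝ → ℝ → ℂ} {K : ℝ≥0∞} (h : Q μ q f ≤ K) :
    Q μ q (fun ω t x => c * f ω t x) ≤ (b : ℝ≥0∞) ^ 4 * K := by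
  rw [Q_smul μ hq]
  have h1 : ‖c‖ₑ ≤ b := by
    rw [← ofReal_norm, ← ENNReal.ofReal_natCast]
    exact ENNReal.ofReal_le_ofReal hb
  have h2 : (‖c‖ₑ ^ 2) ^ q ≤ (b : ℝ≥0∞) ^ 4 := by
    calc (‖c‖ₑ ^ 2) ^ q ≤ ((b : ℝ≥0∞) ^ 2) ^ q :=
          ENNReal.rpow_le_rpow (pow_le_pow_left' h1 2) hq.le
      _ ≤ ((b : ℝ≥0∞) ^ 2) ^ (2 : ℝ) :=
          ENNReal.rpow_le_rpow_of_exponent_le (one_le_pow₀ (by exact_mod_cast hb1)) hq2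
      _ = (b : ℝ≥0∞) ^ 4 := by rw [ENNReal.rpow_two, ← pow_mul]
  exact mul_le_mul' h2 h

lemma Q_add_le (μ : Measure Ω) [SFinite μ] {q : ℝ} (hq : 0 < q) (hq2 : q ≤ 2)
    {f g : Ω → ℝ → ℝ → ℂ} (hf : JM f) (hg : JM g) {K L : ℝ≥0∞} (h1 : Q μ q f ≤ K)
    (h2 : Q μ q g ≤ L) : Q μ q (fun ω t x => f ω t x + g ω t x) ≤ 64 * (K + L) := by
  have h8 : (8 : ℝ≥0∞) ^ q ≤ 64 := by
    calc (8 : ℝ≥0∞) ^ q ≤ 8 ^ (2 : ℝ) :=
          ENNReal.rpow_le_rpow_of_exponent_le (by norm_num) hq2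
      _ = 64 := by norm_num
  exact (Q_add μ hq hf hg).trans (mul_le_mul' h8 (add_le_add h1 h2))

lemma Q_sum_le (μ : Measure Ω) [SFinite μ] {q : ℝ} (hq : 0 < q) (hq2 : q ≤ 2) (n : ℕ)
    (f : ℕ → Ω → ℝ → ℝ → ℂ) (hf : ∀ j ∈ Finset.range n, JM (f j)) {K : ℝ≥0∞}
    (h : ∀ j ∈ Finset.range n, Q μ q (f j) ≤ K) :
    Q μ q (fun ω t x => ∑ j ∈ Finset.range n, f j ω t x) ≤ ((n : ℝ≥0∞) + 1) ^ 7 * K := by
  have h1 := Q_sum μ hq (Finset.range n) f hf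
  have h2 : ∑ j ∈ Finset.range n, Q μ q (f j) ≤ ((n : ℝ≥0∞) + 1) * K := by
    have h3 := Finset.sum_le_card_nsmul _ _ _ h
    rw [nsmul_eq_mul, Finset.card_range] at h3
    refine h3.trans ?_
    gcongr
    exact le_self_add
  have h4 : ((((Finset.range n).card : ℕ) : ℝ≥0∞) ^ 3) ^ q ≤ ((n : ℝ≥0∞) + 1) ^ 6 := by
    rw [Finset.card_range]
    calc ((n : ℝ≥0∞) ^ 3) ^ q ≤ (((n : ℝ≥0∞) + 1) ^ 3) ^ q :=
          ENNReal.rpow_le_rpow (pow_le_pow_left' le_self_add 3) hq.le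
      _ ≤ (((n : ℝ≥0∞) + 1) ^ 3) ^ (2 : ℝ) :=
          ENNReal.rpow_le_rpow_of_exponent_le (one_le_pow₀ le_add_self) hq2
      _ = ((n : ℝ≥0∞) + 1) ^ 6 := by rw [ENNReal.rpow_two, ← pow_mul]
  refine h1.trans ((mul_le_mul' h4 h2).trans (le_of_eq ?_))
  rw [← mul_assoc, ← pow_succ]

theorem t : S_VVP → S_PR := by
  intro hV p hp2 hp4
  obtain ⟨C, hC, hV⟩ := hV p hp2 hp4
  refine ⟨2 ^ 50 * C, 9, by positivity, ?_⟩
  intro Ω _ μ _ n a χ G hF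
  have hq : 1 ≤ p / 2 := by linarith
  have hq0 : 0 < p / 2 := by linarith
  have hq2 : p / 2 ≤ 2 := by linarith
  set R : ℝ≥0∞ := ∫⁻ x : ℝ, (∫⁻ ω, ‖G ω x‖ₑ ^ 2 ∂μ) ^ (p / 2) with hR
  set K : ℝ≥0∞ := ENNReal.ofReal (C * ((n : ℝ) + 1) ^ 2) * R with hK
  have hKi : ∀ i : ℕ, i ≤ n → ∀ χ' : Ω → ℝ → ℂ, Fam ((2 : ℝ) ^ i) a χ' G →
      ∫⁻ t in Icc (-2 : ℝ) 2, ∫⁻ x : ℝ,
        (∫⁻ ω, ‖Vx (a ω) (χ' ω) (G ω) t x‖ₑ ^ 2 ∂μ) ^ (p / 2) ≤ K := by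
    intro i hi χ' hF'
    refine (hV Ω _ μ ‹_› _ a χ' G (one_le_pow₀ (by norm_num)) hF').trans ?_
    rw [hK]
    apply mul_le_mul' _ le_rfl
    apply ENNReal.ofReal_le_ofReal
    have h1 : Real.log ((2 : ℝ) ^ i) ≤ n := by
      rw [Real.log_pow]
      have h2 := Real.log_two_lt_d9
      have h3 : (i : ℝ) ≤ n := by exact_mod_cast hi
      have h4 : (0 : ℝ) ≤ i := Nat.cast_nonneg _
      nlinarith
    have h5 : 0 ≤ Real.log ((2 : ℝ) ^ i) := Real.log_nonneg (one_le_pow₀ (by norm_num))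
    apply mul_le_mul_of_nonneg_left _ hC.le
    apply pow_le_pow_left₀ (by linarith)
    linarith
  have hT : ENNReal.ofReal (2 ^ 50 * C * ((n : ℝ) + 1) ^ 9) * R =
      2 ^ 50 * ((n : ℝ≥0∞) + 1) ^ 7 * K := by
    have e1 : 2 ^ 50 * C * ((n : ℝ) + 1) ^ 9 =
        2 ^ 50 * ((n : ℝ) + 1) ^ 7 * (C * ((n : ℝ) + 1) ^ 2) := by ring
    have e2 : ENNReal.ofReal (2 ^ 50) = 2 ^ 50 := by
      rw [ENNReal.ofReal_pow (by norm_num)]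
      norm_num
    have e3 : ENNReal.ofReal (((n : ℝ) + 1) ^ 7) = ((n : ℝ≥0∞) + 1) ^ 7 := by
      rw [ENNReal.ofReal_pow (by positivity), ENNReal.ofReal_add (by positivity) (by norm_num),
        ENNReal.ofReal_natCast, ENNReal.ofReal_one]
    rw [hK, ← mul_assoc, e1, ENNReal.ofReal_mul (by positivity), ENNReal.ofReal_mul (by positivity),
      e2, e3]
  have hn1 : (1 : ℝ≥0∞) ≤ ((n : ℝ≥0∞) + 1) ^ 7 := one_le_pow₀ le_add_self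
  have hsmall : ∀ k : ℕ, k ≤ 50 → (2 : ℝ≥0∞) ^ k * K ≤
      ENNReal.ofReal (2 ^ 50 * C * ((n : ℝ) + 1) ^ 9) * R := by
    intro k hk
    rw [hT]
    apply mul_le_mul' _ le_rfl
    calc (2 : ℝ≥0∞) ^ k ≤ 2 ^ 50 * 1 := by
          rw [mul_one]
          exact pow_le_pow_right₀ (by norm_num) hk
      _ ≤ _ := mul_le_mul' le_rfl hn1
  refine ⟨?_, ?_, ?_⟩
  · have h1 := (Q_cs μ hq0 hq2 hF (hKi n le_rfl χ hF)).1
    have h2 := hsmall 7 (by norm_num)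
    have e7 : (2 : ℝ≥0∞) ^ 7 = 128 := by norm_num
    rw [e7] at h2
    exact h1.trans h2
  · have h1 := Q_sc μ hq hq2 hF (hKi n le_rfl χ hF)
    have h2 := hsmall 11 (by norm_num)
    have e7 : (2 : ℝ≥0∞) ^ 11 = 2048 := by norm_num
    rw [e7] at h2
    exact h1.trans h2
  · intro m mm hm hl
    -- the three kinds of pieces
    set χl : Ω → ℝ → ℂ := fun ω ξ =>
      ((hh 2 (a ω) (m ω) ξ * eta (ra (a ω) ξ / 2 ^ 0) / 8 : ℝ) : ℂ) * χ ω ξ with hχl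
    set χm : ℕ → Ω → ℝ → ℂ := fun j ω ξ => ((hh (2 ^ j) (a ω) (m ω) ξ *
      (eta (ra (a ω) ξ / 2 ^ (j + 1)) - eta (ra (a ω) ξ / 2 ^ j)) / 8 : ℝ) : ℂ) * χ ω ξ with hχm
    set χh : Ω → ℝ → ℂ := fun ω ξ => ((hh (2 ^ n) (a ω) (m ω) ξ *
      (1 - eta (ra (a ω) ξ / 2 ^ n)) / 8 : ℝ) : ℂ) * χ ω ξ with hχh
    have Fl : Fam ((2 : ℝ) ^ 0) a χl G := fam_low hF mm hm hl
    have Fm : ∀ j < n, Fam ((2 : ℝ) ^ (j + 1)) a (χm j) G := fun j hj => fam_mid hF mm hm hl hj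
    have Fh : Fam ((2 : ℝ) ^ n) a χh G := fam_high hF mm hm hl
    have Ml := MF_sc Fl
    have Mm := fun j (hj : j < n) => MF_sn (Fm j hj)
    have Mh := MF_sn Fh
    have Ql := Q_sc μ hq hq2 Fl (hKi 0 (Nat.zero_le _) χl Fl)
    have Qm := fun j (hj : j < n) => (Q_cs μ hq0 hq2 (Fm j hj) (hKi (j + 1) hj _ (Fm j hj))).2
    have Qh := (Q_cs μ hq0 hq2 Fh (hKi n le_rfl χh Fh)).2
    have heq : ∀ ω t x, Mx (fun ξ => ((m ω ξ * (Real.sin (2 * Real.pi * t * ra (a ω) ξ) /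
        ra (a ω) ξ) : ℝ) : ℂ) * χ ω ξ) (G ω) x =
        ((32 * Real.pi : ℝ) : ℂ) * Mx (fun ξ => sc t (ra (a ω) ξ) * χl ω ξ) (G ω) x +
        (∑ j ∈ Finset.range n, 8 * Mx (fun ξ => sn t (ra (a ω) ξ) * χm j ω ξ) (G ω) x +
          8 * Mx (fun ξ => sn t (ra (a ω) ξ) * χh ω ξ) (G ω) x) := by
      intro ω t x
      simp only [← Mx_smul]
      rw [← Mx_sum (hF.iG ω) (Finset.range n)
        (Ψ := fun j ω t ξ => 8 * (sn t (ra (a ω) ξ) * χm j ω ξ))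
        (fun j hj => (Mm j (Finset.mem_range.1 hj)).smul 8) t x]
      rw [← Mx_add (hF.iG ω) (MF.sum n fun j hj => (Mm j hj).smul 8) (Mh.smul 8) t x]
      rw [← Mx_add (hF.iG ω) (Ml.smul _)
        ((MF.sum n fun j hj => (Mm j hj).smul 8).add (Mh.smul 8)) t x]
      congr 1
      funext ξ
      rw [decomp (hF.pos ω) n (m ω) (Real.sin (2 * Real.pi * t * ra (a ω) ξ)) ξ]
      simp only [hχl, hχm, hχh, sc, sn]
      push_cast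
      rw [add_mul, add_mul, Finset.sum_mul]
      congr 1
      · ring
      · congr 1
        · refine Finset.sum_congr rfl fun j _ => ?_
          ring
        · ring
    have hsum := Q_sum_le μ hq0 hq2 n
      (fun j ω t x => 8 * Mx (fun ξ => sn t (ra (a ω) ξ) * χm j ω ξ) (G ω) x)
      (fun j hj => Measurable.const_mul (JM_Mx hF.mG (Mm j (Finset.mem_range.1 hj))) 8)
      (K := ((8 : ℕ) : ℝ≥0∞) ^ 4 * (128 * K))
      (fun j hj => Q_smul_le μ hq0 hq2 (by norm_num) (by norm_num) (Qm j (Finset.mem_range.1 hj)))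
    have jsum : JM (fun ω t x => ∑ j ∈ Finset.range n,
        8 * Mx (fun ξ => sn t (ra (a ω) ξ) * χm j ω ξ) (G ω) x) := by
      unfold JM
      exact Finset.measurable_fun_sum _ (fun j hj =>
        Measurable.const_mul (JM_Mx hF.mG (Mm j (Finset.mem_range.1 hj))) 8)
    have jh : JM (fun ω t x => 8 * Mx (fun ξ => sn t (ra (a ω) ξ) * χh ω ξ) (G ω) x) :=
      Measurable.const_mul (JM_Mx hF.mG Mh) 8
    have jl : JM (fun ω t x => ((32 * Real.pi : ℝ) : ℂ) *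
        Mx (fun ξ => sc t (ra (a ω) ξ) * χl ω ξ) (G ω) x) :=
      Measurable.const_mul (JM_Mx hF.mG Ml) _
    have hhigh : Q μ (p / 2) (fun ω t x => 8 * Mx (fun ξ => sn t (ra (a ω) ξ) * χh ω ξ) (G ω) x) ≤
        ((8 : ℕ) : ℝ≥0∞) ^ 4 * (128 * K) := Q_smul_le μ hq0 hq2 (by norm_num) (by norm_num) Qh
    have hlow : Q μ (p / 2) (fun ω t x => ((32 * Real.pi : ℝ) : ℂ) *
        Mx (fun ξ => sc t (ra (a ω) ξ) * χl ω ξ) (G ω) x) ≤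
        ((128 : ℕ) : ℝ≥0∞) ^ 4 * (2048 * K) := by
      refine Q_smul_le μ hq0 hq2 ?_ (by norm_num) Ql
      have h1 := Real.pi_lt_four
      have h2 := Real.pi_pos
      rw [Complex.norm_real, Real.norm_eq_abs, abs_of_pos (by positivity)]
      push_cast
      linarith
    have h1 := Q_add_le μ hq0 hq2 jsum jh hsum hhigh
    have jsh : JM (fun ω t x => ∑ j ∈ Finset.range n,
        8 * Mx (fun ξ => sn t (ra (a ω) ξ) * χm j ω ξ) (G ω) x +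
        8 * Mx (fun ξ => sn t (ra (a ω) ξ) * χh ω ξ) (G ω) x) := Measurable.add jsum jh
    have h2 := Q_add_le μ hq0 hq2 jl jsh hlow h1
    have h3 : ∫⁻ t in Icc (0 : ℝ) 2, ∫⁻ x : ℝ, (∫⁻ ω, ‖Mx (fun ξ =>
        ((m ω ξ * (Real.sin (2 * Real.pi * t * ra (a ω) ξ) / ra (a ω) ξ) : ℝ) : ℂ) * χ ω ξ)
        (G ω) x‖ₑ ^ 2 ∂μ) ^ (p / 2) = Q μ (p / 2) (fun ω t x =>
        ((32 * Real.pi : ℝ) : ℂ) * Mx (fun ξ => sc t (ra (a ω) ξ) * χl ω ξ) (G ω) x +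
        (∑ j ∈ Finset.range n, 8 * Mx (fun ξ => sn t (ra (a ω) ξ) * χm j ω ξ) (G ω) x +
          8 * Mx (fun ξ => sn t (ra (a ω) ξ) * χh ω ξ) (G ω) x)) := by
      unfold Q
      simp only [heq]
    rw [h3]
    refine h2.trans ?_
    rw [hT]
    set M : ℝ≥0∞ := ((n : ℝ≥0∞) + 1) ^ 7 with hM
    have hKM : K ≤ M * K := by
      calc K = 1 * K := (one_mul K).symm
        _ ≤ M * K := mul_le_mul' hn1 le_rfl
    calc 64 * (((128 : ℕ) : ℝ≥0∞) ^ 4 * (2048 * K) + 64 * (M * (((8 : ℕ) : ℝ≥0∞) ^ 4 * (128 * K)) +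
          ((8 : ℕ) : ℝ≥0∞) ^ 4 * (128 * K)))
        ≤ 64 * (((128 : ℕ) : ℝ≥0∞) ^ 4 * (2048 * (M * K)) +
          64 * (M * (((8 : ℕ) : ℝ≥0∞) ^ 4 * (128 * K)) +
          ((8 : ℕ) : ℝ≥0∞) ^ 4 * (128 * (M * K)))) := by gcongr
      _ = (64 * (((128 : ℕ) : ℝ≥0∞) ^ 4 * 2048 + 64 * (((8 : ℕ) : ℝ≥0∞) ^ 4 * 128 +
          ((8 : ℕ) : ℝ≥0∞) ^ 4 * 128))) * (M * K) := by ring
      _ ≤ 2 ^ 50 * (M * K) := by
          apply mul_le_mul' _ le_rfl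
          norm_num
      _ = 2 ^ 50 * M * K := by ring

end Pool.Agent.K9h96.LS.PR
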