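import Pool.Agent.K9h96.LS.PWQ
set_option autoImplicit false

/-!
# (PW) spectrum near a finite `Λ(p)` set in the first variables, `2 ≤ p ≤ 4`
(helper99's proof of `PWQ`)
-/

open MeasureTheory Set
open scoped ENNReal FourierTransform RealInnerProductSpace SchwartzMap

namespace Pool.Agent.K9h96.LS

/-- (PW) for one dimension and one exponent -/
def PWat (m : ℕ) (p : ℝ) : Prop := ∀ K : 𝓢(N303.LS.E m, ℂ),
  ∃ (C : ℝ) (A : ℕ), 0 < C ∧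
  ∀ (n : ℕ) (g : 𝓢(N303.LS.E (m + 1), ℂ)),
  (∀ ζ, (2 : ℝ) ^ n < |ls ζ| → 𝓕 (g : N303.LS.E (m + 1) → ℂ) ζ = 0) →
  ∀ (S : Finset (Fin m → ℤ)) (a : (Fin m → ℤ) → ℂ) (Λ : ℝ), 0 ≤ Λ → N303.LS.Lam p Λ S a →
  ∀ k : Fin (m + 1) ⊕ Bool,
    ∫⁻ t in Icc (0 : ℝ) 2, ∫⁻ z : N303.LS.E (m + 1),
      ‖N303.LS.inv (fun ζ => N303.LS.psia K S a (hd ζ) *
        (N303.LS.sym k t ζ * 𝓕 (g : N303.LS.E (m + 1) → ℂ) ζ)) z‖ₑ ^ p ≤
    ENNReal.ofReal (kk p C A n * Λ ^ p) * ∫⁻ z : N303.LS.E (m + 1), ‖g z‖ₑ ^ p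

namespace PW

open Pool.Agent.TH280.LS (e norm_e continuous_e)
open Pool.Agent.N303.LS (E inv sym nrg psia Lam sym_int inv_cont psia_int vol_cu S_LLG)
open Pool.Agent.K9h96.LS.LOC (integ_jn inv_jn lint_jn hd_jn)
open Pool.Agent.N492.LS (cu avg)
open Pool.Agent.K9h96.LS.PWQ

theorem t : S_LLG → S_ENL → ∀ (m : ℕ) (p : ℝ), 0 < m → 2 ≤ p → p ≤ 4 → PWat m p := by
  intro hL hE m p hm hp hp4 K
  obtain ⟨C1, hC1, h1⟩ := hL m (m + 1) p hp K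
  obtain ⟨C2, A, hC2, h2'⟩ := hE m p hm hp hp4
  have h2 := h2'
  simp only [← kk_of_le hp4] at h2
  refine ⟨C2 * C1, A, by positivity, ?_⟩
  intro n g hg S a Λ hΛ hLam k
  have hΛp : 0 ≤ Λ ^ p := Real.rpow_nonneg hΛ p
  have h3 := h2 n g hg k
  have key : ∀ t ∈ Icc (0 : ℝ) 2, ∫⁻ z : E (m + 1),
      ‖inv (fun ζ => psia K S a (hd ζ) * (sym k t ζ * 𝓕 (g : E (m + 1) → ℂ) ζ)) z‖ₑ ^ p ≤
      ENNReal.ofReal (C1 * Λ ^ p) *
        ∫⁻ x : ℝ, ∫⁻ w : E m, nrg (m + 1) (fun y => ev k g t y x) w ^ (p / 2) := by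
    intro t ht
    have hΦ : Integrable fun ζ : E (m + 1) => sym k t ζ * 𝓕 (g : E (m + 1) → ℂ) ζ :=
      sym_int k t ht.1 ht.2 g
    have hΨ := psia_hd_int K S a hΦ
    rw [lint_jn _ ((inv_cont _ hΨ).measurable.enorm.pow_const p),
      ← lintegral_const_mul' _ _ ENNReal.ofReal_ne_top]
    refine lintegral_mono fun x => ?_
    rw [← lintegral_const_mul' _ _ ENNReal.ofReal_ne_top]
    have hF := FF_int hΦ x
    have hms : Measurable fun y : E m => ‖inv (fun η => psia K S a η *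
        FF (fun ζ : E (m + 1) => sym k t ζ * 𝓕 (g : E (m + 1) → ℂ) ζ) x η) y‖ₑ ^ p :=
      (inv_cont _ (psia_int K S a _ hF)).measurable.enorm.pow_const p
    have a1 := avg 1 hms
    have e0 : ∀ w : E m, cu 1 w = {x : E m | ∀ i, |x i - w i| ≤ 1} := by
      intro w
      unfold Pool.Agent.N492.LS.cu
      norm_num
    have e1 : ∀ w : E m, nrg (m + 1) (fun y => ev k g t y x) w =
        nrg (m + 1) (inv (FF (fun ζ : E (m + 1) => sym k t ζ * 𝓕 (g : E (m + 1) → ℂ) ζ) x)) w := by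
      intro w
      congr 1
      funext y
      exact inv_FF hΦ y x
    calc ∫⁻ y : E m, ‖inv (fun ζ => psia K S a (hd ζ) *
          (sym k t ζ * 𝓕 (g : E (m + 1) → ℂ) ζ)) (jn y x)‖ₑ ^ p
        = ∫⁻ y : E m, ‖inv (fun η => psia K S a η *
          FF (fun ζ : E (m + 1) => sym k t ζ * 𝓕 (g : E (m + 1) → ℂ) ζ) x η) y‖ₑ ^ p := by
          refine lintegral_congr fun y => ?_
          rw [inv_mul_FF (psia K S a) hΨ y x]
      _ ≤ volume (cu 1 (0 : E m)) * ∫⁻ y : E m, ‖inv (fun η => psia K S a η *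
          FF (fun ζ : E (m + 1) => sym k t ζ * 𝓕 (g : E (m + 1) → ℂ) ζ) x η) y‖ₑ ^ p :=
          le_mul_of_one_le_left (by positivity) (vol_cu m)
      _ = ∫⁻ w : E m, ∫⁻ y in cu 1 w, ‖inv (fun η => psia K S a η *
          FF (fun ζ : E (m + 1) => sym k t ζ * 𝓕 (g : E (m + 1) → ℂ) ζ) x η) y‖ₑ ^ p := a1.symm
      _ ≤ _ := by
          refine lintegral_mono fun w => ?_
          simp only [e0, e1]
          exact h1 S a Λ hΛ hLam _ hF w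
  calc ∫⁻ t in Icc (0 : ℝ) 2, ∫⁻ z : E (m + 1),
      ‖inv (fun ζ => psia K S a (hd ζ) * (sym k t ζ * 𝓕 (g : E (m + 1) → ℂ) ζ)) z‖ₑ ^ p
      ≤ ∫⁻ t in Icc (0 : ℝ) 2, ENNReal.ofReal (C1 * Λ ^ p) *
        ∫⁻ x : ℝ, ∫⁻ w : E m, nrg (m + 1) (fun y => ev k g t y x) w ^ (p / 2) :=
        setLIntegral_mono' measurableSet_Icc key
    _ = ENNReal.ofReal (C1 * Λ ^ p) * ∫⁻ t in Icc (0 : ℝ) 2, ∫⁻ x : ℝ, ∫⁻ w : E m,
        nrg (m + 1) (fun y => ev k g t y x) w ^ (p / 2) := by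
        rw [lintegral_const_mul' _ _ ENNReal.ofReal_ne_top]
    _ ≤ ENNReal.ofReal (C1 * Λ ^ p) * (ENNReal.ofReal (kk p C2 A n) *
        ∫⁻ z : E (m + 1), ‖g z‖ₑ ^ p) := by gcongr
    _ = _ := by
        rw [← mul_assoc, ← ENNReal.ofReal_mul (by positivity), kk_mul]
        congr 2
        ring

end PW

end Pool.Agent.K9h96.LS
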