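import Pool.Agent.K9h96.LS.VV4
import Pool.Agent.H438R2.RZ.M1
set_option autoImplicit false

/-! # LS, the vector valued `L^p` estimate, `2 ≤ p ≤ 4` -/

open MeasureTheory Set
open scoped ENNReal

namespace Pool.Agent.K9h96.LS.VVP

open Pool.Agent.TH280.LS
open Pool.Agent.TH73.LS4 (memLp_two memLp_two_of_bdd qq qq_bdd qq_int int_e)
open VV4 (Vx_meas ft_meas)

lemma enorm_e (x : ℝ) : ‖e x‖ₑ = 1 := by
  rw [← ofReal_norm, norm_e, ENNReal.ofReal_one]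

/-- Plancherel at one time -/
lemma one {a N : ℝ} {χ G : ℝ → ℂ} (hN : 1 ≤ N) (hχ : Cut 1 N χ) (hG : Integrable G) (t : ℝ) :
    ∫⁻ x : ℝ, ‖Vx a χ G t x‖ₑ ^ 2 ≤ ∫⁻ x : ℝ, ‖G x‖ₑ ^ 2 := by
  by_cases h : ∫⁻ x : ℝ, ‖G x‖ₑ ^ 2 = ∞
  · rw [h]; exact le_top
  have h2 := memLp_two hG (lt_top_iff_ne_top.2 h)
  have e1 := ift_planch (qq a χ G t) (qq_int hN hχ hG t)
    (memLp_two_of_bdd (qq_int hN hχ hG t) (qq_bdd hχ t))
  calc ∫⁻ x : ℝ, ‖Vx a χ G t x‖ₑ ^ 2 = ∫⁻ x : ℝ, ‖∫ ξ : ℝ, e (x * ξ) * qq a χ G t ξ‖ₑ ^ 2 := rfl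
    _ = ∫⁻ ξ : ℝ, ‖qq a χ G t ξ‖ₑ ^ 2 := e1
    _ ≤ ∫⁻ ξ : ℝ, ‖ft G ξ‖ₑ ^ 2 := by
        refine lintegral_mono fun ξ => ?_
        simp only
        gcongr
        unfold qq
        rw [enorm_mul, enorm_mul, enorm_e, one_mul]
        refine mul_le_of_le_one_left zero_le ?_
        rw [← ofReal_norm]
        exact ENNReal.ofReal_le_one.2 (hχ.1 ξ)
    _ = _ := ft_planch G hG h2

section
variable {Ω : Type} [MeasurableSpace Ω] {μ : Measure Ω} {N : ℝ} {a : Ω → ℝ}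
  {χ G : Ω → ℝ → ℂ}

/-- the square function of the data -/
noncomputable def S (μ : Measure Ω) (G : Ω → ℝ → ℂ) (x : ℝ) : ℝ≥0∞ := ∫⁻ ω, ‖G ω x‖ₑ ^ 2 ∂μ

/-- the square function of the solution -/
noncomputable def T (μ : Measure Ω) (a : Ω → ℝ) (χ G : Ω → ℝ → ℂ) (q : ℝ × ℝ) : ℝ≥0∞ :=
  ∫⁻ ω, ‖Vx (a ω) (χ ω) (G ω) q.1 q.2‖ₑ ^ 2 ∂μ

lemma S_meas [SFinite μ] (h : Fam N a χ G) : Measurable (S μ G) :=
  ((h.mG.enorm).pow_const 2).lintegral_prod_left'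

lemma T_meas [SFinite μ] (h : Fam N a χ G) : Measurable (T μ a χ G) :=
  ((Vx_meas h).enorm.pow_const 2).lintegral_prod_left'

/-- the measure on the side of the solution -/
noncomputable def nu : Measure (ℝ × ℝ) :=
  ((volume : Measure ℝ).restrict (Icc (-2 : ℝ) 2)).prod (volume : Measure ℝ)

lemma lint_nu (f : ℝ × ℝ → ℝ≥0∞) (hf : Measurable f) :
    ∫⁻ z, f z ∂nu = ∫⁻ t in Icc (-2 : ℝ) 2, ∫⁻ x : ℝ, f (t, x) := by
  unfold nu
  rw [lintegral_prod _ hf.aemeasurable]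

/-- the case `p = 2` -/
lemma two [SFinite μ] (hN : 1 ≤ N) (h : Fam N a χ G) :
    ∫⁻ q, T μ a χ G q ∂nu ≤ ENNReal.ofReal 4 * ∫⁻ x : ℝ, S μ G x := by
  rw [lint_nu _ (T_meas h)]
  have h1 : ∀ t : ℝ, ∫⁻ x : ℝ, T μ a χ G (t, x) ≤ ∫⁻ x : ℝ, S μ G x := by
    intro t
    unfold T S
    have hm1 : Measurable fun p : ℝ × Ω => ‖Vx (a p.2) (χ p.2) (G p.2) t p.1‖ₑ ^ 2 :=
      ((Vx_meas h).enorm.pow_const 2).comp
        (g := fun p : Ω × (ℝ × ℝ) => ‖Vx (a p.1) (χ p.1) (G p.1) p.2.1 p.2.2‖ₑ ^ 2)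
        (f := fun p : ℝ × Ω => (p.2, (t, p.1))) (by fun_prop)
    have hm2 : Measurable fun p : ℝ × Ω => ‖G p.2 p.1‖ₑ ^ 2 :=
      ((h.mG.enorm).pow_const 2).comp (g := fun p : Ω × ℝ => ‖G p.1 p.2‖ₑ ^ 2)
        (f := fun p : ℝ × Ω => (p.2, p.1)) (by fun_prop)
    calc ∫⁻ x : ℝ, ∫⁻ ω, ‖Vx (a ω) (χ ω) (G ω) t x‖ₑ ^ 2 ∂μ
        = ∫⁻ ω, (∫⁻ x : ℝ, ‖Vx (a ω) (χ ω) (G ω) t x‖ₑ ^ 2) ∂μ :=
          lintegral_lintegral_swap hm1.aemeasurable
      _ ≤ ∫⁻ ω, (∫⁻ x : ℝ, ‖G ω x‖ₑ ^ 2) ∂μ :=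
          lintegral_mono fun ω => one hN (h.cut ω) (h.iG ω) t
      _ = ∫⁻ x : ℝ, ∫⁻ ω, ‖G ω x‖ₑ ^ 2 ∂μ :=
          (lintegral_lintegral_swap hm2.aemeasurable).symm
  calc ∫⁻ t in Icc (-2 : ℝ) 2, ∫⁻ x : ℝ, T μ a χ G (t, x) ≤
      ∫⁻ t in Icc (-2 : ℝ) 2, ∫⁻ x : ℝ, S μ G x := lintegral_mono fun t => h1 t
    _ = (∫⁻ x : ℝ, S μ G x) * volume (Icc (-2 : ℝ) 2) := setLIntegral_const _ _
    _ = _ := by
        rw [Real.volume_Icc, mul_comm]
        congr 2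
        norm_num

/-- restriction of the data -/
noncomputable def tr (A : Set ℝ) (G : Ω → ℝ → ℂ) (ω : Ω) : ℝ → ℂ := A.indicator (G ω)

lemma fam_tr (h : Fam N a χ G) {A : Set ℝ} (hA : MeasurableSet A) : Fam N a χ (tr A G) := by
  refine ⟨h.ma, h.pos, h.mχ, h.cut, ?_, fun ω => (h.iG ω).indicator hA⟩
  have e1 : Function.uncurry (tr A G) = (Prod.snd ⁻¹' A).indicator (Function.uncurry G) := by
    funext p
    show A.indicator (G p.1) p.2 = _
    by_cases hp : p.2 ∈ A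
    · rw [indicator_of_mem hp, indicator_of_mem (by exact hp)]
      rfl
    · rw [indicator_of_notMem hp, indicator_of_notMem (by exact hp)]
  rw [e1]
  exact h.mG.indicator (measurable_snd hA)

lemma S_tr (A : Set ℝ) (G : Ω → ℝ → ℂ) (x : ℝ) : S μ (tr A G) x = A.indicator (S μ G) x := by
  unfold S tr
  by_cases hx : x ∈ A
  · simp only [indicator_of_mem hx]
  · simp only [indicator_of_notMem hx]
    simp

lemma ft_add {G1 G2 : ℝ → ℂ} (h1 : Integrable G1) (h2 : Integrable G2) (ξ : ℝ) :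
    ft (fun x => G1 x + G2 x) ξ = ft G1 ξ + ft G2 ξ := by
  unfold ft
  rw [← integral_add (int_e h1 ξ) (int_e h2 ξ)]
  refine integral_congr_ae (Filter.Eventually.of_forall fun z => ?_)
  simp only
  ring

lemma int_V {a N : ℝ} {χ G : ℝ → ℂ} (hN : 1 ≤ N) (hχ : Cut 1 N χ) (hG : Integrable G)
    (t x : ℝ) : Integrable fun ξ : ℝ => e (x * ξ) * (e (t * ra a ξ) * (χ ξ * ft G ξ)) := by
  have h := (qq_int (a := a) hN hχ hG t)
  refine (h.norm).mono' ?_ (Filter.Eventually.of_forall fun ξ => ?_)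
  · have : Continuous fun ξ : ℝ => e (x * ξ) := continuous_e.comp (by fun_prop)
    exact this.aestronglyMeasurable.mul h.1
  · rw [norm_mul, norm_e, one_mul]
    exact le_refl _

lemma Vx_add {a N : ℝ} {χ G1 G2 : ℝ → ℂ} (hN : 1 ≤ N) (hχ : Cut 1 N χ) (h1 : Integrable G1)
    (h2 : Integrable G2) (t x : ℝ) :
    Vx a χ (fun x => G1 x + G2 x) t x = Vx a χ G1 t x + Vx a χ G2 t x := by
  unfold Vx
  rw [← integral_add (int_V hN hχ h1 t x) (int_V hN hχ h2 t x)]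
  refine integral_congr_ae (Filter.Eventually.of_forall fun ξ => ?_)
  simp only
  rw [ft_add h1 h2]
  ring

/-- Minkowski -/
lemma mink {f g : Ω → ℂ} (hf : AEMeasurable f μ) (hg : AEMeasurable g μ) :
    (∫⁻ ω, ‖f ω + g ω‖ₑ ^ 2 ∂μ) ^ (1 / 2 : ℝ) ≤
      (∫⁻ ω, ‖f ω‖ₑ ^ 2 ∂μ) ^ (1 / 2 : ℝ) + (∫⁻ ω, ‖g ω‖ₑ ^ 2 ∂μ) ^ (1 / 2 : ℝ) := by
  have h := ENNReal.lintegral_Lp_add_le (μ := μ) (p := 2) hf.enorm hg.enorm (by norm_num)
  simp only [Pi.add_apply, ENNReal.rpow_two] at h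
  refine le_trans ?_ h
  gcongr with ω
  exact enorm_add_le _ _

lemma T_split [SFinite μ] (hN : 1 ≤ N) (h : Fam N a χ G) {A : Set ℝ} (hA : MeasurableSet A)
    (q : ℝ × ℝ) : T μ a χ G q ^ (1 / 2 : ℝ) ≤
      T μ a χ (tr A G) q ^ (1 / 2 : ℝ) + T μ a χ (tr Aᶜ G) q ^ (1 / 2 : ℝ) := by
  have h1 := fam_tr h hA
  have h2 := fam_tr h hA.compl
  have e1 : ∀ ω, Vx (a ω) (χ ω) (G ω) q.1 q.2 = Vx (a ω) (χ ω) (tr A G ω) q.1 q.2 +
      Vx (a ω) (χ ω) (tr Aᶜ G ω) q.1 q.2 := by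
    intro ω
    rw [← Vx_add hN (h.cut ω) (h1.iG ω) (h2.iG ω)]
    congr 1
    funext x
    unfold tr
    by_cases hx : x ∈ A
    · rw [indicator_of_mem hx, indicator_of_notMem (by simpa using hx), add_zero]
    · rw [indicator_of_notMem hx, indicator_of_mem (by simpa using hx), zero_add]
  unfold T
  simp only [e1]
  refine mink ?_ ?_
  · exact ((Vx_meas h1).comp (f := fun ω => (ω, q)) (by fun_prop)).aemeasurable
  · exact ((Vx_meas h2).comp (f := fun ω => (ω, q)) (by fun_prop)).aemeasurable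

end

lemma half_sq (x : ℝ≥0∞) : (x ^ (1 / 2 : ℝ)) ^ 2 = x := by
  rw [← ENNReal.rpow_natCast, ← ENNReal.rpow_mul]
  norm_num

lemma half_four (x : ℝ≥0∞) : (x ^ (1 / 2 : ℝ)) ^ 4 = x ^ 2 := by
  rw [← ENNReal.rpow_natCast, ← ENNReal.rpow_mul, ← ENNReal.rpow_natCast]
  norm_num

lemma half_p (x : ℝ≥0∞) (p : ℝ) : (x ^ (1 / 2 : ℝ)) ^ p = x ^ (p / 2) := by
  rw [← ENNReal.rpow_mul]
  congr 1
  ring

lemma half_fin {x : ℝ≥0∞} (h : x < ∞) :
    ENNReal.ofReal (x ^ (1 / 2 : ℝ)).toReal = x ^ (1 / 2 : ℝ) :=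
  ENNReal.ofReal_toReal (ENNReal.rpow_ne_top_of_nonneg (by norm_num) h.ne)

theorem interp (p : ℝ) (hp2 : 2 < p) (hp4 : p < 4) : ∃ C : ℝ, 0 < C ∧
    ∀ (Ω : Type) (_ : MeasurableSpace Ω) (μ : Measure Ω),
    SFinite μ → ∀ (N : ℝ) (a : Ω → ℝ) (χ G : Ω → ℝ → ℂ), 1 ≤ N → Fam N a χ G → ∀ M4 : ℝ, 0 < M4 →
    (∀ G' : Ω → ℝ → ℂ, Fam N a χ G' →
      ∫⁻ q, T μ a χ G' q ^ 2 ∂nu ≤ ENNReal.ofReal M4 * ∫⁻ x : ℝ, S μ G' x ^ 2) →
    ∫⁻ q, T μ a χ G q ^ (p / 2) ∂nu ≤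
      ENNReal.ofReal (C * M4 ^ ((p - 2) / 2)) * ∫⁻ x : ℝ, S μ G x ^ (p / 2) := by
  obtain ⟨C, hC, HC⟩ := Pool.Agent.H438R2.RZ.marc24 p hp2 hp4
  refine ⟨C * 4 ^ ((4 - p) / 2), by positivity, ?_⟩
  intro Ω _ μ hμ N a χ G hN hF M4 hM4 H4
  have hpc : 0 < C * 4 ^ ((4 - p) / 2) * M4 ^ ((p - 2) / 2) := by positivity
  have hSm := S_meas (μ := μ) hF
  have hTm := T_meas (μ := μ) hF
  by_cases hfin : ∫⁻ x : ℝ, S μ G x ^ (p / 2) = ∞
  · rw [hfin, ENNReal.mul_top (by simpa using hpc)]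
    exact le_top
  have hSae : ∀ᵐ x : ℝ, S μ G x < ∞ := by
    filter_upwards [ae_lt_top (hSm.pow_const (p / 2)) hfin] with x hx
    by_contra hcon
    rw [not_lt, top_le_iff] at hcon
    rw [hcon, ENNReal.top_rpow_of_pos (by linarith)] at hx
    exact lt_irrefl _ hx
  obtain ⟨f, hf⟩ : ∃ f : ℝ → ℝ, f = fun x => (S μ G x ^ (1 / 2 : ℝ)).toReal := ⟨_, rfl⟩
  obtain ⟨F, hFd⟩ : ∃ F : ℝ × ℝ → ℝ, F = fun q => (T μ a χ G q ^ (1 / 2 : ℝ)).toReal := ⟨_, rfl⟩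
  have hfm : Measurable f := by
    rw [hf]
    exact (hSm.pow_const _).ennreal_toReal
  have hFm : Measurable F := by
    rw [hFd]
    exact (hTm.pow_const _).ennreal_toReal
  have hfae : ∀ᵐ x : ℝ, ENNReal.ofReal (f x) = S μ G x ^ (1 / 2 : ℝ) := by
    filter_upwards [hSae] with x hx
    rw [hf]
    exact half_fin hx
  have hset : ∀ l : ℝ, MeasurableSet {x : ℝ | l < f x} := fun l =>
    measurableSet_lt measurable_const hfm
  have hcomp : ∀ l : ℝ, {x : ℝ | l < f x}ᶜ = {x : ℝ | f x ≤ l} := by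
    intro l
    ext x
    simp
  -- the two bounds
  have B2 : ∀ l : ℝ, ∫⁻ q, T μ a χ (tr {x : ℝ | l < f x} G) q ∂nu ≤
      ENNReal.ofReal 4 * ∫⁻ x in {x | l < f x}, S μ G x := by
    intro l
    refine (two hN (fam_tr hF (hset l))).trans (le_of_eq ?_)
    rw [← lintegral_indicator (hset l)]
    simp only [S_tr]
  have B4 : ∀ l : ℝ, ∫⁻ q, T μ a χ (tr {x : ℝ | l < f x}ᶜ G) q ^ 2 ∂nu ≤
      ENNReal.ofReal M4 * ∫⁻ x in {x | f x ≤ l}, S μ G x ^ 2 := by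
    intro l
    refine (H4 _ (fam_tr hF (hset l).compl)).trans (le_of_eq ?_)
    rw [← hcomp, ← lintegral_indicator (hset l).compl]
    congr 1
    refine lintegral_congr fun x => ?_
    rw [S_tr]
    by_cases hx : x ∈ {x : ℝ | l < f x}ᶜ
    · rw [indicator_of_mem hx, indicator_of_mem hx]
    · rw [indicator_of_notMem hx, indicator_of_notMem hx]
      simp
  have hTae : ∀ᵐ q ∂nu, T μ a χ G q < ∞ := by
    have f1 : ∫⁻ x in {x | 1 < f x}, S μ G x ≤ ∫⁻ x : ℝ, S μ G x ^ (p / 2) := by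
      rw [← lintegral_indicator (hset 1)]
      refine lintegral_mono_ae ?_
      filter_upwards [hfae] with x hx
      by_cases hx1 : x ∈ {x : ℝ | 1 < f x}
      · rw [indicator_of_mem hx1]
        have h1 : 1 ≤ S μ G x := by
          rw [← half_sq (S μ G x), ← hx]
          refine one_le_pow₀ ?_
          rw [ENNReal.one_le_ofReal]
          exact le_of_lt hx1
        calc S μ G x = S μ G x ^ (1 : ℝ) := (ENNReal.rpow_one _).symm
          _ ≤ S μ G x ^ (p / 2) := ENNReal.rpow_le_rpow_of_exponent_le h1 (by linarith)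
      · rw [indicator_of_notMem hx1]
        exact zero_le
    have f2 : ∫⁻ x in {x | f x ≤ 1}, S μ G x ^ 2 ≤ ∫⁻ x : ℝ, S μ G x ^ (p / 2) := by
      rw [← hcomp, ← lintegral_indicator (hset 1).compl]
      refine lintegral_mono_ae ?_
      filter_upwards [hfae] with x hx
      by_cases hx1 : x ∈ {x : ℝ | 1 < f x}ᶜ
      · rw [indicator_of_mem hx1]
        have h1 : S μ G x ≤ 1 := by
          rw [← half_sq (S μ G x), ← hx]
          refine pow_le_one₀ zero_le ?_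
          rw [ENNReal.ofReal_le_one]
          rw [hcomp] at hx1
          exact hx1
        calc S μ G x ^ 2 = S μ G x ^ (2 : ℝ) := (ENNReal.rpow_two _).symm
          _ ≤ S μ G x ^ (p / 2) := ENNReal.rpow_le_rpow_of_exponent_ge h1 (by linarith)
      · rw [indicator_of_notMem hx1]
        exact zero_le
    have g1 := (B2 1).trans_lt (ENNReal.mul_lt_top ENNReal.ofReal_lt_top
      (f1.trans_lt (lt_top_iff_ne_top.2 hfin)))
    have g2 := (B4 1).trans_lt (ENNReal.mul_lt_top ENNReal.ofReal_lt_top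
      (f2.trans_lt (lt_top_iff_ne_top.2 hfin)))
    have m1 := T_meas (μ := μ) (fam_tr hF (hset 1))
    have m2 := T_meas (μ := μ) (fam_tr hF (hset 1).compl)
    filter_upwards [ae_lt_top m1 g1.ne, ae_lt_top (m2.pow_const 2) g2.ne] with q k1 k2
    have k3 : T μ a χ (tr {x : ℝ | 1 < f x}ᶜ G) q < ∞ := by
      by_contra hcon
      rw [not_lt, top_le_iff] at hcon
      rw [hcon] at k2
      simp at k2
    have k4 := T_split hN hF (μ := μ) (hset 1) q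
    have k5 : T μ a χ G q ^ (1 / 2 : ℝ) < ∞ :=
      k4.trans_lt (ENNReal.add_lt_top.2 ⟨ENNReal.rpow_lt_top_of_nonneg (by norm_num) k1.ne,
        ENNReal.rpow_lt_top_of_nonneg (by norm_num) k3.ne⟩)
    by_contra hcon
    rw [not_lt, top_le_iff] at hcon
    rw [hcon, ENNReal.top_rpow_of_pos (by norm_num)] at k5
    exact lt_irrefl _ k5
  have key := HC (volume : Measure ℝ) nu F f hFm hfm (fun _ => by rw [hFd]; exact
    ENNReal.toReal_nonneg) (fun _ => by rw [hf]; exact ENNReal.toReal_nonneg) 4 M4 (by norm_num)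
    hM4 ?_
  · have e1 : ∫⁻ q, ENNReal.ofReal (F q) ^ p ∂nu = ∫⁻ q, T μ a χ G q ^ (p / 2) ∂nu := by
      refine lintegral_congr_ae ?_
      filter_upwards [hTae] with q hq
      rw [hFd]
      simp only
      rw [half_fin hq, half_p]
    have e2 : ∫⁻ x, ENNReal.ofReal (f x) ^ p = ∫⁻ x : ℝ, S μ G x ^ (p / 2) := by
      refine lintegral_congr_ae ?_
      filter_upwards [hfae] with x hx
      rw [hx, half_p]
    rw [e1, e2] at key
    exact key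
  · intro l hl
    refine ⟨fun q => T μ a χ (tr {x : ℝ | l < f x} G) q ^ (1 / 2 : ℝ),
      fun q => T μ a χ (tr {x : ℝ | l < f x}ᶜ G) q ^ (1 / 2 : ℝ),
      (T_meas (fam_tr hF (hset l))).pow_const _, (T_meas (fam_tr hF (hset l).compl)).pow_const _,
      Filter.Eventually.of_forall fun q => ?_, ?_, ?_⟩
    · rw [hFd]
      exact ENNReal.ofReal_toReal_le.trans (T_split hN hF (hset l) q)
    · simp only [half_sq]
      refine (B2 l).trans (le_of_eq ?_)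
      congr 1
      refine setLIntegral_congr_fun_ae (hset l) ?_
      filter_upwards [hfae] with x hx _
      rw [hx, half_sq]
    · simp only [half_four]
      refine (B4 l).trans (le_of_eq ?_)
      congr 1
      refine setLIntegral_congr_fun_ae (by rw [← hcomp]; exact (hset l).compl) ?_
      filter_upwards [hfae] with x hx _
      rw [hx, half_four]

theorem t : S_VV4 → S_VVP := by
  rintro ⟨C4, hC4, H4⟩ p hp2 hp4
  rcases hp2.eq_or_lt with h | h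
  · subst h
    refine ⟨4, by norm_num, fun Ω _ μ hμ N a χ G hN hF => ?_⟩
    have h1 := two (μ := μ) hN hF
    rw [lint_nu _ (T_meas hF)] at h1
    have e2 : (2 : ℝ) / 2 = 1 := by norm_num
    simp only [e2, ENNReal.rpow_one]
    refine h1.trans ?_
    refine mul_le_mul' (ENNReal.ofReal_le_ofReal ?_) le_rfl
    have hlog : 0 ≤ Real.log N := Real.log_nonneg hN
    nlinarith [sq_nonneg (Real.log N)]
  · rcases hp4.eq_or_lt with h' | h'
    · subst h'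
      refine ⟨C4, hC4, fun Ω _ μ hμ N a χ G hN hF => ?_⟩
      have e2 : (4 : ℝ) / 2 = 2 := by norm_num
      simp only [e2, ENNReal.rpow_two]
      exact H4 Ω _ μ hμ N a χ G hN hF
    · obtain ⟨C, hC, HC⟩ := interp p h h'
      refine ⟨C * C4 ^ ((p - 2) / 2), by positivity, fun Ω _ μ hμ N a χ G hN hF => ?_⟩
      have hlog : 0 ≤ Real.log N := Real.log_nonneg hN
      have hM : 0 < C4 * (1 + Real.log N) ^ 2 := by positivity
      have h1 := HC Ω _ μ hμ N a χ G hN hF (C4 * (1 + Real.log N) ^ 2) hM fun G' hG' => by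
        have h2 := H4 Ω _ μ hμ N a χ G' hN hG'
        rw [lint_nu _ ((T_meas hG').pow_const 2)]
        exact h2
      rw [lint_nu _ ((T_meas hF).pow_const (p / 2))] at h1
      refine h1.trans ?_
      refine mul_le_mul' (ENNReal.ofReal_le_ofReal ?_) le_rfl
      rw [mul_assoc]
      refine mul_le_mul_of_nonneg_left ?_ hC.le
      rw [Real.mul_rpow hC4.le (by positivity)]
      refine mul_le_mul_of_nonneg_left ?_ (by positivity)
      have h3 : (1 : ℝ) ≤ (1 + Real.log N) ^ 2 := by nlinarith [sq_nonneg (Real.log N)]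
      calc ((1 + Real.log N) ^ 2) ^ ((p - 2) / 2) ≤ ((1 + Real.log N) ^ 2) ^ (1 : ℝ) :=
            Real.rpow_le_rpow_of_exponent_le h3 (by linarith)
        _ = _ := Real.rpow_one _

end Pool.Agent.K9h96.LS.VVP
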