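import Pool.Agent.K9h96.LS.COR
import Pool.Agent.K9h96.LS.VVP
import Pool.Agent.K9h96.LS.PR
import Pool.Agent.K9h96.LS.FS
import Pool.Agent.K9h96.LS.LOC
import Pool.Agent.K9h96.LS.ENL
import Pool.Agent.K9h96.LS.PW
import Pool.Agent.N441.LS.LPA
import Pool.Agent.N297.LS.Lpk
import Pool.Agent.N558.LS.MUL
import Pool.Agent.N413.LS.BES
import Pool.Agent.N764.LS.PD
import Pool.Agent.N562.LS.BW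
import Pool.Agent.N170.LS.LLG
import Pool.Agent.N362.LS.ENA
import Pool.Agent.N914.LS.ENB
set_option autoImplicit false

/-! # LS, assembly -/

open MeasureTheory Set
open scoped ENNReal FourierTransform RealInnerProductSpace SchwartzMap

namespace Pool.Agent.K9h96.LS.ALL

open Pool.Agent.N303.LS FIN

lemma pw (m : ℕ) (p : ℝ) (hm : 0 < m) (hp : 2 ≤ p) (hp4 : p ≤ 4) : PWat m p :=
  PW.t (Pool.Agent.N170.LS.t_llg Pool.Agent.N764.LS.PD.t_pd Pool.Agent.N562.LS.t_bw)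
    (ENL.t (LOC.t (PR.t (VVP.t VV4.t))
      (FS.t Pool.Agent.N362.LS.t_ena Pool.Agent.N303.LS.t_enb))) m p hm hp hp4

theorem formA (m : ℕ) (hm : 0 < m)
    (p θ s : ℝ) (hp : 2 ≤ p) (hp4 : p ≤ 4) (hθ : 0 ≤ θ) (hs : θ < s) :
    ∃ C : ℝ, 0 < C ∧ ∀ (Γ : Set (E m)) (A : ℝ), 0 ≤ A →
    (∀ R : ℕ, 1 ≤ R → LamSet p (A * (R : ℝ) ^ θ) {n | n ∈ near Γ ∧ ∀ i, |n i| < R}) →
    ∀ (u₀ u₁ : 𝓢(E (m + 1), ℂ)), SpecG Γ u₀ → SpecG Γ u₁ →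
      ∫⁻ t in Icc (1 : ℝ) 2, ∫⁻ x : E (m + 1),
        ‖wave (𝓕 (u₀ : E (m + 1) → ℂ)) (𝓕 (u₁ : E (m + 1) → ℂ)) t x‖ₑ ^ p ≤
        ENNReal.ofReal (C * A ^ p) *
          ((∫⁻ x : E (m + 1), ‖inv (fun ξ => bes s ξ * 𝓕 (u₀ : E (m + 1) → ℂ) ξ) x‖ₑ ^ p) +
            ∫⁻ x : E (m + 1),
              ‖inv (fun ξ => bes (s - 1) ξ * 𝓕 (u₁ : E (m + 1) → ℂ) ξ) x‖ₑ ^ p) :=
  FIN.formA (Pool.Agent.N297.LPK.t_lpk (Pool.Agent.N441.LS.t_lpa Pool.Agent.N558.LS.t_mul))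
    (Pool.Agent.N303.LS.bp Pool.Agent.N558.LS.t_mul Pool.Agent.N413.LSBES.t_bes)
    Pool.Agent.N558.LS.t_mul m p θ s (pw m p hm hp hp4) hp hp4 hθ hs

theorem formB (m : ℕ) (hm : 0 < m)
    (p κ σ : ℝ) (hp : 2 < p) (hp4 : p ≤ 4) (hκ : 0 ≤ κ) (hκ2 : κ ≤ m - 2 / (p - 2))
    (hσ : σ < 1 / p) :
    ∃ C : ℝ, 0 < C ∧ ∀ (Γ : Set (E m)) (A : ℝ), 0 ≤ A →
    (∀ (R : ℕ) (T : Finset (Fin m → ℤ)), 1 ≤ R → (∀ n ∈ T, n ∈ near Γ ∧ ∀ i, |n i| < R) →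
      (T.card : ℝ) ≤ A * (R : ℝ) ^ κ) →
    ∀ (u₀ u₁ : 𝓢(E (m + 1), ℂ)), SpecG Γ u₀ → SpecG Γ u₁ →
      ∫⁻ t in Icc (1 : ℝ) 2, ∫⁻ x : E (m + 1),
        ‖wave (𝓕 (u₀ : E (m + 1) → ℂ)) (𝓕 (u₁ : E (m + 1) → ℂ)) t x‖ₑ ^ p ≤
        ENNReal.ofReal (C * A ^ ((p - 2) / 2)) *
          ((∫⁻ x : E (m + 1), ‖inv (fun ξ => bes ((m : ℝ) / 2 - m / p - σ) ξ *
              𝓕 (u₀ : E (m + 1) → ℂ) ξ) x‖ₑ ^ p) +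
            ∫⁻ x : E (m + 1), ‖inv (fun ξ => bes ((m : ℝ) / 2 - m / p - 1 - σ) ξ *
              𝓕 (u₁ : E (m + 1) → ℂ) ξ) x‖ₑ ^ p) :=
  FIN.formB (Pool.Agent.N297.LPK.t_lpk (Pool.Agent.N441.LS.t_lpa Pool.Agent.N558.LS.t_mul))
    (Pool.Agent.N303.LS.bp Pool.Agent.N558.LS.t_mul Pool.Agent.N413.LSBES.t_bes)
    Pool.Agent.N558.LS.t_mul m p κ σ (pw m p hm hp.le hp4) hp hp4 hκ hκ2 hσ

end Pool.Agent.K9h96.LS.ALL
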