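import Pool.Agent.K9h96.LS.DUALC
import Pool.Agent.TH73.LS_LS4
set_option autoImplicit false

/-! # LS, the bilinear estimate with two masses -/

open MeasureTheory Set
open scoped ENNReal

namespace Pool.Agent.K9h96.LS.BIL

open Pool.Agent.TH280.LS
open Pool.Agent.TH73.LS4 (int_T int_T' val_T val_T' ra_pos ra_cont ra_deriv hp_mono hp_abs
  cut_cont int_e memLp_two memLp_two_of_bdd qq qq_bdd qq_zero qq_cont qq_int Wt_meas)

/-! ### The phase -/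

/-- the phase for the bilinear form -/
noncomputable def gg (a b ζ ξ : ℝ) : ℝ := ra a (ξ + ζ / 2) + ra b (ζ / 2 - ξ)

/-- its derivative -/
noncomputable def gg' (a b ζ ξ : ℝ) : ℝ :=
  (ξ + ζ / 2) / ra a (ξ + ζ / 2) - (ζ / 2 - ξ) / ra b (ζ / 2 - ξ)

lemma ra_scale {a c : ℝ} (ha : 0 < a) (x : ℝ) :
    (a * x) / ra a (a * x) = x / Real.sqrt (x ^ 2 + 1) := by
  have _ := c
  unfold ra
  have e1 : (a * x) ^ 2 + a ^ 2 = a ^ 2 * (x ^ 2 + 1) := by ring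
  rw [e1, Real.sqrt_mul (by positivity), Real.sqrt_sq ha.le, mul_div_mul_left _ _ ha.ne']

lemma cx_gg {a b : ℝ} (ha : 0 < a) (hb : 0 < b) (ζ : ℝ) : Cx (gg a b ζ) (gg' a b ζ) := by
  refine ⟨fun ξ => ?_, ?_, fun ξ => ?_, ⟨ζ / (a + b) * a - ζ / 2, ?_⟩⟩
  · have h1 := (ra_deriv ha (ξ + ζ / 2)).comp_add_const ξ (ζ / 2)
    have h2 := (ra_deriv hb (ζ / 2 - ξ)).comp_const_sub (ζ / 2) ξ
    have h3 := h1.add h2
    unfold gg'
    rw [sub_eq_add_neg]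
    exact h3
  · intro x y hxy
    unfold gg'
    have h1 := hp_mono ha (show x + ζ / 2 ≤ y + ζ / 2 by linarith)
    have h2 := hp_mono hb (show ζ / 2 - y ≤ ζ / 2 - x by linarith)
    simp only at h1 h2
    linarith
  · unfold gg'
    have h1 := hp_abs ha (ξ + ζ / 2)
    have h2 := hp_abs hb (ζ / 2 - ξ)
    have h3 := abs_sub ((ξ + ζ / 2) / ra a (ξ + ζ / 2)) ((ζ / 2 - ξ) / ra b (ζ / 2 - ξ))
    linarith
  · unfold gg'
    have hab : a + b ≠ 0 := by positivity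
    have e1 : ζ / (a + b) * a - ζ / 2 + ζ / 2 = a * (ζ / (a + b)) := by ring
    have e2 : ζ / 2 - (ζ / (a + b) * a - ζ / 2) = b * (ζ / (a + b)) := by
      field_simp
      ring
    rw [e1, e2, ra_scale (c := 0) ha, ra_scale (c := 0) hb, sub_self]

lemma cut_mul {N : ℝ} (hN : 1 ≤ N) {χ χ' : ℝ → ℂ} (hχ : Cut 1 N χ) (hχ' : Cut 1 N χ') (ζ : ℝ) :
    Cut 2 N (fun ξ => χ (ξ + ζ / 2) * χ' (ζ / 2 - ξ)) := by
  obtain ⟨h1, h2, h3⟩ := hχ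
  obtain ⟨k1, k2, k3⟩ := hχ'
  refine ⟨fun ξ => ?_, fun ξ ξ' => ?_, fun ξ hξ => ?_⟩
  · rw [norm_mul]
    exact mul_le_one₀ (h1 _) (norm_nonneg _) (k1 _)
  · have e : χ (ξ + ζ / 2) * χ' (ζ / 2 - ξ) - χ (ξ' + ζ / 2) * χ' (ζ / 2 - ξ') =
        (χ (ξ + ζ / 2) - χ (ξ' + ζ / 2)) * χ' (ζ / 2 - ξ) +
        χ (ξ' + ζ / 2) * (χ' (ζ / 2 - ξ) - χ' (ζ / 2 - ξ')) := by ring
    rw [e]
    have a1 : ‖(χ (ξ + ζ / 2) - χ (ξ' + ζ / 2)) * χ' (ζ / 2 - ξ)‖ ≤ 1 / N * |ξ - ξ'| := by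
      rw [norm_mul]
      have b1 := h2 (ξ + ζ / 2) (ξ' + ζ / 2)
      have b2 : ξ + ζ / 2 - (ξ' + ζ / 2) = ξ - ξ' := by ring
      rw [b2] at b1
      calc ‖χ (ξ + ζ / 2) - χ (ξ' + ζ / 2)‖ * ‖χ' (ζ / 2 - ξ)‖ ≤
            (1 / N * |ξ - ξ'|) * 1 :=
            mul_le_mul b1 (k1 _) (norm_nonneg _) (by positivity)
        _ = _ := mul_one _
    have a2 : ‖χ (ξ' + ζ / 2) * (χ' (ζ / 2 - ξ) - χ' (ζ / 2 - ξ'))‖ ≤ 1 / N * |ξ - ξ'| := by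
      rw [norm_mul]
      have b1 := k2 (ζ / 2 - ξ) (ζ / 2 - ξ')
      have b2 : ζ / 2 - ξ - (ζ / 2 - ξ') = -(ξ - ξ') := by ring
      rw [b2, abs_neg] at b1
      calc ‖χ (ξ' + ζ / 2)‖ * ‖χ' (ζ / 2 - ξ) - χ' (ζ / 2 - ξ')‖ ≤
            1 * (1 / N * |ξ - ξ'|) :=
            mul_le_mul (h1 _) b1 (norm_nonneg _) (by norm_num)
        _ = _ := one_mul _
    calc _ ≤ ‖(χ (ξ + ζ / 2) - χ (ξ' + ζ / 2)) * χ' (ζ / 2 - ξ)‖ +
          ‖χ (ξ' + ζ / 2) * (χ' (ζ / 2 - ξ) - χ' (ζ / 2 - ξ'))‖ := norm_add_le _ _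
      _ ≤ 1 / N * |ξ - ξ'| + 1 / N * |ξ - ξ'| := add_le_add a1 a2
      _ = 2 / N * |ξ - ξ'| := by ring
  · by_cases c1 : 2 * N < |ξ + ζ / 2|
    · simp only
      rw [h3 _ c1, zero_mul]
    · have c2 : 2 * N < |ζ / 2 - ξ| := by
        by_contra c2
        push Not at c1 c2
        have e : 2 * ξ = (ξ + ζ / 2) - (ζ / 2 - ξ) := by ring
        have h4 := abs_sub (ξ + ζ / 2) (ζ / 2 - ξ)
        rw [← e, abs_mul, abs_two] at h4
        linarith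
      simp only
      rw [k3 _ c2, mul_zero]

/-! ### The bilinear expression -/

/-- the transform in the mean variable -/
noncomputable def bz (G H : ℝ → ℂ) (ζ v : ℝ) : ℂ :=
  ∫ z : ℝ, (e (-(z * ζ)) * (G (z + v / 2) * H (z - v / 2)))

section bz

variable {G H : ℝ → ℂ} (hG : Integrable G) (hH : Integrable H)

include hG hH

lemma ft_bz (ζ ξ : ℝ) : ft (bz G H ζ) ξ = ft G (ξ + ζ / 2) * ft H (ζ / 2 - ξ) := by
  have h := val_T (int_e hG (ξ + ζ / 2)) (int_e hH (ζ / 2 - ξ))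
  have e1 : ft (bz G H ζ) ξ = ∫ v : ℝ, ∫ z : ℝ,
      (e (-((z + v / 2) * (ξ + ζ / 2))) * G (z + v / 2)) *
      (e (-((z - v / 2) * (ζ / 2 - ξ))) * H (z - v / 2)) := by
    unfold ft bz
    refine integral_congr_ae (Filter.Eventually.of_forall fun v => ?_)
    simp only
    rw [← integral_const_mul]
    refine integral_congr_ae (Filter.Eventually.of_forall fun z => ?_)
    simp only
    have e2 : e (-((z + v / 2) * (ξ + ζ / 2))) * e (-((z - v / 2) * (ζ / 2 - ξ))) =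
        e (-(v * ξ)) * e (-(z * ζ)) := by
      rw [← e_add, ← e_add]
      congr 1
      ring
    calc e (-(v * ξ)) * (e (-(z * ζ)) * (G (z + v / 2) * H (z - v / 2))) =
          (e (-(v * ξ)) * e (-(z * ζ))) * (G (z + v / 2) * H (z - v / 2)) := by ring
      _ = _ := by rw [← e2]; ring
  rw [e1, h]
  rfl

lemma int_bz (ζ : ℝ) : Integrable (bz G H ζ) := by
  have h := (int_T (int_e hG (ζ / 2)) (int_e hH (ζ / 2))).integral_prod_right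
  refine h.congr (Filter.Eventually.of_forall fun v => ?_)
  unfold bz
  simp only
  refine integral_congr_ae (Filter.Eventually.of_forall fun z => ?_)
  simp only
  have e2 : e (-((z + v / 2) * (ζ / 2))) * e (-((z - v / 2) * (ζ / 2))) = e (-(z * ζ)) := by
    rw [← e_add]
    congr 1
    ring
  rw [← e2]
  ring

end bz

lemma bz_eq_ft (G H : ℝ → ℂ) (ζ v : ℝ) :
    bz G H ζ v = ft (fun z => G (z + v / 2) * H (z - v / 2)) ζ := rfl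

/-- its bilinear expression -/
noncomputable def QQ (a b : ℝ) (χ χ' G H : ℝ → ℂ) (t ζ : ℝ) : ℂ :=
  ∫ ξ : ℝ, qq a χ G t (ξ + ζ / 2) * qq b χ' H t (ζ / 2 - ξ)

section data

variable {a b N : ℝ} {χ χ' G H : ℝ → ℂ} (hN : 1 ≤ N) (hχ : Cut 1 N χ) (hχ' : Cut 1 N χ')
  (hG : Integrable G) (hH : Integrable H)

include hN hχ hχ' hG hH

lemma QQ_int (t : ℝ) : Integrable (QQ a b χ χ' G H t) :=
  (int_T' (qq_int (a := a) hN hχ hG t) (qq_int (a := b) hN hχ' hH t)).integral_prod_right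

omit hH in
lemma QQ_bdd (t ζ : ℝ) : ‖QQ a b χ χ' G H t ζ‖ ≤ (∫ x, ‖H x‖) * ∫ ξ, ‖qq a χ G t ξ‖ := by
  have h1 := (qq_int (a := a) hN hχ hG t).norm
  have e1 : ∫ ξ, ‖qq a χ G t ξ‖ = ∫ ξ, ‖qq a χ G t (ξ + ζ / 2)‖ :=
    (integral_add_right_eq_self (fun ξ => ‖qq a χ G t ξ‖) (ζ / 2)).symm
  rw [e1, ← integral_const_mul]
  unfold QQ
  refine norm_integral_le_of_norm_le ((h1.comp_add_right (ζ / 2)).const_mul _)
    (Filter.Eventually.of_forall fun ξ => ?_)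
  rw [norm_mul, mul_comm]
  exact mul_le_mul_of_nonneg_right (qq_bdd hχ' _ _) (norm_nonneg _)

lemma Vx_mul (t x : ℝ) : Vx a χ G t x * Vx b χ' H t x =
    ∫ ζ : ℝ, e (x * ζ) * QQ a b χ χ' G H t ζ := by
  have hi : ∀ {a : ℝ} {χ G : ℝ → ℂ}, Cut 1 N χ → Integrable G →
      Integrable (fun ξ => e (x * ξ) * qq a χ G t ξ) := by
    intro a χ G hχ hG
    have h := (qq_int (a := a) hN hχ hG t)
    refine (h.norm).mono' ?_ (Filter.Eventually.of_forall fun ξ => ?_)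
    · have : Continuous fun ξ : ℝ => e (x * ξ) := continuous_e.comp (by fun_prop)
      exact this.aestronglyMeasurable.mul h.1
    · rw [norm_mul, norm_e, one_mul]
  have h := val_T' (hi (a := a) hχ hG) (hi (a := b) hχ' hH)
  have e0 : ∀ (a : ℝ) (χ G : ℝ → ℂ), Vx a χ G t x = ∫ ξ, e (x * ξ) * qq a χ G t ξ :=
    fun a χ G => rfl
  rw [e0, e0, ← h]
  refine integral_congr_ae (Filter.Eventually.of_forall fun v => ?_)
  simp only
  unfold QQ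
  rw [← integral_const_mul]
  refine integral_congr_ae (Filter.Eventually.of_forall fun z => ?_)
  simp only
  have e2 : e (x * (z + v / 2)) * e (x * (v / 2 - z)) = e (x * v) := by
    rw [← e_add]
    congr 1
    ring
  rw [← e2]
  ring

lemma Vx_pl (t : ℝ) : ∫⁻ x : ℝ, ‖Vx a χ G t x‖ₑ ^ 2 * ‖Vx b χ' H t x‖ₑ ^ 2 =
    ∫⁻ ζ : ℝ, ‖QQ a b χ χ' G H t ζ‖ₑ ^ 2 := by
  rw [← ift_planch (QQ a b χ χ' G H t) (QQ_int hN hχ hχ' hG hH t)
    (memLp_two_of_bdd (QQ_int hN hχ hχ' hG hH t) (QQ_bdd hN hχ hχ' hG t))]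
  refine lintegral_congr fun x => ?_
  rw [← Vx_mul hN hχ hχ' hG hH t x, enorm_mul, mul_pow]

omit hN hχ hχ' in
lemma QQ_eq (t ζ : ℝ) : QQ a b χ χ' G H t ζ =
    ∫ ξ : ℝ, e (t * gg a b ζ ξ) * ((χ (ξ + ζ / 2) * χ' (ζ / 2 - ξ)) * ft (bz G H ζ) ξ) := by
  unfold QQ
  refine integral_congr_ae (Filter.Eventually.of_forall fun ξ => ?_)
  simp only
  rw [ft_bz hG hH]
  unfold qq gg
  rw [mul_add, e_add]
  ring

lemma QQ_meas : Measurable (Function.uncurry (QQ a b χ χ' G H)) := by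
  have hc : Continuous (fun p : (ℝ × ℝ) × ℝ =>
      qq a χ G p.1.1 (p.2 + p.1.2 / 2) * qq b χ' H p.1.1 (p.1.2 / 2 - p.2)) := by
    have h1 : Continuous (fun p : (ℝ × ℝ) × ℝ => qq a χ G p.1.1 (p.2 + p.1.2 / 2)) :=
      (qq_cont (a := a) hN hχ hG).comp (g := fun p : ℝ × ℝ => qq a χ G p.1 p.2)
        (f := fun p : (ℝ × ℝ) × ℝ => (p.1.1, p.2 + p.1.2 / 2)) (by fun_prop)
    have h2 : Continuous (fun p : (ℝ × ℝ) × ℝ => qq b χ' H p.1.1 (p.1.2 / 2 - p.2)) :=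
      (qq_cont (a := b) hN hχ' hH).comp (g := fun p : ℝ × ℝ => qq b χ' H p.1 p.2)
        (f := fun p : (ℝ × ℝ) × ℝ => (p.1.1, p.1.2 / 2 - p.2)) (by fun_prop)
    exact h1.mul h2
  have hs : StronglyMeasurable (fun p : ℝ × ℝ => QQ a b χ χ' G H p.1 p.2) :=
    StronglyMeasurable.integral_prod_right (ν := (volume : Measure ℝ))
      (f := fun (p : ℝ × ℝ) (ξ : ℝ) => qq a χ G p.1 (ξ + p.2 / 2) * qq b χ' H p.1 (p.2 / 2 - ξ))
      hc.stronglyMeasurable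
  exact hs.measurable

end data

lemma bz_meas {G H : ℝ → ℂ} (hm : Measurable G) (hm' : Measurable H) :
    Measurable (Function.uncurry (bz G H)) := by
  have hc : Measurable (fun p : (ℝ × ℝ) × ℝ =>
      e (-(p.2 * p.1.1)) * (G (p.2 + p.1.2 / 2) * H (p.2 - p.1.2 / 2))) := by
    have h0 := measurable_e
    fun_prop
  have hs : StronglyMeasurable (fun p : ℝ × ℝ => bz G H p.1 p.2) :=
    StronglyMeasurable.integral_prod_right (ν := (volume : Measure ℝ))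
      (f := fun (p : ℝ × ℝ) (z : ℝ) => e (-(z * p.1)) * (G (z + p.2 / 2) * H (z - p.2 / 2)))
      hc.stronglyMeasurable
  exact hs.measurable

/-- the statement for measurable functions -/
lemma main_meas {C : ℝ}
    (hD : ∀ (N : ℝ) (g g' : ℝ → ℝ) (χ b : ℝ → ℂ), 1 ≤ N → Cx g g' →
      Cut 2 N χ → Integrable b →
      ∫⁻ t in Icc (-2 : ℝ) 2, ‖∫ ξ : ℝ, e (t * g ξ) * (χ ξ * ft b ξ)‖ₑ ^ 2 ≤
      ENNReal.ofReal (C * (1 + Real.log N)) *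
      ∫⁻ v : ℝ, (ENNReal.ofReal (Wt N v))⁻¹ * ‖b v‖ₑ ^ 2)
    {N a b : ℝ} {χ χ' G H : ℝ → ℂ} (hN : 1 ≤ N) (ha : 0 < a) (hb : 0 < b) (hχ : Cut 1 N χ)
    (hχ' : Cut 1 N χ') (hG : Integrable G) (hH : Integrable H)
    (hm : Measurable G) (hm' : Measurable H) :
    ∫⁻ t in Icc (-2 : ℝ) 2, ∫⁻ x : ℝ, ‖Vx a χ G t x‖ₑ ^ 2 * ‖Vx b χ' H t x‖ₑ ^ 2 ≤
      ENNReal.ofReal (C * (1 + Real.log N)) *
      ∫⁻ v : ℝ, (ENNReal.ofReal (Wt N v))⁻¹ *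
        ∫⁻ z : ℝ, ‖G (z + v / 2)‖ₑ ^ 2 * ‖H (z - v / 2)‖ₑ ^ 2 := by
  have hJ : ∀ᵐ v : ℝ, ∫⁻ ζ, ‖bz G H ζ v‖ₑ ^ 2 ≤
      ∫⁻ z : ℝ, ‖G (z + v / 2)‖ₑ ^ 2 * ‖H (z - v / 2)‖ₑ ^ 2 := by
    filter_upwards [(int_T hG hH).prod_left_ae] with v hv
    have e1 : ∫⁻ z : ℝ, ‖G (z + v / 2) * H (z - v / 2)‖ₑ ^ 2 =
        ∫⁻ z : ℝ, ‖G (z + v / 2)‖ₑ ^ 2 * ‖H (z - v / 2)‖ₑ ^ 2 :=
      lintegral_congr fun z => by rw [enorm_mul, mul_pow]
    rcases eq_or_ne (∫⁻ z : ℝ, ‖G (z + v / 2) * H (z - v / 2)‖ₑ ^ 2) ∞ with hfin | hfin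
    · rw [← e1, hfin]; exact le_top
    · have h2 : MemLp (fun z => G (z + v / 2) * H (z - v / 2)) 2 :=
        memLp_two hv (lt_top_iff_ne_top.2 hfin)
      have h3 := ft_planch _ hv h2
      simp only [bz_eq_ft]
      rw [h3, e1]
  have hbm := bz_meas hm hm'
  have hWm : Measurable (fun v => (ENNReal.ofReal (Wt N v))⁻¹) :=
    ((Wt_meas N).ennreal_ofReal).inv
  calc ∫⁻ t in Icc (-2 : ℝ) 2, ∫⁻ x : ℝ, ‖Vx a χ G t x‖ₑ ^ 2 * ‖Vx b χ' H t x‖ₑ ^ 2 =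
        ∫⁻ t in Icc (-2 : ℝ) 2, ∫⁻ ζ : ℝ, ‖QQ a b χ χ' G H t ζ‖ₑ ^ 2 :=
        lintegral_congr fun t => Vx_pl hN hχ hχ' hG hH t
    _ = ∫⁻ ζ : ℝ, ∫⁻ t in Icc (-2 : ℝ) 2, ‖QQ a b χ χ' G H t ζ‖ₑ ^ 2 := by
        apply lintegral_lintegral_swap
        exact ((QQ_meas hN hχ hχ' hG hH).enorm.pow_const 2).aemeasurable
    _ ≤ ∫⁻ ζ : ℝ, ENNReal.ofReal (C * (1 + Real.log N)) *
          ∫⁻ v : ℝ, (ENNReal.ofReal (Wt N v))⁻¹ * ‖bz G H ζ v‖ₑ ^ 2 := by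
        refine lintegral_mono fun ζ => ?_
        simp only [QQ_eq hG hH]
        exact hD N _ _ _ _ hN (cx_gg ha hb ζ) (cut_mul hN hχ hχ' ζ) (int_bz hG hH ζ)
    _ = ENNReal.ofReal (C * (1 + Real.log N)) *
          ∫⁻ ζ : ℝ, ∫⁻ v : ℝ, (ENNReal.ofReal (Wt N v))⁻¹ * ‖bz G H ζ v‖ₑ ^ 2 :=
        lintegral_const_mul' _ _ ENNReal.ofReal_ne_top
    _ = ENNReal.ofReal (C * (1 + Real.log N)) *
          ∫⁻ v : ℝ, ∫⁻ ζ : ℝ, (ENNReal.ofReal (Wt N v))⁻¹ * ‖bz G H ζ v‖ₑ ^ 2 := by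
        congr 1
        apply lintegral_lintegral_swap
        exact ((hWm.comp measurable_snd).mul (hbm.enorm.pow_const 2)).aemeasurable
    _ = ENNReal.ofReal (C * (1 + Real.log N)) *
          ∫⁻ v : ℝ, (ENNReal.ofReal (Wt N v))⁻¹ * ∫⁻ ζ : ℝ, ‖bz G H ζ v‖ₑ ^ 2 := by
        congr 1
        refine lintegral_congr fun v => ?_
        apply lintegral_const_mul
        have h5 : Measurable (fun ζ => bz G H ζ v) :=
          hbm.comp (measurable_id.prodMk measurable_const)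
        exact h5.enorm.pow_const 2
    _ ≤ ENNReal.ofReal (C * (1 + Real.log N)) *
      ∫⁻ v : ℝ, (ENNReal.ofReal (Wt N v))⁻¹ *
        ∫⁻ z : ℝ, ‖G (z + v / 2)‖ₑ ^ 2 * ‖H (z - v / 2)‖ₑ ^ 2 := by
        have hle : ∫⁻ v : ℝ, (ENNReal.ofReal (Wt N v))⁻¹ * ∫⁻ ζ : ℝ, ‖bz G H ζ v‖ₑ ^ 2 ≤
            ∫⁻ v : ℝ, (ENNReal.ofReal (Wt N v))⁻¹ *
              ∫⁻ z : ℝ, ‖G (z + v / 2)‖ₑ ^ 2 * ‖H (z - v / 2)‖ₑ ^ 2 := by
          apply lintegral_mono_ae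
          filter_upwards [hJ] with v hv
          exact mul_le_mul_right hv _
        exact mul_le_mul_right hle _

/-- the reduction -/
theorem t_of : S_DUALC → S_BIL := by
  rintro ⟨C, hC, hD⟩
  refine ⟨C, hC, fun N a b χ χ' G H hN ha hb hχ hχ' hG hH => ?_⟩
  obtain ⟨G', hG'⟩ : ∃ G', G' = hG.1.mk G := ⟨_, rfl⟩
  obtain ⟨H', hH'⟩ : ∃ H', H' = hH.1.mk H := ⟨_, rfl⟩
  have hae : G =ᵐ[volume] G' := by rw [hG']; exact hG.1.ae_eq_mk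
  have hae' : H =ᵐ[volume] H' := by rw [hH']; exact hH.1.ae_eq_mk
  have hm : Measurable G' := by rw [hG']; exact hG.1.stronglyMeasurable_mk.measurable
  have hm' : Measurable H' := by rw [hH']; exact hH.1.stronglyMeasurable_mk.measurable
  have e1 : ft G = ft G' := funext fun ξ => integral_congr_ae (hae.mono fun x hx => by
    simp only
    rw [hx])
  have e1' : ft H = ft H' := funext fun ξ => integral_congr_ae (hae'.mono fun x hx => by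
    simp only
    rw [hx])
  have e2 : ∀ t x, Vx a χ G t x = Vx a χ G' t x := by
    intro t x
    unfold Vx
    rw [e1]
  have e2' : ∀ t x, Vx b χ' H t x = Vx b χ' H' t x := by
    intro t x
    unfold Vx
    rw [e1']
  have e3 : ∀ v : ℝ, ∫⁻ z : ℝ, ‖G (z + v / 2)‖ₑ ^ 2 * ‖H (z - v / 2)‖ₑ ^ 2 =
      ∫⁻ z : ℝ, ‖G' (z + v / 2)‖ₑ ^ 2 * ‖H' (z - v / 2)‖ₑ ^ 2 := by
    intro v
    have q1 : ∀ᵐ z : ℝ, G (z + v / 2) = G' (z + v / 2) :=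
      (measurePreserving_add_right (volume : Measure ℝ) (v / 2)).quasiMeasurePreserving.ae hae
    have q2 : ∀ᵐ z : ℝ, H (z - v / 2) = H' (z - v / 2) :=
      (measurePreserving_sub_right (volume : Measure ℝ) (v / 2)).quasiMeasurePreserving.ae hae'
    refine lintegral_congr_ae ?_
    filter_upwards [q1, q2] with z h1 h2
    rw [h1, h2]
  simp only [e2, e2', e3]
  exact main_meas hD hN ha hb hχ hχ' (hG.congr hae) (hH.congr hae') hm hm'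

theorem t : S_BIL := t_of DUALC.t

end Pool.Agent.K9h96.LS.BIL
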