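import Pool.Agent.N303.LS.Fin7
set_option autoImplicit false

/-! # LS, sets with few points are `Λ(p)` sets -/

open MeasureTheory Set
open scoped ENNReal FourierTransform RealInnerProductSpace SchwartzMap

namespace Pool.Agent.K9h96.LS.CNT

open Pool.Agent.N303.LS
open Pool.Agent.N492.LS (tp cu int_tp norm_e en2)

/-- a set with `V` points is a `Λ(p)` set with constant `(2^m)^(1/p) V^(1/2-1/p)` -/
lemma lam_count {m : ℕ} (p : ℝ) (hp : 2 ≤ p) (S : Set (Fin m → ℤ)) (V : ℝ) (hV : 0 ≤ V)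
    (hS : ∀ T : Finset (Fin m → ℤ), (T : Set (Fin m → ℤ)) ⊆ S → (T.card : ℝ) ≤ V) :
    LamSet p (((2 : ℝ) ^ m) ^ (1 / p) * V ^ (1 / 2 - 1 / p)) S := by
  intro T hT c
  have hp0 : 0 < p := by linarith
  have hq0 : 0 ≤ p - 2 := by linarith
  set Q : ℝ := ∑ n ∈ T, ‖c n‖ ^ 2 with hQ
  have hQ0 : 0 ≤ Q := Finset.sum_nonneg fun _ _ => by positivity
  have e1 : ∀ x : E m, ∑ n ∈ T, c n *
      Complex.exp (((2 * Real.pi * ⟪x, pt n⟫ : ℝ) : ℂ) * Complex.I) = tp T c x := fun x => rfl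
  simp only [e1]
  have hs1 : (∑ n ∈ T, ‖c n‖) ^ 2 ≤ V * Q := by
    calc (∑ n ∈ T, ‖c n‖) ^ 2 ≤ T.card * ∑ n ∈ T, ‖c n‖ ^ 2 := sq_sum_le_card_mul_sum_sq
      _ ≤ V * Q := by
        refine mul_le_mul_of_nonneg_right (hS T hT) hQ0
  have hb : ∀ x : E m, ‖tp T c x‖ₑ ^ p ≤
      ENNReal.ofReal ((V * Q) ^ ((p - 2) / 2)) * ‖tp T c x‖ₑ ^ (2 : ℝ) := by
    intro x
    have h1 : ‖tp T c x‖ ≤ ∑ n ∈ T, ‖c n‖ := by
      unfold tp
      refine (norm_sum_le _ _).trans (le_of_eq ?_)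
      refine Finset.sum_congr rfl fun n _ => ?_
      rw [norm_mul, norm_e, mul_one]
    have h2 : ‖tp T c x‖ ^ (p - 2) ≤ (V * Q) ^ ((p - 2) / 2) := by
      have h3 : ‖tp T c x‖ ^ 2 ≤ V * Q :=
        (pow_le_pow_left₀ (norm_nonneg _) h1 2).trans hs1
      calc ‖tp T c x‖ ^ (p - 2) = (‖tp T c x‖ ^ 2) ^ ((p - 2) / 2) := by
            rw [← Real.rpow_natCast, ← Real.rpow_mul (norm_nonneg _)]
            congr 1
            push_cast
            ring
        _ ≤ _ := Real.rpow_le_rpow (by positivity) h3 (by linarith)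
    have h4 : ‖tp T c x‖ ^ p ≤ (V * Q) ^ ((p - 2) / 2) * ‖tp T c x‖ ^ (2 : ℝ) := by
      have h5 : ‖tp T c x‖ ^ p = ‖tp T c x‖ ^ (p - 2) * ‖tp T c x‖ ^ (2 : ℝ) := by
        rw [← Real.rpow_add_of_nonneg (norm_nonneg _) hq0 (by norm_num)]
        congr 1
        ring
      rw [h5]
      exact mul_le_mul_of_nonneg_right h2 (by positivity)
    rw [← ofReal_norm, ENNReal.ofReal_rpow_of_nonneg (norm_nonneg _) hp0.le,
      ENNReal.ofReal_rpow_of_nonneg (norm_nonneg _) (by norm_num),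
      ← ENNReal.ofReal_mul (by positivity)]
    exact ENNReal.ofReal_le_ofReal h4
  have hsub : {x : E m | ∀ i, x i ∈ Set.Ico (0 : ℝ) 1} ⊆ cu 1 (0 : E m) := by
    intro x hx j
    have := hx j
    have e0 : x j - (0 : E m) j = x j := by simp
    rw [e0, abs_of_nonneg this.1]
    have := this.2.le
    simpa using this
  have hQe : ∑ n ∈ T, ‖c n‖ₑ ^ (2 : ℝ) = ENNReal.ofReal Q := by
    rw [hQ, ENNReal.ofReal_sum_of_nonneg fun _ _ => by positivity]
    exact Finset.sum_congr rfl fun n _ => en2 _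
  calc ∫⁻ x in {x : E m | ∀ i, x i ∈ Set.Ico (0 : ℝ) 1}, ‖tp T c x‖ₑ ^ p
      ≤ ∫⁻ x in cu 1 (0 : E m), ‖tp T c x‖ₑ ^ p := lintegral_mono_set hsub
    _ ≤ ∫⁻ x in cu 1 (0 : E m), ENNReal.ofReal ((V * Q) ^ ((p - 2) / 2)) *
          ‖tp T c x‖ₑ ^ (2 : ℝ) := lintegral_mono fun x => hb x
    _ = ENNReal.ofReal ((V * Q) ^ ((p - 2) / 2)) * ENNReal.ofReal (2 ^ m * Q) := by
        rw [lintegral_const_mul' _ _ ENNReal.ofReal_ne_top, int_tp]
        norm_num
        rfl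
    _ = _ := by
        rw [hQe, ENNReal.ofReal_rpow_of_nonneg hQ0 (by positivity),
          ← ENNReal.ofReal_mul (by positivity), ← ENNReal.ofReal_mul (by positivity)]
        congr 1
        have e2 : (1 / 2 - 1 / p) * p = (p - 2) / 2 := by field_simp
        have e4 : (((2 : ℝ) ^ m) ^ (1 / p) * V ^ (1 / 2 - 1 / p)) ^ p =
            2 ^ m * V ^ ((p - 2) / 2) := by
          rw [Real.mul_rpow (by positivity) (by positivity), ← Real.rpow_mul (by positivity),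
            one_div_mul_cancel hp0.ne', Real.rpow_one, ← Real.rpow_mul hV, e2]
        rw [e4, Real.mul_rpow hV hQ0]
        have e3 : Q ^ (p / 2) = Q ^ ((p - 2) / 2) * Q := by
          rcases hQ0.eq_or_lt with h | h
          · rw [← h, Real.zero_rpow (by positivity), mul_zero]
          · conv_rhs => rw [← Real.rpow_one Q, ← Real.rpow_mul h.le, one_mul]
            rw [← Real.rpow_add h]
            congr 1
            ring
        rw [e3]
        ring

end Pool.Agent.K9h96.LS.CNT
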