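import Pool.Agent.K9h96.LS.FING
import Pool.Agent.K9h96.LS.CNT
set_option autoImplicit false

/-! # LS, the two forms of the final theorem -/

open MeasureTheory Set
open scoped ENNReal FourierTransform RealInnerProductSpace SchwartzMap

namespace Pool.Agent.K9h96.LS.FIN

open Pool.Agent.N303.LS

/-- the form with `Λ(p)` constants -/
theorem formA (hLPK : S_LPK) (hBP : S_BP) (hMUL : S_MUL) (m : ℕ)
    (p θ s : ℝ) (hPW : PWat m p) (hp : 2 ≤ p) (hp4 : p ≤ 4) (hθ : 0 ≤ θ) (hs : θ < s) :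
    ∃ C : ℝ, 0 < C ∧ ∀ (Γ : Set (E m)) (A : ℝ), 0 ≤ A →
    (∀ R : ℕ, 1 ≤ R → LamSet p (A * (R : ℝ) ^ θ) {n | n ∈ near Γ ∧ ∀ i, |n i| < R}) →
    ∀ (u₀ u₁ : 𝓢(E (m + 1), ℂ)), SpecG Γ u₀ → SpecG Γ u₁ →
      ∫⁻ t in Icc (1 : ℝ) 2, ∫⁻ x : E (m + 1),
        ‖wave (𝓕 (u₀ : E (m + 1) → ℂ)) (𝓕 (u₁ : E (m + 1) → ℂ)) t x‖ₑ ^ p ≤
        ENNReal.ofReal (C * A ^ p) *
          ((∫⁻ x : E (m + 1), ‖inv (fun ξ => bes s ξ * 𝓕 (u₀ : E (m + 1) → ℂ) ξ) x‖ₑ ^ p) +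
            ∫⁻ x : E (m + 1),
              ‖inv (fun ξ => bes (s - 1) ξ * 𝓕 (u₁ : E (m + 1) → ℂ) ξ) x‖ₑ ^ p) := by
  have h0 : lo p = 0 := by
    unfold lo
    exact max_eq_left (by linarith)
  obtain ⟨C, hC, h⟩ := finG hLPK hBP hMUL m p θ s hPW hp hθ (by rw [h0, zero_div, add_zero]; exact hs)
  refine ⟨C, hC, fun Γ A hA hΓ u₀ u₁ h0 h1 => ?_⟩
  refine (lintegral_mono_set ?_).trans (h Γ A hA hΓ u₀ u₁ h0 h1)
  exact Icc_subset_Icc_left zero_le_one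

/-- the form with the number of lattice points -/
theorem formB (hLPK : S_LPK) (hBP : S_BP) (hMUL : S_MUL) (m : ℕ)
    (p κ σ : ℝ) (hPW : PWat m p) (hp : 2 < p) (hp4 : p ≤ 4) (hκ : 0 ≤ κ)
    (hκ2 : κ ≤ m - 2 / (p - 2)) (hσ : σ < 1 / p) :
    ∃ C : ℝ, 0 < C ∧ ∀ (Γ : Set (E m)) (A : ℝ), 0 ≤ A →
    (∀ (R : ℕ) (T : Finset (Fin m → ℤ)), 1 ≤ R → (∀ n ∈ T, n ∈ near Γ ∧ ∀ i, |n i| < R) →
      (T.card : ℝ) ≤ A * (R : ℝ) ^ κ) →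
    ∀ (u₀ u₁ : 𝓢(E (m + 1), ℂ)), SpecG Γ u₀ → SpecG Γ u₁ →
      ∫⁻ t in Icc (1 : ℝ) 2, ∫⁻ x : E (m + 1),
        ‖wave (𝓕 (u₀ : E (m + 1) → ℂ)) (𝓕 (u₁ : E (m + 1) → ℂ)) t x‖ₑ ^ p ≤
        ENNReal.ofReal (C * A ^ ((p - 2) / 2)) *
          ((∫⁻ x : E (m + 1), ‖inv (fun ξ => bes ((m : ℝ) / 2 - m / p - σ) ξ *
              𝓕 (u₀ : E (m + 1) → ℂ) ξ) x‖ₑ ^ p) +
            ∫⁻ x : E (m + 1), ‖inv (fun ξ => bes ((m : ℝ) / 2 - m / p - 1 - σ) ξ *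
              𝓕 (u₁ : E (m + 1) → ℂ) ξ) x‖ₑ ^ p) := by
  have hp0 : 0 < p := by linarith
  have hp2 : 0 < p - 2 := by linarith
  have hh : 0 ≤ 1 / 2 - 1 / p := by
    rw [sub_nonneg]
    exact one_div_le_one_div_of_le (by norm_num) hp.le
  have b1 : κ * (1 / 2 - 1 / p) ≤ (m : ℝ) / 2 - m / p - 1 / p := by
    have h1 := mul_le_mul_of_nonneg_right hκ2 hh
    have e1 : ((m : ℝ) - 2 / (p - 2)) * (1 / 2 - 1 / p) = (m : ℝ) / 2 - m / p - 1 / p := by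
      field_simp
    linarith
  have hs : κ * (1 / 2 - 1 / p) < (m : ℝ) / 2 - m / p - σ := by linarith
  obtain ⟨C, hC, h⟩ := formA hLPK hBP hMUL m p (κ * (1 / 2 - 1 / p))
    ((m : ℝ) / 2 - m / p - σ) hPW hp.le hp4 (mul_nonneg hκ hh) hs
  refine ⟨C * 2 ^ m, by positivity, fun Γ A hA hΓ u₀ u₁ h0 h1 => ?_⟩
  have h2 := h Γ (((2 : ℝ) ^ m) ^ (1 / p) * A ^ (1 / 2 - 1 / p)) (by positivity) (fun R hR => by
    have h3 := CNT.lam_count p hp.le {n | n ∈ near Γ ∧ ∀ i, |n i| < R} (A * (R : ℝ) ^ κ)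
      (by positivity) (fun T hT => hΓ R T hR fun n hn => hT hn)
    have e1 : (A * (R : ℝ) ^ κ) ^ (1 / 2 - 1 / p) =
        A ^ (1 / 2 - 1 / p) * (R : ℝ) ^ (κ * (1 / 2 - 1 / p)) := by
      rw [Real.mul_rpow hA (by positivity), ← Real.rpow_mul (by positivity)]
    rw [e1, ← mul_assoc] at h3
    exact h3) u₀ u₁ h0 h1
  have e2 : (((2 : ℝ) ^ m) ^ (1 / p) * A ^ (1 / 2 - 1 / p)) ^ p = 2 ^ m * A ^ ((p - 2) / 2) := by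
    rw [Real.mul_rpow (by positivity) (by positivity), ← Real.rpow_mul (by positivity),
      one_div_mul_cancel hp0.ne', Real.rpow_one, ← Real.rpow_mul hA]
    congr 2
    field_simp
  have e3 : (m : ℝ) / 2 - m / p - 1 - σ = (m : ℝ) / 2 - m / p - σ - 1 := by ring
  rw [e2, ← mul_assoc] at h2
  rw [e3]
  exact h2

end Pool.Agent.K9h96.LS.FIN
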