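import Pool.Agent.K9h96.LS.Stm
import Pool.Agent.TH496.LS_MOD
set_option autoImplicit false

/-! # LS, the modulus of continuity for convex phases with a critical point

The even reflections of the two halves of the phase are treated by `TH496.MOD.plus`. -/

open MeasureTheory Set
open scoped ENNReal

namespace Pool.Agent.K9h96.LS.MODC

open Pool.Agent.TH280.LS (e Ph Cut Ev)
open Pool.Agent.TH496.MOD (sq_add sq_sub cutPart Ph_sup Ph_lip continuous_Ph plus)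

/-- the even reflection of the right half of the phase -/
lemma ev_right {g g' : ℝ → ℝ} (h1 : ∀ ξ, HasDerivAt g (g' ξ) ξ) (h2 : Monotone g')
    (h3 : ∀ ξ, |g' ξ| ≤ 2) {c : ℝ} (hc : g' c = 0) :
    Ev (fun ξ => g (c + |ξ|)) (fun ξ => if 0 ≤ ξ then g' (c + ξ) else -g' (c - ξ)) := by
  refine ⟨fun ξ => ?_, fun x y hxy => ?_, fun ξ => ?_, fun ξ => ?_⟩
  · rcases lt_trichotomy ξ 0 with hξ | rfl | hξ
    · simp only [not_le.2 hξ, if_false]
      have ha : HasDerivAt (fun x => g (c - x)) (-g' (c - ξ)) ξ := by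
        have h5 : HasDerivAt (fun x : ℝ => c - x) (-1) ξ := by
          simpa using (hasDerivAt_id ξ).const_sub c
        have := (h1 (c - ξ)).comp ξ h5
        simpa [Function.comp_def] using this
      refine ha.congr_of_eventuallyEq ?_
      filter_upwards [gt_mem_nhds hξ] with x hx
      rw [abs_of_neg hx, sub_eq_add_neg]
    · simp only [le_refl, if_true, add_zero, hc]
      have ha := h1 c
      rw [hc, hasDerivAt_iff_isLittleO] at ha
      rw [hasDerivAt_iff_isLittleO]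
      have ht : Filter.Tendsto (fun x : ℝ => c + |x|) (nhds 0) (nhds c) := by
        have : Continuous fun x : ℝ => c + |x| := by fun_prop
        simpa using this.tendsto 0
      have hb := ha.comp_tendsto ht
      simp only [Function.comp_def, smul_zero, sub_zero, add_sub_cancel_left] at hb
      simp only [smul_zero, sub_zero, abs_zero, add_zero]
      exact hb.trans_isBigO ((Asymptotics.isBigO_refl _ _).norm_left)
    · simp only [hξ.le, if_true]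
      have ha : HasDerivAt (fun x => g (c + x)) (g' (c + ξ)) ξ := by
        have h5 : HasDerivAt (fun x : ℝ => c + x) 1 ξ := by
          simpa using (hasDerivAt_id ξ).const_add c
        have := (h1 (c + ξ)).comp ξ h5
        simpa [Function.comp_def] using this
      refine ha.congr_of_eventuallyEq ?_
      filter_upwards [lt_mem_nhds hξ] with x hx
      rw [abs_of_pos hx]
  · simp only
    have hR : ∀ x, 0 ≤ x → 0 ≤ g' (c + x) := fun x hx => by
      rw [← hc]; exact h2 (by linarith)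
    have hL : ∀ x, x ≤ 0 → 0 ≤ g' (c - x) := fun x hx => by
      rw [← hc]; exact h2 (by linarith)
    by_cases hx : 0 ≤ x
    · rw [if_pos hx, if_pos (hx.trans hxy)]
      exact h2 (by linarith)
    · push Not at hx
      rw [if_neg (not_le.2 hx)]
      by_cases hy : 0 ≤ y
      · rw [if_pos hy]
        linarith [hR y hy, hL x hx.le]
      · rw [if_neg hy]
        have := h2 (show c - y ≤ c - x by linarith)
        linarith
  · simp only
    by_cases hx : 0 ≤ ξ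
    · rw [if_pos hx]; exact h3 _
    · rw [if_neg hx, abs_neg]; exact h3 _
  · simp only [abs_neg]

section
variable {g g' : ℝ → ℝ} (h : Cx g g') {φ : ℝ → ℂ} (hm : Measurable φ)
  (h2 : MemLp φ 2 (volume.restrict (Icc (-2 : ℝ) 2)))
include h

lemma g_cont : Continuous g := continuous_iff_continuousAt.2 fun x => (h.1 x).continuousAt

lemma meas_g : Measurable g := (g_cont h).measurable

lemma mvt {a b : ℝ} (hab : a < b) : ∃ c ∈ Ioo a b, g b - g a = g' c * (b - a) := by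
  obtain ⟨c, hc, hc2⟩ := exists_hasDerivAt_eq_slope g g' hab (g_cont h).continuousOn
    (fun x _ => h.1 x)
  refine ⟨c, hc, ?_⟩
  rw [hc2]; field_simp [sub_ne_zero.2 hab.ne']

lemma g_lip (a b : ℝ) : |g b - g a| ≤ 2 * |b - a| := by
  rcases lt_trichotomy a b with hlt | rfl | hlt
  · obtain ⟨c, hc, hc2⟩ := mvt h hlt
    rw [hc2, abs_mul]
    exact mul_le_mul_of_nonneg_right (h.2.2.1 c) (abs_nonneg _)
  · simp
  · obtain ⟨c, hc, hc2⟩ := mvt h hlt
    rw [abs_sub_comm, hc2, abs_mul, abs_sub_comm b a]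
    exact mul_le_mul_of_nonneg_right (h.2.2.1 c) (abs_nonneg _)

include hm h2

lemma total {τ m n : ℝ} {M : ℝ≥0∞} (hτ : 0 < τ) (hm1 : min 1 (2 * τ) ≤ m) (hn0 : 0 ≤ n)
    (hn : 1 / 2 < τ → 12 * τ ≤ n)
    (hM : ∀ ξ, ‖Ph φ (g (ξ + τ)) - Ph φ (g ξ)‖ₑ ^ 2 ≤ M) :
    ∫⁻ ξ, ‖Ph φ (g (ξ + τ)) - Ph φ (g ξ)‖ₑ ^ 2 ≤
      2 * (ENNReal.ofReal (m * τ * (4 * Real.pi) ^ 2 + n) *
        ∫⁻ t in Icc (-2 : ℝ) 2, ‖φ t‖ₑ ^ 2) + ENNReal.ofReal τ * M := by
  obtain ⟨c, hc⟩ := h.2.2.2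
  have evR := ev_right h.1 h.2.1 h.2.2.1 hc
  have evL := ev_right (g := fun x => g (-x)) (g' := fun x => -g' (-x)) (c := -c)
    (fun x => by
      have h5 : HasDerivAt (fun x : ℝ => -x) (-1) x := hasDerivAt_neg x
      have := (h.1 (-x)).comp x h5
      simpa [Function.comp_def] using this)
    (fun x y hxy => by
      have := h.2.1 (neg_le_neg hxy)
      simp only; linarith)
    (fun x => by rw [abs_neg]; exact h.2.2.1 _) (by simp [hc])
  have hpR := plus evR hm h2 hτ hm1 hn0 hn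
  have hpL := plus evL hm h2 hτ hm1 hn0 hn
  set F : ℝ → ℝ≥0∞ := fun ξ => ‖Ph φ (g (ξ + τ)) - Ph φ (g ξ)‖ₑ ^ 2 with hF
  have hR : ∫⁻ ξ in Ici c, F ξ = ∫⁻ ξ in Ici (0 : ℝ),
      ‖Ph φ (g (c + |ξ + τ|)) - Ph φ (g (c + |ξ|))‖ₑ ^ 2 := by
    rw [← lintegral_indicator measurableSet_Ici, ← lintegral_indicator measurableSet_Ici,
      ← lintegral_add_left_eq_self _ c]
    refine lintegral_congr fun ξ => ?_
    by_cases hξ : ξ ∈ Ici (0 : ℝ)
    · have h0 : (0 : ℝ) ≤ ξ := hξ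
      have h3 : c + ξ ∈ Ici c := by
        show c ≤ c + ξ
        linarith
      rw [indicator_of_mem h3, indicator_of_mem hξ, hF]
      simp only
      rw [abs_of_nonneg h0, abs_of_nonneg (by linarith : 0 ≤ ξ + τ), add_assoc]
    · have h3 : c + ξ ∉ Ici c := by
        intro h4
        have h5 : c ≤ c + ξ := h4
        exact hξ (show (0 : ℝ) ≤ ξ by linarith)
      rw [indicator_of_notMem h3, indicator_of_notMem hξ]
  have hL : ∫⁻ ξ in Iic (c - τ), F ξ = ∫⁻ ξ in Ici (0 : ℝ),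
      ‖Ph φ (g (-(-c + |ξ + τ|))) - Ph φ (g (-(-c + |ξ|)))‖ₑ ^ 2 := by
    rw [← lintegral_indicator measurableSet_Iic, ← lintegral_indicator measurableSet_Ici,
      ← lintegral_sub_left_eq_self _ (c - τ)]
    refine lintegral_congr fun ξ => ?_
    by_cases hξ : ξ ∈ Ici (0 : ℝ)
    · have h0 : (0 : ℝ) ≤ ξ := hξ
      have h3 : c - τ - ξ ∈ Iic (c - τ) := by
        show c - τ - ξ ≤ c - τ
        linarith
      rw [indicator_of_mem h3, indicator_of_mem hξ, hF]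
      simp only
      rw [abs_of_nonneg h0, abs_of_nonneg (by linarith : 0 ≤ ξ + τ)]
      have e1 : c - τ - ξ + τ = -(-c + ξ) := by ring
      have e2 : c - τ - ξ = -(-c + (ξ + τ)) := by ring
      rw [e1, e2, ← enorm_neg, neg_sub]
    · have h3 : c - τ - ξ ∉ Iic (c - τ) := by
        intro h4
        have h5 : c - τ - ξ ≤ c - τ := h4
        exact hξ (show (0 : ℝ) ≤ ξ by linarith)
      rw [indicator_of_notMem h3, indicator_of_notMem hξ]
  have hMid : ∫⁻ ξ in Icc (c - τ) c, F ξ ≤ ENNReal.ofReal τ * M := by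
    calc ∫⁻ ξ in Icc (c - τ) c, F ξ ≤ ∫⁻ _ in Icc (c - τ) c, M := lintegral_mono fun ξ => hM ξ
      _ = _ := by rw [setLIntegral_const, Real.volume_Icc, sub_sub_cancel, mul_comm]
  have h1 : ∫⁻ ξ, F ξ ≤ (∫⁻ ξ in Iic (c - τ), F ξ) +
      ((∫⁻ ξ in Icc (c - τ) c, F ξ) + ∫⁻ ξ in Ici c, F ξ) := by
    rw [← setLIntegral_univ]
    refine (lintegral_mono_set (fun ξ _ => ?_ :
      (univ : Set ℝ) ⊆ Iic (c - τ) ∪ (Icc (c - τ) c ∪ Ici c))).trans
        ((lintegral_union_le _ _ _).trans (add_le_add le_rfl (lintegral_union_le _ _ _)))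
    rcases le_total ξ (c - τ) with h3 | h3
    · exact Or.inl h3
    · rcases le_total ξ c with h4 | h4
      · exact Or.inr (Or.inl ⟨h3, h4⟩)
      · exact Or.inr (Or.inr h4)
  refine h1.trans ?_
  rw [hL, hR]
  refine (add_le_add hpL (add_le_add hMid hpR)).trans (le_of_eq ?_)
  ring

end

/-- the general step -/
lemma step {N τ c m n q : ℝ} (hN : 1 ≤ N) {χ : ℝ → ℂ} (hχ : Cut 2 N χ)
    {g g' : ℝ → ℝ} (h : Cx g g') {φ : ℝ → ℂ} (hm : Measurable φ)
    (h2 : MemLp φ 2 (volume.restrict (Icc (-2 : ℝ) 2)))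
    (hτ : 0 < τ) (hm1 : min 1 (2 * τ) ≤ m) (hn0 : 0 ≤ n) (hq0 : 0 ≤ q)
    (hn : 1 / 2 < τ → 12 * τ ≤ n)
    (hM : ∀ ξ, ‖Ph φ (g (ξ + τ)) - Ph φ (g ξ)‖ₑ ^ 2 ≤
      ENNReal.ofReal q * ∫⁻ t in Icc (-2 : ℝ) 2, ‖φ t‖ₑ ^ 2)
    (hc : ∀ ξ, ‖χ (ξ + τ) - χ ξ‖ ≤ c) {K : ℝ}
    (hK : 64 * N * c ^ 2 + 4 * (m * τ * (4 * Real.pi) ^ 2 + n) + 2 * (τ * q) ≤ K) :
    ∫⁻ ξ : ℝ, ‖χ (ξ + τ) * Ph φ (g (ξ + τ)) - χ ξ * Ph φ (g ξ)‖ₑ ^ 2 ≤
      ENNReal.ofReal K * ∫⁻ t in Icc (-2 : ℝ) 2, ‖φ t‖ₑ ^ 2 := by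
  have hm0 : 0 ≤ m := le_trans (le_min zero_le_one (by linarith)) hm1
  have ht := total h hm h2 hτ hm1 hn0 hn hM
  have hcp := cutPart hN hχ hc (V := fun ξ => ‖Ph φ (g (ξ + τ))‖ₑ ^ 2)
    (fun ξ => Ph_sup hm (g (ξ + τ)))
  have hg := meas_g h
  have hPhm : Measurable (Ph φ) := (continuous_Ph hm h2).measurable
  set A := ∫⁻ t in Icc (-2 : ℝ) 2, ‖φ t‖ₑ ^ 2 with hA
  have hFm : Measurable fun ξ => 2 * ‖Ph φ (g (ξ + τ)) - Ph φ (g ξ)‖ₑ ^ 2 :=
    ((((hPhm.comp (hg.comp (measurable_id.add_const τ))).sub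
      (hPhm.comp hg)).enorm).pow_const 2).const_mul 2
  calc ∫⁻ ξ : ℝ, ‖χ (ξ + τ) * Ph φ (g (ξ + τ)) - χ ξ * Ph φ (g ξ)‖ₑ ^ 2
      ≤ ∫⁻ ξ : ℝ, (2 * (‖χ (ξ + τ) - χ ξ‖ₑ ^ 2 * ‖Ph φ (g (ξ + τ))‖ₑ ^ 2) +
          2 * ‖Ph φ (g (ξ + τ)) - Ph φ (g ξ)‖ₑ ^ 2) := by
        refine lintegral_mono fun ξ => ?_
        have e1 : χ (ξ + τ) * Ph φ (g (ξ + τ)) - χ ξ * Ph φ (g ξ) =
          (χ (ξ + τ) - χ ξ) * Ph φ (g (ξ + τ)) + χ ξ * (Ph φ (g (ξ + τ)) - Ph φ (g ξ)) := by ring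
        simp only [e1]
        refine (sq_add _ _).trans ?_
        rw [enorm_mul, mul_pow]
        refine add_le_add le_rfl (mul_le_mul_right ?_ _)
        rw [enorm_mul, mul_pow]
        have h3 : ‖χ ξ‖ₑ ^ 2 ≤ 1 := by
          rw [← ofReal_norm, ← ENNReal.ofReal_pow (norm_nonneg _)]
          rw [ENNReal.ofReal_le_one]
          exact pow_le_one₀ (norm_nonneg _) (hχ.1 ξ)
        calc ‖χ ξ‖ₑ ^ 2 * ‖Ph φ (g (ξ + τ)) - Ph φ (g ξ)‖ₑ ^ 2
            ≤ 1 * ‖Ph φ (g (ξ + τ)) - Ph φ (g ξ)‖ₑ ^ 2 := mul_le_mul_left h3 _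
          _ = _ := one_mul _
    _ = 2 * (∫⁻ ξ : ℝ, ‖χ (ξ + τ) - χ ξ‖ₑ ^ 2 * ‖Ph φ (g (ξ + τ))‖ₑ ^ 2) +
          2 * ∫⁻ ξ : ℝ, ‖Ph φ (g (ξ + τ)) - Ph φ (g ξ)‖ₑ ^ 2 := by
        rw [lintegral_add_right _ hFm, lintegral_const_mul' _ _ (by norm_num),
          lintegral_const_mul' _ _ (by norm_num)]
    _ ≤ 2 * (ENNReal.ofReal (8 * N * c ^ 2) * (4 * A)) +
          2 * (2 * (ENNReal.ofReal (m * τ * (4 * Real.pi) ^ 2 + n) * A) +
            ENNReal.ofReal τ * (ENNReal.ofReal q * A)) :=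
        add_le_add (mul_le_mul_right hcp _) (mul_le_mul_right ht _)
    _ = ENNReal.ofReal (64 * N * c ^ 2 + 4 * (m * τ * (4 * Real.pi) ^ 2 + n) + 2 * (τ * q)) *
          A := by
        have p1 : 0 ≤ 8 * N * c ^ 2 := by positivity
        have p2 : 0 ≤ m * τ * (4 * Real.pi) ^ 2 + n := by positivity
        have p3 : 0 ≤ τ * q := by positivity
        rw [show 64 * N * c ^ 2 = 8 * (8 * N * c ^ 2) by ring]
        generalize 8 * N * c ^ 2 = u1 at p1 ⊢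
        generalize m * τ * (4 * Real.pi) ^ 2 + n = u2 at p2 ⊢
        rw [ENNReal.ofReal_add (by positivity) (by positivity),
          ENNReal.ofReal_add (by positivity) (by positivity),
          ENNReal.ofReal_mul (p := 8) (by norm_num), ENNReal.ofReal_mul (p := 4) (by norm_num),
          ENNReal.ofReal_mul (p := 2) (by norm_num), ENNReal.ofReal_mul (p := τ) hτ.le]
        have q8 : ENNReal.ofReal 8 = 8 := by norm_num
        have q4 : ENNReal.ofReal 4 = 4 := by norm_num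
        have q2 : ENNReal.ofReal 2 = 2 := by norm_num
        rw [q8, q4, q2]
        ring
    _ ≤ _ := mul_le_mul_left (ENNReal.ofReal_le_ofReal hK) _

theorem t : S_MODC := by
  refine ⟨1000 + 40 * (4 * Real.pi) ^ 2, by positivity, ?_⟩
  intro N g g' χ φ hN h hχ hm h2
  have hN0 : 0 < N := by linarith
  have hP : 0 ≤ (4 * Real.pi) ^ 2 := by positivity
  have hcut1 : ∀ τ : ℝ, 0 < τ → ∀ ξ, ‖χ (ξ + τ) - χ ξ‖ ≤ 2 / N * τ := by
    intro τ hτ ξ
    have := hχ.2.1 (ξ + τ) ξ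
    rwa [add_sub_cancel_left, abs_of_pos hτ] at this
  have hcut2 : ∀ τ : ℝ, ∀ ξ, ‖χ (ξ + τ) - χ ξ‖ ≤ 2 := by
    intro τ ξ
    refine (norm_sub_le _ _).trans ?_
    linarith [hχ.1 (ξ + τ), hχ.1 ξ]
  constructor
  · intro τ hτ
    have hM : ∀ ξ, ‖Ph φ (g (ξ + τ)) - Ph φ (g ξ)‖ₑ ^ 2 ≤
        ENNReal.ofReal 16 * ∫⁻ t in Icc (-2 : ℝ) 2, ‖φ t‖ₑ ^ 2 := by
      intro ξ
      refine (sq_sub _ _).trans ?_
      refine (add_le_add (mul_le_mul_right (Ph_sup hm _) _)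
        (mul_le_mul_right (Ph_sup hm _) _)).trans (le_of_eq ?_)
      have : ENNReal.ofReal 16 = 16 := by norm_num
      rw [this]; ring
    rcases le_or_gt τ N with hle | hlt
    · refine step hN hχ h hm h2 (m := 1) (n := 12 * τ) (q := 16) (c := 2 / N * τ) hτ
        (min_le_left _ _) (by positivity) (by norm_num) (fun _ => le_rfl) hM (hcut1 τ hτ) ?_
      have e1 : 64 * N * (2 / N * τ) ^ 2 = 256 * τ * (τ / N) := by field_simp; ring
      have e2 : τ / N ≤ 1 := by rw [div_le_one hN0]; exact hle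
      have e3 : 256 * τ * (τ / N) ≤ 256 * τ := by
        have : 0 ≤ 256 * τ := by positivity
        nlinarith
      rw [e1]
      nlinarith [mul_nonneg hτ.le hP]
    · refine step hN hχ h hm h2 (m := 1) (n := 12 * τ) (q := 16) (c := 2) hτ
        (min_le_left _ _) (by positivity) (by norm_num) (fun _ => le_rfl) hM (hcut2 τ) ?_
      nlinarith [mul_nonneg hτ.le hP]
  · intro τ hτ hτ1
    have hM : ∀ ξ, ‖Ph φ (g (ξ + τ)) - Ph φ (g ξ)‖ₑ ^ 2 ≤
        ENNReal.ofReal ((2 * τ) ^ 2 * (4 * (4 * Real.pi) ^ 2)) *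
          ∫⁻ t in Icc (-2 : ℝ) 2, ‖φ t‖ₑ ^ 2 := by
      intro ξ
      refine (Ph_lip hm h2 _ _).trans ?_
      rw [← mul_assoc, ← ENNReal.ofReal_mul (by positivity)]
      refine mul_le_mul_left (ENNReal.ofReal_le_ofReal ?_) _
      apply mul_le_mul_of_nonneg_right _ (by positivity)
      have := g_lip h ξ (ξ + τ)
      rw [add_sub_cancel_left, abs_of_pos hτ] at this
      rw [← sq_abs]
      exact pow_le_pow_left₀ (abs_nonneg _) this 2
    refine step hN hχ h hm h2 (m := 2 * τ) (n := 24 * τ ^ 2)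
      (q := (2 * τ) ^ 2 * (4 * (4 * Real.pi) ^ 2)) (c := 2 / N * τ) hτ
      (min_le_right _ _) (by positivity) (by positivity) ?_ hM (hcut1 τ hτ) ?_
    · intro h3; nlinarith
    · have e1 : 64 * N * (2 / N * τ) ^ 2 = 256 * τ ^ 2 * (1 / N) := by field_simp; ring
      have e2 : 1 / N ≤ 1 := by rw [div_le_one hN0]; exact hN
      have e3 : 256 * τ ^ 2 * (1 / N) ≤ 256 * τ ^ 2 := by
        have : 0 ≤ 256 * τ ^ 2 := by positivity
        nlinarith
      have e4 : τ ^ 3 ≤ τ ^ 2 := by nlinarith [sq_nonneg τ]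
      have e5 : 2 * (τ * ((2 * τ) ^ 2 * (4 * (4 * Real.pi) ^ 2))) =
        32 * (τ ^ 3 * (4 * Real.pi) ^ 2) := by ring
      have e6 : τ ^ 3 * (4 * Real.pi) ^ 2 ≤ τ ^ 2 * (4 * Real.pi) ^ 2 :=
        mul_le_mul_of_nonneg_right e4 hP
      have e7 : 4 * (2 * τ * τ * (4 * Real.pi) ^ 2 + 24 * τ ^ 2) =
        8 * (τ ^ 2 * (4 * Real.pi) ^ 2) + 96 * τ ^ 2 := by ring
      rw [e1, e5, e7]
      have e8 : (1000 + 40 * (4 * Real.pi) ^ 2) * τ ^ 2 =
        1000 * τ ^ 2 + 40 * (τ ^ 2 * (4 * Real.pi) ^ 2) := by ring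
      rw [e8]
      have e9 : 0 ≤ τ ^ 2 := by positivity
      linarith

end Pool.Agent.K9h96.LS.MODC
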