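import Pool.Agent.K9h96.LS.Stm
import Pool.Agent.K9h96.LS.MODC
import Pool.Agent.TH889.LS_DUAL
import Pool.Agent.TH889.LS_W
set_option autoImplicit false

/-! # LS, the one dimensional estimate in time for convex phases with a critical point

The proof is that of `TH889.DUAL.dual_thm`, with `S_MODC` in place of `S_MOD`. -/

open MeasureTheory Set
open scoped ENNReal

namespace Pool.Agent.K9h96.LS.DUALC

open Pool.Agent.TH280.LS
open Pool.Agent.TH889.DUAL (cont_int wcs Ph_sq)

theorem t_of : S_MODC → S_W → S_DUALC := by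
  rintro ⟨C1, hC1, hMOD⟩ ⟨C2, hC2, hW⟩
  refine ⟨C2 * max C1 16, by positivity, fun N g g' χ b hN hg hχ hb => ?_⟩
  have hN0 : 0 < N := by linarith
  have hlog : 0 ≤ Real.log N := Real.log_nonneg hN
  have gc : Continuous g := continuous_iff_continuousAt.2 fun ξ => (hg.1 ξ).continuousAt
  have χc : Continuous χ := by
    have : LipschitzWith (Real.toNNReal (2 / N)) χ := LipschitzWith.of_dist_le_mul fun x y => by
      rw [dist_eq_norm, Real.dist_eq, Real.coe_toNNReal _ (by positivity)]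
      exact hχ.2.1 x y
    exact this.continuous
  have χs : ∀ ξ, ξ ∉ Icc (-(2 * N)) (2 * N) → χ ξ = 0 := by
    intro ξ hξ
    apply hχ.2.2
    by_contra h
    push Not at h
    exact hξ ⟨(abs_le.1 h).1, (abs_le.1 h).2⟩
  have bc := continuous_ft hb
  obtain ⟨q0, hq0⟩ : ∃ q0 : ℝ → ℂ, q0 = fun ξ => χ ξ * ft b ξ := ⟨_, rfl⟩
  have q0c : Continuous q0 := by rw [hq0]; exact χc.mul bc
  have q0s : HasCompactSupport q0 := by
    refine HasCompactSupport.intro (isCompact_Icc (a := -(2 * N)) (b := 2 * N)) fun ξ hξ => ?_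
    rw [hq0]; simp only; rw [χs ξ hξ, zero_mul]
  have q0i : Integrable q0 := q0c.integrable_of_hasCompactSupport q0s
  obtain ⟨Q, hQ⟩ : ∃ Q : ℝ → ℂ, Q = fun t => ∫ ξ, e (t * g ξ) * q0 ξ := ⟨_, rfl⟩
  have Qc : Continuous Q := by rw [hQ]; exact cont_int volume g gc q0 q0i
  have Qb : ∀ t, ‖Q t‖ ≤ ∫ ξ, ‖q0 ξ‖ := by
    intro t
    rw [hQ]
    refine (norm_integral_le_integral_norm _).trans (le_of_eq ?_)
    refine integral_congr_ae (Filter.Eventually.of_forall fun ξ => ?_)
    simp only [norm_mul, norm_e, one_mul]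
  obtain ⟨φ, hφ⟩ : ∃ φ : ℝ → ℂ, φ = fun t => (starRingEnd ℂ) (Q t) := ⟨_, rfl⟩
  have φc : Continuous φ := by rw [hφ]; exact Complex.continuous_conj.comp Qc
  have φn : ∀ t, ‖φ t‖ = ‖Q t‖ := by intro t; rw [hφ]; simp
  have φi : Integrable φ (volume.restrict (Icc (-2 : ℝ) 2)) := φc.continuousOn.integrableOn_Icc
  have φ2 : MemLp φ 2 (volume.restrict (Icc (-2 : ℝ) 2)) :=
    MemLp.of_bound φc.aestronglyMeasurable (∫ ξ, ‖q0 ξ‖)
      (Filter.Eventually.of_forall fun t => by rw [φn]; exact Qb t)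
  obtain ⟨J, hJ⟩ : ∃ J : ℝ≥0∞, J = ∫⁻ t in Icc (-2 : ℝ) 2, ‖φ t‖ₑ ^ 2 := ⟨_, rfl⟩
  have hJt : J ≠ ⊤ := by
    rw [hJ]
    refine ne_top_of_le_ne_top (b := ∫⁻ _ in Icc (-2 : ℝ) 2,
      ENNReal.ofReal (∫ ξ, ‖q0 ξ‖) ^ 2) ?_ ?_
    · rw [setLIntegral_const, Real.volume_Icc]
      exact ENNReal.mul_ne_top (ENNReal.pow_ne_top ENNReal.ofReal_ne_top) ENNReal.ofReal_ne_top
    · refine lintegral_mono fun t => ?_
      simp only
      rw [← ofReal_norm, φn]
      gcongr
      exact Qb t
  have hJQ : J = ∫⁻ t in Icc (-2 : ℝ) 2, ‖Q t‖ₑ ^ 2 := by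
    rw [hJ]
    refine lintegral_congr fun t => ?_
    rw [← ofReal_norm, φn, ofReal_norm]
  -- the pairing
  have hpair : ‖∫ t in Icc (-2 : ℝ) 2, φ t * Q t‖ₑ = J := by
    have h1 : (∫ t in Icc (-2 : ℝ) 2, φ t * Q t) =
        ((∫ t in Icc (-2 : ℝ) 2, ‖Q t‖ ^ 2 : ℝ) : ℂ) := by
      rw [← integral_complex_ofReal]
      refine integral_congr_ae (Filter.Eventually.of_forall fun t => ?_)
      simp only [hφ]
      rw [Complex.conj_mul']
      push_cast; rfl
    have h2 : 0 ≤ ∫ t in Icc (-2 : ℝ) 2, ‖Q t‖ ^ 2 := integral_nonneg fun t => by positivity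
    rw [h1, ← ofReal_norm, Complex.norm_real, Real.norm_of_nonneg h2,
      ofReal_integral_eq_lintegral_ofReal, hJQ]
    · refine lintegral_congr fun t => ?_
      rw [ENNReal.ofReal_pow (norm_nonneg _), ofReal_norm]
    · exact (Qc.norm.pow 2).continuousOn.integrableOn_Icc
    · exact Filter.Eventually.of_forall fun t => by positivity
  -- the function `F`
  have Pc : Continuous (Ph φ) := by
    have : Ph φ = fun s => ∫ t in Icc (-2 : ℝ) 2, e (s * t) * φ t := by
      funext s
      unfold Ph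
      refine integral_congr_ae (Filter.Eventually.of_forall fun t => ?_)
      simp only
      rw [mul_comm (φ t), mul_comm t s]
    rw [this]
    exact cont_int _ (fun t => t) continuous_id φ φi
  obtain ⟨F, hF⟩ : ∃ F : ℝ → ℂ, F = fun ξ => χ ξ * Ph φ (g ξ) := ⟨_, rfl⟩
  have Fc : Continuous F := by rw [hF]; exact χc.mul (Pc.comp gc)
  have F0 : ∀ ξ, ξ ∉ Icc (-(2 * N)) (2 * N) → F ξ = 0 := by
    intro ξ hξ
    rw [hF]; simp only; rw [χs ξ hξ, zero_mul]
  have Fs : HasCompactSupport F :=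
    HasCompactSupport.intro (isCompact_Icc (a := -(2 * N)) (b := 2 * N)) F0
  have Fi : Integrable F := Fc.integrable_of_hasCompactSupport Fs
  have F2 : MemLp F 2 := Fc.memLp_of_hasCompactSupport Fs
  have hm16 : (16 : ℝ≥0∞) * J ≤ ENNReal.ofReal (max C1 16) * J := by
    gcongr
    calc (16 : ℝ≥0∞) = ENNReal.ofReal 16 := by norm_num
      _ ≤ _ := ENNReal.ofReal_le_ofReal (le_max_right _ _)
  have FA : ∫⁻ ξ : ℝ, ‖F ξ‖ₑ ^ 2 ≤ ENNReal.ofReal N * (ENNReal.ofReal (max C1 16) * J) := by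
    calc ∫⁻ ξ : ℝ, ‖F ξ‖ₑ ^ 2
        ≤ ∫⁻ ξ : ℝ, (Icc (-(2 * N)) (2 * N)).indicator (fun _ => 4 * J) ξ := by
          refine lintegral_mono fun ξ => ?_
          by_cases hξ : ξ ∈ Icc (-(2 * N)) (2 * N)
          · rw [indicator_of_mem hξ, hF]
            simp only
            calc ‖χ ξ * Ph φ (g ξ)‖ₑ ^ 2 = ‖χ ξ‖ₑ ^ 2 * ‖Ph φ (g ξ)‖ₑ ^ 2 := by
                  rw [enorm_mul, mul_pow]
              _ ≤ 1 ^ 2 * (4 * J) := by
                  gcongr
                  · rw [← ofReal_norm, ← ENNReal.ofReal_one]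
                    exact ENNReal.ofReal_le_ofReal (hχ.1 ξ)
                  · rw [hJ]; exact Ph_sq φ φc.measurable (g ξ)
              _ = 4 * J := by rw [one_pow, one_mul]
          · rw [indicator_of_notMem hξ, F0 ξ hξ]
            simp
      _ = ENNReal.ofReal N * (16 * J) := by
          rw [lintegral_indicator measurableSet_Icc, setLIntegral_const, Real.volume_Icc]
          have : ENNReal.ofReal (2 * N - -(2 * N)) = 4 * ENNReal.ofReal N := by
            have h4 : (4 : ℝ≥0∞) = ENNReal.ofReal 4 := by norm_num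
            rw [h4, ← ENNReal.ofReal_mul (by norm_num)]
            congr 1; ring
          rw [this]
          ring
      _ ≤ _ := by gcongr
  obtain ⟨m1, m2⟩ := hMOD N g g' χ φ hN hg hχ φc.measurable φ2
  have W := (hW N hN).2 F (ENNReal.ofReal (max C1 16) * J) Fc.measurable Fi F2 FA
    (fun τ hτ => by
      have := m1 τ hτ
      rw [hF]
      refine this.trans ?_
      rw [← hJ, mul_comm C1 τ, ENNReal.ofReal_mul hτ.le, mul_assoc]
      gcongr
      exact le_max_left _ _)
    (fun τ hτ hτ1 => by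
      have := m2 τ hτ hτ1
      rw [hF]
      refine this.trans ?_
      rw [← hJ, mul_comm C1 (τ ^ 2), ENNReal.ofReal_mul (by positivity), mul_assoc]
      gcongr
      exact le_max_left _ _)
  -- Fubini
  have hint : Integrable (Function.uncurry fun t ξ => φ t * (e (t * g ξ) * q0 ξ))
      ((volume.restrict (Icc (-2 : ℝ) 2)).prod (volume : Measure ℝ)) := by
    have h0 : Integrable (fun z : ℝ × ℝ => φ z.1 * q0 z.2)
      ((volume.restrict (Icc (-2 : ℝ) 2)).prod (volume : Measure ℝ)) := φi.mul_prod q0i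
    have hc : Continuous fun z : ℝ × ℝ => e (z.1 * g z.2) :=
      continuous_e.comp (continuous_fst.mul (gc.comp continuous_snd))
    have h1 : Integrable (fun z : ℝ × ℝ => e (z.1 * g z.2) * (φ z.1 * q0 z.2))
      ((volume.restrict (Icc (-2 : ℝ) 2)).prod (volume : Measure ℝ)) := by
      refine h0.bdd_mul (c := 1) hc.aestronglyMeasurable ?_
      exact Filter.Eventually.of_forall fun z => (norm_e _).le
    refine h1.congr (Filter.Eventually.of_forall fun z => ?_)
    simp only [Function.uncurry]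
    ring
  have hfub : (∫ t in Icc (-2 : ℝ) 2, φ t * Q t) = ∫ v, ft F v * b v := by
    calc (∫ t in Icc (-2 : ℝ) 2, φ t * Q t)
        = ∫ t in Icc (-2 : ℝ) 2, ∫ ξ, φ t * (e (t * g ξ) * q0 ξ) := by
          refine integral_congr_ae (Filter.Eventually.of_forall fun t => ?_)
          simp only
          rw [integral_const_mul, hQ]
      _ = ∫ ξ, ∫ t in Icc (-2 : ℝ) 2, φ t * (e (t * g ξ) * q0 ξ) :=
          integral_integral_swap hint
      _ = ∫ ξ, F ξ * ft b ξ := by
          refine integral_congr_ae (Filter.Eventually.of_forall fun ξ => ?_)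
          simp only
          have : (∫ t in Icc (-2 : ℝ) 2, φ t * (e (t * g ξ) * q0 ξ)) =
              (∫ t in Icc (-2 : ℝ) 2, φ t * e (t * g ξ)) * q0 ξ := by
            rw [← integral_mul_const]
            refine integral_congr_ae (Filter.Eventually.of_forall fun t => ?_)
            simp only
            ring
          rw [this, hF, hq0]
          simp only
          unfold Ph
          ring
      _ = _ := ft_mul Fi hb
  have hcs := wcs hN (ft F) b (continuous_ft Fi).measurable.aemeasurable hb.1.aemeasurable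
  rw [← hfub, hpair] at hcs
  have hgoal : J ≤ ENNReal.ofReal (C2 * max C1 16 * (1 + Real.log N)) *
      ∫⁻ v : ℝ, (ENNReal.ofReal (Wt N v))⁻¹ * ‖b v‖ₑ ^ 2 := by
    obtain ⟨X, hX⟩ : ∃ X : ℝ≥0∞, X = ∫⁻ v : ℝ, (ENNReal.ofReal (Wt N v))⁻¹ * ‖b v‖ₑ ^ 2 :=
      ⟨_, rfl⟩
    rw [← hX] at hcs ⊢
    rcases eq_or_ne J 0 with h0 | h0
    · rw [h0]; exact zero_le
    · have h3 : J * J ≤ J * (ENNReal.ofReal (C2 * max C1 16 * (1 + Real.log N)) * X) := by
        calc J * J = J ^ 2 := (sq J).symm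
          _ ≤ _ := hcs
          _ ≤ (ENNReal.ofReal (C2 * (1 + Real.log N)) * (ENNReal.ofReal (max C1 16) * J)) * X := by
              gcongr
          _ = _ := by
              have : C2 * max C1 16 * (1 + Real.log N) = (C2 * (1 + Real.log N)) * max C1 16 := by
                ring
              rw [this, ENNReal.ofReal_mul (by positivity : 0 ≤ C2 * (1 + Real.log N))]
              ring
      exact (ENNReal.mul_le_mul_iff_right h0 hJt).1 h3
  rw [hJQ, hQ, hq0] at hgoal
  exact hgoal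

theorem t : S_DUALC := t_of MODC.t Pool.Agent.TH889.W.w_thm

end Pool.Agent.K9h96.LS.DUALC
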