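import Pool.Agent.K9h96.LS.Stm
import Pool.Agent.N303.LS.Fin7
set_option autoImplicit false

/-! # LS, the partition of the frequency space -/

open MeasureTheory Set
open scoped ENNReal FourierTransform RealInnerProductSpace SchwartzMap

namespace Pool.Agent.K9h96.LS.FIN

open Pool.Agent.N303.LS

/-- a Schwartz function with transform `1` for `|ξ|_∞ ≤ 3/4` and `0` for `|ξ|_∞ ≥ 9/8` -/
lemma bumpO (d : ℕ) : ∃ K : 𝓢(E d, ℂ), (∀ ξ : E d, (∀ i, |ξ i| ≤ 3 / 4) → 𝓕 (K : E d → ℂ) ξ = 1) ∧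
    ∀ ξ : E d, (∃ i, 9 / 8 ≤ |ξ i|) → 𝓕 (K : E d → ℂ) ξ = 0 := by
  have hs : IsClosed {ξ : E d | ∃ i, 9 / 8 ≤ |ξ i|} := by
    have e : {ξ : E d | ∃ i, 9 / 8 ≤ |ξ i|} = ⋃ i, {ξ : E d | 9 / 8 ≤ |ξ i|} := by
      ext ξ
      simp
    rw [e]
    refine isClosed_iUnion_of_finite fun i => isClosed_le continuous_const ?_
    exact (continuous_apply i |>.comp (PiLp.continuous_ofLp 2 _)).abs
  have ht : IsClosed {ξ : E d | ∀ i, |ξ i| ≤ 3 / 4} := by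
    have e : {ξ : E d | ∀ i, |ξ i| ≤ 3 / 4} = ⋂ i, {ξ : E d | |ξ i| ≤ 3 / 4} := by
      ext ξ
      simp
    rw [e]
    refine isClosed_iInter fun i => isClosed_le ?_ continuous_const
    exact (continuous_apply i |>.comp (PiLp.continuous_ofLp 2 _)).abs
  have hd : Disjoint {ξ : E d | ∃ i, 9 / 8 ≤ |ξ i|} {ξ : E d | ∀ i, |ξ i| ≤ 3 / 4} := by
    rw [Set.disjoint_left]
    rintro ξ ⟨i, hi⟩ h
    have := h i
    linarith
  obtain ⟨f, hf0, hf1, -⟩ := exists_contMDiffMap_zero_one_of_isClosed (n := (⊤ : ℕ∞))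
    (modelWithCornersSelf ℝ (E d)) hs ht hd
  have hfc : ContDiff ℝ (⊤ : ℕ∞) (f : E d → ℝ) := f.contMDiff.contDiff
  have hcs : HasCompactSupport fun ξ : E d => ((f ξ : ℝ) : ℂ) := by
    refine HasCompactSupport.of_support_subset_isCompact
      (K := Metric.closedBall (0 : E d) (2 * (d + 1))) (isCompact_closedBall _ _) ?_
    intro ξ hξ
    rw [Metric.mem_closedBall, dist_zero_right]
    by_contra hcon
    push Not at hcon
    apply hξ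
    have hz : f ξ = 0 := by
      refine hf0 ?_
      by_contra hno
      simp only [Set.mem_ofPred_eq, not_exists, not_le] at hno
      have h1 : ‖ξ‖ ≤ 2 * (d + 1) := by
        rw [EuclideanSpace.norm_eq]
        refine Real.sqrt_le_iff.2 ⟨by positivity, ?_⟩
        calc ∑ i, ‖ξ i‖ ^ 2 ≤ ∑ _i : Fin d, (4 : ℝ) := by
              refine Finset.sum_le_sum fun i _ => ?_
              rw [Real.norm_eq_abs]
              have := hno i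
              have h0 := abs_nonneg (ξ i)
              nlinarith
          _ = 4 * d := by simp; ring
          _ ≤ (2 * (d + 1) : ℝ) ^ 2 := by nlinarith [(Nat.cast_nonneg d : (0 : ℝ) ≤ d)]
      linarith
    simp [hz]
  have hcd : ContDiff ℝ (⊤ : ℕ∞) fun ξ : E d => ((f ξ : ℝ) : ℂ) :=
    Complex.ofRealCLM.contDiff.comp hfc
  set φ : 𝓢(E d, ℂ) := hcs.toSchwartzMap hcd with hφ
  refine ⟨𝓕⁻ φ, ?_, ?_⟩
  · intro ξ h
    rw [← SchwartzMap.fourier_coe, FourierTransform.fourier_fourierInv_eq]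
    show ((f ξ : ℝ) : ℂ) = 1
    rw [show f ξ = 1 from hf1 h]
    norm_num
  · intro ξ h
    rw [← SchwartzMap.fourier_coe, FourierTransform.fourier_fourierInv_eq]
    show ((f ξ : ℝ) : ℂ) = 0
    rw [show f ξ = 0 from hf0 h]
    norm_num

variable {d : ℕ}

/-- the cut-offs -/
noncomputable def P (K : 𝓢(E d, ℂ)) (c : ℕ) (ξ : E d) : ℂ :=
  𝓕 (K : E d → ℂ) (((2 : ℝ) ^ c)⁻¹ • ξ)

lemma P_one (K : 𝓢(E d, ℂ)) (h1 : ∀ ξ : E d, (∀ i, |ξ i| ≤ 3 / 4) → 𝓕 (K : E d → ℂ) ξ = 1)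
    (c : ℕ) (ξ : E d) (h : ∀ i, |ξ i| ≤ (2 : ℝ) ^ c * (3 / 4)) : P K c ξ = 1 := by
  refine h1 _ fun i => ?_
  have e : (((2 : ℝ) ^ c)⁻¹ • ξ) i = ((2 : ℝ) ^ c)⁻¹ * ξ i := by simp
  rw [e, abs_mul, abs_of_pos (by positivity), inv_mul_le_iff₀ (by positivity)]
  exact h i

lemma P_zero (K : 𝓢(E d, ℂ)) (h0 : ∀ ξ : E d, (∃ i, 9 / 8 ≤ |ξ i|) → 𝓕 (K : E d → ℂ) ξ = 0)
    (c : ℕ) (ξ : E d) (h : ∃ i, (2 : ℝ) ^ c * (9 / 8) ≤ |ξ i|) : P K c ξ = 0 := by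
  obtain ⟨i, hi⟩ := h
  refine h0 _ ⟨i, ?_⟩
  have e : (((2 : ℝ) ^ c)⁻¹ • ξ) i = ((2 : ℝ) ^ c)⁻¹ * ξ i := by simp
  rw [e, abs_mul, abs_of_pos (by positivity), le_inv_mul_iff₀ (by positivity)]
  exact hi

lemma P_bd (K : 𝓢(E d, ℂ)) (c : ℕ) (ξ : E d) : ‖P K c ξ‖ ≤ ∫ x, ‖K x‖ :=
  VectorFourier.norm_fourierIntegral_le_integral_norm _ _ _ _ _

lemma P_cont (K : 𝓢(E d, ℂ)) (c : ℕ) : Continuous (P K c) := by
  have hc : Continuous (𝓕 (K : E d → ℂ)) := by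
    have h := (𝓕 K : 𝓢(E d, ℂ)).continuous
    rwa [SchwartzMap.fourier_coe] at h
  unfold P
  exact hc.comp (continuous_const_smul _)

lemma P_tg (K : 𝓢(E d, ℂ)) (c : ℕ) : (P K c).HasTemperateGrowth := by
  have h1 : (𝓕 (K : E d → ℂ)).HasTemperateGrowth := by
    have h := (𝓕 K : 𝓢(E d, ℂ)).hasTemperateGrowth
    rwa [SchwartzMap.fourier_coe] at h
  have h3 : (fun ξ : E d => ((2 : ℝ) ^ c)⁻¹ • ξ).HasTemperateGrowth :=
    (((2 : ℝ) ^ c)⁻¹ • (ContinuousLinearMap.id ℝ (E d))).hasTemperateGrowth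
  exact h1.comp h3

lemma P_mul (hM : S_MUL) (K : 𝓢(E d, ℂ)) (p : ℝ) (hp : 1 ≤ p) : ∃ B : ℝ, 0 < B ∧
    ∀ (c : ℕ) (g : 𝓢(E d, ℂ)), ∫⁻ x : E d, ‖inv (fun ξ => P K c ξ * 𝓕 (g : E d → ℂ) ξ) x‖ₑ ^ p ≤
      ENNReal.ofReal B * ∫⁻ x : E d, ‖g x‖ₑ ^ p := by
  have hfin : (∫⁻ q, ‖K q‖ₑ) < ⊤ := (K.integrable (μ := volume)).2
  refine ⟨((∫⁻ q, ‖K q‖ₑ) ^ p).toReal + 1, by positivity, fun c g => ?_⟩
  have h1 := hM d (E d) inferInstance volume inferInstance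
    (fun q => ((2 : ℝ) ^ c)⁻¹ • q) K (by fun_prop) (K.integrable (μ := volume)) g p hp
  have h2 : (fun ξ => P K c ξ * 𝓕 (g : E d → ℂ) ξ) = fun ξ => (∫ q : E d, Complex.exp
      (((-(2 * Real.pi * ⟪((2 : ℝ) ^ c)⁻¹ • q, ξ⟫) : ℝ) : ℂ) * Complex.I) * K q) *
      𝓕 (g : E d → ℂ) ξ := by
    funext ξ
    congr 1
    unfold P
    rw [Real.fourier_eq']
    refine integral_congr_ae (Filter.Eventually.of_forall fun q => ?_)
    simp only [smul_eq_mul]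
    congr 3
    rw [inner_smul_left, inner_smul_right]
    simp
  rw [h2]
  refine h1.trans ?_
  gcongr
  calc (∫⁻ q, ‖K q‖ₑ) ^ p = ENNReal.ofReal (((∫⁻ q, ‖K q‖ₑ) ^ p).toReal) :=
        (ENNReal.ofReal_toReal (ENNReal.rpow_lt_top_of_nonneg (by linarith) hfin.ne).ne).symm
    _ ≤ _ := ENNReal.ofReal_le_ofReal (by linarith)

/-- the partition -/
noncomputable def ph (K : 𝓢(E d, ℂ)) : ℕ → E d → ℂ
  | 0 => P K 0
  | k + 1 => fun ξ => P K (k + 1) ξ - P K k ξ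

lemma ph_sum (K : 𝓢(E d, ℂ)) (N : ℕ) (ξ : E d) :
    ∑ c ∈ Finset.range (N + 1), ph K c ξ = P K N ξ := by
  induction N with
  | zero => simp [ph]
  | succ k ih =>
    rw [Finset.sum_range_succ, ih]
    simp [ph]

lemma ph_cont (K : 𝓢(E d, ℂ)) (c : ℕ) : Continuous (ph K c) := by
  match c with
  | 0 => exact P_cont K 0
  | k + 1 => exact (P_cont K (k + 1)).sub (P_cont K k)

lemma ph_bd (K : 𝓢(E d, ℂ)) (c : ℕ) (ξ : E d) : ‖ph K c ξ‖ ≤ 2 * ∫ x, ‖K x‖ := by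
  have h0 : 0 ≤ ∫ x, ‖K x‖ := integral_nonneg fun _ => norm_nonneg _
  match c with
  | 0 => exact (P_bd K 0 ξ).trans (by linarith)
  | k + 1 =>
    refine (norm_sub_le _ _).trans ?_
    linarith [P_bd K (k + 1) ξ, P_bd K k ξ]

lemma ph_zero (K : 𝓢(E d, ℂ)) (h0 : ∀ ξ : E d, (∃ i, 9 / 8 ≤ |ξ i|) → 𝓕 (K : E d → ℂ) ξ = 0)
    (c : ℕ) (ξ : E d) (h : ∃ i, (2 : ℝ) ^ c * (9 / 8) ≤ |ξ i|) : ph K c ξ = 0 := by
  match c with
  | 0 => exact P_zero K h0 0 ξ h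
  | k + 1 =>
    show P K (k + 1) ξ - P K k ξ = 0
    rw [P_zero K h0 (k + 1) ξ h, P_zero K h0 k ξ, sub_zero]
    obtain ⟨i, hi⟩ := h
    refine ⟨i, ?_⟩
    rw [pow_succ] at hi
    have : (0 : ℝ) < 2 ^ k := by positivity
    nlinarith

lemma ph_cut (K : 𝓢(E d, ℂ)) (h1 : ∀ ξ : E d, (∀ i, |ξ i| ≤ 3 / 4) → 𝓕 (K : E d → ℂ) ξ = 1)
    (h0 : ∀ ξ : E d, (∃ i, 9 / 8 ≤ |ξ i|) → 𝓕 (K : E d → ℂ) ξ = 0) (χ : ℕ → E d → ℂ)
    (χ1 : ∀ (k : ℕ) (ξ : E d), (∃ i, (2 : ℝ) ^ k * (3 / 4) ≤ |ξ i|) →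
      (∀ i, |ξ i| ≤ (2 : ℝ) ^ k * (9 / 4)) → χ k ξ = 1) (c : ℕ) (ξ : E d) :
    ph K c ξ * cut χ c ξ = ph K c ξ := by
  match c with
  | 0 => simp [cut]
  | k + 1 =>
    by_cases ha : ∀ i, |ξ i| ≤ (2 : ℝ) ^ k * (3 / 4)
    · have hb : ∀ i, |ξ i| ≤ (2 : ℝ) ^ (k + 1) * (3 / 4) := fun i => by
        have := ha i
        rw [pow_succ]
        have h2 : (0 : ℝ) < 2 ^ k := by positivity
        nlinarith
      have : ph K (k + 1) ξ = 0 := by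
        show P K (k + 1) ξ - P K k ξ = 0
        rw [P_one K h1 _ _ ha, P_one K h1 _ _ hb, sub_self]
      rw [this, zero_mul]
    · by_cases hb : ∃ i, (2 : ℝ) ^ (k + 1) * (9 / 8) ≤ |ξ i|
      · rw [ph_zero K h0 (k + 1) ξ hb, zero_mul]
      · push Not at ha hb
        have : cut χ (k + 1) ξ = 1 := by
          obtain ⟨i, hi⟩ := ha
          refine χ1 k ξ ⟨i, hi.le⟩ fun i => ?_
          have := hb i
          rw [pow_succ] at this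
          linarith
        rw [this, mul_one]

lemma ph_tg (K : 𝓢(E d, ℂ)) (c : ℕ) : (ph K c).HasTemperateGrowth := by
  match c with
  | 0 => exact P_tg K 0
  | k + 1 => exact (P_tg K (k + 1)).sub (P_tg K k)

lemma inv_sub {F G : E d → ℂ} (hF : Integrable F) (hG : Integrable G) (x : E d) :
    inv (fun ξ => F ξ - G ξ) x = inv F x - inv G x := by
  have hi : ∀ F : E d → ℂ, Integrable F → Integrable fun ξ : E d =>
      Complex.exp (((2 * Real.pi * ⟪x, ξ⟫ : ℝ) : ℂ) * Complex.I) * F ξ := by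
    intro F h
    refine h.norm.mono' ?_ ?_
    · refine AEStronglyMeasurable.mul ?_ h.1
      refine Continuous.aestronglyMeasurable ?_
      fun_prop
    · refine Filter.Eventually.of_forall fun ξ => ?_
      rw [norm_mul, Complex.norm_exp_ofReal_mul_I, one_mul]
  unfold inv
  rw [← integral_sub (hi F hF) (hi G hG)]
  refine integral_congr_ae (Filter.Eventually.of_forall fun ξ => ?_)
  simp only
  ring

lemma P_int (K : 𝓢(E d, ℂ)) (c : ℕ) (g : 𝓢(E d, ℂ)) :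
    Integrable fun ξ => P K c ξ * 𝓕 (g : E d → ℂ) ξ :=
  (four_int g).bdd_mul (P_cont K c).aestronglyMeasurable (Filter.Eventually.of_forall (P_bd K c))

lemma ph_mul (hM : S_MUL) (K : 𝓢(E d, ℂ)) (p : ℝ) (hp : 1 ≤ p) : ∃ B : ℝ, 0 < B ∧
    ∀ (c : ℕ) (g : 𝓢(E d, ℂ)), ∫⁻ x : E d, ‖inv (fun ξ => ph K c ξ * 𝓕 (g : E d → ℂ) ξ) x‖ₑ ^ p ≤
      ENNReal.ofReal B * ∫⁻ x : E d, ‖g x‖ₑ ^ p := by
  obtain ⟨B, hB, h⟩ := P_mul hM K p hp
  have hp0 : 0 < p := by linarith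
  have h2p : (1 : ℝ) ≤ 2 ^ (p - 1) := Real.one_le_rpow (by norm_num) (by linarith)
  refine ⟨2 ^ (p - 1) * (2 * B), by positivity, fun c g => ?_⟩
  match c with
  | 0 =>
    refine (h 0 g).trans ?_
    gcongr
    nlinarith
  | k + 1 =>
    have e : ∀ x, inv (fun ξ => ph K (k + 1) ξ * 𝓕 (g : E d → ℂ) ξ) x =
        inv (fun ξ => P K (k + 1) ξ * 𝓕 (g : E d → ℂ) ξ) x -
          inv (fun ξ => P K k ξ * 𝓕 (g : E d → ℂ) ξ) x := by
      intro x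
      rw [← inv_sub (P_int K _ g) (P_int K _ g)]
      congr 1
      funext ξ
      simp only [ph]
      ring
    simp only [e]
    have hm1 : Measurable fun x => ‖inv (fun ξ => P K (k + 1) ξ * 𝓕 (g : E d → ℂ) ξ) x‖ₑ ^ p :=
      ((inv_cont _ (P_int K _ g)).measurable.enorm).pow_const p
    calc ∫⁻ x : E d, ‖inv (fun ξ => P K (k + 1) ξ * 𝓕 (g : E d → ℂ) ξ) x -
          inv (fun ξ => P K k ξ * 𝓕 (g : E d → ℂ) ξ) x‖ₑ ^ p
        ≤ ∫⁻ x : E d, ENNReal.ofReal (2 ^ (p - 1)) *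
          (‖inv (fun ξ => P K (k + 1) ξ * 𝓕 (g : E d → ℂ) ξ) x‖ₑ ^ p +
            ‖inv (fun ξ => P K k ξ * 𝓕 (g : E d → ℂ) ξ) x‖ₑ ^ p) := by
          refine lintegral_mono fun x => ?_
          have h3 : ‖inv (fun ξ => P K (k + 1) ξ * 𝓕 (g : E d → ℂ) ξ) x -
            inv (fun ξ => P K k ξ * 𝓕 (g : E d → ℂ) ξ) x‖ₑ ≤
            ‖inv (fun ξ => P K (k + 1) ξ * 𝓕 (g : E d → ℂ) ξ) x‖ₑ +
            ‖inv (fun ξ => P K k ξ * 𝓕 (g : E d → ℂ) ξ) x‖ₑ := enorm_sub_le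
          refine (ENNReal.rpow_le_rpow h3 hp0.le).trans ?_
          refine (ENNReal.rpow_add_le_mul_rpow_add_rpow _ _ hp).trans (le_of_eq ?_)
          rw [← ENNReal.ofReal_rpow_of_pos (by norm_num), ENNReal.ofReal_ofNat]
      _ = ENNReal.ofReal (2 ^ (p - 1)) *
          ((∫⁻ x : E d, ‖inv (fun ξ => P K (k + 1) ξ * 𝓕 (g : E d → ℂ) ξ) x‖ₑ ^ p) +
            ∫⁻ x : E d, ‖inv (fun ξ => P K k ξ * 𝓕 (g : E d → ℂ) ξ) x‖ₑ ^ p) := by
          rw [lintegral_const_mul' _ _ ENNReal.ofReal_ne_top, lintegral_add_left hm1]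
      _ ≤ ENNReal.ofReal (2 ^ (p - 1)) * (ENNReal.ofReal B * (∫⁻ x : E d, ‖g x‖ₑ ^ p) +
            ENNReal.ofReal B * ∫⁻ x : E d, ‖g x‖ₑ ^ p) := by
          gcongr
          · exact h _ g
          · exact h _ g
      _ = ENNReal.ofReal (2 ^ (p - 1) * (2 * B)) * ∫⁻ x : E d, ‖g x‖ₑ ^ p := by
          rw [ENNReal.ofReal_mul (by positivity), ENNReal.ofReal_mul (by norm_num),
            ENNReal.ofReal_ofNat]
          ring

end Pool.Agent.K9h96.LS.FIN
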