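import Pool.Agent.K9h96.LS.PW
import Pool.Agent.K9h96.LS.FIN3
set_option autoImplicit false

/-! # LS, Bessel potentials of any order on the shells, and the solution in a shell -/

open MeasureTheory Set
open scoped ENNReal FourierTransform RealInnerProductSpace SchwartzMap

namespace Pool.Agent.K9h96.LS.FIN

open Pool.Agent.N303.LS

/-- Bessel potentials of any order on dyadic shells: powers -/
lemma lpk_pow {d : ℕ} (χ : ℕ → E d → ℂ) (χtg : ∀ k, (χ k).HasTemperateGrowth) (σ p C : ℝ)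
    (hC : 0 < C)
    (h : ∀ (k : ℕ) (g h : 𝓢(E d, ℂ)),
      (∀ ξ, 𝓕 (h : E d → ℂ) ξ = χ k ξ * (bes (-σ) ξ * 𝓕 (g : E d → ℂ) ξ)) →
      ∫⁻ x : E d, ‖h x‖ₑ ^ p ≤ ENNReal.ofReal (C * ((2 : ℝ) ^ (-σ * p)) ^ k) *
        ∫⁻ x : E d, ‖g x‖ₑ ^ p) (K : ℕ) (k : ℕ) (g : 𝓢(E d, ℂ)) :
    ∃ h : 𝓢(E d, ℂ), (∀ ξ, 𝓕 (h : E d → ℂ) ξ =
      χ k ξ ^ K * (bes (-(K * σ)) ξ * 𝓕 (g : E d → ℂ) ξ)) ∧
      ∫⁻ x : E d, ‖h x‖ₑ ^ p ≤ ENNReal.ofReal (C ^ K * ((2 : ℝ) ^ (-(K * σ) * p)) ^ k) *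
        ∫⁻ x : E d, ‖g x‖ₑ ^ p := by
  induction K with
  | zero =>
    refine ⟨g, fun ξ => ?_, ?_⟩
    · simp [bes_zero]
    · simp
  | succ K ih =>
    obtain ⟨h1, e1, b1⟩ := ih
    obtain ⟨h2, e2, -⟩ := mult (fun ξ => χ k ξ * bes (-σ) ξ) ((χtg k).mul (bes_tg _)) h1
    refine ⟨h2, fun ξ => ?_, ?_⟩
    · rw [e2, e1]
      have e3 : bes (-(((K + 1 : ℕ) : ℝ) * σ)) ξ = bes (-σ) ξ * bes (-(K * σ)) ξ := by
        rw [bes_mul]
        congr 1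
        push_cast
        ring
      rw [e3]
      ring
    · refine (h k h1 h2 fun ξ => by rw [e2]; ring).trans ?_
      refine (mul_le_mul_right b1 _).trans (le_of_eq ?_)
      rw [← mul_assoc, ← ENNReal.ofReal_mul (by positivity)]
      congr 2
      have e4 : (2 : ℝ) ^ (-(((K + 1 : ℕ) : ℝ) * σ) * p) =
          (2 : ℝ) ^ (-σ * p) * (2 : ℝ) ^ (-(K * σ) * p) := by
        rw [← Real.rpow_add (by norm_num)]
        congr 1
        push_cast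
        ring
      rw [e4, mul_pow]
      ring

/-- Bessel potentials of any order on dyadic shells -/
lemma lpk_all (hLPK : S_LPK) (d : ℕ) : ∃ χ : ℕ → E d → ℂ,
    (∀ (k : ℕ) (ξ : E d), (∃ i, (2 : ℝ) ^ k * (3 / 4) ≤ |ξ i|) →
      (∀ i, |ξ i| ≤ (2 : ℝ) ^ k * (9 / 4)) → χ k ξ = 1) ∧
    ∀ s p : ℝ, 0 < s → 1 ≤ p → ∃ (C : ℝ) (K : ℕ), 0 < C ∧ ∀ (k : ℕ) (g : 𝓢(E d, ℂ)),
      ∃ h : 𝓢(E d, ℂ),
      (∀ ξ, 𝓕 (h : E d → ℂ) ξ = χ k ξ ^ K * (bes (-s) ξ * 𝓕 (g : E d → ℂ) ξ)) ∧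
      ∫⁻ x : E d, ‖h x‖ₑ ^ p ≤ ENNReal.ofReal (C * ((2 : ℝ) ^ (-s * p)) ^ k) *
        ∫⁻ x : E d, ‖g x‖ₑ ^ p := by
  obtain ⟨χ, χtg, χ1, hχ⟩ := hLPK d
  refine ⟨χ, χ1, fun s p hs hp => ?_⟩
  obtain ⟨K, hK⟩ := exists_nat_gt s
  have hK0 : (0 : ℝ) < K := hs.trans hK
  obtain ⟨C, hC, h⟩ := hχ (s / K) p (by positivity) (by rw [div_lt_iff₀ hK0]; linarith) hp
  refine ⟨C ^ K, K, by positivity, fun k g => ?_⟩
  have h1 := lpk_pow χ χtg (s / K) p C hC h K k g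
  have e1 : (K : ℝ) * (s / K) = s := by field_simp
  rw [e1] at h1
  exact h1

/-- the solution with the data cut off to a shell -/
lemma shellQ {m : ℕ} (p : ℝ) (hPW : PWat m p) (hp : 2 ≤ p)
    (K : 𝓢(E m, ℂ)) : ∃ (C : ℝ) (A : ℕ), 0 < C ∧
    ∀ (n : ℕ) (f₀ f₁ g₀ : 𝓢(E (m + 1), ℂ)) (g : Fin (m + 1) → 𝓢(E (m + 1), ℂ)),
    (∀ k (ζ : E (m + 1)), (2 : ℝ) ^ n < |ls ζ| → 𝓕 (gen f₀ g₀ g k : E (m + 1) → ℂ) ζ = 0) →
    (∀ ξ, 𝓕 (f₁ : E (m + 1) → ℂ) ξ = 𝓕 (g₀ : E (m + 1) → ℂ) ξ +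
      ∑ j, ((2 * Real.pi * ξ j : ℝ) : ℂ) * Complex.I * 𝓕 (g j : E (m + 1) → ℂ) ξ) →
    ∀ (S : Finset (Fin m → ℤ)) (a : (Fin m → ℤ) → ℂ) (Λ : ℝ), 0 ≤ Λ → Lam p Λ S a →
      ∫⁻ t in Icc (0 : ℝ) 2, ∫⁻ x : E (m + 1),
        ‖wave (fun ζ => psia K S a (hd ζ) * 𝓕 (f₀ : E (m + 1) → ℂ) ζ)
        (fun ζ => psia K S a (hd ζ) * 𝓕 (f₁ : E (m + 1) → ℂ) ζ) t x‖ₑ ^ p ≤
      ENNReal.ofReal (kk p C A n * Λ ^ p) *
        ∑ k, ∫⁻ x : E (m + 1), ‖gen f₀ g₀ g k x‖ₑ ^ p := by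
  obtain ⟨C, A, hC, h⟩ := hPW K
  have hp0 : 0 < p := by linarith
  refine ⟨C * ((m : ℝ) + 3) ^ (p - 1), A, by positivity, ?_⟩
  intro n f₀ f₁ g₀ g hz hf S a Λ hΛ hL
  have hΨc : Continuous fun ζ : E (m + 1) => psia K S a (hd ζ) := by
    refine (psia_cont K S a).comp ?_
    unfold hd
    fun_prop
  obtain ⟨b, hb⟩ : ∃ b : ℝ, ∀ ξ : E m, ‖psia K S a ξ‖ ≤ b := by
    refine ⟨∑ n ∈ S, ‖a n‖ * ∫ x, ‖K x‖, fun ξ => ?_⟩
    unfold psia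
    refine (norm_sum_le _ _).trans (Finset.sum_le_sum fun n _ => ?_)
    rw [norm_mul]
    exact mul_le_mul_of_nonneg_left
      (VectorFourier.norm_fourierIntegral_le_integral_norm _ _ _ _ _) (norm_nonneg _)
  have hi : ∀ t : ℝ, 0 ≤ t → t ≤ 2 → ∀ k, Integrable fun ζ : E (m + 1) => psia K S a (hd ζ) *
      (sym k t ζ * 𝓕 (gen f₀ g₀ g k : E (m + 1) → ℂ) ζ) := fun t h0 h2 k =>
    (sym_int k t h0 h2 (gen f₀ g₀ g k)).bdd_mul hΨc.aestronglyMeasurable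
      (Filter.Eventually.of_forall fun ζ => hb (hd ζ))
  set Q : Fin (m + 1) ⊕ Bool → ℝ → E (m + 1) → ℂ := fun k t x =>
    inv (fun ζ => psia K S a (hd ζ) * (sym k t ζ * 𝓕 (gen f₀ g₀ g k : E (m + 1) → ℂ) ζ)) x with hQ
  have hcard : (Finset.univ : Finset (Fin (m + 1) ⊕ Bool)).card = m + 3 := by simp
  have hstep : ∀ t ∈ Icc (0 : ℝ) 2, ∫⁻ x : E (m + 1),
        ‖wave (fun ζ => psia K S a (hd ζ) * 𝓕 (f₀ : E (m + 1) → ℂ) ζ)
        (fun ζ => psia K S a (hd ζ) * 𝓕 (f₁ : E (m + 1) → ℂ) ζ) t x‖ₑ ^ p ≤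
      ENNReal.ofReal (((m : ℝ) + 3) ^ (p - 1)) * ∑ k, ∫⁻ x : E (m + 1), ‖Q k t x‖ₑ ^ p := by
    intro t ht
    have hw := wave_eqh (fun ζ => psia K S a (hd ζ)) f₀ f₁ g₀ g t (hi t ht.1 ht.2) hf
    simp only [hw]
    have hms : ∀ k, Measurable fun x => ‖Q k t x‖ₑ ^ p :=
      fun k => ((inv_cont _ (hi t ht.1 ht.2 k)).measurable.enorm).pow_const p
    rw [← lintegral_finsetSum _ fun k _ => hms k, ← lintegral_const_mul' _ _ ENNReal.ofReal_ne_top]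
    refine lintegral_mono fun x => ?_
    have h3 := pow_sum p (by linarith) (Finset.univ : Finset (Fin (m + 1) ⊕ Bool))
      (fun k => Q k t x)
    rw [hcard] at h3
    push_cast at h3
    exact h3
  have hQm : ∀ k, Measurable fun q : ℝ × E (m + 1) => Q k q.1 q.2 := by
    intro k
    have hc : Measurable (fun q : (ℝ × E (m + 1)) × E (m + 1) =>
        Complex.exp (((2 * Real.pi * ⟪q.1.2, q.2⟫ : ℝ) : ℂ) * Complex.I) *
          (psia K S a (hd q.2) * (sym k q.1.1 q.2 * 𝓕 (gen f₀ g₀ g k : E (m + 1) → ℂ) q.2))) := by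
      refine Measurable.mul ?_ (Measurable.mul (hΨc.measurable.comp measurable_snd)
        (Measurable.mul ?_ ?_))
      · fun_prop
      · have hsn : Measurable fun q : (ℝ × E (m + 1)) × E (m + 1) => sn q.1.1 q.2 := by
          unfold sn
          refine Complex.measurable_ofReal.comp ?_
          fun_prop
        match k with
        | Sum.inl j =>
          show Measurable fun q : (ℝ × E (m + 1)) × E (m + 1) =>
            ((2 * Real.pi * q.2 j : ℝ) : ℂ) * Complex.I * sn q.1.1 q.2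
          refine Measurable.mul ?_ hsn
          fun_prop
        | Sum.inr true =>
          show Measurable fun q : (ℝ × E (m + 1)) × E (m + 1) => cs q.1.1 q.2
          unfold cs
          fun_prop
        | Sum.inr false => exact hsn
      · have h5 : Continuous (𝓕 (gen f₀ g₀ g k : E (m + 1) → ℂ)) := by
          have h := (𝓕 (gen f₀ g₀ g k) : 𝓢(E (m + 1), ℂ)).continuous
          rwa [SchwartzMap.fourier_coe] at h
        exact h5.measurable.comp measurable_snd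
    exact (StronglyMeasurable.integral_prod_right (ν := (volume : Measure (E (m + 1))))
      (f := fun (q : ℝ × E (m + 1)) (ζ : E (m + 1)) =>
        Complex.exp (((2 * Real.pi * ⟪q.2, ζ⟫ : ℝ) : ℂ) * Complex.I) *
          (psia K S a (hd ζ) * (sym k q.1 ζ * 𝓕 (gen f₀ g₀ g k : E (m + 1) → ℂ) ζ)))
      hc.stronglyMeasurable).measurable
  have hms2 : ∀ k, Measurable fun t => ∫⁻ x : E (m + 1), ‖Q k t x‖ₑ ^ p := fun k =>
    (((hQm k).enorm).pow_const p).lintegral_prod_right'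
  calc _ ≤ ∫⁻ t in Icc (0 : ℝ) 2, ENNReal.ofReal (((m : ℝ) + 3) ^ (p - 1)) *
        ∑ k, ∫⁻ x : E (m + 1), ‖Q k t x‖ₑ ^ p := setLIntegral_mono' measurableSet_Icc hstep
    _ = ENNReal.ofReal (((m : ℝ) + 3) ^ (p - 1)) *
        ∑ k, ∫⁻ t in Icc (0 : ℝ) 2, ∫⁻ x : E (m + 1), ‖Q k t x‖ₑ ^ p := by
        rw [lintegral_const_mul' _ _ ENNReal.ofReal_ne_top,
          lintegral_finsetSum _ fun k _ => hms2 k]
    _ ≤ ENNReal.ofReal (((m : ℝ) + 3) ^ (p - 1)) *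
        ∑ k, ENNReal.ofReal (kk p C A n * Λ ^ p) *
          ∫⁻ x : E (m + 1), ‖gen f₀ g₀ g k x‖ₑ ^ p := by
        gcongr with k _
        exact h n (gen f₀ g₀ g k) (hz k) S a Λ hΛ hL k
    _ = _ := by
        rw [← Finset.mul_sum, ← mul_assoc, ← ENNReal.ofReal_mul (by positivity), kk_mul, mul_assoc]

end Pool.Agent.K9h96.LS.FIN
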