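import Pool.Agent.K9h96.LS.PART
import Pool.Agent.K9h96.LS.FINQ
set_option autoImplicit false

/-! # LS, the final inequality for general spectra -/

open MeasureTheory Set
open scoped ENNReal FourierTransform RealInnerProductSpace SchwartzMap

namespace Pool.Agent.K9h96.LS.FIN

open Pool.Agent.N303.LS

/-- the final inequality -/
theorem finG (hLPK : S_LPK) (hBP : S_BP) (hMUL : S_MUL) (m : ℕ)
    (p θ s : ℝ) (hPW : PWat m p) (hp : 2 ≤ p) (hθ : 0 ≤ θ) (hs : θ + lo p / p < s) :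
    ∃ C : ℝ, 0 < C ∧ ∀ (Γ : Set (E m)) (A : ℝ), 0 ≤ A →
    (∀ R : ℕ, 1 ≤ R → LamSet p (A * (R : ℝ) ^ θ) {n | n ∈ near Γ ∧ ∀ i, |n i| < R}) →
    ∀ (u₀ u₁ : 𝓢(E (m + 1), ℂ)), SpecG Γ u₀ → SpecG Γ u₁ →
      ∫⁻ t in Icc (0 : ℝ) 2, ∫⁻ x : E (m + 1),
        ‖wave (𝓕 (u₀ : E (m + 1) → ℂ)) (𝓕 (u₁ : E (m + 1) → ℂ)) t x‖ₑ ^ p ≤
        ENNReal.ofReal (C * A ^ p) *
          ((∫⁻ x : E (m + 1), ‖inv (fun ξ => bes s ξ * 𝓕 (u₀ : E (m + 1) → ℂ) ξ) x‖ₑ ^ p) +
            ∫⁻ x : E (m + 1),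
              ‖inv (fun ξ => bes (s - 1) ξ * 𝓕 (u₁ : E (m + 1) → ℂ) ξ) x‖ₑ ^ p) := by
  obtain ⟨K, kT⟩ := part m
  obtain ⟨L, l1, l0⟩ := bumpO (m + 1)
  obtain ⟨C4, A4, hC4, h4⟩ := shellQ p hPW hp K
  obtain ⟨χ, χ1, hχ⟩ := lpk_all hLPK (m + 1)
  have hp0 : 0 < p := by linarith
  have hβ : 0 ≤ lo p / p := div_nonneg (lo_nonneg p) hp0.le
  set β : ℝ := lo p / p with hβd
  have hβp : β * p = lo p := by rw [hβd]; field_simp
  set s' : ℝ := (θ + β + s) / 2 with hs'
  have a1 : θ + β < s' := by rw [hs']; linarith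
  have a2 : s' < s := by rw [hs']; linarith
  have a4 : 0 < s' := by linarith
  obtain ⟨C5, K5, hC5, h5⟩ := hχ s' p a4 (by linarith)
  obtain ⟨B0, hB0, b0⟩ := (hBP (m + 1) (s - s') p (by linarith)).1 (by linarith)
  obtain ⟨B1, hB1, b1⟩ := (hBP (m + 1) (1 + (s - s')) p (by linarith)).1 (by linarith)
  choose B2 hB2 b2 using (hBP (m + 1) (1 + (s - s')) p (by linarith)).2 (by linarith)
  obtain ⟨B3, hB3, b3⟩ := (hBP (m + 1) s' p (by linarith)).1 a4
  obtain ⟨B5, hB5, b5⟩ := ph_mul hMUL L p (by linarith)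
  set D : ℝ := B0 + B1 + ∑ j, B2 j with hD
  have hsum : 0 ≤ ∑ j, B2 j := Finset.sum_nonneg fun j _ => (hB2 j).le
  have hDpos : 0 < D := by positivity
  set r : ℝ := (2 : ℝ) ^ (-s' * p) with hr
  have hr0 : 0 < r := by positivity
  set C7 : ℝ := B5 * (B3 + C5 * r⁻¹) with hC7
  have hC70 : 0 < C7 := by positivity
  set q : ℝ := (2 : ℝ) ^ ((θ + β - s') / 2) with hq
  have hq0 : 0 < q := by positivity
  have hq1 : q < 1 := Real.rpow_lt_one_of_one_lt_of_neg (by norm_num) (by linarith)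
  have hqp0 : 0 < q ^ p := by positivity
  have hqp1 : q ^ p < 1 := Real.rpow_lt_one hq0.le hq1 hp0
  obtain ⟨M, hM, hMc⟩ := poly A4 (q ^ p) hqp0 hqp1
  set G0 : ℝ := C4 * ((m : ℝ) + 3) * C7 * D * ((2 : ℝ) ^ lo p * (2 : ℝ) ^ (2 * θ * p)) * M with hG0
  have hG00 : 0 < G0 := by positivity
  have h1q : 0 < 1 - q := by linarith
  refine ⟨G0 / (1 - q) ^ p, by positivity, ?_⟩
  intro Γ A hA hS u₀ u₁ s0 s1
  obtain ⟨F₀, F₁, hh, hF0x, hF1x, hh0, hh1, hhj, e0, e1⟩ := data s s' u₀ u₁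
  set X := ∫⁻ x : E (m + 1), ‖F₀ x‖ₑ ^ p with hX
  set Z := ∫⁻ x : E (m + 1), ‖F₁ x‖ₑ ^ p with hZ
  -- the norms of the generators
  have hhb : ∀ k, ∫⁻ x : E (m + 1), ‖hh k x‖ₑ ^ p ≤ ENNReal.ofReal D * (X + Z) := by
    intro k
    have hB2le : ∀ j, B2 j ≤ ∑ j, B2 j := fun j =>
      Finset.single_le_sum (f := B2) (fun i _ => (hB2 i).le) (Finset.mem_univ j)
    match k with
    | Sum.inr true =>
      simp only [hh0]
      refine (b0 F₀).trans ?_
      gcongr
      · rw [hD]; linarith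
      · exact le_self_add
    | Sum.inr false =>
      simp only [hh1]
      refine (b1 F₁).trans ?_
      gcongr
      · rw [hD]; linarith
      · exact le_add_self
    | Sum.inl j =>
      simp only [hhj]
      refine (b2 j (-F₁)).trans ?_
      have e : ∫⁻ x : E (m + 1), ‖(-F₁ : 𝓢(E (m + 1), ℂ)) x‖ₑ ^ p = Z := by
        rw [hZ]
        refine lintegral_congr fun x => ?_
        rw [neg_apply, enorm_neg]
      rw [e]
      gcongr
      · rw [hD]; linarith [hB2le j]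
      · exact le_add_self
  -- the localised generators
  have hpg : ∀ c : ℕ, ∃ pg : Fin (m + 1) ⊕ Bool → 𝓢(E (m + 1), ℂ),
      (∀ k ξ, 𝓕 (pg k : E (m + 1) → ℂ) ξ =
        ph L c ξ * (bes (-s') ξ * 𝓕 (hh k : E (m + 1) → ℂ) ξ)) ∧
      ∀ k, ∫⁻ x : E (m + 1), ‖pg k x‖ₑ ^ p ≤ ENNReal.ofReal (C7 * r ^ c) *
        ∫⁻ x : E (m + 1), ‖hh k x‖ₑ ^ p := by
    intro c
    match c with
    | 0 =>
      choose pg p1 p2 using fun k => mult (bes (-s')) (bes_tg _) (hh k)
      choose pf f1 f2 using fun k => mult (ph L 0) (ph_tg L 0) (pg k)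
      refine ⟨pf, fun k ξ => ?_, fun k => ?_⟩
      · rw [f1, p1]
      · simp only [f2]
        refine (b5 0 (pg k)).trans ?_
        have hb3 := b3 (hh k)
        simp only [← p2] at hb3
        refine (mul_le_mul_right hb3 _).trans ?_
        rw [← mul_assoc, ← ENNReal.ofReal_mul hB5.le]
        refine mul_le_mul_left (ENNReal.ofReal_le_ofReal ?_) _
        rw [pow_zero, mul_one, hC7]
        have : 0 ≤ C5 * r⁻¹ := by positivity
        gcongr
        linarith
    | k' + 1 =>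
      choose pg p1 p2 using fun k => h5 k' (hh k)
      choose pf f1 f2 using fun k => mult (ph L (k' + 1)) (ph_tg L (k' + 1)) (pg k)
      refine ⟨pf, fun k ξ => ?_, fun k => ?_⟩
      · rw [f1, p1]
        have hc := ph_cut L l1 l0 χ χ1 (k' + 1) ξ
        simp only [cut] at hc
        have hcK : ∀ K : ℕ, ph L (k' + 1) ξ * χ k' ξ ^ K = ph L (k' + 1) ξ := by
          intro K
          induction K with
          | zero => simp
          | succ K ih => rw [pow_succ, ← mul_assoc, ih, hc]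
        rw [← mul_assoc, hcK]
      · simp only [f2]
        refine (b5 (k' + 1) (pg k)).trans ?_
        refine (mul_le_mul_right (p2 k) _).trans ?_
        rw [← mul_assoc, ← ENNReal.ofReal_mul hB5.le]
        refine mul_le_mul_left (ENNReal.ofReal_le_ofReal ?_) _
        rw [hC7, pow_succ]
        have e : B5 * (B3 + C5 * r⁻¹) * (r ^ k' * r) =
            B5 * (B3 * (r ^ k' * r)) + B5 * (C5 * r ^ k') := by
          field_simp
        rw [e]
        have : 0 ≤ B5 * (B3 * (r ^ k' * r)) := by positivity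
        linarith
  choose pg pg1 pg2 using hpg
  -- the shells
  set w : ℕ → ℝ × E (m + 1) → ℂ := fun c z => wave
    (fun ξ => ph L c ξ * 𝓕 (u₀ : E (m + 1) → ℂ) ξ)
    (fun ξ => ph L c ξ * 𝓕 (u₁ : E (m + 1) → ℂ) ξ) z.1 z.2 with hw
  have hFc : ∀ f : 𝓢(E (m + 1), ℂ), Measurable (𝓕 (f : E (m + 1) → ℂ)) := fun f => by
    have h := (𝓕 f : 𝓢(E (m + 1), ℂ)).continuous
    rw [SchwartzMap.fourier_coe] at h
    exact h.measurable
  have hwm : ∀ c, Measurable (w c) := fun c =>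
    wave_meas _ _ ((ph_cont L c).measurable.mul (hFc u₀)) ((ph_cont L c).measurable.mul (hFc u₁))
  obtain ⟨μ, hμ⟩ : ∃ μ : Measure (ℝ × E (m + 1)),
      μ = (volume.restrict (Icc (0 : ℝ) 2)).prod volume := ⟨_, rfl⟩
  have hprod : ∀ f : ℝ × E (m + 1) → ℝ≥0∞, Measurable f →
      ∫⁻ z, f z ∂μ = ∫⁻ t in Icc (0 : ℝ) 2, ∫⁻ x : E (m + 1), f (t, x) := by
    intro f hf
    rw [hμ, lintegral_prod _ hf.aemeasurable]
  have hwb : ∀ c, ∫⁻ z, ‖w c z‖ₑ ^ p ∂μ ≤
      ENNReal.ofReal ((G0 ^ (1 / p) * A) ^ p * (q ^ p) ^ c) * (X + Z) := by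
    intro c
    rw [hprod _ (((hwm c).enorm).pow_const p)]
    set f₁ : 𝓢(E (m + 1), ℂ) := pg c (Sum.inr false) + ∑ j, LineDeriv.lineDerivOp
      (EuclideanSpace.single j (1 : ℝ)) (pg c (Sum.inl j)) with hf₁
    have hsl := sum_line (pg c (Sum.inr false)) (fun j => pg c (Sum.inl j))
    have hLam : Lam p (A * (((2 ^ (c + 2) : ℕ) : ℝ)) ^ θ) (cg (near Γ) c) (fun _ => 1) := by
      intro b
      have h := hS (2 ^ (c + 2)) Nat.one_le_two_pow (cg (near Γ) c) (by
        intro n hn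
        have hn' := (mem_cg (near Γ) c n).1 hn
        refine ⟨hn'.1, fun i => ?_⟩
        have := hn'.2 i
        push_cast
        exact this) b
      simpa only [one_mul] using h
    have hgen : ∀ k, gen (pg c (Sum.inr true)) (pg c (Sum.inr false))
        (fun j => pg c (Sum.inl j)) k = pg c k := by
      intro k
      match k with
      | Sum.inl j => rfl
      | Sum.inr true => rfl
      | Sum.inr false => rfl
    have hb := h4 (c + 1) (pg c (Sum.inr true)) f₁ (pg c (Sum.inr false))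
      (fun j => pg c (Sum.inl j)) (by
        intro k ζ hζ
        rw [hgen, pg1, ph_zero L l0 c ζ, zero_mul]
        refine ⟨Fin.last m, ?_⟩
        have : (2 : ℝ) ^ (c + 1) < |ζ (Fin.last m)| := hζ
        rw [pow_succ] at this
        have h6 : (0 : ℝ) < 2 ^ c := by positivity
        nlinarith) (fourier_gen f₁ (pg c (Sum.inr false)) (fun j => pg c (Sum.inl j)) hsl)
      (cg (near Γ) c) (fun _ => 1) _ (by positivity) hLam
    have ef0 : (fun ζ => psia K (cg (near Γ) c) (fun _ => 1) (hd ζ) *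
        𝓕 (pg c (Sum.inr true) : E (m + 1) → ℂ) ζ) =
        fun ζ => ph L c ζ * 𝓕 (u₀ : E (m + 1) → ℂ) ζ := by
      funext ζ
      rw [pg1, ← e0]
      exact psia_phG K kT L l0 Γ u₀ s0 c ζ
    have ef1 : (fun ζ => psia K (cg (near Γ) c) (fun _ => 1) (hd ζ) * 𝓕 (f₁ : E (m + 1) → ℂ) ζ) =
        fun ζ => ph L c ζ * 𝓕 (u₁ : E (m + 1) → ℂ) ζ := by
      funext ζ
      have e2 : 𝓕 (f₁ : E (m + 1) → ℂ) ζ = ph L c ζ * 𝓕 (u₁ : E (m + 1) → ℂ) ζ := by
        rw [fourier_gen f₁ (pg c (Sum.inr false)) (fun j => pg c (Sum.inl j)) hsl ζ]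
        simp only [pg1]
        rw [e1 ζ, mul_add, Finset.mul_sum]
        congr 1
        refine Finset.sum_congr rfl fun j _ => ?_
        ring
      rw [e2]
      exact psia_phG K kT L l0 Γ u₁ s1 c ζ
    rw [ef0, ef1] at hb
    simp only [hgen] at hb
    refine hb.trans ?_
    have hone : ∀ k, ∫⁻ x : E (m + 1), ‖pg c k x‖ₑ ^ p ≤
        ENNReal.ofReal (C7 * r ^ c * D) * (X + Z) := by
      intro k
      refine (pg2 c k).trans ?_
      calc ENNReal.ofReal (C7 * r ^ c) * ∫⁻ x : E (m + 1), ‖hh k x‖ₑ ^ p ≤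
          ENNReal.ofReal (C7 * r ^ c) * (ENNReal.ofReal D * (X + Z)) := by
            gcongr
            exact hhb k
        _ = _ := by
          rw [← mul_assoc, ← ENNReal.ofReal_mul (by positivity)]
    have hcard : (Finset.univ : Finset (Fin (m + 1) ⊕ Bool)).card = m + 3 := by simp
    have hkk : 0 ≤ kk p C4 A4 (c + 1) := kk_nonneg hC4.le _ _
    calc ENNReal.ofReal (kk p C4 A4 (c + 1) *
          (A * (((2 ^ (c + 2) : ℕ) : ℝ)) ^ θ) ^ p) *
          ∑ k, ∫⁻ x : E (m + 1), ‖pg c k x‖ₑ ^ p ≤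
        ENNReal.ofReal (kk p C4 A4 (c + 1) *
          (A * (((2 ^ (c + 2) : ℕ) : ℝ)) ^ θ) ^ p) *
          ∑ _k : Fin (m + 1) ⊕ Bool, ENNReal.ofReal (C7 * r ^ c * D) * (X + Z) := by
          gcongr
          exact hone _
      _ = ENNReal.ofReal (kk p C4 A4 (c + 1) *
          (A * (((2 ^ (c + 2) : ℕ) : ℝ)) ^ θ) ^ p) *
          (ENNReal.ofReal ((m : ℝ) + 3) * (ENNReal.ofReal (C7 * r ^ c * D) * (X + Z))) := by
          congr 1
          rw [Finset.sum_const, hcard, nsmul_eq_mul,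
            ENNReal.ofReal_add (by positivity) (by norm_num), ENNReal.ofReal_natCast,
            ENNReal.ofReal_ofNat]
          push_cast
          ring
      _ ≤ _ := by
          rw [← mul_assoc, ← mul_assoc, ← ENNReal.ofReal_mul (by positivity),
            ← ENNReal.ofReal_mul (by positivity)]
          refine mul_le_mul_left (ENNReal.ofReal_le_ofReal ?_) _
          have z1 : (A * (((2 ^ (c + 2) : ℕ) : ℝ)) ^ θ) ^ p =
              A ^ p * ((2 : ℝ) ^ (2 * θ * p) * ((2 : ℝ) ^ (θ * p)) ^ c) := by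
            rw [Real.mul_rpow hA (by positivity)]
            congr 1
            push_cast
            rw [← Real.rpow_natCast 2 (c + 2), ← Real.rpow_mul (by positivity),
              ← Real.rpow_mul (by positivity), ← Real.rpow_natCast ((2 : ℝ) ^ (θ * p)) c,
              ← Real.rpow_mul (by positivity), ← Real.rpow_add (by positivity)]
            congr 1
            push_cast
            ring
          have z2 : (G0 ^ (1 / p) * A) ^ p = G0 * A ^ p := by
            rw [Real.mul_rpow (by positivity) hA, ← Real.rpow_mul hG00.le,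
              one_div_mul_cancel hp0.ne', Real.rpow_one]
          have z3 : (q ^ p) ^ c * (q ^ p) ^ c =
              ((2 : ℝ) ^ lo p) ^ c * ((2 : ℝ) ^ (θ * p)) ^ c * r ^ c := by
            rw [← mul_pow, ← mul_pow, ← mul_pow]
            congr 1
            rw [hq, hr, ← hβp, ← Real.rpow_mul (by norm_num), ← Real.rpow_add (by norm_num),
              ← Real.rpow_add (by norm_num), ← Real.rpow_add (by norm_num)]
            congr 1
            ring
          have z4 : (((c + 1 : ℕ) : ℝ) + 1) = (c : ℝ) + 2 := by push_cast; ring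
          unfold kk
          rw [z1, z2, z4, hG0]
          have z5 := hMc c
          calc C4 * ((c : ℝ) + 2) ^ A4 * ((2 : ℝ) ^ lo p) ^ (c + 1) *
                (A ^ p * ((2 : ℝ) ^ (2 * θ * p) * ((2 : ℝ) ^ (θ * p)) ^ c)) *
                ((m : ℝ) + 3) * (C7 * r ^ c * D) =
              (C4 * ((m : ℝ) + 3) * C7 * D * ((2 : ℝ) ^ lo p * (2 : ℝ) ^ (2 * θ * p)) * A ^ p) *
                (((c : ℝ) + 2) ^ A4 *
                  (((2 : ℝ) ^ lo p) ^ c * ((2 : ℝ) ^ (θ * p)) ^ c * r ^ c)) := by ring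
            _ = (C4 * ((m : ℝ) + 3) * C7 * D * ((2 : ℝ) ^ lo p * (2 : ℝ) ^ (2 * θ * p)) * A ^ p) *
                ((((c : ℝ) + 2) ^ A4 * (q ^ p) ^ c) * (q ^ p) ^ c) := by rw [← z3]; ring
            _ ≤ (C4 * ((m : ℝ) + 3) * C7 * D * ((2 : ℝ) ^ lo p * (2 : ℝ) ^ (2 * θ * p)) * A ^ p) *
                (M * (q ^ p) ^ c) := by gcongr
            _ = _ := by ring
  have hN := fun N => geoM μ p (by linarith) w (fun c => (hwm c).aestronglyMeasurable)
    (G0 ^ (1 / p) * A) q (by positivity) hq0.le hq1 (X + Z) hwb N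
  have hmeas : ∀ N, Measurable fun z => ‖∑ c ∈ Finset.range (N + 1), w c z‖ₑ ^ p := by
    intro N
    have hc : Measurable fun z => ∑ c ∈ Finset.range (N + 1), w c z :=
      Finset.measurable_sum _ fun c _ => hwm c
    exact (hc.enorm).pow_const p
  have hpt : ∀ z : ℝ × E (m + 1),
      ‖wave (𝓕 (u₀ : E (m + 1) → ℂ)) (𝓕 (u₁ : E (m + 1) → ℂ)) z.1 z.2‖ₑ ^ p =
      Filter.liminf (fun N => ‖∑ c ∈ Finset.range (N + 1), w c z‖ₑ ^ p) Filter.atTop := by
    intro z
    have h1 := ((continuous_enorm.tendsto _).comp (limW L l1 u₀ u₁ z.1 z.2))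
    have h2 := (ENNReal.continuous_rpow_const (y := p)).tendsto
      (‖wave (𝓕 (u₀ : E (m + 1) → ℂ)) (𝓕 (u₁ : E (m + 1) → ℂ)) z.1 z.2‖ₑ)
    exact ((h2.comp h1).liminf_eq).symm
  have hfm : Measurable fun z : ℝ × E (m + 1) =>
      ‖wave (𝓕 (u₀ : E (m + 1) → ℂ)) (𝓕 (u₁ : E (m + 1) → ℂ)) z.1 z.2‖ₑ ^ p :=
    ((wave_meas _ _ (hFc u₀) (hFc u₁)).enorm).pow_const p
  have hgoal := hprod _ hfm
  simp only at hgoal
  rw [← hgoal, lintegral_congr hpt]
  refine (lintegral_liminf_le hmeas).trans ?_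
  refine (Filter.liminf_le_liminf (Filter.Eventually.of_forall fun N => hN (N + 1))).trans ?_
  rw [Filter.liminf_const]
  simp only [← hF0x, ← hF1x]
  refine le_of_eq ?_
  congr 2
  rw [Real.div_rpow (by positivity) h1q.le, Real.mul_rpow (by positivity) hA,
    ← Real.rpow_mul hG00.le, one_div_mul_cancel hp0.ne', Real.rpow_one]
  ring

end Pool.Agent.K9h96.LS.FIN
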