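import Pool.Agent.K9h96.LS.LOCA
set_option autoImplicit false

/-!
# The estimate in the coordinates `(y, x)` for one datum (helper99)
-/

open MeasureTheory Set
open scoped ENNReal FourierTransform RealInnerProductSpace SchwartzMap

namespace Pool.Agent.K9h96.LS.LOC

open Pool.Agent.TH280.LS (e ft ra Cut norm_e e_add continuous_e measurable_e plancherel)
open Pool.Agent.N303.LS (E inv sym sym_le sym_meas sym_int cs sn)

variable {m : ℕ}

/-! ### the cutoff -/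

noncomputable def chi (n : ℕ) (ξ : ℝ) : ℂ := ((max 0 (min 1 (2 - |ξ| / 2 ^ n)) : ℝ) : ℂ)

lemma chi_cut (n : ℕ) : Cut 1 ((2 : ℝ) ^ n) (chi n) := by
  have hN : (0 : ℝ) < 2 ^ n := by positivity
  refine ⟨fun ξ => ?_, fun ξ ξ' => ?_, fun ξ hξ => ?_⟩
  · unfold chi
    rw [Complex.norm_real, Real.norm_eq_abs, abs_le]
    constructor
    · have := le_max_left (0 : ℝ) (min 1 (2 - |ξ| / 2 ^ n))
      linarith
    · exact max_le zero_le_one (min_le_left _ _)
  · unfold chi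
    rw [← Complex.ofReal_sub, Complex.norm_real, Real.norm_eq_abs]
    refine (abs_max_sub_max_le_max _ _ _ _).trans ?_
    rw [sub_self, abs_zero]
    refine max_le (by positivity) ?_
    refine (abs_min_sub_min_le_max _ _ _ _).trans ?_
    rw [sub_self, abs_zero]
    refine max_le (by positivity) ?_
    have e1 : 2 - |ξ| / 2 ^ n - (2 - |ξ'| / 2 ^ n) = (|ξ'| - |ξ|) / 2 ^ n := by ring
    rw [e1, abs_div, abs_of_pos hN, div_mul_eq_mul_div, one_mul]
    refine div_le_div_of_nonneg_right ?_ hN.le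
    rw [abs_sub_comm ξ ξ']
    exact abs_abs_sub_abs_le_abs_sub _ _
  · unfold chi
    have : 2 - |ξ| / 2 ^ n ≤ 0 := by
      rw [sub_nonpos, le_div_iff₀ hN]
      linarith
    rw [max_eq_left ((min_le_right _ _).trans this)]
    simp

lemma chi_one {n : ℕ} {ξ : ℝ} (h : |ξ| ≤ 2 ^ n) : chi n ξ = 1 := by
  have hN : (0 : ℝ) < 2 ^ n := by positivity
  unfold chi
  have h1 : (1 : ℝ) ≤ 2 - |ξ| / 2 ^ n := by
    have : |ξ| / 2 ^ n ≤ 1 := (div_le_one hN).2 h
    linarith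
  rw [min_eq_left h1, max_eq_right zero_le_one]
  simp

lemma chi_cont (n : ℕ) : Continuous (chi n) := by
  unfold chi
  fun_prop

/-! ### slices -/

lemma g_jn_cont (g : 𝓢(E (m + 1), ℂ)) : Continuous fun q : E m × ℝ => g (jn q.1 q.2) :=
  g.continuous.comp jn_cont

lemma g_y_cont (g : 𝓢(E (m + 1), ℂ)) (x : ℝ) : Continuous fun y : E m => g (jn y x) :=
  (g_jn_cont g).comp (Continuous.prodMk_left x)

lemma g_x_cont (g : 𝓢(E (m + 1), ℂ)) (y : E m) : Continuous fun x : ℝ => g (jn y x) :=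
  (g_jn_cont g).comp (Continuous.prodMk_right y)

/-- slices in `x` with frequency `ξ` outside the spectrum vanish -/
lemma slice_zero {g : 𝓢(E (m + 1), ℂ)} {N : ℝ}
    (hg : ∀ ζ, N < |ls ζ| → 𝓕 (g : E (m + 1) → ℂ) ζ = 0) {ξ : ℝ} (hξ : N < |ξ|) (y : E m) :
    ∫ x : ℝ, e (-(x * ξ)) * g (jn y x) = 0 := by
  obtain ⟨C, hC, hd⟩ := decay g
  set G : E m → ℂ := fun y => ∫ x : ℝ, e (-(x * ξ)) * g (jn y x) with hG
  have hb : ∀ y x, ‖e (-(x * ξ)) * g (jn y x)‖ ≤ C * wA m y * wB x := by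
    intro y x
    rw [norm_e_mul, mul_assoc]
    exact hd y x
  have hc : Continuous G := by
    refine continuous_of_dominated (bound := fun x => C * wB x) ?_ ?_ ?_ ?_
    · intro y
      exact ((continuous_e.comp (by fun_prop)).mul (g_x_cont g y)).aestronglyMeasurable
    · intro y
      refine Filter.Eventually.of_forall fun x => (hb y x).trans ?_
      have := wA_le m y
      have h2 := wB_pos x
      have h3 := wA_pos m y
      nlinarith [mul_nonneg hC h2.le, mul_nonneg (mul_nonneg hC h2.le) (sub_nonneg.2 this)]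
    · exact wB_int.const_mul C
    · refine Filter.Eventually.of_forall fun x => ?_
      exact continuous_const.mul (g_y_cont g x)
  have hGb : ∀ y, ‖G y‖ ≤ (C * ∫ x, wB x) * wA m y := by
    intro y
    refine (norm_integral_le_of_norm_le (wB_int.const_mul (C * wA m y))
      (Filter.Eventually.of_forall fun x => hb y x)).trans (le_of_eq ?_)
    rw [integral_const_mul]
    ring
  have hGi : Integrable G := (of_bound hc.aestronglyMeasurable hGb).1
  have hF : 𝓕 G = 0 := by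
    funext η
    rw [fourier_e]
    have h1 := fourier_jn g.integrable η ξ
    rw [hg _ (by rw [ls_jn]; exact hξ)] at h1
    exact h1.symm
  have h2 := hc.fourierInv_fourier_eq hGi (by rw [hF]; exact integrable_zero _ _ _)
  rw [hF] at h2
  have h3 : G = 0 := by
    rw [← h2]
    funext y
    rw [Real.fourierInv_eq]
    simp
  exact congrFun h3 y

/-- data localised in `y` -/
lemma loc_zero {g h : 𝓢(E (m + 1), ℂ)} {N : ℝ} {ψ : E m → ℂ}
    (hg : ∀ ζ, N < |ls ζ| → 𝓕 (g : E (m + 1) → ℂ) ζ = 0)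
    (hh : ∀ y x, h (jn y x) = ψ y * g (jn y x)) {ξ : ℝ} (hξ : N < |ξ|) (η : E m) :
    𝓕 (h : E (m + 1) → ℂ) (jn η ξ) = 0 := by
  rw [fourier_jn h.integrable]
  rw [integral_eq_zero_of_ae]
  refine Filter.Eventually.of_forall fun y => ?_
  have : ∫ x : ℝ, e (-(x * ξ)) * h (jn y x) = ψ y * ∫ x : ℝ, e (-(x * ξ)) * g (jn y x) := by
    rw [← integral_const_mul]
    refine integral_congr_ae (Filter.Eventually.of_forall fun x => ?_)
    simp only [hh]
    ring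
  simp only [this, slice_zero hg hξ y, mul_zero, Pi.zero_apply]

/-! ### the partial transform -/

lemma H_meas (h : 𝓢(E (m + 1), ℂ)) : Measurable (Function.uncurry (H (m := m) h)) := by
  have h1 : StronglyMeasurable (fun q : (E m × ℝ) × E m =>
      e (-⟪q.2, q.1.1⟫) * h (jn q.2 q.1.2)) := by
    apply Continuous.stronglyMeasurable
    refine (continuous_e.comp (by fun_prop)).mul ?_
    exact (g_jn_cont h).comp (by fun_prop : Continuous fun q : (E m × ℝ) × E m => (q.2, q.1.2))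
  have h2 := h1.integral_prod_right' (ν := (volume : Measure (E m)))
  exact h2.measurable

lemma H_int (h : 𝓢(E (m + 1), ℂ)) (η : E m) : Integrable (H h η) := by
  obtain ⟨C, hC, hd⟩ := decay h
  refine (wB_int.const_mul (C * ∫ y, wA m y)).mono'
    ((H_meas h).comp (measurable_prodMk_left)).aestronglyMeasurable
    (Filter.Eventually.of_forall fun x => ?_)
  show ‖∫ y : E m, e (-⟪y, η⟫) * h (jn y x)‖ ≤ _
  refine (norm_integral_le_of_norm_le ((wA_int m).const_mul (C * wB x))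
    (Filter.Eventually.of_forall fun y => ?_)).trans (le_of_eq ?_)
  · rw [norm_e_mul]
    refine (hd y x).trans (le_of_eq (by ring))
  · rw [integral_const_mul]
    ring

lemma H_planch (h : 𝓢(E (m + 1), ℂ)) (x : ℝ) :
    ∫⁻ η : E m, ‖H h η x‖ₑ ^ 2 = ∫⁻ y : E m, ‖h (jn y x)‖ₑ ^ 2 := by
  obtain ⟨C, hC, hd⟩ := decay h
  have hb := of_bound (m := m) (f := fun y => h (jn y x)) (g_y_cont h x).aestronglyMeasurable
    (K := C * wB x) (fun y => (hd y x).trans (le_of_eq (by ring)))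
  exact planchE (fun y => h (jn y x)) hb.1 hb.2

/-- the evolved datum, transformed in `y` -/
noncomputable def Φ (k : Fin (m + 1) ⊕ Bool) (h : 𝓢(E (m + 1), ℂ)) (t x : ℝ) (η : E m) : ℂ :=
  ∫ ξ : ℝ, e (x * ξ) * (sym k t (jn η ξ) * 𝓕 (h : E (m + 1) → ℂ) (jn η ξ))

lemma ev_planch (k : Fin (m + 1) ⊕ Bool) (h : 𝓢(E (m + 1), ℂ)) {t : ℝ} (ht0 : 0 ≤ t)
    (ht2 : t ≤ 2) (x : ℝ) :
    ∫⁻ y : E m, ‖ev k h t y x‖ₑ ^ 2 = ∫⁻ η : E m, ‖Φ k h t x η‖ₑ ^ 2 := by
  obtain ⟨C, hC, hd⟩ := decay (𝓕 h : 𝓢(E (m + 1), ℂ))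
  have hF : ∀ ζ, (𝓕 h : 𝓢(E (m + 1), ℂ)) ζ = 𝓕 (h : E (m + 1) → ℂ) ζ := by
    intro ζ
    rw [SchwartzMap.fourier_coe]
  have hmeas : StronglyMeasurable (Φ k h t x) := by
    have h1 : Measurable (fun q : E m × ℝ =>
        e (x * q.2) * (sym k t (jn q.1 q.2) * 𝓕 (h : E (m + 1) → ℂ) (jn q.1 q.2))) := by
      refine Measurable.mul (measurable_e.comp (by fun_prop)) (Measurable.mul
        ((sym_meas k t).comp jn_cont.measurable) ?_)
      have := (g_jn_cont (𝓕 h : 𝓢(E (m + 1), ℂ))).measurable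
      simpa only [hF] using this
    exact h1.stronglyMeasurable.integral_prod_right'
  have hb : ∀ η, ‖Φ k h t x η‖ ≤ (2 * C * ∫ ξ, wB ξ) * wA m η := by
    intro η
    unfold Φ
    refine (norm_integral_le_of_norm_le (wB_int.const_mul (2 * C * wA m η))
      (Filter.Eventually.of_forall fun ξ => ?_)).trans (le_of_eq ?_)
    · rw [norm_e_mul, norm_mul, ← hF]
      refine (mul_le_mul (sym_le k t ht0 ht2 _) (hd η ξ) (norm_nonneg _) (by norm_num)).trans
        (le_of_eq (by ring))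
    · rw [integral_const_mul]
      ring
  have hi := of_bound hmeas.aestronglyMeasurable hb
  rw [← planchI (Φ k h t x) hi.1 hi.2]
  refine lintegral_congr fun y => ?_
  congr 2
  exact inv_jn (sym_int k t ht0 ht2 h) y x

/-! ### the multipliers -/

noncomputable def aa (η : E m) : ℝ := if η = 0 then 1 else ‖η‖

lemma aa_pos (η : E m) : 0 < aa η := by
  unfold aa
  split_ifs with h
  · exact one_pos
  · exact norm_pos_iff.2 h

lemma aa_meas : Measurable (aa (m := m)) := by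
  unfold aa
  exact Measurable.ite (measurableSet_singleton 0) measurable_const measurable_norm

lemma norm_le_aa (η : E m) : ‖η‖ ≤ aa η := by
  unfold aa
  split_ifs with h
  · rw [h, norm_zero]
    exact zero_le_one
  · exact le_rfl

lemma aa_ae (hm : 0 < m) : ∀ᵐ η : E m, aa η = ‖η‖ := by
  have : Nonempty (Fin m) := ⟨⟨0, hm⟩⟩
  have h : ∀ᵐ η : E m, η ≠ 0 := by
    rw [ae_iff]
    simp
  filter_upwards [h] with η hη
  unfold aa
  rw [if_neg hη]

lemma fam (h : 𝓢(E (m + 1), ℂ)) (n : ℕ) :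
    Fam ((2 : ℝ) ^ n) (aa (m := m)) (fun _ => chi n) (H h) where
  ma := aa_meas
  pos := aa_pos
  mχ := (chi_cont n).measurable.comp measurable_snd
  cut := fun _ => chi_cut n
  mG := H_meas h
  iG := H_int h

lemma ra_mono {a b : ℝ} (ha : 0 ≤ a) (hab : a ≤ b) (ξ : ℝ) : ra a ξ ≤ ra b ξ := by
  unfold ra
  apply Real.sqrt_le_sqrt
  have : a ^ 2 ≤ b ^ 2 := by gcongr
  linarith

lemma coord_le (z : E (m + 1)) (j : Fin (m + 1)) : |z j| ≤ ‖z‖ := by
  have := PiLp.norm_apply_le z j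
  rwa [Real.norm_eq_abs] at this

/-- `χ` may be inserted -/
lemma chi_mul {n : ℕ} {h : 𝓢(E (m + 1), ℂ)}
    (hz : ∀ (η : E m) (ξ : ℝ), (2 : ℝ) ^ n < |ξ| → 𝓕 (h : E (m + 1) → ℂ) (jn η ξ) = 0)
    (η : E m) (ξ : ℝ) :
    chi n ξ * 𝓕 (h : E (m + 1) → ℂ) (jn η ξ) = 𝓕 (h : E (m + 1) → ℂ) (jn η ξ) := by
  rcases le_or_gt |ξ| (2 ^ n) with hξ | hξ
  · rw [chi_one hξ, one_mul]
  · rw [hz η ξ hξ, mul_zero]

lemma Φ_true {n : ℕ} {h : 𝓢(E (m + 1), ℂ)}
    (hz : ∀ (η : E m) (ξ : ℝ), (2 : ℝ) ^ n < |ξ| → 𝓕 (h : E (m + 1) → ℂ) (jn η ξ) = 0)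
    (t x : ℝ) {η : E m} (hη : aa η = ‖η‖) :
    Φ (Sum.inr true) h t x η = Mx (fun ξ =>
      ((Real.cos (2 * Real.pi * t * ra (aa η) ξ) : ℝ) : ℂ) * chi n ξ) (H h η) x := by
  unfold Φ Mx
  refine integral_congr_ae (Filter.Eventually.of_forall fun ξ => ?_)
  simp only
  rw [ft_H h.integrable, mul_assoc, chi_mul hz, hη, ← norm_jn]
  rfl

lemma Φ_false {n : ℕ} {h : 𝓢(E (m + 1), ℂ)}
    (hz : ∀ (η : E m) (ξ : ℝ), (2 : ℝ) ^ n < |ξ| → 𝓕 (h : E (m + 1) → ℂ) (jn η ξ) = 0)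
    (t x : ℝ) {η : E m} (hη : aa η = ‖η‖) :
    Φ (Sum.inr false) h t x η = Mx (fun ξ =>
      ((Real.sin (2 * Real.pi * t * ra (aa η) ξ) / (2 * Real.pi * ra (aa η) ξ) : ℝ) : ℂ) *
        chi n ξ) (H h η) x := by
  unfold Φ Mx
  refine integral_congr_ae (Filter.Eventually.of_forall fun ξ => ?_)
  simp only
  rw [ft_H h.integrable, mul_assoc, chi_mul hz, hη, ← norm_jn]
  rfl

lemma Φ_inl {n : ℕ} {h : 𝓢(E (m + 1), ℂ)}
    (hz : ∀ (η : E m) (ξ : ℝ), (2 : ℝ) ^ n < |ξ| → 𝓕 (h : E (m + 1) → ℂ) (jn η ξ) = 0)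
    (t x : ℝ) {η : E m} (hη : aa η = ‖η‖) (j : Fin (m + 1)) :
    Φ (Sum.inl j) h t x η = Complex.I * Mx (fun ξ =>
      ((jn η ξ j * (Real.sin (2 * Real.pi * t * ra (aa η) ξ) / ra (aa η) ξ) : ℝ) : ℂ) *
        chi n ξ) (H h η) x := by
  unfold Φ Mx
  rw [← integral_const_mul]
  refine integral_congr_ae (Filter.Eventually.of_forall fun ξ => ?_)
  simp only
  rw [ft_H h.integrable, mul_assoc (((jn η ξ j * _ : ℝ) : ℂ)) (chi n ξ) _, chi_mul hz, hη, ← norm_jn]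
  have e1 : sym (Sum.inl j) t (jn η ξ) = Complex.I *
      ((jn η ξ j * (Real.sin (2 * Real.pi * t * ‖jn η ξ‖) / ‖jn η ξ‖) : ℝ) : ℂ) := by
    show ((2 * Real.pi * (jn η ξ) j : ℝ) : ℂ) * Complex.I * sn t (jn η ξ) = _
    unfold sn
    have hpi : (Real.pi : ℂ) ≠ 0 := by exact_mod_cast Real.pi_ne_zero
    rcases eq_or_ne ‖jn η ξ‖ 0 with h0 | h0
    · rw [h0]
      simp
    · have h0' : ((‖jn η ξ‖ : ℝ) : ℂ) ≠ 0 := by exact_mod_cast h0
      push_cast
      field_simp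
  rw [e1]
  ring

lemma enorm_I_mul (z : ℂ) : ‖Complex.I * z‖ₑ = ‖z‖ₑ := by
  rw [enorm_mul, show ‖Complex.I‖ₑ = 1 by rw [← ofReal_norm]; simp, one_mul]

/-- the estimate for one datum whose frequencies are at most `2^n` in the last variable -/
theorem one (hPR : S_PR) (hm : 0 < m) (p : ℝ) (hp2 : 2 ≤ p) (hp4 : p ≤ 4) :
    ∃ (C : ℝ) (A : ℕ), 0 < C ∧ ∀ (n : ℕ) (h : 𝓢(E (m + 1), ℂ)),
      (∀ (η : E m) (ξ : ℝ), (2 : ℝ) ^ n < |ξ| → 𝓕 (h : E (m + 1) → ℂ) (jn η ξ) = 0) →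
      ∀ k : Fin (m + 1) ⊕ Bool,
      ∫⁻ t in Icc (0 : ℝ) 2, ∫⁻ x : ℝ, (∫⁻ y : E m, ‖ev k h t y x‖ₑ ^ 2) ^ (p / 2) ≤
        ENNReal.ofReal (C * ((n : ℝ) + 1) ^ A) *
          ∫⁻ x : ℝ, (∫⁻ y : E m, ‖h (jn y x)‖ₑ ^ 2) ^ (p / 2) := by
  obtain ⟨C, A, hC, hP⟩ := hPR p hp2 hp4
  refine ⟨C, A, hC, fun n h hz k => ?_⟩
  obtain ⟨h1, h2, h3⟩ := hP (E m) _ volume inferInstance n aa (fun _ => chi n) (H h) (fam h n)
  have e2 : ∀ x : ℝ, ∫⁻ η : E m, ‖H h η x‖ₑ ^ 2 = ∫⁻ y : E m, ‖h (jn y x)‖ₑ ^ 2 := H_planch h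
  simp only [e2] at h1 h2 h3
  have e1 : ∫⁻ t in Icc (0 : ℝ) 2, ∫⁻ x : ℝ, (∫⁻ y : E m, ‖ev k h t y x‖ₑ ^ 2) ^ (p / 2) =
      ∫⁻ t in Icc (0 : ℝ) 2, ∫⁻ x : ℝ, (∫⁻ η : E m, ‖Φ k h t x η‖ₑ ^ 2) ^ (p / 2) := by
    refine setLIntegral_congr_fun measurableSet_Icc fun t ht => ?_
    refine lintegral_congr fun x => ?_
    rw [ev_planch k h ht.1 ht.2 x]
  rw [e1]
  match k with
  | Sum.inr true =>
    refine le_trans (le_of_eq ?_) h1
    refine lintegral_congr fun t => lintegral_congr fun x => ?_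
    congr 1
    refine lintegral_congr_ae ?_
    filter_upwards [aa_ae hm] with η hη
    rw [Φ_true hz t x hη]
  | Sum.inr false =>
    refine le_trans (le_of_eq ?_) h2
    refine lintegral_congr fun t => lintegral_congr fun x => ?_
    congr 1
    refine lintegral_congr_ae ?_
    filter_upwards [aa_ae hm] with η hη
    rw [Φ_false hz t x hη]
  | Sum.inl j =>
    refine le_trans (le_of_eq ?_) (h3 (fun η ξ => jn η ξ j) ?_ ?_ ?_)
    · refine lintegral_congr fun t => lintegral_congr fun x => ?_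
      congr 1
      refine lintegral_congr_ae ?_
      filter_upwards [aa_ae hm] with η hη
      rw [Φ_inl hz t x hη j, enorm_I_mul]
    · have : Continuous fun q : E m × ℝ => jn q.1 q.2 j := by
        have := jn_cont (m := m)
        fun_prop
      exact this.measurable
    · intro η ξ
      refine (coord_le _ _).trans ?_
      rw [norm_jn]
      exact ra_mono (norm_nonneg _) (norm_le_aa η) ξ
    · intro η ξ ξ'
      have e3 : jn η ξ j - jn η ξ' j = jn (0 : E m) (ξ - ξ') j := by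
        rw [← PiLp.sub_apply, jn_sub, sub_self]
      rw [e3]
      refine (coord_le _ _).trans ?_
      rw [norm_jn, norm_zero]
      unfold ra
      rw [zero_pow two_ne_zero, add_zero, Real.sqrt_sq_eq_abs]

end Pool.Agent.K9h96.LS.LOC
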