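import Pool.Agent.K9h96.LS.Stm2
import Pool.Agent.K9h96.LS.LOC
set_option autoImplicit false

/-!
# (LOCQ) `p ≥ 2` (helper99); the proof of LOC with another constant
-/

open MeasureTheory Set
open scoped ENNReal FourierTransform RealInnerProductSpace SchwartzMap

namespace Pool.Agent.K9h96.LS.LOCQ

open Pool.Agent.TH280.LS (e ft ra Cut norm_e continuous_e)
open Pool.Agent.N303.LS (E inv sym sym_le sym_meas sym_int)
open Pool.Agent.K9h96.LS.LOC hiding t one

variable {m : ℕ}

/-- the estimate for one datum whose frequencies are at most `2^n` in the last variable -/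
theorem oneQ (hPR : S_PRQ) (hm : 0 < m) (p : ℝ) (hp2 : 2 ≤ p) :
    ∃ (C : ℝ) (A : ℕ), 0 < C ∧ ∀ (n : ℕ) (h : 𝓢(E (m + 1), ℂ)),
      (∀ (η : E m) (ξ : ℝ), (2 : ℝ) ^ n < |ξ| → 𝓕 (h : E (m + 1) → ℂ) (jn η ξ) = 0) →
      ∀ k : Fin (m + 1) ⊕ Bool,
      ∫⁻ t in Icc (0 : ℝ) 2, ∫⁻ x : ℝ, (∫⁻ y : E m, ‖ev k h t y x‖ₑ ^ 2) ^ (p / 2) ≤
        ENNReal.ofReal (kk p C A n) *
          ∫⁻ x : ℝ, (∫⁻ y : E m, ‖h (jn y x)‖ₑ ^ 2) ^ (p / 2) := by
  obtain ⟨C, A, hC, hP⟩ := hPR p hp2
  refine ⟨C, A, hC, fun n h hz k => ?_⟩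
  obtain ⟨h1, h2, h3⟩ := hP (E m) _ volume inferInstance n aa (fun _ => chi n) (H h) (fam h n)
  have e2 : ∀ x : ℝ, ∫⁻ η : E m, ‖H h η x‖ₑ ^ 2 = ∫⁻ y : E m, ‖h (jn y x)‖ₑ ^ 2 := H_planch h
  simp only [e2] at h1 h2 h3
  have e1 : ∫⁻ t in Icc (0 : ℝ) 2, ∫⁻ x : ℝ, (∫⁻ y : E m, ‖ev k h t y x‖ₑ ^ 2) ^ (p / 2) =
      ∫⁻ t in Icc (0 : ℝ) 2, ∫⁻ x : ℝ, (∫⁻ η : E m, ‖Φ k h t x η‖ₑ ^ 2) ^ (p / 2) := by
    refine setLIntegral_congr_fun measurableSet_Icc fun t ht => ?_
    refine lintegral_congr fun x => ?_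
    rw [ev_planch k h ht.1 ht.2 x]
  rw [e1]
  match k with
  | Sum.inr true =>
    refine le_trans (le_of_eq ?_) h1
    refine lintegral_congr fun t => lintegral_congr fun x => ?_
    congr 1
    refine lintegral_congr_ae ?_
    filter_upwards [aa_ae hm] with η hη
    rw [Φ_true hz t x hη]
  | Sum.inr false =>
    refine le_trans (le_of_eq ?_) h2
    refine lintegral_congr fun t => lintegral_congr fun x => ?_
    congr 1
    refine lintegral_congr_ae ?_
    filter_upwards [aa_ae hm] with η hη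
    rw [Φ_false hz t x hη]
  | Sum.inl j =>
    refine le_trans (le_of_eq ?_) (h3 (fun η ξ => jn η ξ j) ?_ ?_ ?_)
    · refine lintegral_congr fun t => lintegral_congr fun x => ?_
      congr 1
      refine lintegral_congr_ae ?_
      filter_upwards [aa_ae hm] with η hη
      rw [Φ_inl hz t x hη j, enorm_I_mul]
    · have : Continuous fun q : E m × ℝ => jn q.1 q.2 j := by
        have := jn_cont (m := m)
        fun_prop
      exact this.measurable
    · intro η ξ
      refine (coord_le _ _).trans ?_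
      rw [norm_jn]
      exact ra_mono (norm_nonneg _) (norm_le_aa η) ξ
    · intro η ξ ξ'
      have e3 : jn η ξ j - jn η ξ' j = jn (0 : E m) (ξ - ξ') j := by
        rw [← PiLp.sub_apply, jn_sub, sub_self]
      rw [e3]
      refine (coord_le _ _).trans ?_
      rw [norm_jn, norm_zero]
      unfold ra
      rw [zero_pow two_ne_zero, add_zero, Real.sqrt_sq_eq_abs]

/-- the main theorem of this file -/
theorem t : S_PRQ → S_FS → S_LOCQ := by
  intro hPR hFS m p hm hp2
  obtain ⟨C, A, hC, hone⟩ := oneQ hPR hm p hp2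
  have hp : 0 < p := by linarith
  set V : ℝ≥0∞ := volume (Metric.ball (0 : E m) 6) with hV
  have hVt : V ≠ ⊤ := measure_ball_lt_top.ne
  have hV0 : V ≠ 0 := (Metric.measure_ball_pos volume _ (by norm_num)).ne'
  have hball : ∀ w : E m, volume (Metric.ball w 6) = V := fun w =>
    Measure.addHaar_ball_center volume w 6
  refine ⟨C * V.toReal ^ (p / 2), A, ?_, fun n g hg k => ?_⟩
  · have : 0 < V.toReal := ENNReal.toReal_pos hV0 hVt
    positivity
  set K : ℝ≥0∞ := ENNReal.ofReal (kk p C A n) with hK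
  -- the estimate for fixed `w`
  have hw : ∀ w : E m, ∫⁻ t in Icc (0 : ℝ) 2, ∫⁻ x : ℝ,
      (∫⁻ y in Metric.ball w 1, ‖ev k g t y x‖ₑ ^ 2) ^ (p / 2) ≤
      K * (V ^ (p / 2 - 1) * ∫⁻ z : E (m + 1),
        (Metric.ball w 6).indicator (fun _ => (1 : ℝ≥0∞)) (hd z) * ‖g z‖ₑ ^ p) := by
    intro w
    obtain ⟨h, ψ, hh, hψ1, hψ, hψ0⟩ := exists_loc g w
    have hz : ∀ (η : E m) (ξ : ℝ), (2 : ℝ) ^ n < |ξ| → 𝓕 (h : E (m + 1) → ℂ) (jn η ξ) = 0 :=
      fun η ξ hξ => loc_zero hg hh hξ η
    have hgh : ∀ y x, y ∈ Metric.closedBall w 5 → h (jn y x) = g (jn y x) := by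
      intro y x hy
      rw [hh, hψ1 y hy, one_mul]
    calc ∫⁻ t in Icc (0 : ℝ) 2, ∫⁻ x : ℝ,
          (∫⁻ y in Metric.ball w 1, ‖ev k g t y x‖ₑ ^ 2) ^ (p / 2)
        ≤ ∫⁻ t in Icc (0 : ℝ) 2, ∫⁻ x : ℝ, (∫⁻ y : E m, ‖ev k h t y x‖ₑ ^ 2) ^ (p / 2) := by
          refine setLIntegral_mono' measurableSet_Icc fun t ht => ?_
          refine lintegral_mono fun x => ?_
          refine ENNReal.rpow_le_rpow ?_ (by positivity)
          calc ∫⁻ y in Metric.ball w 1, ‖ev k g t y x‖ₑ ^ 2
              = ∫⁻ y in Metric.ball w 1, ‖ev k h t y x‖ₑ ^ 2 := by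
                refine setLIntegral_congr_fun measurableSet_ball fun y hy => ?_
                rw [ev_eq hFS g h w hgh k ht.1 ht.2 hy x]
            _ ≤ ∫⁻ y : E m, ‖ev k h t y x‖ₑ ^ 2 := setLIntegral_le_lintegral _ _
      _ ≤ K * ∫⁻ x : ℝ, (∫⁻ y : E m, ‖h (jn y x)‖ₑ ^ 2) ^ (p / 2) := hone n h hz k
      _ ≤ K * ∫⁻ x : ℝ, V ^ (p / 2 - 1) *
          ∫⁻ y : E m, (Metric.ball w 6).indicator (fun _ => (1 : ℝ≥0∞)) y * ‖g (jn y x)‖ₑ ^ p := by
          refine mul_le_mul_right (lintegral_mono fun x => ?_) _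
          have h1 : ∫⁻ y : E m, ‖h (jn y x)‖ₑ ^ 2 ≤
              ∫⁻ y in Metric.ball w 6, ‖g (jn y x)‖ₑ ^ 2 := by
            rw [← lintegral_indicator measurableSet_ball]
            refine lintegral_mono fun y => ?_
            by_cases hy : y ∈ Metric.ball w 6
            · rw [indicator_of_mem hy, hh, enorm_mul]
              have : ‖ψ y‖ₑ ≤ 1 := by
                rw [← ofReal_norm]
                exact ENNReal.ofReal_le_one.2 (hψ y)
              calc (‖ψ y‖ₑ * ‖g (jn y x)‖ₑ) ^ 2 ≤ (1 * ‖g (jn y x)‖ₑ) ^ 2 := by gcongr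
                _ = ‖g (jn y x)‖ₑ ^ 2 := by rw [one_mul]
            · rw [indicator_of_notMem hy, hh, hψ0 y hy]
              simp
          have h2 := holder hp2 w (fun y => g (jn y x)) (g_y_cont g x)
          rw [hball w] at h2
          refine (ENNReal.rpow_le_rpow h1 (by positivity)).trans (h2.trans (le_of_eq ?_))
          congr 1
          rw [← lintegral_indicator measurableSet_ball]
          refine lintegral_congr fun y => ?_
          by_cases hy : y ∈ Metric.ball w 6
          · rw [indicator_of_mem hy, indicator_of_mem hy, one_mul]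
          · rw [indicator_of_notMem hy, indicator_of_notMem hy, zero_mul]
      _ = K * (V ^ (p / 2 - 1) * ∫⁻ z : E (m + 1),
          (Metric.ball w 6).indicator (fun _ => (1 : ℝ≥0∞)) (hd z) * ‖g z‖ₑ ^ p) := by
          congr 1
          have hmeas : Measurable fun z : E (m + 1) =>
              (Metric.ball w 6).indicator (fun _ => (1 : ℝ≥0∞)) (hd z) * ‖g z‖ₑ ^ p := by
            refine Measurable.mul ?_ (g.continuous.measurable.enorm.pow_const p)
            exact (measurable_const.indicator measurableSet_ball).comp (hdL m).continuous.measurable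
          rw [lint_jn _ hmeas, lintegral_const_mul']
          · simp only [hd_jn]
          · exact ENNReal.rpow_ne_top_of_nonneg (by linarith) hVt
  -- integrate over `w`
  calc ∫⁻ w : E m, ∫⁻ t in Icc (0 : ℝ) 2, ∫⁻ x : ℝ,
        (∫⁻ y in Metric.ball w 1, ‖ev k g t y x‖ₑ ^ 2) ^ (p / 2)
      ≤ ∫⁻ w : E m, K * (V ^ (p / 2 - 1) * ∫⁻ z : E (m + 1),
        (Metric.ball w 6).indicator (fun _ => (1 : ℝ≥0∞)) (hd z) * ‖g z‖ₑ ^ p) :=
        lintegral_mono hw
    _ = K * V ^ (p / 2 - 1) * ∫⁻ w : E m, ∫⁻ z : E (m + 1),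
        (Metric.ball w 6).indicator (fun _ => (1 : ℝ≥0∞)) (hd z) * ‖g z‖ₑ ^ p := by
        rw [← lintegral_const_mul']
        · refine lintegral_congr fun w => ?_
          rw [mul_assoc]
        · exact ENNReal.mul_ne_top ENNReal.ofReal_ne_top
            (ENNReal.rpow_ne_top_of_nonneg (by linarith) hVt)
    _ = K * V ^ (p / 2 - 1) * (V * ∫⁻ z : E (m + 1), ‖g z‖ₑ ^ p) := by
        congr 1
        rw [lintegral_lintegral_swap, ← lintegral_const_mul' _ _ hVt]
        · refine lintegral_congr fun z => ?_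
          have e1 : ∀ w : E m, (Metric.ball w 6).indicator (fun _ => (1 : ℝ≥0∞)) (hd z) =
              (Metric.ball (hd z) 6).indicator (fun _ => (1 : ℝ≥0∞)) w := by
            intro w
            by_cases hy : hd z ∈ Metric.ball w 6
            · rw [indicator_of_mem hy, indicator_of_mem (Metric.mem_ball_comm.1 hy)]
            · rw [indicator_of_notMem hy, indicator_of_notMem fun h => hy (Metric.mem_ball_comm.1 h)]
          simp only [e1]
          have hgt : ‖g z‖ₑ ^ p ≠ ⊤ := ENNReal.rpow_ne_top_of_nonneg hp.le enorm_ne_top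
          rw [lintegral_mul_const' _ _ hgt, lintegral_indicator measurableSet_ball,
            setLIntegral_const, one_mul, hball]
        · apply Measurable.aemeasurable
          have e2 : (Function.uncurry fun (w : E m) (z : E (m + 1)) =>
              (Metric.ball w 6).indicator (fun _ => (1 : ℝ≥0∞)) (hd z) * ‖g z‖ₑ ^ p) =
              fun q : E m × E (m + 1) => {q : E m × E (m + 1) | dist (hd q.2) q.1 < 6}.indicator
                (fun _ => (1 : ℝ≥0∞)) q * ‖g q.2‖ₑ ^ p := by
            funext q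
            rfl
          rw [e2]
          have hhd : Continuous fun q : E m × E (m + 1) => hd q.2 :=
            (hdL m).continuous.comp continuous_snd
          refine Measurable.mul (measurable_const.indicator ?_)
            ((g.continuous.measurable.comp measurable_snd).enorm.pow_const p)
          exact (isOpen_lt (hhd.dist continuous_fst) continuous_const).measurableSet
    _ = ENNReal.ofReal (kk p (C * V.toReal ^ (p / 2)) A n) *
        ∫⁻ z : E (m + 1), ‖g z‖ₑ ^ p := by
        rw [← mul_assoc]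
        congr 1
        have e3 : V ^ (p / 2 - 1) * V = V ^ (p / 2) := by
          conv_lhs => rw [← ENNReal.rpow_one V, ← ENNReal.rpow_mul, one_mul]
          rw [← ENNReal.rpow_add _ _ hV0 hVt]
          congr 1
          ring
        rw [mul_assoc, e3, hK]
        have e4 : V ^ (p / 2) = ENNReal.ofReal (V.toReal ^ (p / 2)) := by
          rw [← ENNReal.ofReal_rpow_of_nonneg ENNReal.toReal_nonneg (by positivity),
            ENNReal.ofReal_toReal hVt]
        rw [e4, ← ENNReal.ofReal_mul (kk_nonneg hC.le A n), kk_mul]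
        congr 1
        ring

end Pool.Agent.K9h96.LS.LOCQ
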