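import Pool.Agent.K9h96.LS.FIN1
set_option autoImplicit false

/-! # LS, a partition of unity by lattice translations -/

open MeasureTheory Set
open scoped ENNReal FourierTransform RealInnerProductSpace SchwartzMap

namespace Pool.Agent.K9h96.LS.FIN

open Pool.Agent.N303.LS

/-- a function on the line whose integer translates add up to `1` -/
noncomputable def et (x : ℝ) : ℝ := Real.smoothTransition (x + 1) - Real.smoothTransition x

lemma et_zero {x : ℝ} (h : 1 ≤ |x|) : et x = 0 := by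
  unfold et
  rcases le_abs.1 h with h | h
  · rw [Real.smoothTransition.one_of_one_le (by linarith), Real.smoothTransition.one_of_one_le h,
      sub_self]
  · rw [Real.smoothTransition.zero_of_nonpos (by linarith),
      Real.smoothTransition.zero_of_nonpos (by linarith), sub_self]

lemma et_contDiff : ContDiff ℝ (⊤ : ℕ∞) et := by
  unfold et
  exact (Real.smoothTransition.contDiff.comp (contDiff_id.add contDiff_const)).sub
    Real.smoothTransition.contDiff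

lemma et_sum (x : ℝ) : ∑ n ∈ ({⌊x⌋, ⌊x⌋ + 1} : Finset ℤ), et (x - n) = 1 := by
  rw [Finset.sum_pair (by omega)]
  unfold et
  push_cast
  have h1 := Int.floor_le x
  have h2 := Int.lt_floor_add_one x
  rw [Real.smoothTransition.one_of_one_le (show 1 ≤ x - ⌊x⌋ + 1 by linarith),
    Real.smoothTransition.zero_of_nonpos (show x - (⌊x⌋ + 1) ≤ 0 by linarith),
    show x - (⌊x⌋ + 1) + 1 = x - ⌊x⌋ by ring]
  ring

lemma part (m : ℕ) : ∃ K : 𝓢(E m, ℂ), ∀ (ξ : E m) (T : Finset (Fin m → ℤ)),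
    (∀ n : Fin m → ℤ, (∀ i, |ξ i - n i| < 1) → n ∈ T) → psia K T (fun _ => 1) ξ = 1 := by
  have hcs : HasCompactSupport fun ξ : E m => ((∏ i, et (ξ i) : ℝ) : ℂ) := by
    refine HasCompactSupport.of_support_subset_isCompact
      (K := Metric.closedBall (0 : E m) (m + 1)) (isCompact_closedBall _ _) ?_
    intro ξ hξ
    rw [Metric.mem_closedBall, dist_zero_right]
    have hlt : ∀ i, |ξ i| < 1 := by
      intro i
      by_contra hcon
      push Not at hcon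
      apply hξ
      show ((∏ i, et (ξ i) : ℝ) : ℂ) = 0
      rw [Finset.prod_eq_zero (Finset.mem_univ i) (et_zero hcon), Complex.ofReal_zero]
    rw [EuclideanSpace.norm_eq]
    refine Real.sqrt_le_iff.2 ⟨by positivity, ?_⟩
    calc ∑ i, ‖ξ i‖ ^ 2 ≤ ∑ _i : Fin m, (1 : ℝ) := by
          refine Finset.sum_le_sum fun i _ => ?_
          rw [Real.norm_eq_abs]
          have := hlt i
          have h0 := abs_nonneg (ξ i)
          nlinarith
      _ = m := by simp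
      _ ≤ (m + 1 : ℝ) ^ 2 := by nlinarith [(Nat.cast_nonneg m : (0 : ℝ) ≤ m)]
  have hcd : ContDiff ℝ (⊤ : ℕ∞) fun ξ : E m => ((∏ i, et (ξ i) : ℝ) : ℂ) := by
    have h1 : ContDiff ℝ (⊤ : ℕ∞) fun ξ : E m => ∏ i, et (ξ i) := by
      refine contDiff_prod fun i _ => ?_
      exact et_contDiff.comp (EuclideanSpace.proj i : E m →L[ℝ] ℝ).contDiff
    exact Complex.ofRealCLM.contDiff.comp h1
  set φ : 𝓢(E m, ℂ) := hcs.toSchwartzMap hcd with hφ
  refine ⟨𝓕⁻ φ, fun ξ T hT => ?_⟩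
  have e1 : ∀ ζ : E m, 𝓕 ((𝓕⁻ φ : 𝓢(E m, ℂ)) : E m → ℂ) ζ = ((∏ i, et (ζ i) : ℝ) : ℂ) := by
    intro ζ
    rw [← SchwartzMap.fourier_coe, FourierTransform.fourier_fourierInv_eq]
    rfl
  unfold psia
  simp only [e1, one_mul]
  rw [← Complex.ofReal_sum, ← Complex.ofReal_one]
  congr 1
  have e2 : ∀ n : Fin m → ℤ, ∏ i, et ((ξ - pt n) i) = ∏ i, et (ξ i - n i) := by
    intro n
    refine Finset.prod_congr rfl fun i _ => ?_
    simp [pt]
  simp only [e2]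
  have h0 : ∀ n : Fin m → ℤ, (∃ i, 1 ≤ |ξ i - n i|) → ∏ i, et (ξ i - n i) = 0 := by
    rintro n ⟨i, hi⟩
    exact Finset.prod_eq_zero (Finset.mem_univ i) (et_zero hi)
  have e3 : ∑ n ∈ T, ∏ i, et (ξ i - n i) =
      ∑ n ∈ T ∪ Fintype.piFinset fun i => ({⌊ξ i⌋, ⌊ξ i⌋ + 1} : Finset ℤ),
        ∏ i, et (ξ i - n i) := by
    refine Finset.sum_subset Finset.subset_union_left fun n _ hn => h0 n ?_
    by_contra hcon
    push Not at hcon
    exact hn (hT n hcon)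
  have e4 : ∑ n ∈ Fintype.piFinset fun i => ({⌊ξ i⌋, ⌊ξ i⌋ + 1} : Finset ℤ),
        ∏ i, et (ξ i - n i) =
      ∑ n ∈ T ∪ Fintype.piFinset fun i => ({⌊ξ i⌋, ⌊ξ i⌋ + 1} : Finset ℤ),
        ∏ i, et (ξ i - n i) := by
    refine Finset.sum_subset Finset.subset_union_right fun n _ hn => h0 n ?_
    rw [Fintype.mem_piFinset] at hn
    push Not at hn
    obtain ⟨i, hi⟩ := hn
    refine ⟨i, ?_⟩
    rw [Finset.mem_insert, Finset.mem_singleton] at hi
    push Not at hi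
    obtain ⟨a1, a2⟩ := hi
    have h1 := Int.floor_le (ξ i)
    have h2 := Int.lt_floor_add_one (ξ i)
    rcases lt_or_gt_of_ne a1 with h3 | h3
    · have h4 : n i + 1 ≤ ⌊ξ i⌋ := h3
      have h5 : (n i : ℝ) + 1 ≤ ⌊ξ i⌋ := by exact_mod_cast h4
      rw [le_abs]
      left
      linarith
    · have h4 : ⌊ξ i⌋ + 2 ≤ n i := by omega
      have h5 : (⌊ξ i⌋ : ℝ) + 2 ≤ n i := by exact_mod_cast h4
      rw [le_abs]
      right
      linarith
  rw [e3, ← e4, ← Finset.prod_univ_sum (fun i => ({⌊ξ i⌋, ⌊ξ i⌋ + 1} : Finset ℤ))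
    (fun i (k : ℤ) => et (ξ i - k))]
  refine Finset.prod_eq_one fun i _ => ?_
  exact et_sum (ξ i)

/-- the lattice points at distance less than `1` from `Γ` in the maximum norm -/
def near {m : ℕ} (Γ : Set (E m)) : Set (Fin m → ℤ) := {n | ∃ ξ ∈ Γ, ∀ i, |ξ i - n i| < 1}

/-- the spectrum of `f` is in `Γ × ℝ` -/
def SpecG {m : ℕ} (Γ : Set (E m)) (f : 𝓢(E (m + 1), ℂ)) : Prop :=
  ∀ ζ : E (m + 1), 𝓕 (f : E (m + 1) → ℂ) ζ ≠ 0 → hd ζ ∈ Γ

open Classical in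
/-- the points of `S` in a cube -/
noncomputable def cg {m : ℕ} (S : Set (Fin m → ℤ)) (c : ℕ) : Finset (Fin m → ℤ) :=
  (Fintype.piFinset fun _ => Finset.Icc (-(2 ^ (c + 2) : ℤ)) (2 ^ (c + 2))).filter
    fun n => n ∈ S ∧ ∀ i, |n i| < 2 ^ (c + 2)

open Classical in
lemma mem_cg {m : ℕ} (S : Set (Fin m → ℤ)) (c : ℕ) (n : Fin m → ℤ) :
    n ∈ cg S c ↔ n ∈ S ∧ ∀ i, |n i| < 2 ^ (c + 2) := by
  unfold cg
  rw [Finset.mem_filter, Fintype.mem_piFinset]
  constructor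
  · exact fun h => h.2
  · intro h
    refine ⟨fun i => ?_, h⟩
    rw [Finset.mem_Icc]
    exact abs_le.1 (h.2 i).le

/-- on the spectrum the product of the cut-offs is the cut-off of the shell -/
lemma psia_phG {m : ℕ} (K : 𝓢(E m, ℂ)) (hK : ∀ (ξ : E m) (T : Finset (Fin m → ℤ)),
    (∀ n : Fin m → ℤ, (∀ i, |ξ i - n i| < 1) → n ∈ T) → psia K T (fun _ => 1) ξ = 1)
    (L : 𝓢(E (m + 1), ℂ))
    (l0 : ∀ ξ : E (m + 1), (∃ i, 9 / 8 ≤ |ξ i|) → 𝓕 (L : E (m + 1) → ℂ) ξ = 0)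
    (Γ : Set (E m)) (f : 𝓢(E (m + 1), ℂ)) (hf : SpecG Γ f) (c : ℕ) (ζ : E (m + 1)) :
    psia K (cg (near Γ) c) (fun _ => 1) (hd ζ) * (ph L c ζ * 𝓕 (f : E (m + 1) → ℂ) ζ) =
      ph L c ζ * 𝓕 (f : E (m + 1) → ℂ) ζ := by
  by_cases hz : 𝓕 (f : E (m + 1) → ℂ) ζ = 0
  · rw [hz, mul_zero, mul_zero]
  by_cases hb : ∃ i, (2 : ℝ) ^ c * (9 / 8) ≤ |ζ i|
  · rw [ph_zero L l0 c ζ hb, zero_mul, mul_zero]
  push Not at hb
  rw [hK (hd ζ) (cg (near Γ) c), one_mul]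
  intro n hn
  refine (mem_cg _ c n).2 ⟨⟨hd ζ, hf ζ hz, hn⟩, fun i => ?_⟩
  have h3 := hb i.castSucc
  have h4 : |ζ i.castSucc - n i| < 1 := hn i
  have h5 : |(n i : ℝ)| ≤ |ζ i.castSucc| + |ζ i.castSucc - n i| := by
    have : (n i : ℝ) = ζ i.castSucc - (ζ i.castSucc - n i) := by ring
    calc |(n i : ℝ)| = |ζ i.castSucc - (ζ i.castSucc - n i)| := by rw [← this]
      _ ≤ _ := abs_sub _ _
  have h6 : (1 : ℝ) ≤ 2 ^ c := one_le_pow₀ (by norm_num)
  have h7 : |(n i : ℝ)| < 2 ^ (c + 2) := by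
    rw [pow_add]
    linarith
  exact_mod_cast h7

end Pool.Agent.K9h96.LS.FIN
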