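import Pool.Agent.K9h96.LS.Stm
set_option autoImplicit false

/-!
# Local smoothing for data with sparse spectrum in `d - 1` variables: all exponents `p ≥ 2`

For `p > 4` the vector valued estimates on the line lose the factor `N^(1/2 - 2/p)`.
-/

open MeasureTheory Set
open scoped ENNReal FourierTransform RealInnerProductSpace SchwartzMap

namespace Pool.Agent.K9h96.LS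

open Pool.Agent.TH280.LS (e ft Ph Cut Wt ra Vx S_W)
open Pool.Agent.N303.LS (E inv sym nrg W psia Lam)

/-- the exponent of the loss, for the `p`-th powers of the norms -/
noncomputable def lo (p : ℝ) : ℝ := max 0 ((p - 4) / 2)

/-- the constants -/
noncomputable def kk (p C : ℝ) (A n : ℕ) : ℝ := C * ((n : ℝ) + 1) ^ A * ((2 : ℝ) ^ lo p) ^ n

/-- (VVQ) `L^p(L²)`, `2 ≤ p` -/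
def S_VVQ : Prop := ∀ p : ℝ, 2 ≤ p → ∃ C : ℝ, 0 < C ∧
  ∀ (Ω : Type) (_ : MeasurableSpace Ω) (μ : Measure Ω),
  SFinite μ → ∀ (N : ℝ) (a : Ω → ℝ) (χ G : Ω → ℝ → ℂ), 1 ≤ N → Fam N a χ G →
  ∫⁻ t in Icc (-2 : ℝ) 2, ∫⁻ x : ℝ, (∫⁻ ω, ‖Vx (a ω) (χ ω) (G ω) t x‖ₑ ^ 2 ∂μ) ^ (p / 2) ≤
    ENNReal.ofReal (C * (1 + Real.log N) ^ 2 * N ^ lo p) *
      ∫⁻ x : ℝ, (∫⁻ ω, ‖G ω x‖ₑ ^ 2 ∂μ) ^ (p / 2)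

/-- (PRQ) the propagators, `2 ≤ p` -/
def S_PRQ : Prop := ∀ p : ℝ, 2 ≤ p → ∃ (C : ℝ) (A : ℕ), 0 < C ∧
  ∀ (Ω : Type) (_ : MeasurableSpace Ω) (μ : Measure Ω),
  SFinite μ → ∀ (n : ℕ) (a : Ω → ℝ) (χ G : Ω → ℝ → ℂ), Fam ((2 : ℝ) ^ n) a χ G →
  (∫⁻ t in Icc (0 : ℝ) 2, ∫⁻ x : ℝ, (∫⁻ ω, ‖Mx (fun ξ =>
      ((Real.cos (2 * Real.pi * t * ra (a ω) ξ) : ℝ) : ℂ) * χ ω ξ) (G ω) x‖ₑ ^ 2 ∂μ) ^ (p / 2) ≤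
    ENNReal.ofReal (kk p C A n) * ∫⁻ x : ℝ, (∫⁻ ω, ‖G ω x‖ₑ ^ 2 ∂μ) ^ (p / 2)) ∧
  (∫⁻ t in Icc (0 : ℝ) 2, ∫⁻ x : ℝ, (∫⁻ ω, ‖Mx (fun ξ =>
      ((Real.sin (2 * Real.pi * t * ra (a ω) ξ) / (2 * Real.pi * ra (a ω) ξ) : ℝ) : ℂ) * χ ω ξ)
        (G ω) x‖ₑ ^ 2 ∂μ) ^ (p / 2) ≤
    ENNReal.ofReal (kk p C A n) * ∫⁻ x : ℝ, (∫⁻ ω, ‖G ω x‖ₑ ^ 2 ∂μ) ^ (p / 2)) ∧
  ∀ m : Ω → ℝ → ℝ, Measurable (Function.uncurry m) → (∀ ω ξ, |m ω ξ| ≤ ra (a ω) ξ) →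
    (∀ ω ξ ξ', |m ω ξ - m ω ξ'| ≤ |ξ - ξ'|) →
    ∫⁻ t in Icc (0 : ℝ) 2, ∫⁻ x : ℝ, (∫⁻ ω, ‖Mx (fun ξ =>
      ((m ω ξ * (Real.sin (2 * Real.pi * t * ra (a ω) ξ) / ra (a ω) ξ) : ℝ) : ℂ) * χ ω ξ)
        (G ω) x‖ₑ ^ 2 ∂μ) ^ (p / 2) ≤
    ENNReal.ofReal (kk p C A n) * ∫⁻ x : ℝ, (∫⁻ ω, ‖G ω x‖ₑ ^ 2 ∂μ) ^ (p / 2)

/-- (LOCQ) `2 ≤ p` -/
def S_LOCQ : Prop := ∀ (m : ℕ) (p : ℝ), 0 < m → 2 ≤ p → ∃ (C : ℝ) (A : ℕ), 0 < C ∧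
  ∀ (n : ℕ) (g : 𝓢(E (m + 1), ℂ)), (∀ ζ, (2 : ℝ) ^ n < |ls ζ| → 𝓕 (g : E (m + 1) → ℂ) ζ = 0) →
  ∀ k : Fin (m + 1) ⊕ Bool,
    ∫⁻ w : E m, ∫⁻ t in Icc (0 : ℝ) 2, ∫⁻ x : ℝ,
      (∫⁻ y in Metric.ball w 1, ‖ev k g t y x‖ₑ ^ 2) ^ (p / 2) ≤
    ENNReal.ofReal (kk p C A n) * ∫⁻ z : E (m + 1), ‖g z‖ₑ ^ p

/-- (ENLQ) `2 ≤ p` -/
def S_ENLQ : Prop := ∀ (m : ℕ) (p : ℝ), 0 < m → 2 ≤ p → ∃ (C : ℝ) (A : ℕ), 0 < C ∧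
  ∀ (n : ℕ) (g : 𝓢(E (m + 1), ℂ)), (∀ ζ, (2 : ℝ) ^ n < |ls ζ| → 𝓕 (g : E (m + 1) → ℂ) ζ = 0) →
  ∀ k : Fin (m + 1) ⊕ Bool,
    ∫⁻ t in Icc (0 : ℝ) 2, ∫⁻ x : ℝ, ∫⁻ w : E m, nrg (m + 1) (fun y => ev k g t y x) w ^ (p / 2) ≤
    ENNReal.ofReal (kk p C A n) * ∫⁻ z : E (m + 1), ‖g z‖ₑ ^ p

/-- (PWQ) `2 ≤ p` -/
def S_PWQ : Prop := ∀ (m : ℕ) (p : ℝ), 0 < m → 2 ≤ p → ∀ K : 𝓢(E m, ℂ),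
  ∃ (C : ℝ) (A : ℕ), 0 < C ∧
  ∀ (n : ℕ) (g : 𝓢(E (m + 1), ℂ)), (∀ ζ, (2 : ℝ) ^ n < |ls ζ| → 𝓕 (g : E (m + 1) → ℂ) ζ = 0) →
  ∀ (S : Finset (Fin m → ℤ)) (a : (Fin m → ℤ) → ℂ) (Λ : ℝ), 0 ≤ Λ → Lam p Λ S a →
  ∀ k : Fin (m + 1) ⊕ Bool,
    ∫⁻ t in Icc (0 : ℝ) 2, ∫⁻ z : E (m + 1),
      ‖inv (fun ζ => psia K S a (hd ζ) * (sym k t ζ * 𝓕 (g : E (m + 1) → ℂ) ζ)) z‖ₑ ^ p ≤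
    ENNReal.ofReal (kk p C A n * Λ ^ p) * ∫⁻ z : E (m + 1), ‖g z‖ₑ ^ p

lemma lo_nonneg (p : ℝ) : 0 ≤ lo p := le_max_left _ _

lemma kk_pos {p C : ℝ} (hC : 0 < C) (A n : ℕ) : 0 < kk p C A n := by
  unfold kk; positivity

lemma kk_nonneg {p C : ℝ} (hC : 0 ≤ C) (A n : ℕ) : 0 ≤ kk p C A n := by
  unfold kk; positivity

lemma kk_mul (p C D : ℝ) (A n : ℕ) : kk p (C * D) A n = D * kk p C A n := by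
  unfold kk; ring

lemma kk_of_le {p : ℝ} (hp : p ≤ 4) (C : ℝ) (A n : ℕ) : kk p C A n = C * ((n : ℝ) + 1) ^ A := by
  unfold kk lo
  rw [max_eq_left (by linarith)]
  simp

end Pool.Agent.K9h96.LS
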