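import Pool.Agent.K9h96.LS.PR
import Pool.Agent.K9h96.LS.Stm2
set_option autoImplicit false

/-!
# The propagators, all exponents (leaf L6, helper39): `S_VVQ → S_PRQ`
-/

open MeasureTheory Set
open scoped ENNReal

namespace Pool.Agent.K9h96.LS.PRQ

open Pool.Agent.TH280.LS (e ft Cut ra Vx e_add norm_e continuous_e measurable_e e_cos e_sin
  continuous_ft norm_ft_le e_zero)
open Pool.Agent.K9h96.LS.PR (Q JM MF cs sn sc hh eta Q_sum Q_smul Q_add jensen Mx_sc Mx_lin MF_e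
  MF_e' MF_cs MF_sn MF_sc JM_Mx Q_exp cs_eq sn_eq enorm_sq_rpow_le Mx_smul Mx_sum Mx_add fam_low
  fam_mid fam_high decomp)

variable {Ω : Type} [MeasurableSpace Ω]

lemma rpow_le_pow {b : ℝ≥0∞} (hb : 1 ≤ b) {q : ℝ} {k : ℕ} (hk : q ≤ k) : b ^ q ≤ b ^ k := by
  rw [← ENNReal.rpow_natCast]
  exact ENNReal.rpow_le_rpow_of_exponent_le hb hk

lemma Q_time (μ : Measure Ω) [SFinite μ] {q : ℝ} (hq : 1 ≤ q) {k : ℕ} (hk : q ≤ k)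
    {c s : Ω → ℝ → ℝ → ℂ} (hc : JM c)
    (h : ∀ t ∈ Icc (0 : ℝ) 2, ∀ ω x, ‖s ω t x‖ₑ ≤ ∫⁻ τ in Icc (0 : ℝ) 2, ‖c ω τ x‖ₑ) :
    Q μ q s ≤ (2 * 4 ^ k) * Q μ q c := by
  have hq0 : 0 < q := by linarith
  have hcτ : ∀ ω x, Measurable (fun τ : ℝ => c ω τ x) := by
    intro ω x
    have h1 : Measurable (fun τ : ℝ => ((ω, τ, x) : Ω × ℝ × ℝ)) := by fun_prop
    exact Measurable.comp (g := fun z : Ω × ℝ × ℝ => c z.1 z.2.1 z.2.2) hc h1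
  have hcωτ : ∀ x, Measurable (fun z : Ω × ℝ => c z.1 z.2 x) := by
    intro x
    have h1 : Measurable (fun z : Ω × ℝ => ((z.1, z.2, x) : Ω × ℝ × ℝ)) := by fun_prop
    exact Measurable.comp (g := fun z : Ω × ℝ × ℝ => c z.1 z.2.1 z.2.2) hc h1
  have hS := hc.inner μ
  have h1 : ∀ t ∈ Icc (0 : ℝ) 2, ∀ x : ℝ, (∫⁻ ω, ‖s ω t x‖ₑ ^ 2 ∂μ) ^ q ≤
      4 ^ k * ∫⁻ τ in Icc (0 : ℝ) 2, (∫⁻ ω, ‖c ω τ x‖ₑ ^ 2 ∂μ) ^ q := by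
    intro t ht x
    have a1 : ∫⁻ ω, ‖s ω t x‖ₑ ^ 2 ∂μ ≤
        2 * ∫⁻ τ in Icc (0 : ℝ) 2, ∫⁻ ω, ‖c ω τ x‖ₑ ^ 2 ∂μ := by
      calc ∫⁻ ω, ‖s ω t x‖ₑ ^ 2 ∂μ
          ≤ ∫⁻ ω, (2 * ∫⁻ τ in Icc (0 : ℝ) 2, ‖c ω τ x‖ₑ ^ 2) ∂μ := by
            apply lintegral_mono
            intro ω
            have b1 := jensen (hcτ ω x).enorm (q := 2) (by norm_num)
            have b2 : (2 : ℝ≥0∞) ^ ((2 : ℝ) - 1) = 2 := by norm_num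
            simp only [ENNReal.rpow_two, b2] at b1
            calc ‖s ω t x‖ₑ ^ 2 ≤ (∫⁻ τ in Icc (0 : ℝ) 2, ‖c ω τ x‖ₑ) ^ 2 :=
                  pow_le_pow_left' (h t ht ω x) 2
              _ ≤ _ := b1
        _ = 2 * ∫⁻ ω, (∫⁻ τ in Icc (0 : ℝ) 2, ‖c ω τ x‖ₑ ^ 2) ∂μ :=
            lintegral_const_mul' _ _ (by finiteness)
        _ = _ := by
            rw [lintegral_lintegral_swap]
            exact ((hcωτ x).enorm.pow_const 2).aemeasurable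
    calc (∫⁻ ω, ‖s ω t x‖ₑ ^ 2 ∂μ) ^ q
        ≤ (2 * ∫⁻ τ in Icc (0 : ℝ) 2, ∫⁻ ω, ‖c ω τ x‖ₑ ^ 2 ∂μ) ^ q :=
          ENNReal.rpow_le_rpow a1 hq0.le
      _ = 2 ^ q * (∫⁻ τ in Icc (0 : ℝ) 2, ∫⁻ ω, ‖c ω τ x‖ₑ ^ 2 ∂μ) ^ q :=
          ENNReal.mul_rpow_of_nonneg _ _ hq0.le
      _ ≤ 2 ^ q * (2 ^ (q - 1) * ∫⁻ τ in Icc (0 : ℝ) 2, (∫⁻ ω, ‖c ω τ x‖ₑ ^ 2 ∂μ) ^ q) :=
          mul_le_mul_right (jensen (hS.comp (measurable_id.prodMk measurable_const)) hq) _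
      _ = 2 ^ (q + (q - 1)) * ∫⁻ τ in Icc (0 : ℝ) 2, (∫⁻ ω, ‖c ω τ x‖ₑ ^ 2 ∂μ) ^ q := by
          rw [← mul_assoc, ← ENNReal.rpow_add _ _ (by norm_num) (by norm_num)]
      _ ≤ 4 ^ k * ∫⁻ τ in Icc (0 : ℝ) 2, (∫⁻ ω, ‖c ω τ x‖ₑ ^ 2 ∂μ) ^ q := by
          apply mul_le_mul_left
          calc (2 : ℝ≥0∞) ^ (q + (q - 1)) ≤ 2 ^ (2 * k) :=
                rpow_le_pow (by norm_num) (by push_cast; linarith)
            _ = 4 ^ k := by rw [pow_mul]; norm_num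
  have hSq : Measurable (fun z : ℝ × ℝ => (∫⁻ ω, ‖c ω z.1 z.2‖ₑ ^ 2 ∂μ) ^ q) :=
    hS.pow_const q
  unfold Q
  calc ∫⁻ t in Icc (0 : ℝ) 2, ∫⁻ x : ℝ, (∫⁻ ω, ‖s ω t x‖ₑ ^ 2 ∂μ) ^ q
      ≤ ∫⁻ t in Icc (0 : ℝ) 2, ∫⁻ x : ℝ,
          4 ^ k * ∫⁻ τ in Icc (0 : ℝ) 2, (∫⁻ ω, ‖c ω τ x‖ₑ ^ 2 ∂μ) ^ q :=
        setLIntegral_mono' measurableSet_Icc fun t ht => lintegral_mono fun x => h1 t ht x
    _ = (2 * 4 ^ k) * ∫⁻ x : ℝ, ∫⁻ τ in Icc (0 : ℝ) 2, (∫⁻ ω, ‖c ω τ x‖ₑ ^ 2 ∂μ) ^ q := by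
        rw [lintegral_const_mul' _ _ (by finiteness), setLIntegral_const, Real.volume_Icc]
        rw [mul_comm, ← mul_assoc]
        congr 1
        norm_num
    _ = _ := by
        congr 1
        rw [lintegral_lintegral_swap]
        exact (hSq.comp measurable_swap).aemeasurable

lemma Q_lin (μ : Measure Ω) [SFinite μ] {q : ℝ} (hq : 0 < q) {k : ℕ} (hk : q ≤ k)
    {f g : Ω → ℝ → ℝ → ℂ} (hf : JM f) (hg : JM g) {c c' : ℂ} (hc : ‖c‖ ≤ 1) (hc' : ‖c'‖ ≤ 1)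
    {K : ℝ≥0∞} (h1 : Q μ q f ≤ K) (h2 : Q μ q g ≤ K) :
    Q μ q (fun ω t x => c * f ω t x + c' * g ω t x) ≤ (2 * 8 ^ k) * K := by
  have a1 : JM (fun ω t x => c * f ω t x) := Measurable.const_mul hf c
  have a2 : JM (fun ω t x => c' * g ω t x) := Measurable.const_mul hg c'
  have h8 : (8 : ℝ≥0∞) ^ q ≤ 8 ^ k := rpow_le_pow (by norm_num) hk
  calc Q μ q (fun ω t x => c * f ω t x + c' * g ω t x)
      ≤ 8 ^ q * (Q μ q (fun ω t x => c * f ω t x) + Q μ q (fun ω t x => c' * g ω t x)) :=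
        Q_add μ hq a1 a2
    _ ≤ 8 ^ k * (K + K) := by
        rw [Q_smul μ hq, Q_smul μ hq]
        gcongr
        · calc _ ≤ 1 * Q μ q f := by
                gcongr
                exact enorm_sq_rpow_le hc hq
            _ ≤ K := by rwa [one_mul]
        · calc _ ≤ 1 * Q μ q g := by
                gcongr
                exact enorm_sq_rpow_le hc' hq
            _ ≤ K := by rwa [one_mul]
    _ = (2 * 8 ^ k) * K := by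
        rw [← two_mul]
        ring

lemma Q_cs (μ : Measure Ω) [SFinite μ] {q : ℝ} (hq : 0 < q) {k : ℕ} (hk : q ≤ k) {N : ℝ}
    {a : Ω → ℝ} {χ G : Ω → ℝ → ℂ} (hF : Fam N a χ G) {K : ℝ≥0∞}
    (hK : ∫⁻ t in Icc (-2 : ℝ) 2, ∫⁻ x : ℝ,
      (∫⁻ ω, ‖Vx (a ω) (χ ω) (G ω) t x‖ₑ ^ 2 ∂μ) ^ q ≤ K) :
    Q μ q (fun ω t x => Mx (fun ξ => cs t (ra (a ω) ξ) * χ ω ξ) (G ω) x) ≤ (2 * 8 ^ k) * K ∧
    Q μ q (fun ω t x => Mx (fun ξ => sn t (ra (a ω) ξ) * χ ω ξ) (G ω) x) ≤ (2 * 8 ^ k) * K := by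
  obtain ⟨h1, h2⟩ := Q_exp μ hK
  have m1 := JM_Mx hF.mG (MF_e hF)
  have m2 := JM_Mx hF.mG (MF_e' hF)
  have b1 : ‖(1 / 2 : ℂ)‖ ≤ 1 := by norm_num
  have b2 : ‖(-Complex.I / 2 : ℂ)‖ ≤ 1 := by
    rw [norm_div, norm_neg, Complex.norm_I]
    norm_num
  have b3 : ‖(Complex.I / 2 : ℂ)‖ ≤ 1 := by
    rw [norm_div, Complex.norm_I]
    norm_num
  have h3 := Q_lin μ hq hk m1 m2 b1 b1 h1 h2
  have h4 := Q_lin μ hq hk m1 m2 b2 b3 h1 h2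
  constructor
  · simp only [Mx_lin hF cs_eq]
    exact h3
  · simp only [Mx_lin hF sn_eq]
    exact h4

lemma Q_sc (μ : Measure Ω) [SFinite μ] {q : ℝ} (hq : 1 ≤ q) {k : ℕ} (hk : q ≤ k) {N : ℝ}
    {a : Ω → ℝ} {χ G : Ω → ℝ → ℂ} (hF : Fam N a χ G) {K : ℝ≥0∞}
    (hK : ∫⁻ t in Icc (-2 : ℝ) 2, ∫⁻ x : ℝ,
      (∫⁻ ω, ‖Vx (a ω) (χ ω) (G ω) t x‖ₑ ^ 2 ∂μ) ^ q ≤ K) :
    Q μ q (fun ω t x => Mx (fun ξ => sc t (ra (a ω) ξ) * χ ω ξ) (G ω) x) ≤ (2 * 4 ^ k * (2 * 8 ^ k)) * K := by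
  have h1 := (Q_cs μ (by linarith) hk hF hK).1
  have h2 := Q_time μ hq hk (JM_Mx hF.mG (MF_cs hF)) (fun t ht ω x => Mx_sc hF ht ω x)
  refine h2.trans ?_
  calc (2 * 4 ^ k) * Q μ q (fun ω t x => Mx (fun ξ => cs t (ra (a ω) ξ) * χ ω ξ) (G ω) x)
      ≤ (2 * 4 ^ k) * ((2 * 8 ^ k) * K) := by gcongr
    _ = (2 * 4 ^ k * (2 * 8 ^ k)) * K := by
      rw [← mul_assoc]

/-! ### Assembly -/

lemma Q_smul_le (μ : Measure Ω) {q : ℝ} (hq : 0 < q) {k : ℕ} (hk : q ≤ k) {c : ℂ} {b : ℕ}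
    (hb : ‖c‖ ≤ b) (hb1 : 1 ≤ b) {f : Ω → ℝ → ℝ → ℂ} {K : ℝ≥0∞} (h : Q μ q f ≤ K) :
    Q μ q (fun ω t x => c * f ω t x) ≤ ((b : ℝ≥0∞) ^ 2) ^ k * K := by
  rw [Q_smul μ hq]
  have h1 : ‖c‖ₑ ≤ b := by
    rw [← ofReal_norm, ← ENNReal.ofReal_natCast]
    exact ENNReal.ofReal_le_ofReal hb
  have h2 : (‖c‖ₑ ^ 2) ^ q ≤ ((b : ℝ≥0∞) ^ 2) ^ k := by
    calc (‖c‖ₑ ^ 2) ^ q ≤ ((b : ℝ≥0∞) ^ 2) ^ q :=
          ENNReal.rpow_le_rpow (pow_le_pow_left' h1 2) hq.le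
      _ ≤ ((b : ℝ≥0∞) ^ 2) ^ k := rpow_le_pow (one_le_pow₀ (by exact_mod_cast hb1)) hk
  exact mul_le_mul' h2 h

lemma Q_add_le (μ : Measure Ω) [SFinite μ] {q : ℝ} (hq : 0 < q) {k : ℕ} (hk : q ≤ k)
    {f g : Ω → ℝ → ℝ → ℂ} (hf : JM f) (hg : JM g) {K L : ℝ≥0∞} (h1 : Q μ q f ≤ K)
    (h2 : Q μ q g ≤ L) : Q μ q (fun ω t x => f ω t x + g ω t x) ≤ 8 ^ k * (K + L) :=
  (Q_add μ hq hf hg).trans (mul_le_mul' (rpow_le_pow (by norm_num) hk) (add_le_add h1 h2))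

lemma Q_sum_le (μ : Measure Ω) [SFinite μ] {q : ℝ} (hq : 0 < q) {k : ℕ} (hk : q ≤ k) (n : ℕ)
    (f : ℕ → Ω → ℝ → ℝ → ℂ) (hf : ∀ j ∈ Finset.range n, JM (f j)) {K : ℝ≥0∞}
    (h : ∀ j ∈ Finset.range n, Q μ q (f j) ≤ K) :
    Q μ q (fun ω t x => ∑ j ∈ Finset.range n, f j ω t x) ≤
      ((n : ℝ≥0∞) + 1) ^ (3 * k + 1) * K := by
  have h1 := Q_sum μ hq (Finset.range n) f hf
  have h2 : ∑ j ∈ Finset.range n, Q μ q (f j) ≤ ((n : ℝ≥0∞) + 1) * K := by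
    have h3 := Finset.sum_le_card_nsmul _ _ _ h
    rw [nsmul_eq_mul, Finset.card_range] at h3
    refine h3.trans ?_
    gcongr
    exact le_self_add
  have h4 : ((((Finset.range n).card : ℕ) : ℝ≥0∞) ^ 3) ^ q ≤ ((n : ℝ≥0∞) + 1) ^ (3 * k) := by
    rw [Finset.card_range]
    calc ((n : ℝ≥0∞) ^ 3) ^ q ≤ (((n : ℝ≥0∞) + 1) ^ 3) ^ q :=
          ENNReal.rpow_le_rpow (pow_le_pow_left' le_self_add 3) hq.le
      _ ≤ (((n : ℝ≥0∞) + 1) ^ 3) ^ k := rpow_le_pow (one_le_pow₀ le_add_self) hk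
      _ = ((n : ℝ≥0∞) + 1) ^ (3 * k) := by rw [← pow_mul]
  refine h1.trans ((mul_le_mul' h4 h2).trans (le_of_eq ?_))
  rw [← mul_assoc, ← pow_succ]

/-- the constant -/
def DD (k : ℕ) : ℕ :=
  8 ^ k * ((128 ^ 2) ^ k * (2 * 4 ^ k * (2 * 8 ^ k)) + 8 ^ k * ((8 ^ 2) ^ k * (2 * 8 ^ k) +
    (8 ^ 2) ^ k * (2 * 8 ^ k)))

lemma DD_cs (k : ℕ) : 2 * 8 ^ k ≤ DD k := by
  unfold DD
  have h1 : 1 ≤ 8 ^ k := Nat.one_le_pow _ _ (by norm_num)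
  have h2 : 1 ≤ (8 ^ 2) ^ k := Nat.one_le_pow _ _ (by norm_num)
  calc 2 * 8 ^ k = 1 * (1 * (1 * (2 * 8 ^ k))) := by ring
    _ ≤ 8 ^ k * (8 ^ k * ((8 ^ 2) ^ k * (2 * 8 ^ k))) := by gcongr
    _ ≤ _ := by
      apply Nat.mul_le_mul_left
      refine le_trans (Nat.mul_le_mul_left _ ?_) (Nat.le_add_left _ _)
      exact Nat.le_add_left _ _

lemma DD_sc (k : ℕ) : 2 * 4 ^ k * (2 * 8 ^ k) ≤ DD k := by
  unfold DD
  have h1 : 1 ≤ 8 ^ k := Nat.one_le_pow _ _ (by norm_num)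
  have h2 : 1 ≤ (128 ^ 2) ^ k := Nat.one_le_pow _ _ (by norm_num)
  calc 2 * 4 ^ k * (2 * 8 ^ k) = 1 * (1 * (2 * 4 ^ k * (2 * 8 ^ k))) := by ring
    _ ≤ 8 ^ k * ((128 ^ 2) ^ k * (2 * 4 ^ k * (2 * 8 ^ k))) := by gcongr
    _ ≤ _ := by
      apply Nat.mul_le_mul_left
      exact Nat.le_add_right _ _

theorem t : S_VVQ → S_PRQ := by
  intro hV p hp2
  obtain ⟨C, hC, hV⟩ := hV p hp2
  have hq : 1 ≤ p / 2 := by linarith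
  have hq0 : 0 < p / 2 := by linarith
  obtain ⟨k, hk⟩ := exists_nat_ge (p / 2)
  have hDD : 0 < DD k := lt_of_lt_of_le (by positivity) (DD_cs k)
  have hDDR : (0 : ℝ) < DD k := by exact_mod_cast hDD
  refine ⟨C * DD k, 3 * k + 3, by positivity, ?_⟩
  intro Ω _ μ _ n a χ G hF
  set R : ℝ≥0∞ := ∫⁻ x : ℝ, (∫⁻ ω, ‖G ω x‖ₑ ^ 2 ∂μ) ^ (p / 2) with hR
  set K : ℝ≥0∞ := ENNReal.ofReal (C * ((n : ℝ) + 1) ^ 2 * ((2 : ℝ) ^ lo p) ^ n) * R with hK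
  have hlo := lo_nonneg p
  have h2lo : (1 : ℝ) ≤ (2 : ℝ) ^ lo p := Real.one_le_rpow (by norm_num) hlo
  have hKi : ∀ i : ℕ, i ≤ n → ∀ χ' : Ω → ℝ → ℂ, Fam ((2 : ℝ) ^ i) a χ' G →
      ∫⁻ t in Icc (-2 : ℝ) 2, ∫⁻ x : ℝ,
        (∫⁻ ω, ‖Vx (a ω) (χ' ω) (G ω) t x‖ₑ ^ 2 ∂μ) ^ (p / 2) ≤ K := by
    intro i hi χ' hF'
    refine (hV Ω _ μ ‹_› _ a χ' G (one_le_pow₀ (by norm_num)) hF').trans ?_
    rw [hK]
    apply mul_le_mul' _ le_rfl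
    apply ENNReal.ofReal_le_ofReal
    have h1 : Real.log ((2 : ℝ) ^ i) ≤ n := by
      rw [Real.log_pow]
      have h2 := Real.log_two_lt_d9
      have h3 : (i : ℝ) ≤ n := by exact_mod_cast hi
      have h4 : (0 : ℝ) ≤ i := Nat.cast_nonneg _
      nlinarith
    have h5 : 0 ≤ Real.log ((2 : ℝ) ^ i) := Real.log_nonneg (one_le_pow₀ (by norm_num))
    have h6 : ((2 : ℝ) ^ i) ^ lo p ≤ ((2 : ℝ) ^ lo p) ^ n := by
      rw [← Real.rpow_natCast, ← Real.rpow_natCast, ← Real.rpow_mul (by norm_num),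
        ← Real.rpow_mul (by norm_num), mul_comm]
      apply Real.rpow_le_rpow_of_exponent_le (by norm_num)
      exact mul_le_mul_of_nonneg_left (by exact_mod_cast hi) hlo
    apply mul_le_mul _ h6 (by positivity) (by positivity)
    apply mul_le_mul_of_nonneg_left _ hC.le
    apply pow_le_pow_left₀ (by linarith)
    linarith
  have hT : ENNReal.ofReal (kk p (C * DD k) (3 * k + 3) n) * R =
      (DD k : ℝ≥0∞) * ((n : ℝ≥0∞) + 1) ^ (3 * k + 1) * K := by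
    have e1 : kk p (C * DD k) (3 * k + 3) n =
        DD k * ((n : ℝ) + 1) ^ (3 * k + 1) * (C * ((n : ℝ) + 1) ^ 2 * ((2 : ℝ) ^ lo p) ^ n) := by
      unfold kk
      ring
    have e3 : ENNReal.ofReal (((n : ℝ) + 1) ^ (3 * k + 1)) = ((n : ℝ≥0∞) + 1) ^ (3 * k + 1) := by
      rw [ENNReal.ofReal_pow (by positivity), ENNReal.ofReal_add (by positivity) (by norm_num),
        ENNReal.ofReal_natCast, ENNReal.ofReal_one]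
    rw [hK, ← mul_assoc, e1, ENNReal.ofReal_mul (by positivity), ENNReal.ofReal_mul (by positivity),
      ENNReal.ofReal_natCast, e3]
  have hn1 : (1 : ℝ≥0∞) ≤ ((n : ℝ≥0∞) + 1) ^ (3 * k + 1) := one_le_pow₀ le_add_self
  have hsmall : ∀ D : ℕ, D ≤ DD k → (D : ℝ≥0∞) * K ≤
      ENNReal.ofReal (kk p (C * DD k) (3 * k + 3) n) * R := by
    intro D hD
    rw [hT]
    apply mul_le_mul' _ le_rfl
    calc (D : ℝ≥0∞) ≤ (DD k : ℝ≥0∞) * 1 := by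
          rw [mul_one]
          exact_mod_cast hD
      _ ≤ _ := mul_le_mul' le_rfl hn1
  refine ⟨?_, ?_, ?_⟩
  · have h1 := (Q_cs μ hq0 hk hF (hKi n le_rfl χ hF)).1
    have h2 := hsmall _ (DD_cs k)
    push_cast at h2
    exact h1.trans h2
  · have h1 := Q_sc μ hq hk hF (hKi n le_rfl χ hF)
    have h2 := hsmall _ (DD_sc k)
    push_cast at h2
    exact h1.trans h2
  · intro m mm hm hl
    -- the three kinds of pieces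
    set χl : Ω → ℝ → ℂ := fun ω ξ =>
      ((hh 2 (a ω) (m ω) ξ * eta (ra (a ω) ξ / 2 ^ 0) / 8 : ℝ) : ℂ) * χ ω ξ with hχl
    set χm : ℕ → Ω → ℝ → ℂ := fun j ω ξ => ((hh (2 ^ j) (a ω) (m ω) ξ *
      (eta (ra (a ω) ξ / 2 ^ (j + 1)) - eta (ra (a ω) ξ / 2 ^ j)) / 8 : ℝ) : ℂ) * χ ω ξ with hχm
    set χh : Ω → ℝ → ℂ := fun ω ξ => ((hh (2 ^ n) (a ω) (m ω) ξ *
      (1 - eta (ra (a ω) ξ / 2 ^ n)) / 8 : ℝ) : ℂ) * χ ω ξ with hχh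
    have Fl : Fam ((2 : ℝ) ^ 0) a χl G := fam_low hF mm hm hl
    have Fm : ∀ j < n, Fam ((2 : ℝ) ^ (j + 1)) a (χm j) G := fun j hj => fam_mid hF mm hm hl hj
    have Fh : Fam ((2 : ℝ) ^ n) a χh G := fam_high hF mm hm hl
    have Ml := MF_sc Fl
    have Mm := fun j (hj : j < n) => MF_sn (Fm j hj)
    have Mh := MF_sn Fh
    have Ql := Q_sc μ hq hk Fl (hKi 0 (Nat.zero_le _) χl Fl)
    have Qm := fun j (hj : j < n) => (Q_cs μ hq0 hk (Fm j hj) (hKi (j + 1) hj _ (Fm j hj))).2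
    have Qh := (Q_cs μ hq0 hk Fh (hKi n le_rfl χh Fh)).2
    have heq : ∀ ω t x, Mx (fun ξ => ((m ω ξ * (Real.sin (2 * Real.pi * t * ra (a ω) ξ) /
        ra (a ω) ξ) : ℝ) : ℂ) * χ ω ξ) (G ω) x =
        ((32 * Real.pi : ℝ) : ℂ) * Mx (fun ξ => sc t (ra (a ω) ξ) * χl ω ξ) (G ω) x +
        (∑ j ∈ Finset.range n, 8 * Mx (fun ξ => sn t (ra (a ω) ξ) * χm j ω ξ) (G ω) x +
          8 * Mx (fun ξ => sn t (ra (a ω) ξ) * χh ω ξ) (G ω) x) := by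
      intro ω t x
      simp only [← Mx_smul]
      rw [← Mx_sum (hF.iG ω) (Finset.range n)
        (Ψ := fun j ω t ξ => 8 * (sn t (ra (a ω) ξ) * χm j ω ξ))
        (fun j hj => (Mm j (Finset.mem_range.1 hj)).smul 8) t x]
      rw [← Mx_add (hF.iG ω) (MF.sum n fun j hj => (Mm j hj).smul 8) (Mh.smul 8) t x]
      rw [← Mx_add (hF.iG ω) (Ml.smul _)
        ((MF.sum n fun j hj => (Mm j hj).smul 8).add (Mh.smul 8)) t x]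
      congr 1
      funext ξ
      rw [decomp (hF.pos ω) n (m ω) (Real.sin (2 * Real.pi * t * ra (a ω) ξ)) ξ]
      simp only [hχl, hχm, hχh, sc, sn]
      push_cast
      rw [add_mul, add_mul, Finset.sum_mul]
      congr 1
      · ring
      · congr 1
        · refine Finset.sum_congr rfl fun j _ => ?_
          ring
        · ring
    have hsum := Q_sum_le μ hq0 hk n
      (fun j ω t x => 8 * Mx (fun ξ => sn t (ra (a ω) ξ) * χm j ω ξ) (G ω) x)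
      (fun j hj => Measurable.const_mul (JM_Mx hF.mG (Mm j (Finset.mem_range.1 hj))) 8)
      (K := (((8 : ℕ) : ℝ≥0∞) ^ 2) ^ k * ((2 * 8 ^ k) * K))
      (fun j hj => Q_smul_le μ hq0 hk (by norm_num) (by norm_num) (Qm j (Finset.mem_range.1 hj)))
    have jsum : JM (fun ω t x => ∑ j ∈ Finset.range n,
        8 * Mx (fun ξ => sn t (ra (a ω) ξ) * χm j ω ξ) (G ω) x) := by
      unfold JM
      exact Finset.measurable_fun_sum _ (fun j hj =>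
        Measurable.const_mul (JM_Mx hF.mG (Mm j (Finset.mem_range.1 hj))) 8)
    have jh : JM (fun ω t x => 8 * Mx (fun ξ => sn t (ra (a ω) ξ) * χh ω ξ) (G ω) x) :=
      Measurable.const_mul (JM_Mx hF.mG Mh) 8
    have jl : JM (fun ω t x => ((32 * Real.pi : ℝ) : ℂ) *
        Mx (fun ξ => sc t (ra (a ω) ξ) * χl ω ξ) (G ω) x) :=
      Measurable.const_mul (JM_Mx hF.mG Ml) _
    have hhigh : Q μ (p / 2) (fun ω t x => 8 * Mx (fun ξ => sn t (ra (a ω) ξ) * χh ω ξ) (G ω) x) ≤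
        (((8 : ℕ) : ℝ≥0∞) ^ 2) ^ k * ((2 * 8 ^ k) * K) := Q_smul_le μ hq0 hk (by norm_num) (by norm_num) Qh
    have hlow : Q μ (p / 2) (fun ω t x => ((32 * Real.pi : ℝ) : ℂ) *
        Mx (fun ξ => sc t (ra (a ω) ξ) * χl ω ξ) (G ω) x) ≤
        (((128 : ℕ) : ℝ≥0∞) ^ 2) ^ k * ((2 * 4 ^ k * (2 * 8 ^ k)) * K) := by
      refine Q_smul_le μ hq0 hk ?_ (by norm_num) Ql
      have h1 := Real.pi_lt_four
      have h2 := Real.pi_pos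
      rw [Complex.norm_real, Real.norm_eq_abs, abs_of_pos (by positivity)]
      push_cast
      linarith
    have h1 := Q_add_le μ hq0 hk jsum jh hsum hhigh
    have jsh : JM (fun ω t x => ∑ j ∈ Finset.range n,
        8 * Mx (fun ξ => sn t (ra (a ω) ξ) * χm j ω ξ) (G ω) x +
        8 * Mx (fun ξ => sn t (ra (a ω) ξ) * χh ω ξ) (G ω) x) := Measurable.add jsum jh
    have h2 := Q_add_le μ hq0 hk jl jsh hlow h1
    have h3 : ∫⁻ t in Icc (0 : ℝ) 2, ∫⁻ x : ℝ, (∫⁻ ω, ‖Mx (fun ξ =>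
        ((m ω ξ * (Real.sin (2 * Real.pi * t * ra (a ω) ξ) / ra (a ω) ξ) : ℝ) : ℂ) * χ ω ξ)
        (G ω) x‖ₑ ^ 2 ∂μ) ^ (p / 2) = Q μ (p / 2) (fun ω t x =>
        ((32 * Real.pi : ℝ) : ℂ) * Mx (fun ξ => sc t (ra (a ω) ξ) * χl ω ξ) (G ω) x +
        (∑ j ∈ Finset.range n, 8 * Mx (fun ξ => sn t (ra (a ω) ξ) * χm j ω ξ) (G ω) x +
          8 * Mx (fun ξ => sn t (ra (a ω) ξ) * χh ω ξ) (G ω) x)) := by
      unfold Q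
      simp only [heq]
    rw [h3]
    refine h2.trans ?_
    rw [hT]
    set M : ℝ≥0∞ := ((n : ℝ≥0∞) + 1) ^ (3 * k + 1) with hM
    have hKM : K ≤ M * K := by
      calc K = 1 * K := (one_mul K).symm
        _ ≤ M * K := mul_le_mul' hn1 le_rfl
    calc 8 ^ k * ((((128 : ℕ) : ℝ≥0∞) ^ 2) ^ k * ((2 * 4 ^ k * (2 * 8 ^ k)) * K) +
          8 ^ k * (M * ((((8 : ℕ) : ℝ≥0∞) ^ 2) ^ k * ((2 * 8 ^ k) * K)) +
          (((8 : ℕ) : ℝ≥0∞) ^ 2) ^ k * ((2 * 8 ^ k) * K)))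
        ≤ 8 ^ k * ((((128 : ℕ) : ℝ≥0∞) ^ 2) ^ k * ((2 * 4 ^ k * (2 * 8 ^ k)) * (M * K)) +
          8 ^ k * (M * ((((8 : ℕ) : ℝ≥0∞) ^ 2) ^ k * ((2 * 8 ^ k) * K)) +
          (((8 : ℕ) : ℝ≥0∞) ^ 2) ^ k * ((2 * 8 ^ k) * (M * K)))) := by gcongr
      _ = (DD k : ℝ≥0∞) * M * K := by
          unfold DD
          push_cast
          ring

end Pool.Agent.K9h96.LS.PRQ
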