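import Pool.Agent.TH280.LS.Stm
import Pool.Agent.N303.LS.Stm6
set_option autoImplicit false

/-!
# Local smoothing for data with sparse spectrum in `d - 1` variables (MP_ee74d2_an)

Definitions and statements of the steps.

The line `ℝ` is the last variable; the other variables `y ∈ ℝ^m` are treated in `L²`. For a fixed
frequency `η` of `y` the wave equation is a Klein-Gordon equation on the line with mass `|η|`.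
-/

open MeasureTheory Set
open scoped ENNReal FourierTransform RealInnerProductSpace SchwartzMap

namespace Pool.Agent.K9h96.LS

open Pool.Agent.TH280.LS (e ft Ph Cut Wt ra Vx S_W)
open Pool.Agent.N303.LS (E inv sym nrg W psia Lam)

/-! ### One variable: convex phases -/

/-- convex functions with derivative bounded by `2` and with a critical point -/
def Cx (g g' : ℝ → ℝ) : Prop := (∀ ξ, HasDerivAt g (g' ξ) ξ) ∧ Monotone g' ∧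
  (∀ ξ, |g' ξ| ≤ 2) ∧ ∃ c, g' c = 0

/-- (MODC) modulus of continuity; `TH280.LS.S_MOD` is the case of even functions -/
def S_MODC : Prop := ∃ C : ℝ, 0 < C ∧ ∀ (N : ℝ) (g g' : ℝ → ℝ) (χ φ : ℝ → ℂ), 1 ≤ N → Cx g g' →
  Cut 2 N χ → Measurable φ → MemLp φ 2 (volume.restrict (Icc (-2 : ℝ) 2)) →
  (∀ τ : ℝ, 0 < τ → ∫⁻ ξ : ℝ, ‖χ (ξ + τ) * Ph φ (g (ξ + τ)) - χ ξ * Ph φ (g ξ)‖ₑ ^ 2 ≤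
    ENNReal.ofReal (C * τ) * ∫⁻ t in Icc (-2 : ℝ) 2, ‖φ t‖ₑ ^ 2) ∧
  (∀ τ : ℝ, 0 < τ → τ ≤ 1 → ∫⁻ ξ : ℝ, ‖χ (ξ + τ) * Ph φ (g (ξ + τ)) - χ ξ * Ph φ (g ξ)‖ₑ ^ 2 ≤
    ENNReal.ofReal (C * τ ^ 2) * ∫⁻ t in Icc (-2 : ℝ) 2, ‖φ t‖ₑ ^ 2)

/-- (DUALC) one dimensional estimate in time -/
def S_DUALC : Prop := ∃ C : ℝ, 0 < C ∧ ∀ (N : ℝ) (g g' : ℝ → ℝ) (χ b : ℝ → ℂ), 1 ≤ N → Cx g g' →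
  Cut 2 N χ → Integrable b →
  ∫⁻ t in Icc (-2 : ℝ) 2, ‖∫ ξ : ℝ, e (t * g ξ) * (χ ξ * ft b ξ)‖ₑ ^ 2 ≤
    ENNReal.ofReal (C * (1 + Real.log N)) *
      ∫⁻ v : ℝ, (ENNReal.ofReal (Wt N v))⁻¹ * ‖b v‖ₑ ^ 2

/-- (BIL) the bilinear estimate with two masses, two cutoffs and two data -/
def S_BIL : Prop := ∃ C : ℝ, 0 < C ∧ ∀ (N a b : ℝ) (χ₁ χ₂ G H : ℝ → ℂ), 1 ≤ N → 0 < a → 0 < b →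
  Cut 1 N χ₁ → Cut 1 N χ₂ → Integrable G → Integrable H →
  ∫⁻ t in Icc (-2 : ℝ) 2, ∫⁻ x : ℝ, ‖Vx a χ₁ G t x‖ₑ ^ 2 * ‖Vx b χ₂ H t x‖ₑ ^ 2 ≤
    ENNReal.ofReal (C * (1 + Real.log N)) *
      ∫⁻ v : ℝ, (ENNReal.ofReal (Wt N v))⁻¹ *
        ∫⁻ z : ℝ, ‖G (z + v / 2)‖ₑ ^ 2 * ‖H (z - v / 2)‖ₑ ^ 2

/-! ### Vector valued estimates -/

/-- measurable families of masses, cutoffs at scale `N` and data -/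
structure Fam {Ω : Type} [MeasurableSpace Ω] (N : ℝ) (a : Ω → ℝ) (χ G : Ω → ℝ → ℂ) : Prop where
  ma : Measurable a
  pos : ∀ ω, 0 < a ω
  mχ : Measurable (Function.uncurry χ)
  cut : ∀ ω, Cut 1 N (χ ω)
  mG : Measurable (Function.uncurry G)
  iG : ∀ ω, Integrable (G ω)

/-- (VV4) `L⁴(L²)` -/
def S_VV4 : Prop := ∃ C : ℝ, 0 < C ∧ ∀ (Ω : Type) (_ : MeasurableSpace Ω) (μ : Measure Ω),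
  SFinite μ → ∀ (N : ℝ) (a : Ω → ℝ) (χ G : Ω → ℝ → ℂ), 1 ≤ N → Fam N a χ G →
  ∫⁻ t in Icc (-2 : ℝ) 2, ∫⁻ x : ℝ, (∫⁻ ω, ‖Vx (a ω) (χ ω) (G ω) t x‖ₑ ^ 2 ∂μ) ^ 2 ≤
    ENNReal.ofReal (C * (1 + Real.log N) ^ 2) * ∫⁻ x : ℝ, (∫⁻ ω, ‖G ω x‖ₑ ^ 2 ∂μ) ^ 2

/-- (VVP) `L^p(L²)`, `2 ≤ p ≤ 4` -/
def S_VVP : Prop := ∀ p : ℝ, 2 ≤ p → p ≤ 4 → ∃ C : ℝ, 0 < C ∧
  ∀ (Ω : Type) (_ : MeasurableSpace Ω) (μ : Measure Ω),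
  SFinite μ → ∀ (N : ℝ) (a : Ω → ℝ) (χ G : Ω → ℝ → ℂ), 1 ≤ N → Fam N a χ G →
  ∫⁻ t in Icc (-2 : ℝ) 2, ∫⁻ x : ℝ, (∫⁻ ω, ‖Vx (a ω) (χ ω) (G ω) t x‖ₑ ^ 2 ∂μ) ^ (p / 2) ≤
    ENNReal.ofReal (C * (1 + Real.log N) ^ 2) * ∫⁻ x : ℝ, (∫⁻ ω, ‖G ω x‖ₑ ^ 2 ∂μ) ^ (p / 2)

/-- multiplier operator on the line -/
noncomputable def Mx (M G : ℝ → ℂ) (x : ℝ) : ℂ := ∫ ξ : ℝ, e (x * ξ) * (M ξ * ft G ξ)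

/-- (PR) the propagators: multipliers `cos(2πtr)`, `sin(2πtr)/(2πr)` and `m sin(2πtr)/r` with
`|m| ≤ r`, where `r = √(ξ²+a²)` -/
def S_PR : Prop := ∀ p : ℝ, 2 ≤ p → p ≤ 4 → ∃ (C : ℝ) (A : ℕ), 0 < C ∧
  ∀ (Ω : Type) (_ : MeasurableSpace Ω) (μ : Measure Ω),
  SFinite μ → ∀ (n : ℕ) (a : Ω → ℝ) (χ G : Ω → ℝ → ℂ), Fam ((2 : ℝ) ^ n) a χ G →
  (∫⁻ t in Icc (0 : ℝ) 2, ∫⁻ x : ℝ, (∫⁻ ω, ‖Mx (fun ξ =>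
      ((Real.cos (2 * Real.pi * t * ra (a ω) ξ) : ℝ) : ℂ) * χ ω ξ) (G ω) x‖ₑ ^ 2 ∂μ) ^ (p / 2) ≤
    ENNReal.ofReal (C * ((n : ℝ) + 1) ^ A) * ∫⁻ x : ℝ, (∫⁻ ω, ‖G ω x‖ₑ ^ 2 ∂μ) ^ (p / 2)) ∧
  (∫⁻ t in Icc (0 : ℝ) 2, ∫⁻ x : ℝ, (∫⁻ ω, ‖Mx (fun ξ =>
      ((Real.sin (2 * Real.pi * t * ra (a ω) ξ) / (2 * Real.pi * ra (a ω) ξ) : ℝ) : ℂ) * χ ω ξ)
        (G ω) x‖ₑ ^ 2 ∂μ) ^ (p / 2) ≤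
    ENNReal.ofReal (C * ((n : ℝ) + 1) ^ A) * ∫⁻ x : ℝ, (∫⁻ ω, ‖G ω x‖ₑ ^ 2 ∂μ) ^ (p / 2)) ∧
  ∀ m : Ω → ℝ → ℝ, Measurable (Function.uncurry m) → (∀ ω ξ, |m ω ξ| ≤ ra (a ω) ξ) →
    (∀ ω ξ ξ', |m ω ξ - m ω ξ'| ≤ |ξ - ξ'|) →
    ∫⁻ t in Icc (0 : ℝ) 2, ∫⁻ x : ℝ, (∫⁻ ω, ‖Mx (fun ξ =>
      ((m ω ξ * (Real.sin (2 * Real.pi * t * ra (a ω) ξ) / ra (a ω) ξ) : ℝ) : ℂ) * χ ω ξ)
        (G ω) x‖ₑ ^ 2 ∂μ) ^ (p / 2) ≤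
    ENNReal.ofReal (C * ((n : ℝ) + 1) ^ A) * ∫⁻ x : ℝ, (∫⁻ ω, ‖G ω x‖ₑ ^ 2 ∂μ) ^ (p / 2)

/-! ### Several variables -/

/-- (FS) finite speed of propagation: data which vanish in the ball `B(z, 3)` -/
def S_FS : Prop := ∀ (d : ℕ) (g : 𝓢(E d, ℂ)) (z : E d), (∀ x, ‖x - z‖ < 3 → g x = 0) →
  ∀ t : ℝ, 0 ≤ t → t ≤ 2 → ∀ k : Fin d ⊕ Bool,
    inv (fun ξ => sym k t ξ * 𝓕 (g : E d → ℂ) ξ) z = 0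

/-- the first `m` coordinates -/
noncomputable def hd {m : ℕ} (z : E (m + 1)) : E m := WithLp.toLp 2 fun i => z i.castSucc

/-- the last coordinate -/
noncomputable def ls {m : ℕ} (z : E (m + 1)) : ℝ := z (Fin.last m)

/-- the point with the coordinates `y`, `x` -/
noncomputable def jn {m : ℕ} (y : E m) (x : ℝ) : E (m + 1) :=
  WithLp.toLp 2 (Fin.snoc (α := fun _ => ℝ) (fun i => y i) x)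

/-- the evolved data -/
noncomputable def ev {m : ℕ} (k : Fin (m + 1) ⊕ Bool) (g : 𝓢(E (m + 1), ℂ)) (t : ℝ) (y : E m)
    (x : ℝ) : ℂ :=
  inv (fun ζ => sym k t ζ * 𝓕 (g : E (m + 1) → ℂ) ζ) (jn y x)

/-- (LOC) local smoothing for local `L²` norms in `y`, for data with frequency at most `2^n` in the
last variable -/
def S_LOC : Prop := ∀ (m : ℕ) (p : ℝ), 0 < m → 2 ≤ p → p ≤ 4 → ∃ (C : ℝ) (A : ℕ), 0 < C ∧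
  ∀ (n : ℕ) (g : 𝓢(E (m + 1), ℂ)), (∀ ζ, (2 : ℝ) ^ n < |ls ζ| → 𝓕 (g : E (m + 1) → ℂ) ζ = 0) →
  ∀ k : Fin (m + 1) ⊕ Bool,
    ∫⁻ w : E m, ∫⁻ t in Icc (0 : ℝ) 2, ∫⁻ x : ℝ,
      (∫⁻ y in Metric.ball w 1, ‖ev k g t y x‖ₑ ^ 2) ^ (p / 2) ≤
    ENNReal.ofReal (C * ((n : ℝ) + 1) ^ A) * ∫⁻ z : E (m + 1), ‖g z‖ₑ ^ p

/-- (ENL) the same with weighted local energies -/
def S_ENL : Prop := ∀ (m : ℕ) (p : ℝ), 0 < m → 2 ≤ p → p ≤ 4 → ∃ (C : ℝ) (A : ℕ), 0 < C ∧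
  ∀ (n : ℕ) (g : 𝓢(E (m + 1), ℂ)), (∀ ζ, (2 : ℝ) ^ n < |ls ζ| → 𝓕 (g : E (m + 1) → ℂ) ζ = 0) →
  ∀ k : Fin (m + 1) ⊕ Bool,
    ∫⁻ t in Icc (0 : ℝ) 2, ∫⁻ x : ℝ, ∫⁻ w : E m, nrg (m + 1) (fun y => ev k g t y x) w ^ (p / 2) ≤
    ENNReal.ofReal (C * ((n : ℝ) + 1) ^ A) * ∫⁻ z : E (m + 1), ‖g z‖ₑ ^ p

/-- (PW) spectrum near a finite `Λ(p)` set in the first `m` variables -/
def S_PW : Prop := ∀ (m : ℕ) (p : ℝ), 0 < m → 2 ≤ p → p ≤ 4 → ∀ K : 𝓢(E m, ℂ),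
  ∃ (C : ℝ) (A : ℕ), 0 < C ∧
  ∀ (n : ℕ) (g : 𝓢(E (m + 1), ℂ)), (∀ ζ, (2 : ℝ) ^ n < |ls ζ| → 𝓕 (g : E (m + 1) → ℂ) ζ = 0) →
  ∀ (S : Finset (Fin m → ℤ)) (a : (Fin m → ℤ) → ℂ) (Λ : ℝ), 0 ≤ Λ → Lam p Λ S a →
  ∀ k : Fin (m + 1) ⊕ Bool,
    ∫⁻ t in Icc (0 : ℝ) 2, ∫⁻ z : E (m + 1),
      ‖inv (fun ζ => psia K S a (hd ζ) * (sym k t ζ * 𝓕 (g : E (m + 1) → ℂ) ζ)) z‖ₑ ^ p ≤
    ENNReal.ofReal (C * ((n : ℝ) + 1) ^ A * Λ ^ p) * ∫⁻ z : E (m + 1), ‖g z‖ₑ ^ p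

end Pool.Agent.K9h96.LS
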