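import Pool.Agent.K9h96.LS.BIL
set_option autoImplicit false

/-! # LS, the vector valued `L⁴` estimate -/

open MeasureTheory Set
open scoped ENNReal

namespace Pool.Agent.K9h96.LS.VV4

open Pool.Agent.TH280.LS
open Pool.Agent.TH73.LS4 (Wt_meas ra_cont)

lemma ft_meas {Ω : Type} [MeasurableSpace Ω] {G : Ω → ℝ → ℂ}
    (hG : Measurable (Function.uncurry G)) : Measurable fun p : Ω × ℝ => ft (G p.1) p.2 := by
  have hc : Measurable (fun p : (Ω × ℝ) × ℝ => e (-(p.2 * p.1.2)) * G p.1.1 p.2) := by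
    have h1 : Measurable fun p : (Ω × ℝ) × ℝ => G p.1.1 p.2 :=
      hG.comp ((measurable_fst.comp measurable_fst).prodMk measurable_snd)
    have h2 : Measurable fun p : (Ω × ℝ) × ℝ => e (-(p.2 * p.1.2)) :=
      measurable_e.comp (by fun_prop)
    exact h2.mul h1
  exact (StronglyMeasurable.integral_prod_right (ν := (volume : Measure ℝ))
    (f := fun (p : Ω × ℝ) (x : ℝ) => e (-(x * p.2)) * G p.1 x) hc.stronglyMeasurable).measurable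

lemma Vx_meas {Ω : Type} [MeasurableSpace Ω] {N : ℝ} {a : Ω → ℝ} {χ G : Ω → ℝ → ℂ}
    (h : Fam N a χ G) :
    Measurable fun p : Ω × (ℝ × ℝ) => Vx (a p.1) (χ p.1) (G p.1) p.2.1 p.2.2 := by
  have hc : Measurable (fun p : (Ω × (ℝ × ℝ)) × ℝ =>
      e (p.1.2.2 * p.2) * (e (p.1.2.1 * ra (a p.1.1) p.2) *
        (χ p.1.1 p.2 * ft (G p.1.1) p.2))) := by
    have h1 : Measurable fun p : (Ω × (ℝ × ℝ)) × ℝ => ft (G p.1.1) p.2 :=
      (ft_meas h.mG).comp (g := fun p : Ω × ℝ => ft (G p.1) p.2)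
        ((measurable_fst.comp measurable_fst).prodMk measurable_snd)
    have h2 : Measurable fun p : (Ω × (ℝ × ℝ)) × ℝ => χ p.1.1 p.2 :=
      h.mχ.comp ((measurable_fst.comp measurable_fst).prodMk measurable_snd)
    have h3 : Measurable fun p : (Ω × (ℝ × ℝ)) × ℝ => a p.1.1 :=
      h.ma.comp (measurable_fst.comp measurable_fst)
    have h4 : Measurable fun p : (Ω × (ℝ × ℝ)) × ℝ => ra (a p.1.1) p.2 := by
      unfold ra
      exact ((measurable_snd.pow_const 2).add (h3.pow_const 2)).sqrt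
    have h5 : Measurable fun p : (Ω × (ℝ × ℝ)) × ℝ => e (p.1.2.1 * ra (a p.1.1) p.2) :=
      measurable_e.comp (((measurable_fst.comp measurable_snd).comp measurable_fst).mul h4)
    have h6 : Measurable fun p : (Ω × (ℝ × ℝ)) × ℝ => e (p.1.2.2 * p.2) :=
      measurable_e.comp (((measurable_snd.comp measurable_snd).comp measurable_fst).mul
        measurable_snd)
    exact h6.mul (h5.mul (h2.mul h1))
  exact (StronglyMeasurable.integral_prod_right (ν := (volume : Measure ℝ))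
    (f := fun (p : Ω × (ℝ × ℝ)) (ξ : ℝ) => e (p.2.2 * ξ) * (e (p.2.1 * ra (a p.1) ξ) *
        (χ p.1 ξ * ft (G p.1) ξ))) hc.stronglyMeasurable).measurable

lemma sq_lint {Ω : Type} [MeasurableSpace Ω] (μ : Measure Ω) (f : Ω → ℝ≥0∞) (hf : Measurable f) :
    (∫⁻ ω, f ω ∂μ) ^ 2 = ∫⁻ ω, ∫⁻ ω', f ω * f ω' ∂μ ∂μ := by
  rw [sq, ← lintegral_mul_const _ hf]
  refine lintegral_congr fun ω => ?_
  rw [lintegral_const_mul _ hf]

lemma amgm (x y : ℝ≥0∞) : x * y ≤ x ^ 2 / 2 + y ^ 2 / 2 := by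
  rcases eq_or_ne x ∞ with rfl | hx
  · simp [ENNReal.top_div]
  rcases eq_or_ne y ∞ with rfl | hy
  · simp [ENNReal.top_div]
  lift x to NNReal using hx
  lift y to NNReal using hy
  have h : x * y ≤ x ^ 2 / 2 + y ^ 2 / 2 := by
    rw [← NNReal.coe_le_coe]
    push_cast
    nlinarith [sq_nonneg ((x : ℝ) - y)]
  have h2 := ENNReal.coe_le_coe.2 h
  rw [ENNReal.coe_add, ENNReal.coe_mul, ENNReal.coe_div (by norm_num),
    ENNReal.coe_div (by norm_num), ENNReal.coe_pow, ENNReal.coe_pow] at h2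
  simpa using h2

lemma conv_sq {S : ℝ → ℝ≥0∞} (hS : Measurable S) (v : ℝ) :
    ∫⁻ z : ℝ, S (z + v / 2) * S (z - v / 2) ≤ ∫⁻ x, S x ^ 2 := by
  have e1 : ∫⁻ z : ℝ, S (z + v / 2) ^ 2 / 2 = (∫⁻ x : ℝ, S x ^ 2) / 2 := by
    rw [lintegral_add_right_eq_self (fun x => S x ^ 2 / 2) (v / 2)]
    simp only [div_eq_mul_inv]
    exact lintegral_mul_const _ (hS.pow_const 2)
  have e2 : ∫⁻ z : ℝ, S (z - v / 2) ^ 2 / 2 = (∫⁻ x : ℝ, S x ^ 2) / 2 := by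
    simp only [sub_eq_add_neg]
    rw [lintegral_add_right_eq_self (fun x => S x ^ 2 / 2) (-(v / 2))]
    simp only [div_eq_mul_inv]
    exact lintegral_mul_const _ (hS.pow_const 2)
  have hm1 : Measurable fun z => S (z + v / 2) ^ 2 / 2 :=
    ((hS.comp (measurable_add_const (v / 2))).pow_const 2).div_const 2
  calc ∫⁻ z : ℝ, S (z + v / 2) * S (z - v / 2) ≤
        ∫⁻ z : ℝ, (S (z + v / 2) ^ 2 / 2 + S (z - v / 2) ^ 2 / 2) :=
        lintegral_mono fun z => amgm _ _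
    _ = (∫⁻ z : ℝ, S (z + v / 2) ^ 2 / 2) + ∫⁻ z : ℝ, S (z - v / 2) ^ 2 / 2 :=
        lintegral_add_left hm1 _
    _ = ∫⁻ x : ℝ, S x ^ 2 := by rw [e1, e2, ENNReal.add_halves]

/-- Tonelli -/
lemma core {Ω : Type} [MeasurableSpace Ω] (μ : Measure Ω) [SFinite μ] (ρ : Measure ℝ) [SFinite ρ]
    (V : Ω → ℝ → ℝ → ℝ≥0∞) (hV : Measurable fun p : Ω × (ℝ × ℝ) => V p.1 p.2.1 p.2.2)
    (g : Ω → ℝ → ℝ≥0∞) (hg : Measurable (Function.uncurry g))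
    (w : ℝ → ℝ≥0∞) (hw : Measurable w) (K L : ℝ≥0∞) (hK : K ≠ ∞)
    (hb : ∀ ω ω', ∫⁻ t, (∫⁻ x : ℝ, V ω t x * V ω' t x) ∂ρ ≤
      K * ∫⁻ v : ℝ, w v * ∫⁻ z : ℝ, g ω (z + v / 2) * g ω' (z - v / 2))
    (hL : ∫⁻ v, w v ≤ L) :
    ∫⁻ t, (∫⁻ x : ℝ, (∫⁻ ω, V ω t x ∂μ) ^ 2) ∂ρ ≤ K * L * ∫⁻ x : ℝ, (∫⁻ ω, g ω x ∂μ) ^ 2 := by
  obtain ⟨S, hS⟩ : ∃ S : ℝ → ℝ≥0∞, S = fun x => ∫⁻ ω, g ω x ∂μ := ⟨_, rfl⟩
  have hSm : Measurable S := by
    rw [hS]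
    exact hg.lintegral_prod_left'
  have hg1 : ∀ x : ℝ, Measurable fun ω => g ω x := fun x =>
    hg.comp (measurable_id.prodMk measurable_const)
  have hV1 : ∀ t x, Measurable fun ω => V ω t x := fun t x =>
    hV.comp (g := fun p : Ω × (ℝ × ℝ) => V p.1 p.2.1 p.2.2) (f := fun ω => (ω, (t, x)))
      (by fun_prop)
  have hm4 : Measurable fun p : (ℝ × ℝ) × (Ω × Ω) => V p.2.1 p.1.1 p.1.2 * V p.2.2 p.1.1 p.1.2 := by
    have h1 : Measurable fun p : (ℝ × ℝ) × (Ω × Ω) => V p.2.1 p.1.1 p.1.2 :=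
      hV.comp (g := fun p : Ω × (ℝ × ℝ) => V p.1 p.2.1 p.2.2)
        (f := fun p : (ℝ × ℝ) × (Ω × Ω) => (p.2.1, p.1)) (by fun_prop)
    have h2 : Measurable fun p : (ℝ × ℝ) × (Ω × Ω) => V p.2.2 p.1.1 p.1.2 :=
      hV.comp (g := fun p : Ω × (ℝ × ℝ) => V p.1 p.2.1 p.2.2)
        (f := fun p : (ℝ × ℝ) × (Ω × Ω) => (p.2.2, p.1)) (by fun_prop)
    exact h1.mul h2
  have hm5 : Measurable fun p : (Ω × Ω) × (ℝ × ℝ) => w p.2.1 *
        (g p.1.1 (p.2.2 + p.2.1 / 2) * g p.1.2 (p.2.2 - p.2.1 / 2)) := by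
    have h1 : Measurable fun p : (Ω × Ω) × (ℝ × ℝ) => g p.1.1 (p.2.2 + p.2.1 / 2) :=
      hg.comp (g := Function.uncurry g)
        (f := fun p : (Ω × Ω) × (ℝ × ℝ) => (p.1.1, p.2.2 + p.2.1 / 2)) (by fun_prop)
    have h2 : Measurable fun p : (Ω × Ω) × (ℝ × ℝ) => g p.1.2 (p.2.2 - p.2.1 / 2) :=
      hg.comp (g := Function.uncurry g)
        (f := fun p : (Ω × Ω) × (ℝ × ℝ) => (p.1.2, p.2.2 - p.2.1 / 2)) (by fun_prop)
    exact (hw.comp (measurable_fst.comp measurable_snd)).mul (h1.mul h2)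
  have hm6 : ∀ ω ω', Measurable fun y : ℝ × ℝ => g ω (y.2 + y.1 / 2) * g ω' (y.2 - y.1 / 2) := by
    intro ω ω'
    have h1 : Measurable fun y : ℝ × ℝ => g ω (y.2 + y.1 / 2) :=
      hg.comp (g := Function.uncurry g) (f := fun y : ℝ × ℝ => (ω, y.2 + y.1 / 2)) (by fun_prop)
    have h2 : Measurable fun y : ℝ × ℝ => g ω' (y.2 - y.1 / 2) :=
      hg.comp (g := Function.uncurry g) (f := fun y : ℝ × ℝ => (ω', y.2 - y.1 / 2)) (by fun_prop)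
    exact h1.mul h2
  have hm7 : Measurable fun y : ℝ × ℝ => S (y.2 + y.1 / 2) * S (y.2 - y.1 / 2) :=
    (hSm.comp (by fun_prop)).mul (hSm.comp (by fun_prop))
  -- the integral over `t`, `x`
  have e1 : ∫⁻ t, (∫⁻ x : ℝ, (∫⁻ ω, V ω t x ∂μ) ^ 2) ∂ρ =
      ∫⁻ q : ℝ × ℝ, (∫⁻ ω, V ω q.1 q.2 ∂μ) ^ 2 ∂(ρ.prod volume) := by
    have h1 : Measurable fun q : ℝ × ℝ => ∫⁻ ω, V ω q.1 q.2 ∂μ := hV.lintegral_prod_left'
    have h2 : Measurable fun q : ℝ × ℝ => (∫⁻ ω, V ω q.1 q.2 ∂μ) ^ 2 := h1.pow_const 2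
    rw [lintegral_prod _ h2.aemeasurable]
  have e2 : ∀ q : ℝ × ℝ, (∫⁻ ω, V ω q.1 q.2 ∂μ) ^ 2 =
      ∫⁻ r : Ω × Ω, V r.1 q.1 q.2 * V r.2 q.1 q.2 ∂(μ.prod μ) := by
    intro q
    rw [sq_lint _ _ (hV1 _ _), lintegral_prod]
    exact (((hV1 _ _).comp measurable_fst).mul ((hV1 _ _).comp measurable_snd)).aemeasurable
  have hb' : ∀ r : Ω × Ω, ∫⁻ q : ℝ × ℝ, V r.1 q.1 q.2 * V r.2 q.1 q.2 ∂(ρ.prod volume) ≤
      K * ∫⁻ v : ℝ, w v * ∫⁻ z : ℝ, g r.1 (z + v / 2) * g r.2 (z - v / 2) := by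
    intro r
    have h3 : Measurable fun q : ℝ × ℝ => V r.1 q.1 q.2 * V r.2 q.1 q.2 :=
      hm4.comp (g := fun p : (ℝ × ℝ) × (Ω × Ω) => V p.2.1 p.1.1 p.1.2 * V p.2.2 p.1.1 p.1.2)
        (f := fun q => (q, r)) (by fun_prop)
    rw [lintegral_prod _ h3.aemeasurable]
    exact hb r.1 r.2
  -- the right side
  have e3 : ∀ r : Ω × Ω, ∫⁻ v : ℝ, w v * ∫⁻ z : ℝ, g r.1 (z + v / 2) * g r.2 (z - v / 2) =
      ∫⁻ y : ℝ × ℝ, w y.1 * (g r.1 (y.2 + y.1 / 2) * g r.2 (y.2 - y.1 / 2)) := by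
    intro r
    have h3 : Measurable fun y : ℝ × ℝ => w y.1 *
        (g r.1 (y.2 + y.1 / 2) * g r.2 (y.2 - y.1 / 2)) :=
      (hw.comp measurable_fst).mul (hm6 r.1 r.2)
    rw [Measure.volume_eq_prod, lintegral_prod _ h3.aemeasurable]
    refine lintegral_congr fun v => ?_
    exact (lintegral_const_mul (w v) ((hm6 r.1 r.2).comp
      (g := fun y : ℝ × ℝ => g r.1 (y.2 + y.1 / 2) * g r.2 (y.2 - y.1 / 2))
      (f := fun z : ℝ => (v, z)) (by fun_prop))).symm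
  have e4 : ∀ y : ℝ × ℝ, ∫⁻ r : Ω × Ω, w y.1 *
        (g r.1 (y.2 + y.1 / 2) * g r.2 (y.2 - y.1 / 2)) ∂(μ.prod μ) =
      w y.1 * (S (y.2 + y.1 / 2) * S (y.2 - y.1 / 2)) := by
    intro y
    have h2 : Measurable fun r : Ω × Ω => g r.1 (y.2 + y.1 / 2) * g r.2 (y.2 - y.1 / 2) :=
      ((hg1 _).comp measurable_fst).mul ((hg1 _).comp measurable_snd)
    rw [lintegral_const_mul _ h2, lintegral_prod _ h2.aemeasurable, hS]
    simp only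
    rw [← lintegral_mul_const _ (hg1 _)]
    congr 1
    refine lintegral_congr fun ω => ?_
    rw [lintegral_const_mul _ (hg1 _)]
  calc ∫⁻ t, (∫⁻ x : ℝ, (∫⁻ ω, V ω t x ∂μ) ^ 2) ∂ρ
      = ∫⁻ q : ℝ × ℝ, ∫⁻ r : Ω × Ω, V r.1 q.1 q.2 * V r.2 q.1 q.2 ∂(μ.prod μ) ∂(ρ.prod volume) := by
        rw [e1]
        exact lintegral_congr e2
    _ = ∫⁻ r : Ω × Ω, ∫⁻ q : ℝ × ℝ, V r.1 q.1 q.2 * V r.2 q.1 q.2 ∂(ρ.prod volume) ∂(μ.prod μ) :=
        lintegral_lintegral_swap hm4.aemeasurable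
    _ ≤ ∫⁻ r : Ω × Ω, (K * ∫⁻ y : ℝ × ℝ, w y.1 *
          (g r.1 (y.2 + y.1 / 2) * g r.2 (y.2 - y.1 / 2))) ∂(μ.prod μ) := by
        refine lintegral_mono fun r => ?_
        simp only
        rw [← e3 r]
        exact hb' r
    _ = K * ∫⁻ r : Ω × Ω, (∫⁻ y : ℝ × ℝ, w y.1 *
          (g r.1 (y.2 + y.1 / 2) * g r.2 (y.2 - y.1 / 2))) ∂(μ.prod μ) :=
        lintegral_const_mul' _ _ hK
    _ = K * ∫⁻ y : ℝ × ℝ, (∫⁻ r : Ω × Ω, w y.1 *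
          (g r.1 (y.2 + y.1 / 2) * g r.2 (y.2 - y.1 / 2)) ∂(μ.prod μ)) := by
        congr 1
        exact lintegral_lintegral_swap (f := fun (r : Ω × Ω) (y : ℝ × ℝ) => w y.1 *
          (g r.1 (y.2 + y.1 / 2) * g r.2 (y.2 - y.1 / 2))) hm5.aemeasurable
    _ = K * ∫⁻ y : ℝ × ℝ, w y.1 * (S (y.2 + y.1 / 2) * S (y.2 - y.1 / 2)) := by
        congr 1
        exact lintegral_congr e4
    _ = K * ∫⁻ v : ℝ, w v * ∫⁻ z : ℝ, S (z + v / 2) * S (z - v / 2) := by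
        congr 1
        have h3 : Measurable fun y : ℝ × ℝ => w y.1 * (S (y.2 + y.1 / 2) * S (y.2 - y.1 / 2)) :=
          (hw.comp measurable_fst).mul hm7
        rw [Measure.volume_eq_prod, lintegral_prod _ h3.aemeasurable]
        refine lintegral_congr fun v => ?_
        exact lintegral_const_mul (w v) (hm7.comp
          (g := fun y : ℝ × ℝ => S (y.2 + y.1 / 2) * S (y.2 - y.1 / 2))
          (f := fun z : ℝ => (v, z)) (by fun_prop))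
    _ ≤ K * ∫⁻ v : ℝ, w v * ∫⁻ x, S x ^ 2 := by
        refine mul_le_mul_right (lintegral_mono fun v => ?_) _
        exact mul_le_mul_right (conv_sq hSm v) _
    _ = K * ((∫⁻ v : ℝ, w v) * ∫⁻ x, S x ^ 2) := by
        congr 1
        exact lintegral_mul_const _ hw
    _ ≤ K * (L * ∫⁻ x, S x ^ 2) := mul_le_mul_right (mul_le_mul_left hL _) _
    _ = K * L * ∫⁻ x : ℝ, (∫⁻ ω, g ω x ∂μ) ^ 2 := by rw [mul_assoc, hS]

theorem t_of : S_BIL → S_W → S_VV4 := by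
  rintro ⟨C1, hC1, hB⟩ ⟨C2, hC2, hW⟩
  refine ⟨C1 * C2, by positivity, fun Ω _ μ hμ N a χ G hN hF => ?_⟩
  have hlog : 0 ≤ Real.log N := Real.log_nonneg hN
  have hG2 : Measurable (Function.uncurry fun (ω : Ω) (x : ℝ) => ‖G ω x‖ₑ ^ 2) :=
    (hF.mG.enorm).pow_const 2
  have hfm : Measurable fun p : Ω × (ℝ × ℝ) =>
      ‖Vx (a p.1) (χ p.1) (G p.1) p.2.1 p.2.2‖ₑ ^ 2 := (Vx_meas hF).enorm.pow_const 2
  have hWm : Measurable (fun v => (ENNReal.ofReal (Wt N v))⁻¹) :=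
    ((Wt_meas N).ennreal_ofReal).inv
  have h := core μ (volume.restrict (Icc (-2 : ℝ) 2))
    (fun ω t x => ‖Vx (a ω) (χ ω) (G ω) t x‖ₑ ^ 2) hfm (fun ω x => ‖G ω x‖ₑ ^ 2) hG2
    (fun v => (ENNReal.ofReal (Wt N v))⁻¹) hWm
    (ENNReal.ofReal (C1 * (1 + Real.log N))) (ENNReal.ofReal (C2 * (1 + Real.log N)))
    ENNReal.ofReal_ne_top (fun ω ω' => hB N (a ω) (a ω') (χ ω) (χ ω') (G ω) (G ω') hN
      (hF.pos _) (hF.pos _) (hF.cut _) (hF.cut _) (hF.iG _) (hF.iG _)) (hW N hN).1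
  refine h.trans (le_of_eq ?_)
  rw [← ENNReal.ofReal_mul (by positivity)]
  congr 2
  ring

theorem t : S_VV4 := t_of BIL.t Pool.Agent.TH889.W.w_thm


end Pool.Agent.K9h96.LS.VV4
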